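import Mathlib

/-!
# Project EP : elements of the Selberg class of every large real degree

Definitions.  (helper97, MP_e68f0a_nt)

Notation: `d > 4` the degree, `w = d/2`, `κ = 2/d = 1/w`, `Q` large, `u_n = (n/Q)^κ`.
Test functions: real combinations of `p_t(u) = e^{-tu} - t^{-w} e^{-u/t}`, `t > 0`.
-/

set_option autoImplicit false
open MeasureTheory Set
open scoped ENNReal

namespace Pool.Agent.H97.EP

/-- Every interval `(x, x+y]`, `x ≥ x0`, `x^θ ≤ y ≤ x`, contains at least `c y / log x` primes. -/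
def PrimesIn (θ : ℝ) : Prop := ∃ c x0 : ℝ, 0 < c ∧ ∀ x : ℝ, x0 ≤ x → ∀ y : ℝ, x ^ θ ≤ y → y ≤ x →
  c * (y / Real.log x) ≤ (((Finset.Ioc ⌊x⌋₊ ⌊x + y⌋₊).filter Nat.Prime).card : ℝ)

/-- Finitely supported real families indexed by the positive reals. -/
abbrev VR : Type := {t : ℝ // 0 < t} →₀ ℝ

/-- The test function `∑ c_t (e^{-tu} - t^{-w} e^{-u/t})`. -/
noncomputable def pr (w : ℝ) (f : VR) (u : ℝ) : ℝ :=
  f.sum fun t c => c * (Real.exp (-(t.1 * u)) - t.1 ^ (-w) * Real.exp (-(u / t.1)))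

/-- The derivative of order `s` (with sign): `∑ c_t (t^s e^{-tu} - t^{-w-s} e^{-u/t})`. -/
noncomputable def dr (w s : ℝ) (f : VR) (u : ℝ) : ℝ :=
  f.sum fun t c => c * (t.1 ^ s * Real.exp (-(t.1 * u)) -
    t.1 ^ (-w - s) * Real.exp (-(u / t.1)))

/-- The weighted square integral `∫_0^∞ u^e g(u)^2 du`. -/
noncomputable def MM (e : ℝ) (g : ℝ → ℝ) : ℝ≥0∞ :=
  ∫⁻ u in Ioi (0 : ℝ), ENNReal.ofReal (u ^ e * g u ^ 2)

/-- The node `(n/Q)^{2/d}`. -/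
noncomputable def nd (d Q : ℝ) (n : ℕ) : ℝ := ((n : ℝ) / Q) ^ (2 / d)

/-- The exponents `δ_i = 2^{-i}/4`. -/
noncomputable def dl (i : ℕ) : ℝ := (1 / 2 : ℝ) ^ i / 4

/-- The norm `∑_i 4^{-i} u_1^{δ_i} ∫ u^{d/2-δ_i} g(u)^2 du`, `u_1 = Q^{-2/d}`; its weight at `u_n`
is `≍ (n/Q) (1 + log n)^{-2}`. -/
noncomputable def NQ (d Q : ℝ) (g : ℝ → ℝ) : ℝ≥0∞ :=
  ∑' i : ℕ, ENNReal.ofReal ((1 / 4 : ℝ) ^ i * (Q ^ (-(2 / d))) ^ dl i) * MM (d / 2 - dl i) g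

/-- The length of the `n`-interval of the cell `j h ≤ u_n < (j+1) h`. -/
noncomputable def cl (d Q h : ℝ) (j : ℕ) : ℝ := Q * (((j + 1 : ℝ) * h) ^ (d / 2) - ((j : ℝ) * h) ^ (d / 2))

/-- The multiplicative function supported on squarefree integers with values `α p` at primes. -/
noncomputable def aa (α : ℕ → ℝ) (n : ℕ) : ℝ :=
  if Squarefree n then ∏ p ∈ n.primeFactors, α p else 0

end Pool.Agent.H97.EP
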