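import Pool.Agent.H97.EP.AId

/-!
# Project EP, module `AFin` : the norm `NQ` is finite

`dl i = 2^{-i}/4` lies in `(0, 1/4]`, so for `u > 0`: `u^{w - dl i} ≤ u^w + u^{w-1/4}` (`u ≥ 1` or `u ≤ 1`), hence
`MM (w - dl i) g ≤ MM w g + MM (w-1/4) g`; and `(Q^{-κ})^{dl i} ≤ 1 + Q^{-κ}`.  So
`NQ ≤ ∑ 4^{-i} (1+Q^{-κ}) (MM w + MM (w-1/4)) < ∞` (`w = d/2 > 2`).
-/

set_option autoImplicit false
open MeasureTheory Set
open scoped ENNReal

namespace Pool.Agent.H97.EP

theorem dl_pos (i : ℕ) : 0 < dl i := by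
  unfold dl
  positivity

theorem dl_le (i : ℕ) : dl i ≤ 1 / 4 := by
  unfold dl
  have : (1 / 2 : ℝ) ^ i ≤ 1 := pow_le_one₀ (by norm_num) (by norm_num)
  linarith

private theorem afin_MM {w : ℝ} (i : ℕ) (g : ℝ → ℝ) (hg : Measurable g) :
    MM (w - dl i) g ≤ MM w g + MM (w - 1 / 4) g := by
  unfold MM
  rw [← lintegral_add_left]
  · refine setLIntegral_mono' measurableSet_Ioi fun u hu => ?_
    have hu0 : (0 : ℝ) < u := hu
    have h1 := Real.rpow_pos_of_pos hu0 w
    have h2 := Real.rpow_pos_of_pos hu0 (w - 1 / 4)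
    rw [← ENNReal.ofReal_add (by positivity) (by positivity), ← add_mul]
    apply ENNReal.ofReal_le_ofReal
    apply mul_le_mul_of_nonneg_right _ (sq_nonneg _)
    rcases le_total 1 u with h | h
    · have := Real.rpow_le_rpow_of_exponent_le h (show w - dl i ≤ w by linarith [dl_pos i])
      linarith
    · have := Real.rpow_le_rpow_of_exponent_ge hu0 h (show w - 1 / 4 ≤ w - dl i by
        linarith [dl_le i])
      linarith
  · have : Measurable fun u : ℝ => u ^ w * g u ^ 2 := by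
      exact (measurable_id.pow_const w).mul (hg.pow_const 2)
    exact this.ennreal_ofReal

theorem NQ_lt_top {d Q : ℝ} (hd : 4 < d) (hQ : 0 < Q) (f : VR) :
    NQ d Q (pr (d / 2) f) < ⊤ := by
  unfold NQ
  set x : ℝ := Q ^ (-(2 / d)) with hx
  have hx0 : 0 < x := Real.rpow_pos_of_pos hQ _
  set M : ℝ≥0∞ := MM (d / 2) (pr (d / 2) f) + MM (d / 2 - 1 / 4) (pr (d / 2) f) with hM
  have hMtop : M < ⊤ := ENNReal.add_lt_top.mpr
    ⟨MM_lt_top (by linarith) f, MM_lt_top (by linarith) f⟩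
  have hb : ∀ i : ℕ, ENNReal.ofReal ((1 / 4 : ℝ) ^ i * x ^ dl i) * MM (d / 2 - dl i) (pr (d / 2) f)
      ≤ ENNReal.ofReal ((1 / 4 : ℝ) ^ i * (1 + x)) * M := by
    intro i
    apply mul_le_mul'
    · apply ENNReal.ofReal_le_ofReal
      apply mul_le_mul_of_nonneg_left _ (by positivity)
      rcases le_total 1 x with h | h
      · have := Real.rpow_le_rpow_of_exponent_le h (show dl i ≤ 1 by linarith [dl_le i])
        rw [Real.rpow_one] at this
        linarith
      · have := Real.rpow_le_one hx0.le h (dl_pos i).le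
        linarith
    · exact afin_MM i _ (pr_cont _ f).measurable
  refine lt_of_le_of_lt (ENNReal.tsum_le_tsum hb) ?_
  rw [ENNReal.tsum_mul_right]
  apply ENNReal.mul_lt_top _ hMtop
  have hs : Summable fun i : ℕ => (1 / 4 : ℝ) ^ i * (1 + x) :=
    (summable_geometric_of_lt_one (by norm_num) (by norm_num)).mul_right _
  rw [← ENNReal.ofReal_tsum_of_nonneg (fun i => by positivity) hs]
  exact ENNReal.ofReal_lt_top

end Pool.Agent.H97.EP
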