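import Pool.Agent.H97.EP.ADefs

/-!
# Project EP, module `ANod` : cells of the nodes, primes in the cells

`w = d/2 > 2`, `κ = 2/d = 1/w`, `nd d Q n = (n/Q)^κ`; `y ≤ nd d Q n ↔ Q y^w ≤ n` and `nd d Q n < y ↔ n < Q y^w` for
`y ≥ 0` (see `nodes_lt`, `nodes_le` in `H97/SD/Nodes.lean`).  `cl d Q h j = Q((j+1)h)^w - Q(jh)^w`.
`cell_up`: `n ≥ X = Q(jh)^w` gives `n^{κ-1} ≤ X^{κ-1} = Q^{κ-1} (jh)^{1-w}`; and
`cl ≤ Q w h ((j+1)h)^{w-1} ≤ Q w h 2^{w-1} (jh)^{w-1}` (mean value theorem, `j+1 ≤ 2j`).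
`nodes`: `X = Q(jh)^w ≥ Q h^w`, `Y = cl/2^w`.  `cl ≤ (2^w - 1) X`, so `Y ≤ X`; Bernoulli `(1+1/j)^w ≥ 1 + w/j` gives
`cl ≥ w X/j ≥ w h X/(jh) = w h Q^κ X^{1-κ}`, so `Y ≥ X^{1-κ} ≥ X^θ` as soon as `w h Q^κ ≥ 2^w` and `X ≥ 1`.
The primes `p` in `Ioc ⌊X⌋₊ ⌊X+Y⌋₊` satisfy `X < p ≤ X + Y < X + cl` (`2^w ≥ 4`), so they lie in the cell `j`;
there are at least `c Y/log X > 0` of them; and `log X ≤ log p`, `p ≤ 2^w X`, so
`card · log p ≥ c Y = c cl/2^w ≥ c w h Q^κ X^{1-κ}/2^w ≥ c w h Q^κ p^{1-κ}/2^{2w}`.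
-/

set_option autoImplicit false
open MeasureTheory Set
open scoped ENNReal

namespace Pool.Agent.H97.EP

theorem nd_lt {d Q : ℝ} (hd : 4 < d) (hQ : 0 < Q) {y : ℝ} (hy : 0 ≤ y) (n : ℕ) :
    nd d Q n < y ↔ (n : ℝ) < Q * y ^ (d / 2) := by
  unfold nd
  have e : 2 / d = (d / 2)⁻¹ := by rw [inv_div]
  rw [e, Real.rpow_inv_lt_iff_of_pos (by positivity) hy (by linarith), div_lt_iff₀ hQ, mul_comm]

theorem le_nd {d Q : ℝ} (hd : 4 < d) (hQ : 0 < Q) {y : ℝ} (hy : 0 ≤ y) (n : ℕ) :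
    y ≤ nd d Q n ↔ Q * y ^ (d / 2) ≤ (n : ℝ) := by
  unfold nd
  have e : 2 / d = (d / 2)⁻¹ := by rw [inv_div]
  rw [e, Real.le_rpow_inv_iff_of_pos hy (by positivity) (by linarith), le_div_iff₀ hQ, mul_comm]

private theorem anod_upper {w a h : ℝ} (hw : 1 ≤ w) (ha : 0 < a) (hh : 0 < h) :
    (a + h) ^ w - a ^ w ≤ w * h * (a + h) ^ (w - 1) := by
  have hb : 0 < a + h := by linarith
  have h1 := one_add_mul_self_le_rpow_one_add (s := -(h / (a + h))) (p := w) (by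
    have : h / (a + h) ≤ 1 := by rw [div_le_one hb]; linarith
    linarith) hw
  have e1 : 1 + -(h / (a + h)) = a / (a + h) := by field_simp; ring
  rw [e1, Real.div_rpow ha.le hb.le] at h1
  have hbw : 0 < (a + h) ^ w := Real.rpow_pos_of_pos hb w
  rw [le_div_iff₀ hbw] at h1
  have e2 : (a + h) ^ w = (a + h) ^ (w - 1) * (a + h) := by
    rw [← Real.rpow_add_one hb.ne']
    congr 1
    ring
  have e3 : (1 + w * -(h / (a + h))) * (a + h) ^ w = (a + h) ^ w - w * h * (a + h) ^ (w - 1) := by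
    rw [e2]
    field_simp
    ring
  rw [e3] at h1
  linarith

private theorem anod_lower {w a h : ℝ} (hw : 1 ≤ w) (ha : 0 < a) (hh : 0 < h) :
    w * h * a ^ (w - 1) ≤ (a + h) ^ w - a ^ w := by
  have hb : 0 < a + h := by linarith
  have h0 : 0 ≤ h / a := by positivity
  have h1 := one_add_mul_self_le_rpow_one_add (s := h / a) (p := w) (by linarith) hw
  have e1 : 1 + h / a = (a + h) / a := by field_simp
  rw [e1, Real.div_rpow hb.le ha.le] at h1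
  have haw : 0 < a ^ w := Real.rpow_pos_of_pos ha w
  rw [le_div_iff₀ haw] at h1
  have e2 : a ^ w = a ^ (w - 1) * a := by
    rw [← Real.rpow_add_one ha.ne']
    congr 1
    ring
  have e3 : (1 + w * (h / a)) * a ^ w = a ^ w + w * h * a ^ (w - 1) := by
    rw [e2]
    field_simp
  rw [e3] at h1
  linarith

private theorem anod_pow {d Q a : ℝ} (_hd : 4 < d) (hQ : 0 < Q) (ha : 0 < a) (r : ℝ) :
    (Q * a ^ (d / 2)) ^ r = Q ^ r * a ^ (d / 2 * r) := by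
  rw [Real.mul_rpow hQ.le (by positivity), ← Real.rpow_mul ha.le]

private theorem anod_cl (d Q h : ℝ) (j : ℕ) :
    cl d Q h j = Q * (((j : ℝ) * h + h) ^ (d / 2) - ((j : ℝ) * h) ^ (d / 2)) := by
  unfold cl
  rw [add_mul, one_mul]

theorem cell_up {d Q h : ℝ} (hd : 4 < d) (hQ : 0 < Q) (hh : 0 < h) {j n : ℕ} (hj : 1 ≤ j)
    (hn : (j : ℝ) * h ≤ nd d Q n) :
    (n : ℝ) ^ (2 / d - 1) * cl d Q h j ≤ d / 2 * 2 ^ (d / 2 - 1) * h * Q ^ (2 / d) := by
  have hj1 : (1 : ℝ) ≤ j := by exact_mod_cast hj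
  rw [anod_cl]
  set a := (j : ℝ) * h with ha
  have ha0 : 0 < a := by positivity
  have hha : h ≤ a := by rw [ha]; nlinarith
  rw [le_nd hd hQ ha0.le] at hn
  have hX0 : 0 < Q * a ^ (d / 2) := by positivity
  have hk : 2 / d - 1 ≤ 0 := by
    have : 2 / d ≤ 1 := by rw [div_le_one (by linarith)]; linarith
    linarith
  have h1 : (n : ℝ) ^ (2 / d - 1) ≤ (Q * a ^ (d / 2)) ^ (2 / d - 1) :=
    Real.rpow_le_rpow_of_nonpos hX0 hn hk
  have e1 : d / 2 * (2 / d - 1) = 1 - d / 2 := by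
    field_simp
  rw [anod_pow hd hQ ha0, e1] at h1
  have h2 : (a + h) ^ (d / 2) - a ^ (d / 2) ≤ d / 2 * h * (2 ^ (d / 2 - 1) * a ^ (d / 2 - 1)) := by
    refine (anod_upper (by linarith) ha0 hh).trans ?_
    apply mul_le_mul_of_nonneg_left _ (by positivity)
    rw [← Real.mul_rpow (by norm_num) ha0.le]
    exact Real.rpow_le_rpow (by linarith) (by linarith) (by linarith)
  have h3 : 0 ≤ (a + h) ^ (d / 2) - a ^ (d / 2) := by
    have := Real.rpow_le_rpow ha0.le (show a ≤ a + h by linarith) (show 0 ≤ d / 2 by linarith)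
    linarith
  have e2 : Q ^ (2 / d - 1) * Q = Q ^ (2 / d) := by
    rw [← Real.rpow_add_one hQ.ne']
    congr 1
    ring
  have e3 : a ^ (1 - d / 2) * a ^ (d / 2 - 1) = 1 := by
    rw [← Real.rpow_add ha0]
    have : 1 - d / 2 + (d / 2 - 1) = 0 := by ring
    rw [this, Real.rpow_zero]
  calc (n : ℝ) ^ (2 / d - 1) * (Q * ((a + h) ^ (d / 2) - a ^ (d / 2)))
      ≤ (Q ^ (2 / d - 1) * a ^ (1 - d / 2)) *
        (Q * (d / 2 * h * (2 ^ (d / 2 - 1) * a ^ (d / 2 - 1)))) := by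
        apply mul_le_mul h1 _ (by positivity) (by positivity)
        exact mul_le_mul_of_nonneg_left h2 hQ.le
    _ = d / 2 * 2 ^ (d / 2 - 1) * h * (Q ^ (2 / d - 1) * Q) * (a ^ (1 - d / 2) * a ^ (d / 2 - 1)) := by
        ring
    _ = _ := by rw [e2, e3, mul_one]

theorem nodes {d θ h : ℝ} (hd : 4 < d) (hP : PrimesIn θ) (hθ : θ ≤ 1 - 2 / d) (hh : 0 < h) :
    ∃ Q0 c : ℝ, 1 ≤ Q0 ∧ 0 < c ∧ ∀ Q : ℝ, Q0 ≤ Q → ∀ j : ℕ, 1 ≤ j → ∃ S : Finset ℕ, S.Nonempty ∧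
      ∀ p ∈ S, p.Prime ∧ (j : ℝ) * h ≤ nd d Q p ∧ nd d Q p < ((j : ℝ) + 1) * h ∧
        c * (Q ^ (2 / d) * (p : ℝ) ^ (1 - 2 / d)) ≤ S.card * Real.log p := by
  obtain ⟨c0, x0, hc0, hPI⟩ := hP
  have hd0 : 0 < d := by linarith
  have hhw : 0 < h ^ (d / 2) := by positivity
  have h2w : (1 : ℝ) < 2 ^ (d / 2) := Real.one_lt_rpow (by norm_num) (by linarith)
  set q1 : ℝ := max x0 3 / h ^ (d / 2) with hq1
  set q2 : ℝ := (2 ^ (d / 2) / (d / 2 * h)) ^ (d / 2) with hq2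
  have hq2pos : 0 < q2 := by positivity
  refine ⟨max 1 (max q1 q2), c0 * (d / 2 * h) / (2 ^ (d / 2) * 2 ^ (d / 2)), le_max_left _ _,
    by positivity, fun Q hQ j hj => ?_⟩
  have hQ1 : 1 ≤ Q := (le_max_left _ _).trans hQ
  have hQ0 : 0 < Q := by linarith
  have hQq1 : q1 ≤ Q := ((le_max_left _ _).trans (le_max_right _ _)).trans hQ
  have hQq2 : q2 ≤ Q := ((le_max_right _ _).trans (le_max_right _ _)).trans hQ
  have hj1 : (1 : ℝ) ≤ j := by exact_mod_cast hj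
  set a := (j : ℝ) * h with ha
  have ha0 : 0 < a := by positivity
  have hha : h ≤ a := by rw [ha]; nlinarith
  set X : ℝ := Q * a ^ (d / 2) with hX
  set W : ℝ := Q * ((a + h) ^ (d / 2) - a ^ (d / 2)) with hW
  -- X is large
  have hXbig : max x0 3 ≤ X := by
    rw [hq1, div_le_iff₀ hhw] at hQq1
    refine hQq1.trans ?_
    exact mul_le_mul_of_nonneg_left (Real.rpow_le_rpow hh.le hha (by linarith)) hQ0.le
  have hXx0 : x0 ≤ X := (le_max_left _ _).trans hXbig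
  have hX3 : 3 ≤ X := (le_max_right _ _).trans hXbig
  have hX0 : 0 < X := by linarith
  have hQk : 2 ^ (d / 2) ≤ d / 2 * h * Q ^ (2 / d) := by
    have h1 := Real.rpow_le_rpow hq2pos.le hQq2 (show 0 ≤ 2 / d by positivity)
    rw [hq2, ← Real.rpow_mul (by positivity)] at h1
    have e : d / 2 * (2 / d) = 1 := by field_simp
    rw [e, Real.rpow_one, div_le_iff₀ (by positivity)] at h1
    linarith
  -- lower bound for W
  have hk0 : 0 ≤ 1 - 2 / d := by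
    have : 2 / d ≤ 1 := by rw [div_le_one hd0]; linarith
    linarith
  have hWlow : d / 2 * h * Q ^ (2 / d) * X ^ (1 - 2 / d) ≤ W := by
    have h1 := anod_lower (w := d / 2) (by linarith) ha0 hh
    have e1 : d / 2 * (1 - 2 / d) = d / 2 - 1 := by field_simp
    have e2 : Q ^ (2 / d) * Q ^ (1 - 2 / d) = Q := by
      rw [← Real.rpow_add hQ0, show 2 / d + (1 - 2 / d) = 1 by ring, Real.rpow_one]
    rw [hX, anod_pow hd hQ0 ha0, e1]
    calc d / 2 * h * Q ^ (2 / d) * (Q ^ (1 - 2 / d) * a ^ (d / 2 - 1))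
        = (Q ^ (2 / d) * Q ^ (1 - 2 / d)) * (d / 2 * h * a ^ (d / 2 - 1)) := by ring
      _ = Q * (d / 2 * h * a ^ (d / 2 - 1)) := by rw [e2]
      _ ≤ W := mul_le_mul_of_nonneg_left h1 hQ0.le
  have hW2 : W + X ≤ 2 ^ (d / 2) * X := by
    have h1 : (a + h) ^ (d / 2) ≤ (2 * a) ^ (d / 2) :=
      Real.rpow_le_rpow (by linarith) (by linarith) (by linarith)
    rw [Real.mul_rpow (by norm_num) ha0.le] at h1
    have h2 := mul_le_mul_of_nonneg_left h1 hQ0.le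
    have e : W + X = Q * (a + h) ^ (d / 2) := by rw [hW, hX]; ring
    rw [e, hX]
    linarith
  have hXk : 0 < X ^ (1 - 2 / d) := Real.rpow_pos_of_pos hX0 _
  have hWpos : 0 < W := lt_of_lt_of_le (by positivity) hWlow
  set Y : ℝ := W / 2 ^ (d / 2) with hY
  have h2w0 : (0 : ℝ) < 2 ^ (d / 2) := by positivity
  have hYpos : 0 < Y := by positivity
  have hYX : Y ≤ X := by
    rw [hY, div_le_iff₀ h2w0]
    linarith
  have hYW : Y < W := by
    rw [hY, div_lt_iff₀ h2w0]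
    nlinarith
  have hYlow : X ^ θ ≤ Y := by
    have h1 : X ^ θ ≤ X ^ (1 - 2 / d) := Real.rpow_le_rpow_of_exponent_le (by linarith) hθ
    rw [hY, le_div_iff₀ h2w0]
    calc X ^ θ * 2 ^ (d / 2) ≤ X ^ (1 - 2 / d) * (d / 2 * h * Q ^ (2 / d)) :=
          mul_le_mul h1 hQk h2w0.le hXk.le
      _ = d / 2 * h * Q ^ (2 / d) * X ^ (1 - 2 / d) := by ring
      _ ≤ W := hWlow
  have hcard := hPI X hXx0 Y hYlow hYX
  have hlogX : 0 < Real.log X := Real.log_pos (by linarith)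
  refine ⟨(Finset.Ioc ⌊X⌋₊ ⌊X + Y⌋₊).filter Nat.Prime, ?_, ?_⟩
  · rw [← Finset.card_pos]
    have : (0 : ℝ) < (((Finset.Ioc ⌊X⌋₊ ⌊X + Y⌋₊).filter Nat.Prime).card : ℝ) :=
      lt_of_lt_of_le (by positivity) hcard
    exact_mod_cast this
  · intro p hp
    rw [Finset.mem_filter, Finset.mem_Ioc] at hp
    obtain ⟨⟨hp1, hp2⟩, hpp⟩ := hp
    have hp1' : X < p := Nat.lt_of_floor_lt hp1
    have hp2' : (p : ℝ) ≤ X + Y := by
      rwa [Nat.le_floor_iff (by linarith)] at hp2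
    have hp0 : (0 : ℝ) < p := by linarith
    refine ⟨hpp, ?_, ?_, ?_⟩
    · rw [le_nd hd hQ0 ha0.le]
      exact hp1'.le
    · have e : ((j : ℝ) + 1) * h = a + h := by rw [ha]; ring
      rw [e, nd_lt hd hQ0 (by linarith)]
      have : Q * (a + h) ^ (d / 2) = X + W := by rw [hW, hX]; ring
      rw [this]
      linarith
    · have hlogp : Real.log X ≤ Real.log p := Real.log_le_log hX0 hp1'.le
      have hc1 : c0 * Y ≤ (((Finset.Ioc ⌊X⌋₊ ⌊X + Y⌋₊).filter Nat.Prime).card : ℝ)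
          * Real.log p := by
        calc c0 * Y = c0 * (Y / Real.log X) * Real.log X := by field_simp
          _ ≤ (((Finset.Ioc ⌊X⌋₊ ⌊X + Y⌋₊).filter Nat.Prime).card : ℝ) * Real.log p :=
            mul_le_mul hcard hlogp hlogX.le (Nat.cast_nonneg _)
      refine le_trans ?_ hc1
      have hpX : (p : ℝ) ≤ 2 ^ (d / 2) * X := by linarith
      have hpk : (p : ℝ) ^ (1 - 2 / d) ≤ 2 ^ (d / 2) * X ^ (1 - 2 / d) := by
        have h1 : (p : ℝ) ^ (1 - 2 / d) ≤ (2 ^ (d / 2) * X) ^ (1 - 2 / d) :=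
          Real.rpow_le_rpow hp0.le hpX hk0
        rw [Real.mul_rpow h2w0.le hX0.le] at h1
        have h2 : ((2 : ℝ) ^ (d / 2)) ^ (1 - 2 / d) ≤ 2 ^ (d / 2) := by
          have h3 := Real.rpow_le_rpow_of_exponent_le h2w.le (show 1 - 2 / d ≤ 1 by
            have : 0 ≤ 2 / d := by positivity
            linarith)
          rwa [Real.rpow_one] at h3
        exact h1.trans (mul_le_mul_of_nonneg_right h2 hXk.le)
      calc c0 * (d / 2 * h) / (2 ^ (d / 2) * 2 ^ (d / 2)) * (Q ^ (2 / d) * (p : ℝ) ^ (1 - 2 / d))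
          ≤ c0 * (d / 2 * h) / (2 ^ (d / 2) * 2 ^ (d / 2))
            * (Q ^ (2 / d) * (2 ^ (d / 2) * X ^ (1 - 2 / d))) := by
            apply mul_le_mul_of_nonneg_left _ (by positivity)
            exact mul_le_mul_of_nonneg_left hpk (by positivity)
        _ = c0 * ((d / 2 * h * Q ^ (2 / d) * X ^ (1 - 2 / d)) / 2 ^ (d / 2)) := by
            field_simp
        _ ≤ c0 * Y := by
            apply mul_le_mul_of_nonneg_left _ hc0.le
            rw [hY]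
            exact div_le_div_of_nonneg_right hWlow h2w0.le

end Pool.Agent.H97.EP
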