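import Pool.Agent.H97.EP.ADefs

/-!
# Project EP, module `APs` : the weight `ps d x = ∑_i 4^{-i} x^{-κ δ_i}`

`x^{-κ δ_i} = exp(-2^{-i} y)`, `y = (2/d) (log x)/4 ≥ 0` for `x ≥ 1`.
Lower bound: take `i` with `max(1,y) ≤ 2^i ≤ 2 max(1,y)`; this term is `≥ 4^{-i} e^{-1} ≥ e^{-1}/(4 max(1,y)²)`.
Upper bound: for `y > 0`, `4^{-i} e^{-2^{-i}y} = y^{-2} φ(2^{-i}y)`, `φ(t) = t² e^{-t} ≤ min(t², 6/t)`; the terms with
`2^{-i}y ≤ 1` sum to at most `4/3`, those with `2^{-i} y > 1` to at most `12`; for `y ≤ 1` use `∑ 4^{-i} = 4/3`.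
(Any constants will do.)  `1 + log x` and `1 + y` are comparable with constants depending on `d`.
-/

set_option autoImplicit false
open MeasureTheory Set
open scoped ENNReal

namespace Pool.Agent.H97.EP

private theorem aps_term {d x : ℝ} (hd : 0 < d) (hx : 1 ≤ x) (i : ℕ) :
    (1 / 4 : ℝ) ^ i * x ^ (-(2 / d * dl i))
      = (1 / 4 : ℝ) ^ i * Real.exp (-((1 / 2 : ℝ) ^ i * (Real.log x / (2 * d)))) := by
  congr 1
  rw [Real.rpow_def_of_pos (by linarith)]
  congr 1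
  unfold dl
  field_simp
  ring

private theorem aps_bd {d x : ℝ} (hd : 0 < d) (hx : 1 ≤ x) (i : ℕ) :
    (1 / 4 : ℝ) ^ i * x ^ (-(2 / d * dl i)) ≤ (1 / 4 : ℝ) ^ i := by
  have h : x ^ (-(2 / d * dl i)) ≤ 1 := by
    apply Real.rpow_le_one_of_one_le_of_nonpos hx
    have : 0 ≤ 2 / d * dl i := by unfold dl; positivity
    linarith
  have h4 : (0 : ℝ) ≤ (1 / 4 : ℝ) ^ i := by positivity
  nlinarith

theorem ps_summable {d x : ℝ} (hd : 0 < d) (hx : 1 ≤ x) :
    Summable fun i : ℕ => (1 / 4 : ℝ) ^ i * x ^ (-(2 / d * dl i)) := by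
  refine Summable.of_nonneg_of_le (fun i => ?_) (fun i => aps_bd hd hx i)
    (summable_geometric_of_lt_one (by norm_num) (by norm_num))
  have : 0 ≤ x ^ (-(2 / d * dl i)) := Real.rpow_nonneg (by linarith) _
  positivity

private theorem aps_rpow {a : ℝ} (ha : 0 < a) : a ^ (-2 : ℝ) = 1 / a ^ 2 := by
  rw [Real.rpow_neg ha.le, Real.rpow_two, one_div]

theorem ps_lower {d : ℝ} (hd : 0 < d) :
    ∃ c : ℝ, 0 < c ∧ ∀ x : ℝ, 1 ≤ x → c * (1 + Real.log x) ^ (-2 : ℝ) ≤ ps d x := by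
  refine ⟨Real.exp (-1) / (4 * (1 + 1 / (2 * d)) ^ 2), by positivity, fun x hx => ?_⟩
  have hlog : 0 ≤ Real.log x := Real.log_nonneg hx
  set y := Real.log x / (2 * d) with hy
  have hy0 : 0 ≤ y := by positivity
  obtain ⟨n, hn1, hn2⟩ := exists_nat_pow_near (show (1 : ℝ) ≤ 1 + y by linarith)
    (show (1 : ℝ) < 2 by norm_num)
  have hterm : (1 / 4 : ℝ) ^ (n + 1) * x ^ (-(2 / d * dl (n + 1))) ≤ ps d x := by
    unfold ps
    exact (ps_summable hd hx).le_tsum (n + 1) (fun j _ => by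
      have : 0 ≤ x ^ (-(2 / d * dl j)) := Real.rpow_nonneg (by linarith) _
      positivity)
  refine le_trans ?_ hterm
  rw [aps_term hd hx, aps_rpow (by linarith)]
  have h2n : (0 : ℝ) < 2 ^ (n + 1) := by positivity
  have hexp : Real.exp (-1) ≤ Real.exp (-((1 / 2 : ℝ) ^ (n + 1) * y)) := by
    apply Real.exp_le_exp.mpr
    have : (1 / 2 : ℝ) ^ (n + 1) * y ≤ 1 := by
      rw [one_div, inv_pow, inv_mul_le_iff₀ h2n]
      linarith
    linarith
  have hc1 : 1 + y ≤ (1 + 1 / (2 * d)) * (1 + Real.log x) := by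
    have e : (1 + 1 / (2 * d)) * (1 + Real.log x) = 1 + y + Real.log x + 1 / (2 * d) := by
      rw [hy]
      field_simp
      ring
    rw [e]
    have : 0 ≤ 1 / (2 * d) := by positivity
    linarith
  have h4 : 1 / (4 * ((1 + 1 / (2 * d)) * (1 + Real.log x)) ^ 2) ≤ (1 / 4 : ℝ) ^ (n + 1) := by
    rw [one_div_pow]
    apply one_div_le_one_div_of_le (by positivity)
    have e : (4 : ℝ) ^ (n + 1) = 4 * (2 ^ n) ^ 2 := by
      rw [pow_succ, show (4 : ℝ) = 2 ^ 2 by norm_num, ← pow_mul, ← pow_mul]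
      ring
    rw [e]
    have : (2 : ℝ) ^ n ≤ (1 + 1 / (2 * d)) * (1 + Real.log x) := hn1.trans hc1
    have h := pow_le_pow_left₀ (by positivity) this 2
    linarith
  calc Real.exp (-1) / (4 * (1 + 1 / (2 * d)) ^ 2) * (1 / (1 + Real.log x) ^ 2)
      = 1 / (4 * ((1 + 1 / (2 * d)) * (1 + Real.log x)) ^ 2) * Real.exp (-1) := by
        have : 0 < 1 + Real.log x := by linarith
        field_simp
    _ ≤ (1 / 4 : ℝ) ^ (n + 1) * Real.exp (-((1 / 2 : ℝ) ^ (n + 1) * y)) :=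
        mul_le_mul h4 hexp (by positivity) (by positivity)

theorem ps_upper {d : ℝ} (hd : 0 < d) :
    ∃ C : ℝ, 0 < C ∧ ∀ x : ℝ, 1 ≤ x → ps d x ≤ C * (1 + Real.log x) ^ (-2 : ℝ) := by
  refine ⟨(12 * Real.exp 1 + 4 / 3) * (1 + 2 * d) ^ 2, by positivity, fun x hx => ?_⟩
  have hlog : 0 ≤ Real.log x := Real.log_nonneg hx
  set y := Real.log x / (2 * d) with hy
  have hy0 : 0 ≤ y := by positivity
  set z := 1 + y with hz
  have hz1 : 1 ≤ z := by linarith
  have hz0 : 0 < z := by linarith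
  obtain ⟨n, hn1, hn2⟩ := exists_nat_pow_near hz1 (show (1 : ℝ) < 2 by norm_num)
  have hsplit := (ps_summable hd hx).sum_add_tsum_nat_add (n + 1)
  have hps : ps d x = ∑ i ∈ Finset.range (n + 1), (1 / 4 : ℝ) ^ i * x ^ (-(2 / d * dl i))
      + ∑' i : ℕ, (1 / 4 : ℝ) ^ (i + (n + 1)) * x ^ (-(2 / d * dl (i + (n + 1)))) := by
    unfold ps
    exact hsplit.symm
  have hA : ∑ i ∈ Finset.range (n + 1), (1 / 4 : ℝ) ^ i * x ^ (-(2 / d * dl i))
      ≤ 12 * Real.exp 1 / z ^ 2 := by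
    have hi : ∀ i ∈ Finset.range (n + 1), (1 / 4 : ℝ) ^ i * x ^ (-(2 / d * dl i))
        ≤ 6 * Real.exp 1 / z ^ 3 * 2 ^ i := by
      intro i _
      rw [aps_term hd hx]
      have hp : (0 : ℝ) < (1 / 2 : ℝ) ^ i := by positivity
      have hp1 : (1 / 2 : ℝ) ^ i ≤ 1 := pow_le_one₀ (by norm_num) (by norm_num)
      set t := (1 / 2 : ℝ) ^ i * z with ht
      have ht0 : 0 < t := by positivity
      have e1 : -((1 / 2 : ℝ) ^ i * y) ≤ 1 + -t := by
        rw [ht, hz, mul_add, mul_one]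
        linarith
      have e2 : t ^ 3 / 6 ≤ Real.exp t := by
        have := Real.pow_div_factorial_le_exp t ht0.le 3
        norm_num [Nat.factorial] at this
        exact this
      have e3 : Real.exp (-((1 / 2 : ℝ) ^ i * y)) ≤ Real.exp 1 * (6 / t ^ 3) := by
        calc Real.exp (-((1 / 2 : ℝ) ^ i * y)) ≤ Real.exp (1 + -t) := Real.exp_le_exp.mpr e1
          _ = Real.exp 1 * (Real.exp t)⁻¹ := by rw [Real.exp_add, Real.exp_neg]
          _ ≤ Real.exp 1 * (6 / t ^ 3) := by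
            apply mul_le_mul_of_nonneg_left _ (Real.exp_pos 1).le
            rw [show 6 / t ^ 3 = (t ^ 3 / 6)⁻¹ by rw [inv_div]]
            exact inv_anti₀ (by positivity) e2
      calc (1 / 4 : ℝ) ^ i * Real.exp (-((1 / 2 : ℝ) ^ i * y))
          ≤ (1 / 4 : ℝ) ^ i * (Real.exp 1 * (6 / t ^ 3)) :=
            mul_le_mul_of_nonneg_left e3 (by positivity)
        _ = 6 * Real.exp 1 / z ^ 3 * 2 ^ i := by
            rw [ht]
            have f1 : (1 / 4 : ℝ) ^ i = (((2 : ℝ) ^ i)⁻¹) ^ 2 := by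
              rw [one_div, inv_pow, ← inv_pow, ← inv_pow, show (4 : ℝ) = 2 ^ 2 by norm_num]
              rw [← inv_pow, ← pow_mul, ← pow_mul, mul_comm]
            have f2 : (1 / 2 : ℝ) ^ i = ((2 : ℝ) ^ i)⁻¹ := by rw [one_div, inv_pow]
            rw [f1, f2]
            have f3 : (2 : ℝ) ^ i ≠ 0 := by positivity
            field_simp
    calc ∑ i ∈ Finset.range (n + 1), (1 / 4 : ℝ) ^ i * x ^ (-(2 / d * dl i))
        ≤ ∑ i ∈ Finset.range (n + 1), 6 * Real.exp 1 / z ^ 3 * 2 ^ i := Finset.sum_le_sum hi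
      _ = 6 * Real.exp 1 / z ^ 3 * ∑ i ∈ Finset.range (n + 1), (2 : ℝ) ^ i := by
          rw [Finset.mul_sum]
      _ ≤ 6 * Real.exp 1 / z ^ 3 * (2 * z) := by
          apply mul_le_mul_of_nonneg_left _ (by positivity)
          rw [geom_sum_eq (by norm_num)]
          rw [pow_succ]
          norm_num
          linarith
      _ = 12 * Real.exp 1 / z ^ 2 := by
          field_simp
          ring
  have hB : ∑' i : ℕ, (1 / 4 : ℝ) ^ (i + (n + 1)) * x ^ (-(2 / d * dl (i + (n + 1))))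
      ≤ 4 / 3 / z ^ 2 := by
    have hs1 : Summable fun i : ℕ => (1 / 4 : ℝ) ^ (i + (n + 1)) * x ^ (-(2 / d * dl (i + (n + 1)))) :=
      (summable_nat_add_iff (f := fun i : ℕ => (1 / 4 : ℝ) ^ i * x ^ (-(2 / d * dl i))) (n + 1)).mpr
        (ps_summable hd hx)
    have hs2 : Summable fun i : ℕ => (1 / 4 : ℝ) ^ i * (1 / 4 : ℝ) ^ (n + 1) :=
      (summable_geometric_of_lt_one (by norm_num) (by norm_num)).mul_right _
    calc ∑' i : ℕ, (1 / 4 : ℝ) ^ (i + (n + 1)) * x ^ (-(2 / d * dl (i + (n + 1))))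
        ≤ ∑' i : ℕ, (1 / 4 : ℝ) ^ i * (1 / 4 : ℝ) ^ (n + 1) := by
          apply hs1.tsum_le_tsum _ hs2
          intro i
          rw [← pow_add]
          exact aps_bd hd hx _
      _ = 4 / 3 * (1 / 4 : ℝ) ^ (n + 1) := by
          rw [tsum_mul_right, tsum_geometric_of_lt_one (by norm_num) (by norm_num)]
          norm_num
      _ ≤ 4 / 3 * (1 / z ^ 2) := by
          apply mul_le_mul_of_nonneg_left _ (by norm_num)
          rw [one_div_pow]
          apply one_div_le_one_div_of_le (by positivity)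
          have e : (4 : ℝ) ^ (n + 1) = (2 ^ (n + 1)) ^ 2 := by
            rw [show (4 : ℝ) = 2 ^ 2 by norm_num, ← pow_mul, ← pow_mul, mul_comm]
          rw [e]
          exact pow_le_pow_left₀ hz0.le hn2.le 2
      _ = 4 / 3 / z ^ 2 := by ring
  rw [hps, aps_rpow (by linarith)]
  have hC : 1 + Real.log x ≤ (1 + 2 * d) * z := by
    have : Real.log x = 2 * d * y := by rw [hy]; field_simp
    rw [this, hz]
    nlinarith
  have hC2 : 1 / z ^ 2 ≤ (1 + 2 * d) ^ 2 * (1 / (1 + Real.log x) ^ 2) := by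
    rw [mul_one_div, div_le_div_iff₀ (by positivity) (by positivity), one_mul, ← mul_pow]
    exact pow_le_pow_left₀ (by linarith) hC 2
  calc _ ≤ 12 * Real.exp 1 / z ^ 2 + 4 / 3 / z ^ 2 := add_le_add hA hB
    _ = (12 * Real.exp 1 + 4 / 3) * (1 / z ^ 2) := by ring
    _ ≤ (12 * Real.exp 1 + 4 / 3) * ((1 + 2 * d) ^ 2 * (1 / (1 + Real.log x) ^ 2)) :=
        mul_le_mul_of_nonneg_left hC2 (by positivity)
    _ = (12 * Real.exp 1 + 4 / 3) * (1 + 2 * d) ^ 2 * (1 / (1 + Real.log x) ^ 2) := by ring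

end Pool.Agent.H97.EP
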