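import Pool.Agent.H97.EP.AOne
import Pool.Agent.H97.EP.AFin
import Pool.Agent.H97.EP.APs
import Pool.Agent.H97.EP.ANod

/-!
# Project EP, module `ABes` : the inequalities for the norm `NQ` (helper95)

`u_n = nd d Q n = (n/Q)^κ`, `w = d/2`, `κw = 1`: `Q^{-κδ} u_n^{w-δ} = (n/Q) n^{-κδ}`.
-/

set_option autoImplicit false
open MeasureTheory Set
open scoped ENNReal

namespace Pool.Agent.H97.EP

private theorem bes_id {d Q : ℝ} (hd : 4 < d) (hQ : 0 < Q) {n : ℕ} (hn : 1 ≤ n) (δ : ℝ) :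
    (Q ^ (-(2 / d))) ^ δ * nd d Q n ^ (d / 2 - δ) = (n : ℝ) / Q * (n : ℝ) ^ (-(2 / d * δ)) := by
  have hd0 : d ≠ 0 := by linarith
  have hn0 : (0 : ℝ) < n := by exact_mod_cast hn
  have hnQ : 0 < (n : ℝ) / Q := by positivity
  unfold nd
  rw [← Real.rpow_mul hQ.le, ← Real.rpow_mul hnQ.le]
  have e1 : 2 / d * (d / 2 - δ) = 1 + -(2 / d * δ) := by field_simp; ring
  have e2 : -(2 / d) * δ = -(2 / d * δ) := by ring
  rw [e1, e2, Real.rpow_add hnQ, Real.rpow_one, Real.div_rpow hn0.le hQ.le]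
  have hQe : Q ^ (-(2 / d * δ)) ≠ 0 := (Real.rpow_pos_of_pos hQ _).ne'
  field_simp

private theorem bes_ps_nonneg {d : ℝ} {x : ℝ} (hx : 0 ≤ x) : 0 ≤ ps d x :=
  tsum_nonneg fun i => by positivity

private theorem bes_sum {d Q : ℝ} (hd : 4 < d) (hQ : 0 < Q) {n : ℕ} (hn : 1 ≤ n) {G : ℝ}
    (hG : 0 ≤ G) :
    ∑' i : ℕ, ENNReal.ofReal ((1 / 4 : ℝ) ^ i * (Q ^ (-(2 / d))) ^ dl i) *
      ENNReal.ofReal (nd d Q n ^ (d / 2 - dl i) * G) =
      ENNReal.ofReal ((n : ℝ) / Q * ps d n * G) := by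
  have hn1 : (1 : ℝ) ≤ n := by exact_mod_cast hn
  have hn0 : (0 : ℝ) < n := by linarith
  have h1 : ∀ i : ℕ, ENNReal.ofReal ((1 / 4 : ℝ) ^ i * (Q ^ (-(2 / d))) ^ dl i) *
      ENNReal.ofReal (nd d Q n ^ (d / 2 - dl i) * G) =
      ENNReal.ofReal ((n : ℝ) / Q * G * ((1 / 4 : ℝ) ^ i * (n : ℝ) ^ (-(2 / d * dl i)))) := by
    intro i
    rw [← ENNReal.ofReal_mul (by positivity)]
    congr 1
    have := bes_id hd hQ hn (dl i)
    calc (1 / 4 : ℝ) ^ i * (Q ^ (-(2 / d))) ^ dl i * (nd d Q n ^ (d / 2 - dl i) * G)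
        = (1 / 4 : ℝ) ^ i * G * ((Q ^ (-(2 / d))) ^ dl i * nd d Q n ^ (d / 2 - dl i)) := by ring
      _ = _ := by rw [this]; ring
  simp only [h1]
  have hsum := (ps_summable (d := d) (by linarith) hn1).mul_left ((n : ℝ) / Q * G)
  rw [← ENNReal.ofReal_tsum_of_nonneg (fun i => by positivity) hsum, tsum_mul_left]
  congr 1
  unfold ps
  ring

theorem NQ_pt {d : ℝ} (hd : 4 < d) : ∃ C : ℝ, 0 < C ∧ ∀ Q : ℝ, 1 ≤ Q → ∀ (f : VR) (n : ℕ), 1 ≤ n →
    ENNReal.ofReal ((n : ℝ) / Q * (1 + Real.log n) ^ (-2 : ℝ) * pr (d / 2) f (nd d Q n) ^ 2) ≤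
      ENNReal.ofReal C * NQ d Q (pr (d / 2) f) := by
  obtain ⟨c, hc, hps⟩ := ps_lower (d := d) (by linarith)
  refine ⟨130 / c, by positivity, ?_⟩
  intro Q hQ f n hn
  have hQ0 : 0 < Q := by linarith
  have hn1 : (1 : ℝ) ≤ n := by exact_mod_cast hn
  have hn0 : (0 : ℝ) < n := by linarith
  have hnd : 0 < nd d Q n := by unfold nd; positivity
  have hlog : 0 ≤ Real.log n := Real.log_nonneg hn1
  have h1 : ENNReal.ofReal ((n : ℝ) / Q * ps d n * pr (d / 2) f (nd d Q n) ^ 2) ≤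
      130 * NQ d Q (pr (d / 2) f) := by
    rw [← bes_sum hd hQ0 hn (sq_nonneg (pr (d / 2) f (nd d Q n)))]
    unfold NQ
    rw [← ENNReal.tsum_mul_left]
    refine ENNReal.tsum_le_tsum fun i => ?_
    calc ENNReal.ofReal ((1 / 4 : ℝ) ^ i * (Q ^ (-(2 / d))) ^ dl i) *
          ENNReal.ofReal (nd d Q n ^ (d / 2 - dl i) * pr (d / 2) f (nd d Q n) ^ 2)
        ≤ ENNReal.ofReal ((1 / 4 : ℝ) ^ i * (Q ^ (-(2 / d))) ^ dl i) *
          (130 * MM (d / 2 - dl i) (pr (d / 2) f)) :=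
          mul_le_mul_right (pt1 (dl_pos i) (dl_le i) (by linarith) f hnd) _
      _ = _ := by ring
  calc ENNReal.ofReal ((n : ℝ) / Q * (1 + Real.log n) ^ (-2 : ℝ) * pr (d / 2) f (nd d Q n) ^ 2)
      ≤ ENNReal.ofReal (1 / c * ((n : ℝ) / Q * ps d n * pr (d / 2) f (nd d Q n) ^ 2)) := by
        refine ENNReal.ofReal_le_ofReal ?_
        have h2 := hps n hn1
        have h3 : (1 + Real.log n) ^ (-2 : ℝ) ≤ 1 / c * ps d n := by
          rw [one_div, ← div_eq_inv_mul, le_div_iff₀ hc]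
          linarith
        calc (n : ℝ) / Q * (1 + Real.log n) ^ (-2 : ℝ) * pr (d / 2) f (nd d Q n) ^ 2
            ≤ (n : ℝ) / Q * (1 / c * ps d n) * pr (d / 2) f (nd d Q n) ^ 2 := by gcongr
          _ = _ := by ring
    _ = ENNReal.ofReal (1 / c) *
        ENNReal.ofReal ((n : ℝ) / Q * ps d n * pr (d / 2) f (nd d Q n) ^ 2) :=
        ENNReal.ofReal_mul (by positivity)
    _ ≤ ENNReal.ofReal (1 / c) * (130 * NQ d Q (pr (d / 2) f)) := mul_le_mul_right h1 _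
    _ = _ := by
        rw [← mul_assoc]
        congr 1
        have : (130 : ℝ≥0∞) = ENNReal.ofReal 130 := by simp
        rw [this, ← ENNReal.ofReal_mul (by positivity)]
        congr 1
        ring

theorem NQ_low {d : ℝ} (hd : 4 < d) : ∃ C : ℝ, 0 < C ∧ ∀ Q : ℝ, 1 ≤ Q → ∀ (f : VR) (p : ℕ → ℕ),
    (∀ i : ℕ, 1 ≤ p i ∧ ((i : ℝ) + 1) * (1 / 128) ≤ nd d Q (p i) ∧
      nd d Q (p i) < ((i : ℝ) + 2) * (1 / 128)) →
    NQ d Q (pr (d / 2) f) ≤ ENNReal.ofReal C * ∑' i : ℕ,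
      ENNReal.ofReal ((p i : ℝ) / Q * (1 + Real.log (p i)) ^ (-2 : ℝ) * pr (d / 2) f (nd d Q (p i)) ^ 2) := by
  obtain ⟨C, hC, hps⟩ := ps_upper (d := d) (by linarith)
  refine ⟨C, hC, ?_⟩
  intro Q hQ f p hp
  have hQ0 : 0 < Q := by linarith
  calc NQ d Q (pr (d / 2) f)
      ≤ ∑' i : ℕ, ENNReal.ofReal ((1 / 4 : ℝ) ^ i * (Q ^ (-(2 / d))) ^ dl i) *
        ∑' j : ℕ, ENNReal.ofReal (nd d Q (p j) ^ (d / 2 - dl i) *
          pr (d / 2) f (nd d Q (p j)) ^ 2) := by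
        unfold NQ
        refine ENNReal.tsum_le_tsum fun i => mul_le_mul_right ?_ _
        exact low1 (dl_pos i) (dl_le i) (by linarith) f (fun j => nd d Q (p j))
          (fun j => (hp j).2)
    _ = ∑' j : ℕ, ∑' i : ℕ, ENNReal.ofReal ((1 / 4 : ℝ) ^ i * (Q ^ (-(2 / d))) ^ dl i) *
        ENNReal.ofReal (nd d Q (p j) ^ (d / 2 - dl i) * pr (d / 2) f (nd d Q (p j)) ^ 2) := by
        rw [ENNReal.tsum_comm]
        congr 1
        funext i
        rw [ENNReal.tsum_mul_left]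
    _ = ∑' j : ℕ, ENNReal.ofReal ((p j : ℝ) / Q * ps d (p j) *
          pr (d / 2) f (nd d Q (p j)) ^ 2) := by
        congr 1
        funext j
        exact bes_sum hd hQ0 (hp j).1 (sq_nonneg _)
    _ ≤ ∑' j : ℕ, ENNReal.ofReal C * ENNReal.ofReal ((p j : ℝ) / Q *
          (1 + Real.log (p j)) ^ (-2 : ℝ) * pr (d / 2) f (nd d Q (p j)) ^ 2) := by
        refine ENNReal.tsum_le_tsum fun j => ?_
        rw [← ENNReal.ofReal_mul hC.le]
        refine ENNReal.ofReal_le_ofReal ?_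
        have h1 : (1 : ℝ) ≤ p j := by exact_mod_cast (hp j).1
        have h2 := hps (p j) h1
        calc (p j : ℝ) / Q * ps d (p j) * pr (d / 2) f (nd d Q (p j)) ^ 2
            ≤ (p j : ℝ) / Q * (C * (1 + Real.log (p j)) ^ (-2 : ℝ)) *
              pr (d / 2) f (nd d Q (p j)) ^ 2 := by gcongr
          _ = _ := by ring
    _ = _ := ENNReal.tsum_mul_left

theorem seed {d : ℝ} (hd : 4 < d) : ∃ C : ℝ, 0 < C ∧ ∀ Q : ℝ, 1 ≤ Q → ∀ f : VR,
    ENNReal.ofReal (pr (d/2) f (nd d Q 1) ^ 2) ≤ ENNReal.ofReal (C * Q) * NQ d Q (pr (d/2) f) := by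
  obtain ⟨C, hC, h⟩ := NQ_pt hd
  refine ⟨C, hC, ?_⟩
  intro Q hQ f
  have hQ0 : 0 < Q := by linarith
  have h1 := h Q hQ f 1 le_rfl
  have h2 : ((1 : ℕ) : ℝ) / Q * (1 + Real.log ((1 : ℕ) : ℝ)) ^ (-2 : ℝ) *
      pr (d / 2) f (nd d Q 1) ^ 2 = Q⁻¹ * pr (d / 2) f (nd d Q 1) ^ 2 := by
    simp
  rw [h2] at h1
  calc ENNReal.ofReal (pr (d/2) f (nd d Q 1) ^ 2)
      = ENNReal.ofReal Q * ENNReal.ofReal (Q⁻¹ * pr (d / 2) f (nd d Q 1) ^ 2) := by
        rw [← ENNReal.ofReal_mul hQ0.le, ← mul_assoc, mul_inv_cancel₀ hQ0.ne', one_mul]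
    _ ≤ ENNReal.ofReal Q * (ENNReal.ofReal C * NQ d Q (pr (d / 2) f)) := mul_le_mul_right h1 _
    _ = _ := by
        rw [← mul_assoc, ← ENNReal.ofReal_mul hQ0.le, mul_comm Q C]

theorem bessel {d h : ℝ} (hd : 4 < d) (hh : 0 < h) (hh1 : h ≤ 1) : ∃ C : ℝ, 0 < C ∧ ∀ Q : ℝ, 1 ≤ Q →
    ∀ (σ : ℕ → ℝ) (A : ℝ), 0 ≤ A → (∀ n, 0 ≤ σ n) → (∀ n, σ n ≠ 0 → h ≤ nd d Q n) →
    (∀ j : ℕ, 1 ≤ j → ∀ F : Finset ℕ, (∀ n ∈ F, (j:ℝ) * h ≤ nd d Q n ∧ nd d Q n < ((j:ℝ)+1) * h) →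
      ∑ n ∈ F, σ n ≤ A * cl d Q h j) →
    ∀ f : VR, ∑' n : ℕ, ENNReal.ofReal (σ n * ((n:ℝ) ^ (2/d) * (1 + Real.log n) ^ (-2 : ℝ)) *
      pr (d/2) f (nd d Q n) ^ 2) ≤ ENNReal.ofReal (C * A * Q ^ (1 + 2/d)) * NQ d Q (pr (d/2) f) := by
  obtain ⟨c, hc, hps⟩ := ps_lower (d := d) (by linarith)
  refine ⟨1228 * 4 ^ (d / 2) * (d / 2 * 2 ^ (d / 2 - 1)) / c, by positivity, ?_⟩
  intro Q hQ σ A hA hσ hsup hcell f
  have hQ0 : 0 < Q := by linarith
  have hd0 : 0 < d := by linarith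
  set K : ℝ := d / 2 * 2 ^ (d / 2 - 1) * h * Q ^ (2 / d) with hK
  have hK0 : 0 ≤ K := by positivity
  have hpos : ∀ n, σ n ≠ 0 → 1 ≤ n := by
    intro n hn
    rcases Nat.eq_zero_or_pos n with h0 | h0
    · exfalso
      have h1 := hsup n hn
      rw [h0] at h1
      unfold nd at h1
      rw [Nat.cast_zero, zero_div, Real.zero_rpow (by positivity)] at h1
      linarith
    · exact h0
  have hν : ∀ j : ℕ, 1 ≤ j → ∀ S : Finset ℕ,
      (∀ n ∈ S, (j : ℝ) * h ≤ nd d Q n ∧ nd d Q n < ((j : ℝ) + 1) * h) →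
      ∑ n ∈ S, σ n * (n : ℝ) ^ (2 / d - 1) ≤ A * K := by
    intro j hj S hS
    have hj0 : (0 : ℝ) < j := by exact_mod_cast hj
    have hcl : 0 < cl d Q h j := by
      unfold cl
      refine mul_pos hQ0 (sub_pos.2 ?_)
      exact Real.rpow_lt_rpow (by positivity) (by nlinarith) (by positivity)
    have h1 : ∀ n ∈ S, σ n * (n : ℝ) ^ (2 / d - 1) ≤ σ n * (K / cl d Q h j) := by
      intro n hn
      refine mul_le_mul_of_nonneg_left ?_ (hσ n)
      rw [le_div_iff₀ hcl]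
      exact cell_up hd hQ0 hh hj (hS n hn).1
    calc ∑ n ∈ S, σ n * (n : ℝ) ^ (2 / d - 1) ≤ ∑ n ∈ S, σ n * (K / cl d Q h j) :=
          Finset.sum_le_sum h1
      _ = (∑ n ∈ S, σ n) * (K / cl d Q h j) := by rw [Finset.sum_mul]
      _ ≤ A * cl d Q h j * (K / cl d Q h j) := by
          have := hcell j hj S hS
          gcongr
      _ = A * K := by field_simp
  have hup : ∀ i : ℕ, ∑' n : ℕ, ENNReal.ofReal (σ n * (n : ℝ) ^ (2 / d - 1) *
      nd d Q n ^ (d / 2 - dl i) * pr (d / 2) f (nd d Q n) ^ 2) ≤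
      ENNReal.ofReal (1228 * 4 ^ (d / 2) * (A * K) / h) * MM (d / 2 - dl i) (pr (d / 2) f) := by
    intro i
    refine up1 (dl_pos i) (dl_le i) (by linarith) hh hh1 f (fun n => nd d Q n)
      (fun n => σ n * (n : ℝ) ^ (2 / d - 1)) ?_ ?_ (by positivity) hν
    · intro n
      have := hσ n
      positivity
    · intro n hn
      refine hsup n fun h0 => hn ?_
      simp only [h0, zero_mul]
  -- sum over `i`
  have hsum : ∑' n : ℕ, ENNReal.ofReal (σ n * (n : ℝ) ^ (2 / d - 1) * ((n : ℝ) / Q * ps d n *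
      pr (d / 2) f (nd d Q n) ^ 2)) ≤
      ENNReal.ofReal (1228 * 4 ^ (d / 2) * (A * K) / h) * NQ d Q (pr (d / 2) f) := by
    calc ∑' n : ℕ, ENNReal.ofReal (σ n * (n : ℝ) ^ (2 / d - 1) * ((n : ℝ) / Q * ps d n *
          pr (d / 2) f (nd d Q n) ^ 2))
        ≤ ∑' n : ℕ, ∑' i : ℕ, ENNReal.ofReal ((1 / 4 : ℝ) ^ i * (Q ^ (-(2 / d))) ^ dl i) *
          ENNReal.ofReal (σ n * (n : ℝ) ^ (2 / d - 1) *
            nd d Q n ^ (d / 2 - dl i) * pr (d / 2) f (nd d Q n) ^ 2) := by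
          refine ENNReal.tsum_le_tsum fun n => ?_
          by_cases hn : σ n = 0
          · simp [hn]
          · have hn1 := hpos n hn
            have h1 := bes_sum hd hQ0 hn1 (sq_nonneg (pr (d / 2) f (nd d Q n)))
            have h2 : 0 ≤ σ n * (n : ℝ) ^ (2 / d - 1) := by
              have := hσ n
              positivity
            rw [ENNReal.ofReal_mul h2, ← h1, ← ENNReal.tsum_mul_left]
            refine ENNReal.tsum_le_tsum fun i => ?_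
            rw [mul_left_comm, ← ENNReal.ofReal_mul h2]
            refine le_of_eq ?_
            congr 2
            ring
      _ = ∑' i : ℕ, ENNReal.ofReal ((1 / 4 : ℝ) ^ i * (Q ^ (-(2 / d))) ^ dl i) *
          ∑' n : ℕ, ENNReal.ofReal (σ n * (n : ℝ) ^ (2 / d - 1) *
            nd d Q n ^ (d / 2 - dl i) * pr (d / 2) f (nd d Q n) ^ 2) := by
          rw [ENNReal.tsum_comm]
          congr 1
          funext i
          rw [ENNReal.tsum_mul_left]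
      _ ≤ ∑' i : ℕ, ENNReal.ofReal ((1 / 4 : ℝ) ^ i * (Q ^ (-(2 / d))) ^ dl i) *
          (ENNReal.ofReal (1228 * 4 ^ (d / 2) * (A * K) / h) *
            MM (d / 2 - dl i) (pr (d / 2) f)) :=
          ENNReal.tsum_le_tsum fun i => mul_le_mul_right (hup i) _
      _ = _ := by
          unfold NQ
          rw [← ENNReal.tsum_mul_left]
          congr 1
          funext i
          ring
  calc ∑' n : ℕ, ENNReal.ofReal (σ n * ((n:ℝ) ^ (2/d) * (1 + Real.log n) ^ (-2 : ℝ)) *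
        pr (d/2) f (nd d Q n) ^ 2)
      ≤ ∑' n : ℕ, ENNReal.ofReal (Q / c) * ENNReal.ofReal (σ n * (n : ℝ) ^ (2 / d - 1) *
        ((n : ℝ) / Q * ps d n * pr (d / 2) f (nd d Q n) ^ 2)) := by
        refine ENNReal.tsum_le_tsum fun n => ?_
        by_cases hn : σ n = 0
        · simp [hn]
        · have hn1 : (1 : ℝ) ≤ n := by exact_mod_cast hpos n hn
          have hn0 : (0 : ℝ) < n := by linarith
          rw [← ENNReal.ofReal_mul (by positivity)]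
          refine ENNReal.ofReal_le_ofReal ?_
          have h2 := hps n hn1
          have h3 : (1 + Real.log n) ^ (-2 : ℝ) ≤ 1 / c * ps d n := by
            rw [one_div, ← div_eq_inv_mul, le_div_iff₀ hc]
            linarith
          have h4 : (n : ℝ) ^ (2 / d) = (n : ℝ) ^ (2 / d - 1) * n := by
            rw [← Real.rpow_add_one hn0.ne']
            congr 1
            ring
          have h5 := hσ n
          calc σ n * ((n:ℝ) ^ (2/d) * (1 + Real.log n) ^ (-2 : ℝ)) * pr (d/2) f (nd d Q n) ^ 2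
              ≤ σ n * ((n:ℝ) ^ (2/d) * (1 / c * ps d n)) * pr (d/2) f (nd d Q n) ^ 2 := by gcongr
            _ = _ := by
                rw [h4]
                field_simp
    _ = ENNReal.ofReal (Q / c) * ∑' n : ℕ, ENNReal.ofReal (σ n * (n : ℝ) ^ (2 / d - 1) *
        ((n : ℝ) / Q * ps d n * pr (d / 2) f (nd d Q n) ^ 2)) := ENNReal.tsum_mul_left
    _ ≤ ENNReal.ofReal (Q / c) * (ENNReal.ofReal (1228 * 4 ^ (d / 2) * (A * K) / h) *
        NQ d Q (pr (d / 2) f)) := mul_le_mul_right hsum _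
    _ = _ := by
        rw [← mul_assoc, ← ENNReal.ofReal_mul (by positivity)]
        congr 2
        rw [hK, Real.rpow_add hQ0, Real.rpow_one]
        field_simp

end Pool.Agent.H97.EP
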