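import Pool.Agent.H97.EP.ADefs

/-!
# Project EP, module `ADec` : decay of the test functions

`|pr w f u| ≤ C e^{-au}` for `u ≥ 0`, where `a > 0` is the minimum of the `t` and `1/t`, `t ∈ f.support` (finite set;
if the support is empty everything is `0`), `C = ∑ |c_t|(1 + t^{-w})`.  With `e^{-y} ≤ M!/y^M` (`y > 0`) and
`nd d Q n = (n/Q)^κ`, `κ = 2/d`: `n^κ (pr f (nd n))² ≤ C' n^κ n^{-2κM} ≤ C' n^{-2}` for `M` large.
`L : linearity` is proved from `Finsupp.sum_add_index'`, `Finsupp.sum_smul_index'`.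
-/

set_option autoImplicit false
open MeasureTheory Set
open scoped ENNReal

namespace Pool.Agent.H97.EP

theorem pr_add (w : ℝ) (f g : VR) (u : ℝ) : pr w (f + g) u = pr w f u + pr w g u := by
  unfold pr
  rw [Finsupp.sum_add_index']
  · intro t
    rw [zero_mul]
  · intro t a b
    rw [add_mul]

theorem pr_smul (w c : ℝ) (f : VR) (u : ℝ) : pr w (c • f) u = c * pr w f u := by
  unfold pr
  rw [Finsupp.sum_smul_index', Finsupp.mul_sum]
  · refine Finset.sum_congr rfl fun t _ => ?_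
    simp only [smul_eq_mul]
    ring
  · intro t
    rw [zero_mul]

private theorem ADec_O (w b : ℝ) (f : VR) :
    (fun u : ℝ => pr w f u) =O[Filter.atTop] fun u : ℝ => u ^ b := by
  unfold pr Finsupp.sum
  refine Asymptotics.IsBigO.fun_sum fun t _ => ?_
  refine Asymptotics.IsBigO.const_mul_left (Asymptotics.IsBigO.sub ?_ ?_) _
  · have h := (isLittleO_exp_neg_mul_rpow_atTop t.2 b).isBigO
    simpa [neg_mul] using h
  · refine Asymptotics.IsBigO.const_mul_left ?_ _
    have h := (isLittleO_exp_neg_mul_rpow_atTop (inv_pos.mpr t.2) b).isBigO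
    refine h.congr_left fun u => ?_
    congr 1
    rw [div_eq_inv_mul, neg_mul]

theorem pr_sq_summable {d Q : ℝ} (hd : 4 < d) (hQ : 0 < Q) (f : VR) :
    Summable fun n : ℕ => (n : ℝ) ^ (2 / d) * pr (d / 2) f (nd d Q n) ^ 2 := by
  have hκ : 0 < 2 / d := by positivity
  have htend : Filter.Tendsto (fun n : ℕ => nd d Q n) Filter.atTop Filter.atTop := by
    unfold nd
    exact (tendsto_rpow_atTop hκ).comp (tendsto_natCast_atTop_atTop.atTop_div_const hQ)
  have h1 := (ADec_O (d / 2) (-(d / 2 + 1 / 2)) f).comp_tendsto htend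
  have h2 := (Asymptotics.isBigO_refl (fun n : ℕ => (n : ℝ) ^ (2 / d)) Filter.atTop).mul
    (h1.pow 2)
  have h3 : (fun n : ℕ => (n : ℝ) ^ (2 / d) * pr (d / 2) f (nd d Q n) ^ 2) =O[Filter.atTop]
      fun n : ℕ => (n : ℝ) ^ (-2 : ℝ) := by
    refine Asymptotics.IsBigO.trans h2 ?_
    have h4 : (fun n : ℕ => (n : ℝ) ^ (2 / d) *
        (((fun u : ℝ => u ^ (-(d / 2 + 1 / 2))) ∘ fun n : ℕ => nd d Q n) n) ^ 2)
          =ᶠ[Filter.atTop] fun n : ℕ => Q ^ (2 + 2 / d) * (n : ℝ) ^ (-2 : ℝ) := by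
      filter_upwards [Filter.eventually_ge_atTop 1] with n hn
      have hn0 : (0 : ℝ) < n := by exact_mod_cast hn
      have hnQ : 0 < (n : ℝ) / Q := div_pos hn0 hQ
      simp only [Function.comp, nd]
      rw [← Real.rpow_natCast, ← Real.rpow_mul hnQ.le, ← Real.rpow_mul hnQ.le,
        Real.div_rpow hn0.le hQ.le]
      have hd0 : d ≠ 0 := by linarith
      have he : 2 / d * -(d / 2 + 1 / 2) * ((2 : ℕ) : ℝ) = -2 - 2 / d := by
        push_cast
        field_simp
        ring
      rw [he]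
      have h5 : Q ^ (-2 - 2 / d : ℝ) = (Q ^ (2 + 2 / d))⁻¹ := by
        rw [← Real.rpow_neg hQ.le]
        congr 1
        ring
      rw [h5, div_inv_eq_mul, ← mul_assoc, ← Real.rpow_add hn0, mul_comm]
      congr 2
      ring
    exact h4.isBigO.trans (Asymptotics.isBigO_const_mul_self _ _ _)
  exact summable_of_isBigO_nat (Real.summable_nat_rpow.mpr (by norm_num)) h3

end Pool.Agent.H97.EP
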