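import Pool.Agent.H97.EP.Defs

/-!
# Project EP, part A : definitions for the analytic part (helper95)
-/

set_option autoImplicit false
open MeasureTheory Set
open scoped ENNReal

namespace Pool.Agent.H97.EP

/-- The kernel of the difference estimate (`1/2 < s < 1`, step `h`). -/
noncomputable def kk (s h r : ℝ) : ℝ :=
  if r < 4 * h then 64 * h ^ (2 * s - 1) else 50 * (1 - s) * h ^ (1 + s) * r ^ (s - 2)

/-- The error function `A(u) = ∫_0^∞ kk(r) (dr w s f)(u+r)² dr`. -/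
noncomputable def AA (w s h : ℝ) (f : VR) (u : ℝ) : ℝ≥0∞ :=
  ∫⁻ r in Ioi (0 : ℝ), ENNReal.ofReal (kk s h r) * ENNReal.ofReal (dr w s f (u + r) ^ 2)

/-- The weight function `∑_i 4^{-i} x^{-κ δ_i}`, `κ = 2/d`. -/
noncomputable def ps (d x : ℝ) : ℝ := ∑' i : ℕ, (1 / 4 : ℝ) ^ i * x ^ (-(2 / d * dl i))

end Pool.Agent.H97.EP
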