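import Pool.Agent.H97.EP.ADefs

/-!
# Project EP, module `AId` : the identity `∫ u^{w-δ} (D^{1-δ}p)² = ∫ u^{w-δ} p²`

Paper proof (generalises `Pool/Agent/H97/SD/Ident.lean`, case `δ = 0` for complex coefficients; that file
can be copied and simplified to real coefficients).
(a) For a finite real family `q(u) = ∑_i b_i e^{-s_i u}`, `s_i > 0`, `e ≥ 0`:
`∫_0^∞ u^e q(u)² du = ∑_{i,j} b_i b_j Γ(e+1) (s_i+s_j)^{-e-1}` (`Real.integral_rpow_mul_exp_neg_mul_Ioi`).
(b) `pr w f` is such a family over the index set `ι = f.support × Bool`: `b_{(t,true)} = c_t`,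
`s_{(t,true)} = t`, `b_{(t,false)} = -c_t t^{-w}`, `s_{(t,false)} = 1/t`; `dr w (1-δ) f` is the family with
`b_i` replaced by `b_i s_i^{1-δ}` (for `(t,false)`: `-c_t t^{-w} (1/t)^{1-δ} = -c_t t^{-w-(1-δ)}`).
The involution `σ (t,b) = (t, !b)` satisfies `s_{σ i} = 1/s_i`, `b_{σ i} = -b_i s_i^{-w}`.  Reindex the double
sum for `pr` by `σ × σ`, with `e = w - δ`:
`∑ b_i b_j (s_i s_j)^{-w} (1/s_i + 1/s_j)^{-(e+1)} = ∑ b_i b_j (s_i s_j)^{-w+e+1} (s_i+s_j)^{-(e+1)}` and
`-w+e+1 = 1-δ`.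
`pr_meas`, `dr_meas`: finite sums of continuous functions.
-/

set_option autoImplicit false
open MeasureTheory Set
open scoped ENNReal

namespace Pool.Agent.H97.EP

theorem pr_cont (w : ℝ) (f : VR) : Continuous (pr w f) := by
  unfold pr Finsupp.sum
  apply continuous_finsetSum
  intro t _
  fun_prop

theorem dr_cont (w s : ℝ) (f : VR) : Continuous (dr w s f) := by
  unfold dr Finsupp.sum
  apply continuous_finsetSum
  intro t _
  fun_prop

private theorem ident_int {w r : ℝ} (hw : 0 ≤ w) (hr : 0 < r) :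
    IntegrableOn (fun u : ℝ => u ^ w * Real.exp (-(r * u))) (Ioi 0) := by
  have h := integrableOn_rpow_mul_exp_neg_mul_rpow (p := 1) (s := w) (b := r) (by linarith)
    one_pos hr
  refine h.congr_fun (fun u _ => ?_) measurableSet_Ioi
  simp only [Real.rpow_one, neg_mul]

private theorem ident_val {w r : ℝ} (hw : 0 ≤ w) (hr : 0 < r) :
    ∫ u in Ioi (0 : ℝ), u ^ w * Real.exp (-(r * u)) = (1 / r) ^ (w + 1) * Real.Gamma (w + 1) := by
  have h := Real.integral_rpow_mul_exp_neg_mul_Ioi (a := w + 1) (r := r) (by linarith) hr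
  rw [add_sub_cancel_right] at h
  exact h

private theorem ident_sq {ι : Type*} [Fintype ι] (b : ι → ℝ) (s : ι → ℝ) (u : ℝ) :
    (∑ i, b i * Real.exp (-(s i * u))) ^ 2 =
      ∑ i, ∑ j, (b i * b j) * Real.exp (-((s i + s j) * u)) := by
  rw [sq, Finset.sum_mul_sum]
  refine Finset.sum_congr rfl fun i _ => Finset.sum_congr rfl fun j _ => ?_
  rw [show -((s i + s j) * u) = -(s i * u) + -(s j * u) by ring, Real.exp_add]
  ring

private theorem ident_MM {ι : Type*} [Fintype ι] (b : ι → ℝ) (s : ι → ℝ) (hs : ∀ i, 0 < s i)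
    {w : ℝ} (hw : 0 ≤ w) :
    MM w (fun u => ∑ i, b i * Real.exp (-(s i * u))) =
      ENNReal.ofReal (∑ i, ∑ j, (b i * b j) *
        ((1 / (s i + s j)) ^ (w + 1) * Real.Gamma (w + 1))) := by
  have hij : ∀ i j, 0 < s i + s j := fun i j => add_pos (hs i) (hs j)
  have hF : ∀ u : ℝ, u ^ w * (∑ i, b i * Real.exp (-(s i * u))) ^ 2 =
      ∑ i, ∑ j, (b i * b j) * (u ^ w * Real.exp (-((s i + s j) * u))) := by
    intro u
    rw [ident_sq, Finset.mul_sum]
    refine Finset.sum_congr rfl fun i _ => ?_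
    rw [Finset.mul_sum]
    refine Finset.sum_congr rfl fun j _ => ?_
    ring
  have hI : ∀ i j, IntegrableOn (fun u : ℝ => (b i * b j) *
      (u ^ w * Real.exp (-((s i + s j) * u)))) (Ioi 0) := fun i j =>
    (ident_int hw (hij i j)).const_mul _
  have hInt : IntegrableOn (fun u : ℝ =>
      u ^ w * (∑ i, b i * Real.exp (-(s i * u))) ^ 2) (Ioi 0) := by
    simp only [hF]
    exact integrable_finsetSum _ fun i _ => integrable_finsetSum _ fun j _ => hI i j
  have hval : ∫ u in Ioi (0 : ℝ), u ^ w * (∑ i, b i * Real.exp (-(s i * u))) ^ 2 =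
      ∑ i, ∑ j, (b i * b j) *
        ((1 / (s i + s j)) ^ (w + 1) * Real.Gamma (w + 1)) := by
    simp only [hF]
    rw [integral_finsetSum _ fun i _ => integrable_finsetSum _ fun j _ => hI i j]
    refine Finset.sum_congr rfl fun i _ => ?_
    rw [integral_finsetSum _ fun j _ => hI i j]
    refine Finset.sum_congr rfl fun j _ => ?_
    rw [integral_const_mul, ident_val hw (hij i j)]
  rw [← hval, ofReal_integral_eq_lintegral_ofReal hInt]
  · rfl
  · filter_upwards [ae_restrict_mem measurableSet_Ioi] with u hu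
    have hu0 : (0 : ℝ) ≤ u ^ w := Real.rpow_nonneg (le_of_lt hu) w
    exact mul_nonneg hu0 (sq_nonneg _)

private theorem ident_sum {ι : Type*} [Fintype ι] (σ : Equiv.Perm ι) (b : ι → ℝ) (s : ι → ℝ)
    (hs : ∀ i, 0 < s i) (w δ G : ℝ) (h1 : ∀ i, s (σ i) = (s i)⁻¹)
    (h2 : ∀ i, b (σ i) = -(b i * s i ^ (-w))) :
    ∑ i, ∑ j, ((b i * s i ^ (1 - δ)) * (b j * s j ^ (1 - δ))) *
        ((1 / (s i + s j)) ^ (w - δ + 1) * G) =
      ∑ i, ∑ j, (b i * b j) * ((1 / (s i + s j)) ^ (w - δ + 1) * G) := by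
  rw [← Equiv.sum_comp σ (fun i => ∑ j, (b i * b j) *
    ((1 / (s i + s j)) ^ (w - δ + 1) * G))]
  refine Finset.sum_congr rfl fun i _ => ?_
  rw [← Equiv.sum_comp σ (fun j => (b (σ i) * b j) *
    ((1 / (s (σ i) + s j)) ^ (w - δ + 1) * G))]
  refine Finset.sum_congr rfl fun j _ => ?_
  have hi := hs i
  have hj := hs j
  rw [h1, h1, h2, h2]
  have e4 : (1 / ((s i)⁻¹ + (s j)⁻¹)) ^ (w - δ + 1) =
      (1 / (s i + s j)) ^ (w - δ + 1) * (s i ^ (w - δ + 1) * s j ^ (w - δ + 1)) := by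
    have e5 : 1 / ((s i)⁻¹ + (s j)⁻¹) = (1 / (s i + s j)) * (s i * s j) := by
      field_simp
      ring
    rw [e5, Real.mul_rpow (by positivity) (by positivity), Real.mul_rpow hi.le hj.le]
  have e6 : ∀ x : ℝ, 0 < x → x ^ (1 - δ) = x ^ (-w) * x ^ (w - δ + 1) := by
    intro x hx
    rw [← Real.rpow_add hx]
    congr 1
    ring
  rw [e4, e6 _ hi, e6 _ hj]
  ring

private theorem ident_both {w δ : ℝ} (hδw : δ ≤ w) (f : VR) :
    MM (w - δ) (dr w (1 - δ) f) = MM (w - δ) (pr w f) := by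
  classical
  let ι : Type := {t // t ∈ f.support} × Bool
  let b : ι → ℝ := fun i => if i.2 then f i.1.1 else
    -(f i.1.1 * ((i.1.1 : {t : ℝ // 0 < t}).1 ^ (-w)))
  let s : ι → ℝ := fun i => if i.2 then (i.1.1 : {t : ℝ // 0 < t}).1 else
    ((i.1.1 : {t : ℝ // 0 < t}).1)⁻¹
  have hs : ∀ i, 0 < s i := by
    rintro ⟨⟨⟨t, ht⟩, _⟩, _ | _⟩
    · exact inv_pos.2 ht
    · exact ht
  have e1 : pr w f = fun u => ∑ i, b i * Real.exp (-(s i * u)) := by
    funext u
    rw [Fintype.sum_prod_type]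
    unfold pr Finsupp.sum
    rw [← Finset.sum_attach]
    refine Finset.sum_congr rfl fun t _ => ?_
    rw [Fintype.sum_bool]
    simp only [b, s, if_true, Bool.false_eq_true, if_false]
    rw [div_eq_inv_mul]
    ring
  have e2 : dr w (1 - δ) f = fun u => ∑ i, (b i * s i ^ (1 - δ)) * Real.exp (-(s i * u)) := by
    funext u
    rw [Fintype.sum_prod_type]
    unfold dr Finsupp.sum
    rw [← Finset.sum_attach]
    refine Finset.sum_congr rfl fun t _ => ?_
    rw [Fintype.sum_bool]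
    simp only [b, s, if_true, Bool.false_eq_true, if_false]
    have ht : 0 < (t.1 : {t : ℝ // 0 < t}).1 := (t.1 : {t : ℝ // 0 < t}).2
    have e3 : (t.1 : {t : ℝ // 0 < t}).1 ^ (-w - (1 - δ))
        = (t.1 : {t : ℝ // 0 < t}).1 ^ (-w) * ((t.1 : {t : ℝ // 0 < t}).1)⁻¹ ^ (1 - δ) := by
      rw [Real.rpow_sub ht, Real.inv_rpow ht.le, div_eq_mul_inv]
    rw [div_eq_inv_mul, e3]
    ring
  rw [e1, e2, ident_MM _ s hs (by linarith), ident_MM b s hs (by linarith)]
  congr 1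
  refine ident_sum ((Equiv.refl _).prodCongr Equiv.boolNot) b s hs w δ _ ?_ ?_
  · rintro ⟨t, _ | _⟩
    · simp [s]
    · simp [s]
  · rintro ⟨t, _ | _⟩
    · have ht : 0 < (t.1 : {t : ℝ // 0 < t}).1 := (t.1 : {t : ℝ // 0 < t}).2
      have h0 : (((t.1 : {t : ℝ // 0 < t}).1)⁻¹ ^ (-w)) * ((t.1 : {t : ℝ // 0 < t}).1 ^ (-w)) =
          1 := by
        rw [← Real.mul_rpow (inv_nonneg.2 ht.le) ht.le, inv_mul_cancel₀ ht.ne', Real.one_rpow]
      simp only [b, s, Equiv.prodCongr_apply, Equiv.coe_refl, Prod.map_apply, id_eq,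
        Equiv.boolNot_apply, Bool.not_false, if_true, Bool.false_eq_true, if_false]
      linear_combination (-(f t.1)) * h0
    · simp only [b, s, Equiv.prodCongr_apply, Equiv.coe_refl, Prod.map_apply, id_eq,
        Equiv.boolNot_apply, Bool.not_true, if_true, Bool.false_eq_true, if_false]

theorem ident {w δ : ℝ} (hδ : 0 ≤ δ) (hδw : δ ≤ w) (f : VR) :
    MM (w - δ) (dr w (1 - δ) f) = MM (w - δ) (pr w f) :=
  ident_both hδw f

theorem MM_lt_top {w e : ℝ} (he : 0 ≤ e) (f : VR) : MM e (pr w f) < ⊤ := by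
  classical
  let ι : Type := {t // t ∈ f.support} × Bool
  let b : ι → ℝ := fun i => if i.2 then f i.1.1 else
    -(f i.1.1 * ((i.1.1 : {t : ℝ // 0 < t}).1 ^ (-w)))
  let s : ι → ℝ := fun i => if i.2 then (i.1.1 : {t : ℝ // 0 < t}).1 else
    ((i.1.1 : {t : ℝ // 0 < t}).1)⁻¹
  have hs : ∀ i, 0 < s i := by
    rintro ⟨⟨⟨t, ht⟩, _⟩, _ | _⟩
    · exact inv_pos.2 ht
    · exact ht
  have e1 : pr w f = fun u => ∑ i, b i * Real.exp (-(s i * u)) := by
    funext u
    rw [Fintype.sum_prod_type]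
    unfold pr Finsupp.sum
    rw [← Finset.sum_attach]
    refine Finset.sum_congr rfl fun t _ => ?_
    rw [Fintype.sum_bool]
    simp only [b, s, if_true, Bool.false_eq_true, if_false]
    rw [div_eq_inv_mul]
    ring
  rw [e1, ident_MM b s hs he]
  exact ENNReal.ofReal_lt_top

end Pool.Agent.H97.EP
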