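import Pool.Agent.H97.EP.ARep

/-!
# Project EP, module `AK` : the difference estimate

`3/4 ≤ s < 1`, `0 < h`, `0 ≤ τ = x - u ≤ 2h`, `G = GG s τ`.
Near part: `∫_0^{4h} G² ≤ 2∫_0^{4h} r^{2s-2} dr + 2∫_τ^{4h} (r-τ)^{2s-2} dr ≤ 4 (4h)^{2s-1}/(2s-1) ≤ 32 h^{2s-1}`
(`1/2 ≤ 2s-1 ≤ 1`, `4^{2s-1} ≤ 4`).
Far part: for `r ≥ 4h ≥ 2τ` the mean value theorem (or `0 ≤ (r-τ)^{s-1} - r^{s-1} ≤ (1-s) τ (r-τ)^{s-2}`) gives
`|G(r)| ≤ (1-s) 2h (r/2)^{s-2} ≤ 5 (1-s) h r^{s-2}` (`2·2^{2-s} ≤ 2·2^{5/4} < 5`).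
Cauchy-Schwarz in `ℝ≥0∞` (`ENNReal.lintegral_mul_le_Lp_mul_Lq`, compare `cell_cs` in `H97/SD/Cell.lean`), `R = dr w s f`:
`(∫_0^{4h} |G||R(u+r)|)² ≤ 32 h^{2s-1} ∫_0^{4h} R(u+r)²`,
`(∫_{4h}^∞ |G||R|)² ≤ 25 (1-s)² h² (∫_{4h}^∞ r^{s-2}) ∫_{4h}^∞ r^{s-2} R² ≤ 25 (1-s) h^{1+s} ∫_{4h}^∞ r^{s-2} R²`
(`∫_{4h}^∞ r^{s-2} dr = (4h)^{s-1}/(1-s)`, `4^{s-1} ≤ 1`).  With `rep_diff` and
`|∫ G R| ≤ ∫ |G||R|` (`enorm_integral_le_lintegral_enorm`), `(a+b)² ≤ 2a²+2b²`.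
-/

set_option autoImplicit false
open MeasureTheory Set
open scoped ENNReal

namespace Pool.Agent.H97.EP

private theorem AK_lint_rpow {b e : ℝ} (hb : 0 < b) (he : -1 < e) :
    ∫⁻ r in Ioo (0 : ℝ) b, ENNReal.ofReal (r ^ e) = ENNReal.ofReal (b ^ (e + 1) / (e + 1)) := by
  have h1 : IntervalIntegrable (fun r : ℝ => r ^ e) volume 0 b :=
    intervalIntegral.intervalIntegrable_rpow' he
  have h2 : IntegrableOn (fun r : ℝ => r ^ e) (Ioc 0 b) volume := by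
    rwa [intervalIntegrable_iff_integrableOn_Ioc_of_le hb.le] at h1
  have h3 : 0 ≤ᵐ[volume.restrict (Ioc 0 b)] fun r : ℝ => r ^ e := by
    filter_upwards [ae_restrict_mem measurableSet_Ioc] with r hr
    exact Real.rpow_nonneg hr.1.le _
  have h4 := ofReal_integral_eq_lintegral_ofReal h2 h3
  rw [restrict_Ioo_eq_restrict_Ioc, ← h4, ← intervalIntegral.integral_of_le hb.le,
    integral_rpow (Or.inl he), Real.zero_rpow (by linarith), sub_zero]

private theorem AK_lint_Ici {c e : ℝ} (hc : 0 < c) (he : e < -1) :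
    ∫⁻ r in Ici c, ENNReal.ofReal (r ^ e) = ENNReal.ofReal (-c ^ (e + 1) / (e + 1)) := by
  have h2 := integrableOn_Ioi_rpow_of_lt he hc
  have h3 : 0 ≤ᵐ[volume.restrict (Ioi c)] fun r : ℝ => r ^ e := by
    filter_upwards [ae_restrict_mem measurableSet_Ioi] with r hr
    exact Real.rpow_nonneg (hc.trans hr).le _
  have h4 := ofReal_integral_eq_lintegral_ofReal h2 h3
  rw [← restrict_Ioi_eq_restrict_Ici, ← h4, integral_Ioi_rpow_of_lt he hc]

theorem GG_near {s h τ : ℝ} (hs : 3 / 4 ≤ s) (hs1 : s < 1) (hh : 0 < h) (hτ : 0 ≤ τ) (hτ2 : τ ≤ 2 * h) :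
    ∫⁻ r in Ioo (0 : ℝ) (4 * h), ENNReal.ofReal (GG s τ r ^ 2) ≤ ENNReal.ofReal (32 * h ^ (2 * s - 1)) := by
  set F : ℝ → ℝ≥0∞ := (Ioo (0 : ℝ) (4 * h)).indicator (fun r => ENNReal.ofReal (r ^ (2 * s - 2))) with hF
  have hm : Measurable fun r : ℝ => ENNReal.ofReal (r ^ (2 * s - 2)) :=
    (measurable_id.pow_const _).ennreal_ofReal
  have hFi : ∫⁻ r, F r = ENNReal.ofReal ((4 * h) ^ (2 * s - 2 + 1) / (2 * s - 2 + 1)) := by
    rw [hF, lintegral_indicator measurableSet_Ioo]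
    exact AK_lint_rpow (by linarith) (by linarith)
  have hsq : ∀ y : ℝ, 0 < y → (y ^ (s - 1)) ^ 2 = y ^ (2 * s - 2) := by
    intro y hy
    rw [← Real.rpow_natCast, ← Real.rpow_mul hy.le]
    congr 1
    push_cast
    ring
  have h1 : ∀ r ∈ Ioo (0 : ℝ) (4 * h), ENNReal.ofReal (GG s τ r ^ 2) ≤
      ENNReal.ofReal (r ^ (2 * s - 2)) + F (r - τ) := by
    intro r hr
    have hx : 0 < r ^ (s - 1) := Real.rpow_pos_of_pos hr.1 _
    by_cases hτr : τ < r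
    · have hmem : r - τ ∈ Ioo (0 : ℝ) (4 * h) := ⟨by linarith, by linarith [hr.2]⟩
      have hy : 0 < (r - τ) ^ (s - 1) := Real.rpow_pos_of_pos hmem.1 _
      rw [hF, indicator_of_mem hmem, ← ENNReal.ofReal_add (Real.rpow_nonneg hr.1.le _)
        (Real.rpow_nonneg hmem.1.le _)]
      refine ENNReal.ofReal_le_ofReal ?_
      unfold GG
      rw [if_pos hτr, ← hsq r hr.1, ← hsq _ hmem.1]
      nlinarith [mul_pos hx hy]
    · refine le_add_right (ENNReal.ofReal_le_ofReal ?_)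
      unfold GG
      rw [if_neg hτr, sub_zero, hsq r hr.1]
  have h2 : ∫⁻ r in Ioo (0 : ℝ) (4 * h), F (r - τ) ≤ ∫⁻ r, F r := by
    calc ∫⁻ r in Ioo (0 : ℝ) (4 * h), F (r - τ) ≤ ∫⁻ r, F (r - τ) := setLIntegral_le_lintegral _ _
      _ = ∫⁻ r, F r := lintegral_sub_right_eq_self F τ
  have hval : (4 * h) ^ (2 * s - 2 + 1) / (2 * s - 2 + 1) ≤ 8 * h ^ (2 * s - 1) := by
    have e1 : 2 * s - 2 + 1 = 2 * s - 1 := by ring
    rw [e1, Real.mul_rpow (by norm_num) hh.le]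
    have h3 : (4 : ℝ) ^ (2 * s - 1) ≤ 4 := by
      calc (4 : ℝ) ^ (2 * s - 1) ≤ 4 ^ (1 : ℝ) :=
            Real.rpow_le_rpow_of_exponent_le (by norm_num) (by linarith)
        _ = 4 := Real.rpow_one _
    have h4 : 0 < h ^ (2 * s - 1) := Real.rpow_pos_of_pos hh _
    have h5 : (0 : ℝ) < 2 * s - 1 := by linarith
    rw [div_le_iff₀ h5]
    have h6 : (4 : ℝ) ^ (2 * s - 1) * h ^ (2 * s - 1) ≤ 4 * h ^ (2 * s - 1) :=
      mul_le_mul_of_nonneg_right h3 h4.le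
    have h7 : 4 * h ^ (2 * s - 1) ≤ 8 * h ^ (2 * s - 1) * (2 * s - 1) := by nlinarith
    linarith
  calc ∫⁻ r in Ioo (0 : ℝ) (4 * h), ENNReal.ofReal (GG s τ r ^ 2)
      ≤ ∫⁻ r in Ioo (0 : ℝ) (4 * h), (ENNReal.ofReal (r ^ (2 * s - 2)) + F (r - τ)) :=
        setLIntegral_mono' measurableSet_Ioo h1
    _ = (∫⁻ r in Ioo (0 : ℝ) (4 * h), ENNReal.ofReal (r ^ (2 * s - 2))) +
        ∫⁻ r in Ioo (0 : ℝ) (4 * h), F (r - τ) := lintegral_add_left hm _
    _ ≤ ENNReal.ofReal (8 * h ^ (2 * s - 1)) + ENNReal.ofReal (8 * h ^ (2 * s - 1)) := by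
        refine add_le_add ?_ ?_
        · rw [AK_lint_rpow (by linarith) (by linarith)]
          exact ENNReal.ofReal_le_ofReal hval
        · refine h2.trans ?_
          rw [hFi]
          exact ENNReal.ofReal_le_ofReal hval
    _ ≤ ENNReal.ofReal (32 * h ^ (2 * s - 1)) := by
        have h4 : 0 < h ^ (2 * s - 1) := Real.rpow_pos_of_pos hh _
        rw [← ENNReal.ofReal_add (by positivity) (by positivity)]
        exact ENNReal.ofReal_le_ofReal (by linarith)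

theorem GG_far {s h τ r : ℝ} (hs : 3 / 4 ≤ s) (hs1 : s < 1) (hh : 0 < h) (hτ : 0 ≤ τ) (hτ2 : τ ≤ 2 * h)
    (hr : 4 * h ≤ r) : |GG s τ r| ≤ 5 * (1 - s) * h * r ^ (s - 2) := by
  have hr0 : 0 < r := by linarith
  have hτr : τ < r := by linarith
  set a : ℝ := r - τ with ha
  have ha0 : 0 < a := by rw [ha]; linarith
  have har : r / 2 ≤ a := by rw [ha]; linarith
  unfold GG
  rw [if_pos hτr, ← ha]
  have hra : r = a * (1 + τ / a) := by
    rw [mul_add, mul_one, mul_div_cancel₀ _ ha0.ne', ha]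
    ring
  have hy : 0 ≤ τ / a := div_nonneg hτ ha0.le
  have h1 : r ^ (s - 1) = a ^ (s - 1) * (1 + τ / a) ^ (s - 1) := by
    conv_lhs => rw [hra]
    exact Real.mul_rpow ha0.le (by linarith)
  have h2 : 1 - (1 - s) * (τ / a) ≤ (1 + τ / a) ^ (s - 1) := by
    have h3 : 0 < 1 + τ / a := by linarith
    rw [Real.rpow_def_of_pos h3]
    have h4 := Real.add_one_le_exp (Real.log (1 + τ / a) * (s - 1))
    have h5 : Real.log (1 + τ / a) ≤ τ / a := by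
      have := Real.log_le_sub_one_of_pos h3
      linarith
    nlinarith
  have h3 : (1 + τ / a) ^ (s - 1) ≤ 1 :=
    Real.rpow_le_one_of_one_le_of_nonpos (by linarith) (by linarith)
  have h4 : 0 < a ^ (s - 1) := Real.rpow_pos_of_pos ha0 _
  have h5 : |r ^ (s - 1) - a ^ (s - 1)| ≤ a ^ (s - 1) * ((1 - s) * (τ / a)) := by
    rw [h1, abs_sub_comm, abs_of_nonneg (by nlinarith)]
    nlinarith
  have h6 : a ^ (s - 1) * ((1 - s) * (τ / a)) = (1 - s) * τ * a ^ (s - 2) := by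
    have h7 : a ^ (s - 1) = a ^ (s - 2) * a := by
      rw [← Real.rpow_add_one ha0.ne']
      congr 1
      ring
    rw [h7]
    field_simp
  rw [h6] at h5
  refine h5.trans ?_
  have h7 : a ^ (s - 2) ≤ (r / 2) ^ (s - 2) :=
    Real.rpow_le_rpow_of_nonpos (by linarith) har (by linarith)
  have h8 : (r / 2) ^ (s - 2) = r ^ (s - 2) * 2 ^ (2 - s) := by
    rw [Real.div_rpow hr0.le (by norm_num), div_eq_mul_inv, ← Real.rpow_neg (by norm_num)]
    congr 2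
    ring
  have h9 : (2 : ℝ) ^ (2 - s) ≤ 5 / 2 := by
    have h10 : (2 : ℝ) ^ (2 - s) ≤ 2 ^ (5 / 4 : ℝ) :=
      Real.rpow_le_rpow_of_exponent_le (by norm_num) (by linarith)
    refine h10.trans ?_
    have h11 : ((2 : ℝ) ^ (5 / 4 : ℝ)) ^ 4 ≤ (5 / 2 : ℝ) ^ 4 := by
      rw [← Real.rpow_natCast, ← Real.rpow_mul (by norm_num)]
      norm_num
    exact le_of_pow_le_pow_left₀ (by norm_num) (by norm_num) h11
  have h10 : 0 < r ^ (s - 2) := Real.rpow_pos_of_pos hr0 _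
  have h11 : a ^ (s - 2) ≤ r ^ (s - 2) * (5 / 2) := by
    rw [h8] at h7
    exact h7.trans (mul_le_mul_of_nonneg_left h9 h10.le)
  have h12 : (1 - s) * τ ≤ (1 - s) * (2 * h) := mul_le_mul_of_nonneg_left hτ2 (by linarith)
  calc (1 - s) * τ * a ^ (s - 2) ≤ (1 - s) * (2 * h) * (r ^ (s - 2) * (5 / 2)) := by
        refine mul_le_mul h12 h11 (Real.rpow_nonneg ha0.le _) ?_
        have : 0 ≤ 1 - s := by linarith
        positivity
    _ = _ := by ring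

private theorem AK_cs (μ : Measure ℝ) (f g : ℝ → ℝ≥0∞) (hf : Measurable f) (hg : Measurable g) :
    (∫⁻ t, f t * g t ∂μ) ^ 2 ≤ (∫⁻ t, f t ^ 2 ∂μ) * ∫⁻ t, g t ^ 2 ∂μ := by
  have h := ENNReal.lintegral_mul_le_Lp_mul_Lq μ
    Real.HolderConjugate.two_two (f := f) (g := g) hf.aemeasurable hg.aemeasurable
  simp only [Pi.mul_apply, ENNReal.rpow_two] at h
  have h2 : ∀ X : ℝ≥0∞, (X ^ (1 / 2 : ℝ)) ^ 2 = X := by
    intro X
    rw [← ENNReal.rpow_natCast, ← ENNReal.rpow_mul]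
    norm_num
  calc (∫⁻ t, f t * g t ∂μ) ^ 2
      ≤ ((∫⁻ t, f t ^ 2 ∂μ) ^ (1 / 2 : ℝ) * (∫⁻ t, g t ^ 2 ∂μ) ^ (1 / 2 : ℝ)) ^ 2 :=
        pow_le_pow_left' h 2
    _ = _ := by rw [mul_pow, h2, h2]

private theorem AK_sq_add (a b : ℝ≥0∞) : (a + b) ^ 2 ≤ 2 * a ^ 2 + 2 * b ^ 2 := by
  rcases eq_or_ne a ⊤ with ha | ha
  · subst ha; simp
  rcases eq_or_ne b ⊤ with hb | hb
  · subst hb; simp
  lift a to NNReal using ha
  lift b to NNReal using hb
  norm_cast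
  have h := sq_nonneg ((a : ℝ) - b)
  have h2 : ((a : ℝ) + b) ^ 2 ≤ 2 * (a : ℝ) ^ 2 + 2 * (b : ℝ) ^ 2 := by nlinarith
  exact_mod_cast h2

private theorem AK_dr_meas (w s : ℝ) (f : VR) (u : ℝ) : Measurable fun r : ℝ => dr w s f (u + r) := by
  unfold dr Finsupp.sum
  refine Finset.measurable_sum _ fun t _ => ?_
  fun_prop

theorem kdiff {w s h : ℝ} (hs : 3 / 4 ≤ s) (hs1 : s < 1) (hh : 0 < h) (f : VR) {u x : ℝ}
    (hux : u ≤ x) (hx : x ≤ u + 2 * h) :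
    ENNReal.ofReal ((pr w f u - pr w f x) ^ 2) ≤ AA w s h f u := by
  set τ : ℝ := x - u with hτd
  have hτ : 0 ≤ τ := by rw [hτd]; linarith
  have hτ2 : τ ≤ 2 * h := by rw [hτd]; linarith
  set R : ℝ → ℝ := fun r => dr w s f (u + r) with hR
  have hRm : Measurable R := AK_dr_meas w s f u
  have hGm : Measurable (GG s τ) := by
    unfold GG
    refine (measurable_id.pow_const _).sub (Measurable.ite measurableSet_Ioi ?_ measurable_const)
    exact (measurable_id.sub_const τ).pow_const _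
  set g : ℝ → ℝ≥0∞ := fun r => ENNReal.ofReal |GG s τ r| with hg
  set ρ : ℝ → ℝ≥0∞ := fun r => ENNReal.ofReal |R r| with hρ
  have hgm : Measurable g := (continuous_abs.measurable.comp hGm).ennreal_ofReal
  have hρm : Measurable ρ := (continuous_abs.measurable.comp hRm).ennreal_ofReal
  have hsq : ∀ y : ℝ, ENNReal.ofReal |y| ^ 2 = ENNReal.ofReal (y ^ 2) := by
    intro y
    rw [← ENNReal.ofReal_pow (abs_nonneg _), sq_abs]
  have hρ2 : ∀ r, ρ r ^ 2 = ENNReal.ofReal (dr w s f (u + r) ^ 2) := fun r => hsq _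
  -- the estimate of the difference by the integral
  have h1 : ENNReal.ofReal |pr w f u - pr w f x| ≤ ∫⁻ r in Ioi (0 : ℝ), g r * ρ r := by
    have h2 := rep_diff (w := w) (by linarith : 0 < s) hs1.le f hux
    calc ENNReal.ofReal |pr w f u - pr w f x|
        ≤ ENNReal.ofReal |∫ r in Ioi (0 : ℝ), GG s τ r * R r| := ENNReal.ofReal_le_ofReal h2
      _ = ‖∫ r in Ioi (0 : ℝ), GG s τ r * R r‖ₑ := (Real.enorm_eq_ofReal_abs _).symm
      _ ≤ ∫⁻ r in Ioi (0 : ℝ), ‖GG s τ r * R r‖ₑ := enorm_integral_le_lintegral_enorm _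
      _ = ∫⁻ r in Ioi (0 : ℝ), g r * ρ r := by
          refine lintegral_congr fun r => ?_
          rw [Real.enorm_eq_ofReal_abs, abs_mul, ENNReal.ofReal_mul (abs_nonneg _)]
  have hsplit : ∀ F : ℝ → ℝ≥0∞, ∫⁻ r in Ioi (0 : ℝ), F r =
      (∫⁻ r in Ioo (0 : ℝ) (4 * h), F r) + ∫⁻ r in Ici (4 * h), F r := by
    intro F
    rw [← Ioo_union_Ici_eq_Ioi (by linarith : (0 : ℝ) < 4 * h),
      lintegral_union measurableSet_Ici]
    refine Set.disjoint_left.2 fun r hr hr' => ?_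
    exact absurd hr.2 (not_lt.2 hr')
  -- near part
  have hnear : (∫⁻ r in Ioo (0 : ℝ) (4 * h), g r * ρ r) ^ 2 ≤
      ENNReal.ofReal (32 * h ^ (2 * s - 1)) * ∫⁻ r in Ioo (0 : ℝ) (4 * h), ρ r ^ 2 := by
    refine (AK_cs _ g ρ hgm hρm).trans (mul_le_mul_left ?_ _)
    refine le_trans (le_of_eq ?_) (GG_near hs hs1 hh hτ hτ2)
    exact lintegral_congr fun r => hsq _
  -- far part
  set a : ℝ → ℝ≥0∞ := fun r => ENNReal.ofReal (r ^ ((s - 2) / 2)) with ha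
  have ham : Measurable a := (measurable_id.pow_const _).ennreal_ofReal
  have ha2 : ∀ r : ℝ, 0 < r → a r ^ 2 = ENNReal.ofReal (r ^ (s - 2)) := by
    intro r hr
    rw [ha]
    show ENNReal.ofReal (r ^ ((s - 2) / 2)) ^ 2 = _
    rw [← ENNReal.ofReal_pow (Real.rpow_nonneg hr.le _), ← Real.rpow_natCast, ← Real.rpow_mul hr.le]
    congr 2
    push_cast
    ring
  have hc0 : 0 ≤ 5 * (1 - s) * h := by
    have : 0 ≤ 1 - s := by linarith
    positivity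
  have hfar1 : ∫⁻ r in Ici (4 * h), g r * ρ r ≤
      ENNReal.ofReal (5 * (1 - s) * h) * ∫⁻ r in Ici (4 * h), a r * (a r * ρ r) := by
    rw [← lintegral_const_mul' _ _ ENNReal.ofReal_ne_top]
    refine setLIntegral_mono' measurableSet_Ici fun r hr => ?_
    have hr0 : 0 < r := lt_of_lt_of_le (by linarith) hr
    have h3 := GG_far hs hs1 hh hτ hτ2 hr
    have h4 : g r ≤ ENNReal.ofReal (5 * (1 - s) * h) * (a r * a r) := by
      rw [← pow_two, ha2 r hr0, ← ENNReal.ofReal_mul hc0]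
      exact ENNReal.ofReal_le_ofReal h3
    calc g r * ρ r ≤ (ENNReal.ofReal (5 * (1 - s) * h) * (a r * a r)) * ρ r :=
          mul_le_mul_left h4 _
      _ = _ := by ring
  have hfar2 : (∫⁻ r in Ici (4 * h), a r * (a r * ρ r)) ^ 2 ≤
      ENNReal.ofReal (h ^ (s - 1) / (1 - s)) *
        ∫⁻ r in Ici (4 * h), ENNReal.ofReal (r ^ (s - 2)) * ρ r ^ 2 := by
    refine (AK_cs _ a (fun r => a r * ρ r) ham (ham.mul hρm)).trans (mul_le_mul' ?_ ?_)
    · have h3 : ∫⁻ r in Ici (4 * h), a r ^ 2 = ∫⁻ r in Ici (4 * h), ENNReal.ofReal (r ^ (s - 2)) :=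
        setLIntegral_congr_fun measurableSet_Ici fun r hr =>
          ha2 r (lt_of_lt_of_le (by linarith) hr)
      rw [h3, AK_lint_Ici (by linarith) (by linarith)]
      refine ENNReal.ofReal_le_ofReal ?_
      have e1 : s - 2 + 1 = -(1 - s) := by ring
      rw [e1, neg_div_neg_eq]
      have h4 : (4 * h) ^ (-(1 - s)) ≤ h ^ (s - 1) := by
        have e2 : -(1 - s) = s - 1 := by ring
        rw [e2]
        exact Real.rpow_le_rpow_of_nonpos hh (by linarith) (by linarith)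
      exact div_le_div_of_nonneg_right h4 (by linarith)
    · refine le_of_eq (setLIntegral_congr_fun measurableSet_Ici fun r hr => ?_)
      show (a r * ρ r) ^ 2 = _
      rw [mul_pow, ha2 r (lt_of_lt_of_le (by linarith) hr)]
  have hconst : ENNReal.ofReal (5 * (1 - s) * h) ^ 2 * ENNReal.ofReal (h ^ (s - 1) / (1 - s)) =
      ENNReal.ofReal (25 * (1 - s) * h ^ (1 + s)) := by
    have h1s : 0 < 1 - s := by linarith
    rw [← ENNReal.ofReal_pow hc0, ← ENNReal.ofReal_mul (by positivity)]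
    congr 1
    have e1 : h ^ (1 + s) = h ^ 2 * h ^ (s - 1) := by
      rw [← Real.rpow_natCast h 2, ← Real.rpow_add hh]
      congr 1
      push_cast
      ring
    rw [e1]
    field_simp
    ring
  have hfar : (∫⁻ r in Ici (4 * h), g r * ρ r) ^ 2 ≤
      ENNReal.ofReal (25 * (1 - s) * h ^ (1 + s)) *
        ∫⁻ r in Ici (4 * h), ENNReal.ofReal (r ^ (s - 2)) * ρ r ^ 2 := by
    calc (∫⁻ r in Ici (4 * h), g r * ρ r) ^ 2
        ≤ (ENNReal.ofReal (5 * (1 - s) * h) * ∫⁻ r in Ici (4 * h), a r * (a r * ρ r)) ^ 2 :=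
          pow_le_pow_left' hfar1 2
      _ = ENNReal.ofReal (5 * (1 - s) * h) ^ 2 * (∫⁻ r in Ici (4 * h), a r * (a r * ρ r)) ^ 2 :=
          mul_pow _ _ _
      _ ≤ ENNReal.ofReal (5 * (1 - s) * h) ^ 2 * (ENNReal.ofReal (h ^ (s - 1) / (1 - s)) *
        ∫⁻ r in Ici (4 * h), ENNReal.ofReal (r ^ (s - 2)) * ρ r ^ 2) :=
          mul_le_mul_right hfar2 _
      _ = _ := by rw [← mul_assoc, hconst]
  -- assembly
  unfold AA
  rw [hsplit]
  have k1 : ∫⁻ r in Ioo (0 : ℝ) (4 * h), ENNReal.ofReal (kk s h r) *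
      ENNReal.ofReal (dr w s f (u + r) ^ 2) =
      2 * (ENNReal.ofReal (32 * h ^ (2 * s - 1)) * ∫⁻ r in Ioo (0 : ℝ) (4 * h), ρ r ^ 2) := by
    rw [← mul_assoc]
    have e2 : (2 : ℝ≥0∞) * ENNReal.ofReal (32 * h ^ (2 * s - 1)) =
        ENNReal.ofReal (64 * h ^ (2 * s - 1)) := by
      rw [← ENNReal.ofReal_ofNat, ← ENNReal.ofReal_mul (by norm_num)]
      congr 1
      ring
    rw [e2, ← lintegral_const_mul' _ _ ENNReal.ofReal_ne_top]
    refine setLIntegral_congr_fun measurableSet_Ioo fun r hr => ?_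
    show ENNReal.ofReal (kk s h r) * ENNReal.ofReal (dr w s f (u + r) ^ 2) = _
    unfold kk
    rw [if_pos hr.2, hρ2]
  have k2 : ∫⁻ r in Ici (4 * h), ENNReal.ofReal (kk s h r) *
      ENNReal.ofReal (dr w s f (u + r) ^ 2) =
      2 * (ENNReal.ofReal (25 * (1 - s) * h ^ (1 + s)) *
        ∫⁻ r in Ici (4 * h), ENNReal.ofReal (r ^ (s - 2)) * ρ r ^ 2) := by
    rw [← mul_assoc]
    have e2 : (2 : ℝ≥0∞) * ENNReal.ofReal (25 * (1 - s) * h ^ (1 + s)) =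
        ENNReal.ofReal (50 * (1 - s) * h ^ (1 + s)) := by
      rw [← ENNReal.ofReal_ofNat, ← ENNReal.ofReal_mul (by norm_num)]
      congr 1
      ring
    have e3 : 0 ≤ 50 * (1 - s) * h ^ (1 + s) := by
      have : 0 ≤ 1 - s := by linarith
      positivity
    rw [e2, ← lintegral_const_mul' _ _ ENNReal.ofReal_ne_top]
    refine setLIntegral_congr_fun measurableSet_Ici fun r hr => ?_
    show ENNReal.ofReal (kk s h r) * ENNReal.ofReal (dr w s f (u + r) ^ 2) = _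
    unfold kk
    rw [if_neg (not_lt.2 hr), hρ2, ENNReal.ofReal_mul e3, mul_assoc]
  rw [k1, k2, ← hsq]
  calc ENNReal.ofReal |pr w f u - pr w f x| ^ 2 ≤ (∫⁻ r in Ioi (0 : ℝ), g r * ρ r) ^ 2 :=
        pow_le_pow_left' h1 2
    _ = ((∫⁻ r in Ioo (0 : ℝ) (4 * h), g r * ρ r) + ∫⁻ r in Ici (4 * h), g r * ρ r) ^ 2 := by
        rw [hsplit]
    _ ≤ 2 * (∫⁻ r in Ioo (0 : ℝ) (4 * h), g r * ρ r) ^ 2 +
        2 * (∫⁻ r in Ici (4 * h), g r * ρ r) ^ 2 := AK_sq_add _ _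
    _ ≤ _ := add_le_add (mul_le_mul_right hnear _) (mul_le_mul_right hfar _)

end Pool.Agent.H97.EP
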