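import Pool.Agent.H97.EP.ADefs

/-!
# Project EP, module `ALow` : the abstract lower sampling inequality

For `u ∈ [ih,(i+1)h)`, `u > 0`, `x = x_i ∈ [(i+1)h,(i+2)h)`: `u ≤ x ≤ u+2h`, so
`F(u)² ≤ 2F(x)² + 2(F(u)-F(x))²`, `u^e ≤ x^e`:
`u^e F(u)² ≤ 2 x^e F(x)² + 2 u^e A(u)`.  Integrate over the cell (length `h`) and sum over `i` (the cells
partition `(0,∞)`; compare `H97/SD/Cell.lean`).
-/

set_option autoImplicit false
open MeasureTheory Set
open scoped ENNReal

namespace Pool.Agent.H97.EP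

theorem low_abs {e h : ℝ} (he : 0 ≤ e) (hh : 0 < h) (F : ℝ → ℝ) (hF : Measurable F) (A : ℝ → ℝ≥0∞)
    (hA : Measurable A)
    (hFA : ∀ u x : ℝ, 0 < u → u ≤ x → x ≤ u + 2 * h → ENNReal.ofReal ((F u - F x) ^ 2) ≤ A u)
    (x : ℕ → ℝ) (hx : ∀ i : ℕ, ((i : ℝ) + 1) * h ≤ x i ∧ x i < ((i : ℝ) + 2) * h) :
    MM e F ≤ ENNReal.ofReal (2 * h) * (∑' i : ℕ, ENNReal.ofReal (x i ^ e * F (x i) ^ 2)) +
      2 * ∫⁻ u in Ioi (0 : ℝ), ENNReal.ofReal (u ^ e) * A u := by
  set C : ℕ → Set ℝ := fun i => Ico ((i : ℝ) * h) (((i : ℝ) + 1) * h) ∩ Ioi 0 with hC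
  have hCm : ∀ i, MeasurableSet (C i) := fun i => measurableSet_Ico.inter measurableSet_Ioi
  have hdisj : Pairwise (Function.onFun Disjoint C) := by
    intro i j hij
    refine Set.disjoint_left.2 ?_
    rintro t ⟨⟨h1, h2⟩, -⟩ ⟨⟨h3, h4⟩, -⟩
    rcases lt_or_gt_of_ne hij with hlt | hlt
    · have h5 : ((i : ℝ) + 1) ≤ j := by exact_mod_cast hlt
      have := mul_le_mul_of_nonneg_right h5 hh.le
      linarith
    · have h5 : ((j : ℝ) + 1) ≤ i := by exact_mod_cast hlt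
      have := mul_le_mul_of_nonneg_right h5 hh.le
      linarith
  have hU : ⋃ i, C i = Ioi (0 : ℝ) := by
    refine Set.Subset.antisymm (Set.iUnion_subset fun i => Set.inter_subset_right) ?_
    intro t ht
    have ht' : 0 < t := ht
    refine Set.mem_iUnion.2 ⟨⌊t / h⌋₊, ⟨?_, ?_⟩, ht⟩
    · have := Nat.floor_le (div_pos ht' hh).le
      rwa [le_div_iff₀ hh] at this
    · have := Nat.lt_floor_add_one (t / h)
      rwa [div_lt_iff₀ hh] at this
  have h22 : (2 : ℝ≥0∞) = ENNReal.ofReal 2 := by simp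
  -- every cell
  have hcell : ∀ i, ∫⁻ u in C i, ENNReal.ofReal (u ^ e * F u ^ 2) ≤
      ENNReal.ofReal (2 * h) * ENNReal.ofReal (x i ^ e * F (x i) ^ 2) +
        2 * ∫⁻ u in C i, ENNReal.ofReal (u ^ e) * A u := by
    intro i
    obtain ⟨hx1, hx2⟩ := hx i
    have hx0 : 0 < x i := lt_of_lt_of_le (by positivity) hx1
    have h1 : ∀ u ∈ C i, ENNReal.ofReal (u ^ e * F u ^ 2) ≤
        2 * ENNReal.ofReal (x i ^ e * F (x i) ^ 2) + 2 * (ENNReal.ofReal (u ^ e) * A u) := by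
      rintro u ⟨⟨hu1, hu2⟩, hu0⟩
      have hu0' : 0 < u := hu0
      have hux : u ≤ x i := hu2.le.trans hx1
      have hxu : x i ≤ u + 2 * h := by nlinarith
      have hA1 := hFA u (x i) hu0' hux hxu
      have hue : 0 ≤ u ^ e := (Real.rpow_pos_of_pos hu0' e).le
      have hpow : u ^ e ≤ x i ^ e := Real.rpow_le_rpow hu0'.le hux he
      have hreal : u ^ e * F u ^ 2 ≤ 2 * (x i ^ e * F (x i) ^ 2) +
          2 * (u ^ e * (F u - F (x i)) ^ 2) := by
        have h3 : F u ^ 2 ≤ 2 * F (x i) ^ 2 + 2 * (F u - F (x i)) ^ 2 := by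
          nlinarith [sq_nonneg (F u - 2 * F (x i))]
        have h4 : u ^ e * F (x i) ^ 2 ≤ x i ^ e * F (x i) ^ 2 :=
          mul_le_mul_of_nonneg_right hpow (sq_nonneg _)
        calc u ^ e * F u ^ 2 ≤ u ^ e * (2 * F (x i) ^ 2 + 2 * (F u - F (x i)) ^ 2) :=
              mul_le_mul_of_nonneg_left h3 hue
          _ = 2 * (u ^ e * F (x i) ^ 2) + 2 * (u ^ e * (F u - F (x i)) ^ 2) := by ring
          _ ≤ _ := by linarith
      have hxe : 0 ≤ x i ^ e * F (x i) ^ 2 :=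
        mul_nonneg (Real.rpow_pos_of_pos hx0 e).le (sq_nonneg _)
      calc ENNReal.ofReal (u ^ e * F u ^ 2)
          ≤ ENNReal.ofReal (2 * (x i ^ e * F (x i) ^ 2) +
            2 * (u ^ e * (F u - F (x i)) ^ 2)) := ENNReal.ofReal_le_ofReal hreal
        _ = 2 * ENNReal.ofReal (x i ^ e * F (x i) ^ 2) +
            2 * (ENNReal.ofReal (u ^ e) * ENNReal.ofReal ((F u - F (x i)) ^ 2)) := by
            rw [ENNReal.ofReal_add (by positivity) (by positivity), h22,
              ← ENNReal.ofReal_mul (by norm_num), ← ENNReal.ofReal_mul hue,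
              ← ENNReal.ofReal_mul (by norm_num)]
        _ ≤ _ := by gcongr
    have hvol : volume (C i) ≤ ENNReal.ofReal h := by
      refine (measure_mono (Set.inter_subset_left)).trans ?_
      rw [Real.volume_Ico]
      refine le_of_eq ?_
      congr 1
      ring
    calc ∫⁻ u in C i, ENNReal.ofReal (u ^ e * F u ^ 2)
        ≤ ∫⁻ u in C i, (2 * ENNReal.ofReal (x i ^ e * F (x i) ^ 2) +
          2 * (ENNReal.ofReal (u ^ e) * A u)) := setLIntegral_mono' (hCm i) h1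
      _ = 2 * ENNReal.ofReal (x i ^ e * F (x i) ^ 2) * volume (C i) +
          2 * ∫⁻ u in C i, ENNReal.ofReal (u ^ e) * A u := by
          rw [lintegral_add_left measurable_const, setLIntegral_const,
            lintegral_const_mul' _ _ (by norm_num)]
      _ ≤ 2 * ENNReal.ofReal (x i ^ e * F (x i) ^ 2) * ENNReal.ofReal h +
          2 * ∫⁻ u in C i, ENNReal.ofReal (u ^ e) * A u := by
          gcongr
      _ = _ := by
          have h5 : ENNReal.ofReal (2 * h) = 2 * ENNReal.ofReal h := by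
            rw [h22, ← ENNReal.ofReal_mul (by norm_num)]
          rw [h5]
          ring
  calc MM e F = ∑' i, ∫⁻ u in C i, ENNReal.ofReal (u ^ e * F u ^ 2) := by
        unfold MM
        rw [← hU, lintegral_iUnion hCm hdisj]
    _ ≤ ∑' i : ℕ, (ENNReal.ofReal (2 * h) * ENNReal.ofReal (x i ^ e * F (x i) ^ 2) +
        2 * ∫⁻ u in C i, ENNReal.ofReal (u ^ e) * A u) := ENNReal.tsum_le_tsum hcell
    _ = _ := by
        rw [ENNReal.tsum_add, ENNReal.tsum_mul_left, ENNReal.tsum_mul_left, ← hU,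
          lintegral_iUnion hCm hdisj]

end Pool.Agent.H97.EP
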