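import Pool.Agent.H97.EP.AId

/-!
# Project EP, module `AMass` : mass of the kernel, Tonelli

`∫_0^∞ kk = 64 h^{2s-1}·4h + 50 (1-s) h^{1+s} (4h)^{s-1}/(1-s) = 256 h^{2s} + 50·4^{s-1} h^{2s} ≤ 306 h^{2s}`.
For `h = 1/2`: `kk ≤ 64` (`r < 2`: `64·(1/2)^{2s-1}`; `r ≥ 2`: `50 (1-s) (1/2)^{1+s} r^{s-2}`).
`conv_le`: Tonelli (`lintegral_lintegral_swap`) and, for fixed `r > 0`, `u^e ≤ (u+r)^e` and translation invariance:
`∫_{u>0} u^e R(u+r) du ≤ ∫_{v>r} v^e R(v) dv`.
`AA_int`: `conv_le` with `k = ofReal ∘ kk s h`, `R v = ofReal (dr w s f v ^ 2)`.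
`AA_half`: `∫ kk (1/2) R(u+r)² dr ≤ 64 ∫_{v>u} R²`, and `u^e ≤ v^e`.
-/

set_option autoImplicit false
open MeasureTheory Set
open scoped ENNReal

namespace Pool.Agent.H97.EP

theorem kk_nonneg {s h : ℝ} (hs1 : s < 1) (hh : 0 < h) {r : ℝ} (hr : 0 < r) : 0 ≤ kk s h r := by
  unfold kk
  split_ifs
  · positivity
  · have : 0 ≤ 1 - s := by linarith
    positivity

private theorem amass_meas (s h : ℝ) : Measurable (kk s h) := by
  unfold kk
  apply Measurable.ite measurableSet_Iio measurable_const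
  exact (measurable_id.pow_const _).const_mul _

theorem kk_mass {s h : ℝ} (hs : 3 / 4 ≤ s) (hs1 : s < 1) (hh : 0 < h) :
    ∫⁻ r in Ioi (0 : ℝ), ENNReal.ofReal (kk s h r) ≤ ENNReal.ofReal (306 * h ^ (2 * s)) := by
  have h4 : 0 < 4 * h := by linarith
  have hU : Ioi (0 : ℝ) = Ioo 0 (4 * h) ∪ Ici (4 * h) := (Ioo_union_Ici_eq_Ioi h4).symm
  rw [hU]
  refine (lintegral_union_le _ _ _).trans ?_
  have h1 : ∫⁻ r in Ioo (0 : ℝ) (4 * h), ENNReal.ofReal (kk s h r)
      ≤ ENNReal.ofReal (256 * h ^ (2 * s)) := by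
    calc ∫⁻ r in Ioo (0 : ℝ) (4 * h), ENNReal.ofReal (kk s h r)
        = ∫⁻ r in Ioo (0 : ℝ) (4 * h), ENNReal.ofReal (64 * h ^ (2 * s - 1)) := by
          refine setLIntegral_congr_fun measurableSet_Ioo fun r hr => ?_
          unfold kk
          rw [if_pos hr.2]
      _ = ENNReal.ofReal (64 * h ^ (2 * s - 1)) * ENNReal.ofReal (4 * h) := by
          rw [setLIntegral_const, Real.volume_Ioo, sub_zero]
      _ = ENNReal.ofReal (256 * h ^ (2 * s)) := by
          rw [← ENNReal.ofReal_mul (by positivity)]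
          congr 1
          have : h ^ (2 * s) = h ^ (2 * s - 1) * h := by
            rw [← Real.rpow_add_one hh.ne']
            congr 1
            ring
          rw [this]
          ring
      _ ≤ _ := le_refl _
  have h2 : ∫⁻ r in Ici (4 * h), ENNReal.ofReal (kk s h r)
      ≤ ENNReal.ofReal (50 * h ^ (2 * s)) := by
    calc ∫⁻ r in Ici (4 * h), ENNReal.ofReal (kk s h r)
        = ∫⁻ r in Ici (4 * h), ENNReal.ofReal (50 * (1 - s) * h ^ (1 + s) * r ^ (s - 2)) := by
          refine setLIntegral_congr_fun measurableSet_Ici fun r hr => ?_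
          unfold kk
          rw [if_neg (not_lt.mpr hr)]
      _ = ∫⁻ r in Ioi (4 * h), ENNReal.ofReal (50 * (1 - s) * h ^ (1 + s) * r ^ (s - 2)) :=
          setLIntegral_congr Ioi_ae_eq_Ici.symm
      _ = ENNReal.ofReal (∫ r in Ioi (4 * h), 50 * (1 - s) * h ^ (1 + s) * r ^ (s - 2)) := by
          rw [ofReal_integral_eq_lintegral_ofReal]
          · exact (integrableOn_Ioi_rpow_of_lt (by linarith) h4).const_mul _
          · filter_upwards [ae_restrict_mem measurableSet_Ioi] with r hr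
            have hr0 : (0 : ℝ) < r := h4.trans hr
            have : 0 ≤ 1 - s := by linarith
            show 0 ≤ 50 * (1 - s) * h ^ (1 + s) * r ^ (s - 2)
            positivity
      _ ≤ ENNReal.ofReal (50 * h ^ (2 * s)) := by
          apply ENNReal.ofReal_le_ofReal
          rw [integral_const_mul, integral_Ioi_rpow_of_lt (by linarith) h4]
          have e1 : s - 2 + 1 = -(1 - s) := by ring
          have e0 : 0 < 1 - s := by linarith
          rw [e1, neg_div_neg_eq]
          have e2 : 50 * (1 - s) * h ^ (1 + s) * ((4 * h) ^ (-(1 - s)) / (1 - s))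
              = 50 * (h ^ (1 + s) * (4 * h) ^ (-(1 - s))) := by
            field_simp
          rw [e2]
          apply mul_le_mul_of_nonneg_left _ (by norm_num)
          rw [Real.mul_rpow (by norm_num) hh.le]
          have e3 : (4 : ℝ) ^ (-(1 - s)) ≤ 1 :=
            Real.rpow_le_one_of_one_le_of_nonpos (by norm_num) (by linarith)
          have e4 : h ^ (2 * s) = h ^ (1 + s) * h ^ (-(1 - s)) := by
            rw [← Real.rpow_add hh]
            congr 1
            ring
          rw [e4]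
          have e5 := Real.rpow_pos_of_pos hh (1 + s)
          have e6 := Real.rpow_pos_of_pos hh (-(1 - s))
          have e7 : (4 : ℝ) ^ (-(1 - s)) * h ^ (-(1 - s)) ≤ h ^ (-(1 - s)) := by
            nlinarith
          exact mul_le_mul_of_nonneg_left e7 e5.le
  refine (add_le_add h1 h2).trans ?_
  rw [← ENNReal.ofReal_add (by positivity) (by positivity)]
  apply ENNReal.ofReal_le_ofReal
  have := Real.rpow_pos_of_pos hh (2 * s)
  linarith

private theorem amass_shift (F : ℝ → ℝ≥0∞) (r : ℝ) :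
    ∫⁻ u in Ioi (0 : ℝ), F (u + r) = ∫⁻ v in Ioi r, F v := by
  have h := (measurePreserving_add_right (volume : Measure ℝ) r).setLIntegral_comp_emb
    (MeasurableEquiv.addRight r).measurableEmbedding F (Ioi 0)
  rw [image_add_const_Ioi, zero_add] at h
  exact h

theorem conv_le {e : ℝ} (he : 0 ≤ e) (k R : ℝ → ℝ≥0∞) (hk : Measurable k) (hR : Measurable R) :
    ∫⁻ u in Ioi (0 : ℝ), ENNReal.ofReal (u ^ e) * ∫⁻ r in Ioi (0 : ℝ), k r * R (u + r) ≤
      (∫⁻ r in Ioi (0 : ℝ), k r) * ∫⁻ v in Ioi (0 : ℝ), ENNReal.ofReal (v ^ e) * R v := by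
  set J := ∫⁻ v in Ioi (0 : ℝ), ENNReal.ofReal (v ^ e) * R v with hJ
  have hpow : Measurable fun u : ℝ => ENNReal.ofReal (u ^ e) :=
    (measurable_id.pow_const e).ennreal_ofReal
  have h0 : ∀ u : ℝ, Measurable fun r : ℝ => k r * R (u + r) := fun u =>
    hk.mul (hR.comp (measurable_const_add u))
  have h1 : ∫⁻ u in Ioi (0 : ℝ), ENNReal.ofReal (u ^ e) * ∫⁻ r in Ioi (0 : ℝ), k r * R (u + r)
      = ∫⁻ u in Ioi (0 : ℝ), ∫⁻ r in Ioi (0 : ℝ), ENNReal.ofReal (u ^ e) * (k r * R (u + r)) := by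
    congr 1
    funext u
    rw [lintegral_const_mul _ (h0 u)]
  rw [h1, lintegral_lintegral_swap]
  · calc ∫⁻ r in Ioi (0 : ℝ), ∫⁻ u in Ioi (0 : ℝ), ENNReal.ofReal (u ^ e) * (k r * R (u + r))
        ≤ ∫⁻ r in Ioi (0 : ℝ), k r * J := by
          refine setLIntegral_mono' measurableSet_Ioi fun r hr => ?_
          have hr0 : (0 : ℝ) < r := hr
          calc ∫⁻ u in Ioi (0 : ℝ), ENNReal.ofReal (u ^ e) * (k r * R (u + r))
              ≤ ∫⁻ u in Ioi (0 : ℝ), k r * (ENNReal.ofReal ((u + r) ^ e) * R (u + r)) := by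
                refine setLIntegral_mono' measurableSet_Ioi fun u hu => ?_
                have hu0 : (0 : ℝ) < u := hu
                rw [← mul_assoc, mul_comm (ENNReal.ofReal (u ^ e)) (k r), mul_assoc]
                gcongr
                linarith
            _ = k r * ∫⁻ u in Ioi (0 : ℝ), ENNReal.ofReal ((u + r) ^ e) * R (u + r) := by
                rw [lintegral_const_mul]
                exact (hpow.comp (measurable_add_const r)).mul (hR.comp (measurable_add_const r))
            _ = k r * ∫⁻ v in Ioi r, ENNReal.ofReal (v ^ e) * R v := by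
                rw [amass_shift (fun v => ENNReal.ofReal (v ^ e) * R v) r]
            _ ≤ k r * J := by
                gcongr
                exact lintegral_mono_set (Ioi_subset_Ioi hr0.le)
      _ = (∫⁻ r in Ioi (0 : ℝ), k r) * J := by
          rw [lintegral_mul_const _ hk]
  · apply Measurable.aemeasurable
    have h2 : Measurable fun p : ℝ × ℝ => ENNReal.ofReal (p.1 ^ e) * (k p.2 * R (p.1 + p.2)) :=
      (hpow.comp measurable_fst).mul
        ((hk.comp measurable_snd).mul (hR.comp (measurable_fst.add measurable_snd)))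
    exact h2

private theorem amass_dr (w s : ℝ) (f : VR) :
    Measurable fun v : ℝ => ENNReal.ofReal (dr w s f v ^ 2) :=
  ((dr_cont w s f).measurable.pow_const 2).ennreal_ofReal

theorem AA_meas (w s h : ℝ) (f : VR) : Measurable (AA w s h f) := by
  unfold AA
  apply Measurable.lintegral_prod_right
  exact ((amass_meas s h).ennreal_ofReal.comp measurable_snd).mul
    ((amass_dr w s f).comp (measurable_fst.add measurable_snd))

theorem AA_int {w s h e : ℝ} (he : 0 ≤ e) (hs : 3 / 4 ≤ s) (hs1 : s < 1) (hh : 0 < h) (f : VR) :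
    ∫⁻ u in Ioi (0 : ℝ), ENNReal.ofReal (u ^ e) * AA w s h f u ≤
      ENNReal.ofReal (306 * h ^ (2 * s)) * MM e (dr w s f) := by
  unfold AA
  refine (conv_le he (fun r => ENNReal.ofReal (kk s h r)) _ (amass_meas s h).ennreal_ofReal
    (amass_dr w s f)).trans ?_
  have hMM : ∫⁻ v in Ioi (0 : ℝ), ENNReal.ofReal (v ^ e) * ENNReal.ofReal (dr w s f v ^ 2)
      = MM e (dr w s f) := by
    unfold MM
    refine setLIntegral_congr_fun measurableSet_Ioi fun u hu => ?_
    rw [ENNReal.ofReal_mul (Real.rpow_nonneg (le_of_lt hu) e)]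
  rw [hMM]
  gcongr
  exact kk_mass hs hs1 hh

private theorem amass_half {s : ℝ} (hs : 3 / 4 ≤ s) (hs1 : s < 1) {r : ℝ} (hr : 0 < r) :
    kk s (1 / 2) r ≤ 64 := by
  unfold kk
  split_ifs with h
  · have : (1 / 2 : ℝ) ^ (2 * s - 1) ≤ 1 :=
      Real.rpow_le_one (by norm_num) (by norm_num) (by linarith)
    linarith
  · have h1 : (1 / 2 : ℝ) ^ (1 + s) ≤ 1 :=
      Real.rpow_le_one (by norm_num) (by norm_num) (by linarith)
    have h2 : r ^ (s - 2) ≤ 1 :=
      Real.rpow_le_one_of_one_le_of_nonpos (by linarith) (by linarith)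
    have h3 : 0 ≤ (1 / 2 : ℝ) ^ (1 + s) := by positivity
    have h4 : 0 ≤ r ^ (s - 2) := by positivity
    have h5 : (1 / 2 : ℝ) ^ (1 + s) * r ^ (s - 2) ≤ 1 := mul_le_one₀ h1 h4 h2
    have h6 : 0 ≤ (1 / 2 : ℝ) ^ (1 + s) * r ^ (s - 2) := by positivity
    have h7 : 50 * (1 - s) * (1 / 2 : ℝ) ^ (1 + s) * r ^ (s - 2)
        = 50 * ((1 - s) * ((1 / 2 : ℝ) ^ (1 + s) * r ^ (s - 2))) := by ring
    rw [h7]
    have h8 : (1 - s) * ((1 / 2 : ℝ) ^ (1 + s) * r ^ (s - 2)) ≤ 1 :=
      mul_le_one₀ (by linarith) h6 h5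
    linarith

theorem AA_half {w s e : ℝ} (he : 0 ≤ e) (hs : 3 / 4 ≤ s) (hs1 : s < 1) (f : VR) {u : ℝ} (hu : 0 < u) :
    ENNReal.ofReal (u ^ e) * AA w s (1 / 2) f u ≤ 64 * MM e (dr w s f) := by
  unfold AA
  have h1 : ∫⁻ r in Ioi (0 : ℝ), ENNReal.ofReal (kk s (1 / 2) r) * ENNReal.ofReal (dr w s f (u + r) ^ 2)
      ≤ 64 * ∫⁻ v in Ioi u, ENNReal.ofReal (dr w s f v ^ 2) := by
    calc ∫⁻ r in Ioi (0 : ℝ), ENNReal.ofReal (kk s (1 / 2) r) * ENNReal.ofReal (dr w s f (u + r) ^ 2)
        ≤ ∫⁻ r in Ioi (0 : ℝ), 64 * ENNReal.ofReal (dr w s f (r + u) ^ 2) := by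
          refine setLIntegral_mono' measurableSet_Ioi fun r hr => ?_
          rw [add_comm u r]
          gcongr
          calc ENNReal.ofReal (kk s (1 / 2) r) ≤ ENNReal.ofReal 64 :=
                ENNReal.ofReal_le_ofReal (amass_half hs hs1 hr)
            _ = 64 := by norm_num
      _ = 64 * ∫⁻ r in Ioi (0 : ℝ), ENNReal.ofReal (dr w s f (r + u) ^ 2) := by
          rw [lintegral_const_mul]
          exact (amass_dr w s f).comp (measurable_add_const u)
      _ = 64 * ∫⁻ v in Ioi u, ENNReal.ofReal (dr w s f v ^ 2) := by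
          rw [amass_shift (fun v => ENNReal.ofReal (dr w s f v ^ 2)) u]
  calc ENNReal.ofReal (u ^ e) * ∫⁻ r in Ioi (0 : ℝ), ENNReal.ofReal (kk s (1 / 2) r)
        * ENNReal.ofReal (dr w s f (u + r) ^ 2)
      ≤ ENNReal.ofReal (u ^ e) * (64 * ∫⁻ v in Ioi u, ENNReal.ofReal (dr w s f v ^ 2)) := by
        gcongr
    _ = 64 * ∫⁻ v in Ioi u, ENNReal.ofReal (u ^ e) * ENNReal.ofReal (dr w s f v ^ 2) := by
        rw [lintegral_const_mul _ (amass_dr w s f)]
        ring
    _ ≤ 64 * ∫⁻ v in Ioi u, ENNReal.ofReal (v ^ e * dr w s f v ^ 2) := by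
        gcongr 64 * ?_
        refine setLIntegral_mono' measurableSet_Ioi fun v hv => ?_
        have hv0 : 0 < v := hu.trans hv
        rw [ENNReal.ofReal_mul (by positivity)]
        gcongr
        exact le_of_lt hv
    _ ≤ 64 * MM e (dr w s f) := by
        unfold MM
        gcongr 64 * ?_
        exact lintegral_mono_set (Ioi_subset_Ioi hu.le)

end Pool.Agent.H97.EP
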