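import Pool.Agent.H97.EP.ADefs

/-!
# Project EP, module `AUp` : the abstract upper sampling inequality

Let `j ≥ 1`, `x ∈ [jh,(j+1)h)` and `u ∈ [(j-1/2)h, jh)`.  Then `u ≤ x ≤ u + 3h/2`, `x < (j+1)h ≤ 2jh ≤ 4u`, so
`x^e F(x)² ≤ 4^e u^e (2F(u)² + 2A(u))`.  Average over `u` (length `h/2`):
`x^e F(x)² ≤ (4·4^e/h) ∫_{[(j-1/2)h,jh)} u^e (F² + A)`.  Multiply by `ν_n` and sum over the `n` with `x_n` in the cell `j`
(every finite partial sum of the `ν_n` is `≤ B`), then over `j ≥ 1` (disjoint intervals).  Every `n` with `ν_n ≠ 0` has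
`x_n ≥ h`, so it lies in exactly one cell `j = ⌊x_n/h⌋ ≥ 1`.
-/

set_option autoImplicit false
open MeasureTheory Set
open scoped ENNReal

namespace Pool.Agent.H97.EP

/-- one point -/
private theorem up_point {e h : ℝ} (he : 0 ≤ e) (F : ℝ → ℝ) (A : ℝ → ℝ≥0∞)
    (hFA : ∀ u x : ℝ, 0 < u → u ≤ x → x ≤ u + 2 * h → ENNReal.ofReal ((F u - F x) ^ 2) ≤ A u)
    {u x : ℝ} (hu : 0 < u) (hux : u ≤ x) (hx : x ≤ u + 2 * h) (hx4 : x ≤ 4 * u) :
    ENNReal.ofReal (x ^ e * F x ^ 2) ≤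
      ENNReal.ofReal (2 * 4 ^ e) * (ENNReal.ofReal (u ^ e * F u ^ 2) + ENNReal.ofReal (u ^ e) * A u) := by
  have h1 : x ^ e ≤ 4 ^ e * u ^ e := by
    rw [← Real.mul_rpow (by norm_num) hu.le]
    exact Real.rpow_le_rpow (hu.le.trans hux) hx4 he
  have h2 : F x ^ 2 ≤ 2 * F u ^ 2 + 2 * (F u - F x) ^ 2 := by
    nlinarith [sq_nonneg (2 * F u - F x)]
  have hu0 : 0 ≤ u ^ e := Real.rpow_nonneg hu.le e
  have h40 : (0 : ℝ) ≤ 4 ^ e := Real.rpow_nonneg (by norm_num) e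
  have h3 : x ^ e * F x ^ 2 ≤ 2 * 4 ^ e * (u ^ e * F u ^ 2 + u ^ e * (F u - F x) ^ 2) := by
    calc x ^ e * F x ^ 2 ≤ (4 ^ e * u ^ e) * F x ^ 2 :=
          mul_le_mul_of_nonneg_right h1 (sq_nonneg _)
      _ ≤ (4 ^ e * u ^ e) * (2 * F u ^ 2 + 2 * (F u - F x) ^ 2) :=
          mul_le_mul_of_nonneg_left h2 (mul_nonneg h40 hu0)
      _ = _ := by ring
  calc ENNReal.ofReal (x ^ e * F x ^ 2)
      ≤ ENNReal.ofReal (2 * 4 ^ e * (u ^ e * F u ^ 2 + u ^ e * (F u - F x) ^ 2)) :=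
        ENNReal.ofReal_le_ofReal h3
    _ = ENNReal.ofReal (2 * 4 ^ e) * (ENNReal.ofReal (u ^ e * F u ^ 2) +
        ENNReal.ofReal (u ^ e) * ENNReal.ofReal ((F u - F x) ^ 2)) := by
        rw [ENNReal.ofReal_mul (by positivity), ENNReal.ofReal_add (by positivity) (by positivity),
          ENNReal.ofReal_mul hu0 (q := (F u - F x) ^ 2)]
    _ ≤ _ := by
        gcongr
        exact hFA u x hu hux hx

theorem up_abs {e h B : ℝ} (he : 0 ≤ e) (hh : 0 < h) (F : ℝ → ℝ) (hF : Measurable F) (A : ℝ → ℝ≥0∞)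
    (hA : Measurable A)
    (hFA : ∀ u x : ℝ, 0 < u → u ≤ x → x ≤ u + 2 * h → ENNReal.ofReal ((F u - F x) ^ 2) ≤ A u)
    (x ν : ℕ → ℝ) (hν : ∀ n, 0 ≤ ν n) (hs : ∀ n, ν n ≠ 0 → h ≤ x n) (hB : 0 ≤ B)
    (hc : ∀ j : ℕ, 1 ≤ j → ∀ S : Finset ℕ, (∀ n ∈ S, (j : ℝ) * h ≤ x n ∧ x n < ((j : ℝ) + 1) * h) →
      ∑ n ∈ S, ν n ≤ B) :
    ∑' n : ℕ, ENNReal.ofReal (ν n * x n ^ e * F (x n) ^ 2) ≤
      ENNReal.ofReal (4 * 4 ^ e * B / h) *
        (MM e F + ∫⁻ u in Ioi (0 : ℝ), ENNReal.ofReal (u ^ e) * A u) := by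
  classical
  obtain ⟨G, hG⟩ : ∃ G : ℝ → ℝ≥0∞, G = fun u =>
    ENNReal.ofReal (u ^ e * F u ^ 2) + ENNReal.ofReal (u ^ e) * A u := ⟨_, rfl⟩
  have hT : MM e F + ∫⁻ u in Ioi (0 : ℝ), ENNReal.ofReal (u ^ e) * A u =
      ∫⁻ u in Ioi (0 : ℝ), G u := by
    unfold MM
    rw [hG, lintegral_add_left]
    exact ((measurable_id.pow_const e).mul (hF.pow_const 2)).ennreal_ofReal
  rw [hT]
  obtain ⟨D, hD⟩ : ∃ D : ℕ → Set ℝ, D = fun i : ℕ => Ico (((i : ℝ) + 1 / 2) * h) (((i : ℝ) + 1) * h) :=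
    ⟨_, rfl⟩
  have hDm : ∀ i, MeasurableSet (D i) := fun i => by rw [hD]; exact measurableSet_Ico
  have hdisj : Pairwise (Function.onFun Disjoint D) := by
    intro i j hij
    refine Set.disjoint_left.2 ?_
    intro t ht1 ht2
    rw [hD] at ht1 ht2
    obtain ⟨h1, h2⟩ := ht1
    obtain ⟨h3, h4⟩ := ht2
    rcases lt_or_gt_of_ne hij with hlt | hlt
    · have h5 : ((i : ℝ) + 1) ≤ j := by exact_mod_cast hlt
      nlinarith
    · have h5 : ((j : ℝ) + 1) ≤ i := by exact_mod_cast hlt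
      nlinarith
  have hDsub : ⋃ i, D i ⊆ Ioi (0 : ℝ) := by
    refine Set.iUnion_subset fun i => ?_
    intro t ht
    rw [hD] at ht
    exact lt_of_lt_of_le (by positivity) ht.1
  have hsumD : ∑' i, ∫⁻ u in D i, G u ≤ ∫⁻ u in Ioi (0 : ℝ), G u := by
    rw [← lintegral_iUnion hDm hdisj]
    exact lintegral_mono_set hDsub
  have hvol : ∀ i, volume (D i) = ENNReal.ofReal (h / 2) := by
    intro i
    rw [hD, Real.volume_Ico]
    congr 1
    ring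
  -- one node
  have hnode : ∀ (i : ℕ) (y : ℝ), ((i : ℝ) + 1) * h ≤ y → y < ((i : ℝ) + 2) * h →
      ENNReal.ofReal (y ^ e * F y ^ 2) ≤ ENNReal.ofReal (4 * 4 ^ e / h) * ∫⁻ u in D i, G u := by
    intro i y hy1 hy2
    have h1 : ∀ u ∈ D i, ENNReal.ofReal (y ^ e * F y ^ 2) ≤ ENNReal.ofReal (2 * 4 ^ e) * G u := by
      intro u hu
      rw [hD] at hu
      obtain ⟨hu1, hu2⟩ := hu
      have hu0 : 0 < u := lt_of_lt_of_le (by positivity) hu1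
      rw [hG]
      refine up_point he F A hFA hu0 (hu2.le.trans hy1) ?_ ?_
      · nlinarith
      · have h3 : (0 : ℝ) ≤ (i : ℝ) * h := by positivity
        nlinarith
    have h2 : ENNReal.ofReal (y ^ e * F y ^ 2) * ENNReal.ofReal (h / 2) ≤
        ENNReal.ofReal (2 * 4 ^ e) * ∫⁻ u in D i, G u := by
      calc ENNReal.ofReal (y ^ e * F y ^ 2) * ENNReal.ofReal (h / 2)
          = ∫⁻ _ in D i, ENNReal.ofReal (y ^ e * F y ^ 2) := by rw [setLIntegral_const, hvol]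
        _ ≤ ∫⁻ u in D i, ENNReal.ofReal (2 * 4 ^ e) * G u := setLIntegral_mono' (hDm i) h1
        _ = _ := lintegral_const_mul' _ _ ENNReal.ofReal_ne_top
    have h3 : ENNReal.ofReal (h / 2) * ENNReal.ofReal (2 / h) = 1 := by
      rw [← ENNReal.ofReal_mul (by positivity)]
      rw [show h / 2 * (2 / h) = 1 by field_simp]
      exact ENNReal.ofReal_one
    calc ENNReal.ofReal (y ^ e * F y ^ 2)
        = ENNReal.ofReal (y ^ e * F y ^ 2) * ENNReal.ofReal (h / 2) * ENNReal.ofReal (2 / h) := by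
          rw [mul_assoc, h3, mul_one]
      _ ≤ (ENNReal.ofReal (2 * 4 ^ e) * ∫⁻ u in D i, G u) * ENNReal.ofReal (2 / h) := by
          gcongr
      _ = (ENNReal.ofReal (2 * 4 ^ e) * ENNReal.ofReal (2 / h)) * ∫⁻ u in D i, G u := by ring
      _ = _ := by
          rw [← ENNReal.ofReal_mul (by positivity)]
          congr 2
          ring
  -- the weights of a cell
  have hcell : ∀ i : ℕ, ∑' n : ℕ, (if ⌊x n / h⌋₊ = i + 1 then ENNReal.ofReal (ν n) else 0) ≤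
      ENNReal.ofReal B := by
    intro i
    rw [ENNReal.tsum_eq_iSup_sum]
    refine iSup_le fun S => ?_
    rw [← Finset.sum_filter, ← ENNReal.ofReal_sum_of_nonneg fun n _ => hν n]
    refine ENNReal.ofReal_le_ofReal (hc (i + 1) (by omega) _ ?_)
    intro n hn
    obtain ⟨-, hn2⟩ := Finset.mem_filter.mp hn
    obtain ⟨h1, h2⟩ := (Nat.floor_eq_iff' (by omega : i + 1 ≠ 0)).mp hn2
    rw [le_div_iff₀ hh] at h1
    rw [div_lt_iff₀ hh] at h2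
    exact ⟨h1, h2⟩
  -- one term
  have hterm : ∀ n, ENNReal.ofReal (ν n * x n ^ e * F (x n) ^ 2) ≤
      ∑' i : ℕ, (if ⌊x n / h⌋₊ = i + 1 then ENNReal.ofReal (ν n) else 0) *
        (ENNReal.ofReal (4 * 4 ^ e / h) * ∫⁻ u in D i, G u) := by
    intro n
    by_cases hn : ν n = 0
    · rw [hn, zero_mul, zero_mul, ENNReal.ofReal_zero]
      exact zero_le
    have hxn := hs n hn
    have hfl : 1 ≤ ⌊x n / h⌋₊ := by
      rw [Nat.one_le_floor_iff, le_div_iff₀ hh, one_mul]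
      exact hxn
    obtain ⟨i, hi⟩ : ∃ i, ⌊x n / h⌋₊ = i + 1 := ⟨⌊x n / h⌋₊ - 1, by omega⟩
    refine le_trans ?_ (ENNReal.le_tsum i)
    rw [if_pos hi, mul_assoc, ENNReal.ofReal_mul (hν n)]
    gcongr
    obtain ⟨h1, h2⟩ := (Nat.floor_eq_iff' (by omega : i + 1 ≠ 0)).mp hi
    rw [le_div_iff₀ hh] at h1
    rw [div_lt_iff₀ hh] at h2
    push_cast at h1 h2
    refine hnode i (x n) h1 ?_
    have h3 : ((i : ℝ) + 1 + 1) * h = ((i : ℝ) + 2) * h := by ring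
    rwa [h3] at h2
  calc ∑' n : ℕ, ENNReal.ofReal (ν n * x n ^ e * F (x n) ^ 2)
      ≤ ∑' n : ℕ, ∑' i : ℕ, (if ⌊x n / h⌋₊ = i + 1 then ENNReal.ofReal (ν n) else 0) *
        (ENNReal.ofReal (4 * 4 ^ e / h) * ∫⁻ u in D i, G u) := ENNReal.tsum_le_tsum hterm
    _ = ∑' i : ℕ, ∑' n : ℕ, (if ⌊x n / h⌋₊ = i + 1 then ENNReal.ofReal (ν n) else 0) *
        (ENNReal.ofReal (4 * 4 ^ e / h) * ∫⁻ u in D i, G u) := ENNReal.tsum_comm
    _ = ∑' i : ℕ, (∑' n : ℕ, (if ⌊x n / h⌋₊ = i + 1 then ENNReal.ofReal (ν n) else 0)) *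
        (ENNReal.ofReal (4 * 4 ^ e / h) * ∫⁻ u in D i, G u) := by
        simp only [ENNReal.tsum_mul_right]
    _ ≤ ∑' i : ℕ, ENNReal.ofReal B * (ENNReal.ofReal (4 * 4 ^ e / h) * ∫⁻ u in D i, G u) :=
        ENNReal.tsum_le_tsum fun i => mul_le_mul_left (hcell i) _
    _ = (ENNReal.ofReal B * ENNReal.ofReal (4 * 4 ^ e / h)) * ∑' i : ℕ, ∫⁻ u in D i, G u := by
        rw [← ENNReal.tsum_mul_left]
        simp only [mul_assoc]
    _ ≤ (ENNReal.ofReal B * ENNReal.ofReal (4 * 4 ^ e / h)) * ∫⁻ u in Ioi (0 : ℝ), G u := by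
        gcongr
    _ = _ := by
        rw [← ENNReal.ofReal_mul hB]
        congr 2
        ring

end Pool.Agent.H97.EP
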