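import Pool.Agent.H97.EP.AK
import Pool.Agent.H97.EP.AMass
import Pool.Agent.H97.EP.ALow
import Pool.Agent.H97.EP.AUp

/-!
# Project EP, module `AOne` : the three inequalities for one exponent `δ`
(assembly, helper95)
-/

set_option autoImplicit false
open MeasureTheory Set
open scoped ENNReal

namespace Pool.Agent.H97.EP

private theorem one_AA {w δ h : ℝ} (hδ : 0 < δ) (hδ4 : δ ≤ 1 / 4) (hw : 1 ≤ w) (hh : 0 < h) (f : VR) :
    ∫⁻ u in Ioi (0 : ℝ), ENNReal.ofReal (u ^ (w - δ)) * AA w (1 - δ) h f u ≤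
      ENNReal.ofReal (306 * h ^ (2 * (1 - δ))) * MM (w - δ) (pr w f) := by
  have h1 := AA_int (w := w) (s := 1 - δ) (h := h) (e := w - δ) (by linarith) (by linarith)
    (by linarith) hh f
  rwa [ident hδ.le (by linarith) f] at h1

private theorem one_absorb {N S : ℝ≥0∞} (hN : N < ⊤) (h : N ≤ S + ENNReal.ofReal (1 / 2) * N) :
    N ≤ 2 * S := by
  have h1 : ENNReal.ofReal (1 / 2) = (2 : ℝ≥0∞)⁻¹ := by
    rw [one_div, ENNReal.ofReal_inv_of_pos (by norm_num)]
    norm_num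
  rw [h1] at h
  by_cases hS : S = ⊤
  · rw [hS]; simp
  have e1 : (2 : ℝ≥0∞) * N ≤ 2 * S + N := by
    calc (2 : ℝ≥0∞) * N ≤ 2 * (S + 2⁻¹ * N) := by gcongr
      _ = 2 * S + (2 * 2⁻¹) * N := by ring
      _ = 2 * S + N := by rw [ENNReal.mul_inv_cancel (by norm_num) (by norm_num), one_mul]
  have e2 : N + N ≤ 2 * S + N := by rwa [← two_mul]
  exact (ENNReal.add_le_add_iff_right hN.ne).mp e2

/-- lower sampling with `h = 1/128` -/
theorem low1 {w δ : ℝ} (hδ : 0 < δ) (hδ4 : δ ≤ 1 / 4) (hw : 1 ≤ w) (f : VR)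
    (x : ℕ → ℝ) (hx : ∀ i : ℕ, ((i : ℝ) + 1) * (1 / 128) ≤ x i ∧ x i < ((i : ℝ) + 2) * (1 / 128)) :
    MM (w - δ) (pr w f) ≤ ∑' i : ℕ, ENNReal.ofReal (x i ^ (w - δ) * pr w f (x i) ^ 2) := by
  have hh : (0 : ℝ) < 1 / 128 := by norm_num
  have h1 := low_abs (e := w - δ) (by linarith) hh (pr w f) (pr_cont w f).measurable
    (AA w (1 - δ) (1 / 128) f) (AA_meas w (1 - δ) (1 / 128) f)
    (fun u x _ hux hx => kdiff (by linarith) (by linarith) hh f hux hx) x hx
  have h2 := one_AA hδ hδ4 hw hh f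
  have h3 : (2 : ℝ≥0∞) * ∫⁻ u in Ioi (0 : ℝ), ENNReal.ofReal (u ^ (w - δ)) *
      AA w (1 - δ) (1 / 128) f u ≤ ENNReal.ofReal (1 / 2) * MM (w - δ) (pr w f) := by
    calc (2 : ℝ≥0∞) * ∫⁻ u in Ioi (0 : ℝ), ENNReal.ofReal (u ^ (w - δ)) *
        AA w (1 - δ) (1 / 128) f u
        ≤ 2 * (ENNReal.ofReal (306 * (1 / 128) ^ (2 * (1 - δ))) * MM (w - δ) (pr w f)) := by
          gcongr
      _ = ENNReal.ofReal (2 * (306 * (1 / 128) ^ (2 * (1 - δ)))) * MM (w - δ) (pr w f) := by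
          rw [ENNReal.ofReal_mul (p := 2) (by norm_num), mul_assoc]
          congr 1
          simp
      _ ≤ ENNReal.ofReal (1 / 2) * MM (w - δ) (pr w f) := by
          gcongr
          have h4 : ((1 : ℝ) / 128) ^ (2 * (1 - δ)) ≤ (1 / 128) ^ (3 / 2 : ℝ) :=
            Real.rpow_le_rpow_of_exponent_ge (by norm_num) (by norm_num) (by linarith)
          have h5 : ((1 : ℝ) / 128) ^ (3 / 2 : ℝ) ≤ 1 / 1300 := by
            have h6 : (((1 : ℝ) / 128) ^ (3 / 2 : ℝ)) ^ 2 ≤ (1 / 1300) ^ 2 := by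
              rw [← Real.rpow_natCast, ← Real.rpow_mul (by norm_num)]
              have : ((3 / 2 : ℝ) * ((2 : ℕ) : ℝ)) = ((3 : ℕ) : ℝ) := by norm_num
              rw [this, Real.rpow_natCast]
              norm_num
            exact (pow_le_pow_iff_left₀ (by positivity) (by norm_num) (by norm_num)).1 h6
          linarith
  have h7 := one_absorb (MM_lt_top (by linarith) f) (h1.trans (add_le_add le_rfl h3))
  refine h7.trans ?_
  calc 2 * (ENNReal.ofReal (2 * (1 / 128)) *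
        ∑' i : ℕ, ENNReal.ofReal (x i ^ (w - δ) * pr w f (x i) ^ 2))
      = ENNReal.ofReal (2 * (2 * (1 / 128))) *
        ∑' i : ℕ, ENNReal.ofReal (x i ^ (w - δ) * pr w f (x i) ^ 2) := by
        have h9 : (2 : ℝ≥0∞) = ENNReal.ofReal 2 := by simp
        rw [ENNReal.ofReal_mul (p := 2) (q := 2 * (1 / 128)) (by norm_num), mul_assoc, ← h9]
    _ ≤ 1 * ∑' i : ℕ, ENNReal.ofReal (x i ^ (w - δ) * pr w f (x i) ^ 2) := by
        gcongr
        rw [← ENNReal.ofReal_one]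
        exact ENNReal.ofReal_le_ofReal (by norm_num)
    _ = _ := one_mul _

/-- upper sampling -/
theorem up1 {w δ h B : ℝ} (hδ : 0 < δ) (hδ4 : δ ≤ 1 / 4) (hw : 1 ≤ w) (hh : 0 < h) (hh1 : h ≤ 1) (f : VR)
    (x ν : ℕ → ℝ) (hν : ∀ n, 0 ≤ ν n) (hs : ∀ n, ν n ≠ 0 → h ≤ x n) (hB : 0 ≤ B)
    (hc : ∀ j : ℕ, 1 ≤ j → ∀ S : Finset ℕ, (∀ n ∈ S, (j : ℝ) * h ≤ x n ∧ x n < ((j : ℝ) + 1) * h) →
      ∑ n ∈ S, ν n ≤ B) :
    ∑' n : ℕ, ENNReal.ofReal (ν n * x n ^ (w - δ) * pr w f (x n) ^ 2) ≤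
      ENNReal.ofReal (1228 * 4 ^ w * B / h) * MM (w - δ) (pr w f) := by
  have h1 := up_abs (e := w - δ) (by linarith) hh (pr w f) (pr_cont w f).measurable
    (AA w (1 - δ) h f) (AA_meas w (1 - δ) h f)
    (fun u x _ hux hx => kdiff (by linarith) (by linarith) hh f hux hx) x ν hν hs hB hc
  have h2 := one_AA hδ hδ4 hw hh f
  refine h1.trans ?_
  have h3 : h ^ (2 * (1 - δ)) ≤ 1 := Real.rpow_le_one hh.le hh1 (by linarith)
  have h4 : (4 : ℝ) ^ (w - δ) ≤ 4 ^ w :=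
    Real.rpow_le_rpow_of_exponent_le (by norm_num) (by linarith)
  calc ENNReal.ofReal (4 * 4 ^ (w - δ) * B / h) *
        (MM (w - δ) (pr w f) + ∫⁻ u in Ioi (0 : ℝ), ENNReal.ofReal (u ^ (w - δ)) *
          AA w (1 - δ) h f u)
      ≤ ENNReal.ofReal (4 * 4 ^ w * B / h) *
        (MM (w - δ) (pr w f) + ENNReal.ofReal 306 * MM (w - δ) (pr w f)) := by
        refine mul_le_mul' (ENNReal.ofReal_le_ofReal ?_) (add_le_add le_rfl (h2.trans ?_))
        · gcongr
        · gcongr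
          linarith
    _ = ENNReal.ofReal (4 * 4 ^ w * B / h) * (ENNReal.ofReal 307 * MM (w - δ) (pr w f)) := by
        congr 1
        have : ENNReal.ofReal 307 = 1 + ENNReal.ofReal 306 := by
          rw [← ENNReal.ofReal_one, ← ENNReal.ofReal_add (by norm_num) (by norm_num)]
          norm_num
        rw [this, add_mul, one_mul]
    _ = _ := by
        rw [← mul_assoc, ← ENNReal.ofReal_mul (by positivity)]
        congr 2
        ring

/-- point evaluation -/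
theorem pt1 {w δ : ℝ} (hδ : 0 < δ) (hδ4 : δ ≤ 1 / 4) (hw : 1 ≤ w) (f : VR) {x : ℝ} (hx : 0 < x) :
    ENNReal.ofReal (x ^ (w - δ) * pr w f x ^ 2) ≤ 130 * MM (w - δ) (pr w f) := by
  have he : 0 ≤ w - δ := by linarith
  have hA := AA_half (w := w) (s := 1 - δ) he (by linarith) (by linarith) f hx
  rw [ident hδ.le (by linarith) f] at hA
  have h1 : ∀ u ∈ Ioc x (x + 1), ENNReal.ofReal (x ^ (w - δ) * pr w f x ^ 2) ≤
      2 * ENNReal.ofReal (u ^ (w - δ) * pr w f u ^ 2) + 128 * MM (w - δ) (pr w f) := by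
    intro u hu
    have hu0 : 0 < u := hx.trans hu.1
    have hK := kdiff (w := w) (s := 1 - δ) (h := 1 / 2) (by linarith) (by linarith) (by norm_num) f
      hu.1.le (by linarith [hu.2])
    have hxe : 0 ≤ x ^ (w - δ) := Real.rpow_nonneg hx.le _
    have h2 : x ^ (w - δ) * pr w f x ^ 2 ≤ 2 * (u ^ (w - δ) * pr w f u ^ 2) +
        2 * (x ^ (w - δ) * (pr w f x - pr w f u) ^ 2) := by
      have h3 : x ^ (w - δ) ≤ u ^ (w - δ) := Real.rpow_le_rpow hx.le hu.1.le he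
      have h4 : pr w f x ^ 2 ≤ 2 * pr w f u ^ 2 + 2 * (pr w f x - pr w f u) ^ 2 := by
        nlinarith [sq_nonneg (pr w f x - 2 * pr w f u)]
      calc x ^ (w - δ) * pr w f x ^ 2
          ≤ x ^ (w - δ) * (2 * pr w f u ^ 2 + 2 * (pr w f x - pr w f u) ^ 2) :=
            mul_le_mul_of_nonneg_left h4 hxe
        _ = 2 * (x ^ (w - δ) * pr w f u ^ 2) + 2 * (x ^ (w - δ) * (pr w f x - pr w f u) ^ 2) := by
            ring
        _ ≤ _ := by gcongr
    calc ENNReal.ofReal (x ^ (w - δ) * pr w f x ^ 2)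
        ≤ ENNReal.ofReal (2 * (u ^ (w - δ) * pr w f u ^ 2) +
          2 * (x ^ (w - δ) * (pr w f x - pr w f u) ^ 2)) := ENNReal.ofReal_le_ofReal h2
      _ ≤ ENNReal.ofReal (2 * (u ^ (w - δ) * pr w f u ^ 2)) +
          ENNReal.ofReal (2 * (x ^ (w - δ) * (pr w f x - pr w f u) ^ 2)) :=
          ENNReal.ofReal_add_le
      _ = 2 * ENNReal.ofReal (u ^ (w - δ) * pr w f u ^ 2) +
          2 * (ENNReal.ofReal (x ^ (w - δ)) * ENNReal.ofReal ((pr w f x - pr w f u) ^ 2)) := by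
          rw [ENNReal.ofReal_mul (p := 2) (by norm_num), ENNReal.ofReal_mul (p := 2) (by norm_num),
            ENNReal.ofReal_mul (p := x ^ (w - δ)) hxe]
          simp
      _ ≤ 2 * ENNReal.ofReal (u ^ (w - δ) * pr w f u ^ 2) +
          2 * (64 * MM (w - δ) (pr w f)) := by
          exact add_le_add le_rfl (mul_le_mul_right ((mul_le_mul_right hK _).trans hA) 2)
      _ = _ := by
          congr 1
          rw [← mul_assoc]
          norm_num
  calc ENNReal.ofReal (x ^ (w - δ) * pr w f x ^ 2)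
      = ∫⁻ _ in Ioc x (x + 1), ENNReal.ofReal (x ^ (w - δ) * pr w f x ^ 2) := by
        rw [setLIntegral_const, Real.volume_Ioc]
        simp
    _ ≤ ∫⁻ u in Ioc x (x + 1), (2 * ENNReal.ofReal (u ^ (w - δ) * pr w f u ^ 2) +
          128 * MM (w - δ) (pr w f)) := setLIntegral_mono' measurableSet_Ioc h1
    _ = 2 * (∫⁻ u in Ioc x (x + 1), ENNReal.ofReal (u ^ (w - δ) * pr w f u ^ 2)) +
          128 * MM (w - δ) (pr w f) := by
        rw [lintegral_add_right _ measurable_const, lintegral_const_mul' _ _ (by norm_num),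
          setLIntegral_const, Real.volume_Ioc]
        simp
    _ ≤ 2 * MM (w - δ) (pr w f) + 128 * MM (w - δ) (pr w f) := by
        gcongr
        unfold MM
        refine lintegral_mono_set ?_
        intro t ht
        exact hx.trans ht.1
    _ = _ := by
        rw [← add_mul]
        norm_num

end Pool.Agent.H97.EP
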