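import Pool.Agent.H97.EP.ADefs

/-!
# Project EP, module `ARep` : `p` from its fractional derivative; `Γ(s) ≥ 1` on `(0,1]`

`∫_0^∞ r^{s-1} e^{-tr} dr = Γ(s) t^{-s}` (`Real.integral_rpow_mul_exp_neg_mul_Ioi`), applied to the two
exponentials of every term: `t^s e^{-t(u+r)}` gives `Γ(s) e^{-tu}`, `t^{-w-s} e^{-(u+r)/t}` gives
`Γ(s) t^{-w} e^{-u/t}`.  Integrability: `integrableOn_rpow_mul_exp_neg_mul_rpow` or `GammaIntegral`.
`Γ(s) ≥ 1` for `0 < s ≤ 1`: `Real.convexOn_Gamma`, `Γ(1) = Γ(2) = 1`, `1` lies between `s` and `2`.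
`rep_diff`: for `τ = x - u ≥ 0` the substitution `r ↦ r - τ` in the second integral:
`∫_0^∞ r^{s-1} R(x+r) dr = ∫_{r>τ} (r-τ)^{s-1} R(u+r) dr`.
-/

set_option autoImplicit false
open MeasureTheory Set
open scoped ENNReal

namespace Pool.Agent.H97.EP

theorem one_le_Gamma {s : ℝ} (hs : 0 < s) (hs1 : s ≤ 1) : 1 ≤ Real.Gamma s := by
  have h2s : (0 : ℝ) < 2 - s := by linarith
  have h := Real.convexOn_Gamma.2 (show s ∈ Ioi (0 : ℝ) from hs)
    (show (2 : ℝ) ∈ Ioi (0 : ℝ) from by norm_num)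
    (show (0 : ℝ) ≤ 1 / (2 - s) by positivity)
    (show (0 : ℝ) ≤ (1 - s) / (2 - s) from div_nonneg (by linarith) h2s.le)
    (by field_simp; ring)
  have h1 : (1 / (2 - s)) • s + ((1 - s) / (2 - s)) • (2 : ℝ) = 1 := by
    rw [smul_eq_mul, smul_eq_mul]
    field_simp
    ring
  rw [h1, Real.Gamma_one, Real.Gamma_two, smul_eq_mul, smul_eq_mul, mul_one] at h
  have h3 : (1 / (2 - s)) * Real.Gamma s + (1 - s) / (2 - s) =
      (Real.Gamma s + (1 - s)) / (2 - s) := by
    field_simp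
  rw [h3, le_div_iff₀ h2s] at h
  linarith

private lemma arep_int {s a : ℝ} (hs : 0 < s) (ha : 0 < a) :
    IntegrableOn (fun r : ℝ => r ^ (s - 1) * Real.exp (-(a * r))) (Ioi 0) := by
  have h := integrableOn_rpow_mul_exp_neg_mul_rpow (s := s - 1) (p := 1) (b := a) (by linarith)
    one_pos ha
  refine h.congr_fun (fun r _ => ?_) measurableSet_Ioi
  simp only [Real.rpow_one, neg_mul]

private lemma arep_term {s : ℝ} (hs : 0 < s) (w t u : ℝ) (ht : 0 < t) :
    IntegrableOn (fun r : ℝ => r ^ (s - 1) * (t ^ s * Real.exp (-(t * (u + r))) -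
      t ^ (-w - s) * Real.exp (-((u + r) / t)))) (Ioi 0) ∧
    ∫ r in Ioi (0 : ℝ), r ^ (s - 1) * (t ^ s * Real.exp (-(t * (u + r))) -
      t ^ (-w - s) * Real.exp (-((u + r) / t))) =
      Real.Gamma s * (Real.exp (-(t * u)) - t ^ (-w) * Real.exp (-(u / t))) := by
  have hti : 0 < 1 / t := by positivity
  have i1 := arep_int hs ht
  have i2 := arep_int hs hti
  have e : ∀ r : ℝ, r ^ (s - 1) * (t ^ s * Real.exp (-(t * (u + r))) -
      t ^ (-w - s) * Real.exp (-((u + r) / t))) =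
      (t ^ s * Real.exp (-(t * u))) * (r ^ (s - 1) * Real.exp (-(t * r))) -
      (t ^ (-w - s) * Real.exp (-(u / t))) * (r ^ (s - 1) * Real.exp (-(1 / t * r))) := by
    intro r
    have h1 : Real.exp (-(t * (u + r))) = Real.exp (-(t * u)) * Real.exp (-(t * r)) := by
      rw [← Real.exp_add]
      congr 1
      ring
    have h2 : Real.exp (-((u + r) / t)) = Real.exp (-(u / t)) * Real.exp (-(1 / t * r)) := by
      rw [← Real.exp_add]
      congr 1
      ring
    rw [h1, h2]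
    ring
  simp only [e]
  refine ⟨(i1.const_mul _).sub (i2.const_mul _), ?_⟩
  rw [integral_sub (i1.const_mul _) (i2.const_mul _), integral_const_mul, integral_const_mul,
    Real.integral_rpow_mul_exp_neg_mul_Ioi hs ht, Real.integral_rpow_mul_exp_neg_mul_Ioi hs hti]
  have h3 : t ^ s * (1 / t) ^ s = 1 := by
    rw [← Real.mul_rpow ht.le hti.le, mul_one_div_cancel ht.ne', Real.one_rpow]
  have h4 : t ^ (-w - s) * (1 / (1 / t)) ^ s = t ^ (-w) := by
    rw [one_div_one_div, ← Real.rpow_add ht]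
    congr 1
    ring
  calc t ^ s * Real.exp (-(t * u)) * ((1 / t) ^ s * Real.Gamma s) -
      t ^ (-w - s) * Real.exp (-(u / t)) * ((1 / (1 / t)) ^ s * Real.Gamma s) =
      Real.Gamma s * ((t ^ s * (1 / t) ^ s) * Real.exp (-(t * u)) -
        (t ^ (-w - s) * (1 / (1 / t)) ^ s) * Real.exp (-(u / t))) := by ring
    _ = _ := by rw [h3, h4, one_mul]

theorem rep {w s : ℝ} (hs : 0 < s) (f : VR) (u : ℝ) :
    IntegrableOn (fun r : ℝ => r ^ (s - 1) * dr w s f (u + r)) (Ioi 0) ∧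
    ∫ r in Ioi (0 : ℝ), r ^ (s - 1) * dr w s f (u + r) = Real.Gamma s * pr w f u := by
  have e : (fun r : ℝ => r ^ (s - 1) * dr w s f (u + r)) = fun r : ℝ =>
      ∑ t ∈ f.support, f t * (r ^ (s - 1) * (t.1 ^ s * Real.exp (-(t.1 * (u + r))) -
        t.1 ^ (-w - s) * Real.exp (-((u + r) / t.1)))) := by
    funext r
    rw [dr, Finsupp.sum, Finset.mul_sum]
    refine Finset.sum_congr rfl fun t _ => ?_
    ring
  rw [e]
  have hi : ∀ t ∈ f.support, Integrable (fun r : ℝ => f t * (r ^ (s - 1) *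
      (t.1 ^ s * Real.exp (-(t.1 * (u + r))) - t.1 ^ (-w - s) * Real.exp (-((u + r) / t.1)))))
      (volume.restrict (Ioi 0)) := fun t _ => (arep_term hs w t.1 u t.2).1.const_mul _
  refine ⟨integrable_finsetSum _ hi, ?_⟩
  rw [integral_finsetSum _ hi, pr, Finsupp.sum, Finset.mul_sum]
  refine Finset.sum_congr rfl fun t _ => ?_
  rw [integral_const_mul, (arep_term hs w t.1 u t.2).2]
  ring

/-- The kernel of the difference. -/
noncomputable def GG (s τ r : ℝ) : ℝ := r ^ (s - 1) - if τ < r then (r - τ) ^ (s - 1) else 0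

private lemma arep_shift (s τ x u : ℝ) (R : ℝ → ℝ) (hτ : 0 ≤ τ) (hx : x = u + τ)
    (hi : IntegrableOn (fun r : ℝ => r ^ (s - 1) * R (x + r)) (Ioi 0)) :
    IntegrableOn (fun r : ℝ => (if τ < r then (r - τ) ^ (s - 1) else 0) * R (u + r)) (Ioi 0) ∧
    ∫ r in Ioi (0 : ℝ), (if τ < r then (r - τ) ^ (s - 1) else 0) * R (u + r) =
      ∫ r in Ioi (0 : ℝ), r ^ (s - 1) * R (x + r) := by
  have e : (Ioi (0 : ℝ)).indicator (fun r : ℝ => (if τ < r then (r - τ) ^ (s - 1) else 0) * R (u + r)) =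
      fun r => (Ioi (0 : ℝ)).indicator (fun r : ℝ => r ^ (s - 1) * R (x + r)) (r - τ) := by
    funext r
    by_cases h : τ < r
    · have h1 : r ∈ Ioi (0 : ℝ) := lt_of_le_of_lt hτ h
      have h2 : r - τ ∈ Ioi (0 : ℝ) := sub_pos.2 h
      rw [indicator_of_mem h1, indicator_of_mem h2, if_pos h, hx]
      congr 2
      ring
    · have h2 : r - τ ∉ Ioi (0 : ℝ) := fun h3 => h (sub_pos.1 h3)
      rw [indicator_of_notMem h2]
      by_cases h1 : r ∈ Ioi (0 : ℝ)
      · rw [indicator_of_mem h1, if_neg h, zero_mul]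
      · rw [indicator_of_notMem h1]
  constructor
  · rw [← integrable_indicator_iff measurableSet_Ioi, e]
    exact ((integrable_indicator_iff measurableSet_Ioi).2 hi).comp_sub_right τ
  · rw [← integral_indicator measurableSet_Ioi, e, integral_sub_right_eq_self
      ((Ioi (0 : ℝ)).indicator (fun r : ℝ => r ^ (s - 1) * R (x + r))) τ,
      integral_indicator measurableSet_Ioi]

theorem rep_diff {w s : ℝ} (hs : 0 < s) (hs1 : s ≤ 1) (f : VR) {u x : ℝ} (hux : u ≤ x) :
    |pr w f u - pr w f x| ≤ |∫ r in Ioi (0 : ℝ), GG s (x - u) r * dr w s f (u + r)| := by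
  obtain ⟨iu, eu⟩ := rep (w := w) hs f u
  obtain ⟨ix, ex⟩ := rep (w := w) hs f x
  obtain ⟨i2, e2⟩ := arep_shift s (x - u) x u (dr w s f) (by linarith) (by ring) ix
  have h1 : ∫ r in Ioi (0 : ℝ), GG s (x - u) r * dr w s f (u + r) =
      Real.Gamma s * (pr w f u - pr w f x) := by
    have h2 : (fun r : ℝ => GG s (x - u) r * dr w s f (u + r)) = fun r : ℝ =>
        r ^ (s - 1) * dr w s f (u + r) -
          (if x - u < r then (r - (x - u)) ^ (s - 1) else 0) * dr w s f (u + r) := by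
      funext r
      rw [GG, sub_mul]
    rw [h2, integral_sub iu i2, eu, e2, ex]
    ring
  rw [h1, abs_mul]
  have hG := one_le_Gamma hs hs1
  rw [abs_of_pos (by linarith : (0 : ℝ) < Real.Gamma s)]
  exact le_mul_of_one_le_left (abs_nonneg _) hG

end Pool.Agent.H97.EP
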