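import Mathlib

/-!
# Project EP, module `ARiesz` : abstract duality in `ℓ²`, with the representer in the closure of the range

Same as `Pool/Agent/H97/SD/Riesz.lean` (copy it), but with the closure `K` of the range of `Λ : V → ℓ²`,
`v ↦ (F_i v)_i` (a complete subspace, hence a Hilbert space): `L` induces a bounded functional on the range of
`Λ` of norm `≤ √C`, extend it by continuity (or Hahn-Banach on `ℓ²` and then project the representing vector onto
`K`) and represent it by `β ∈ K`, `‖β‖² ≤ C`.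
Point bound: `β = lim Λ v_k`; `(F_i v_k)² ≤ K_i ‖Λ v_k‖²` and coordinates are continuous, so `β_i² ≤ K_i ‖β‖² ≤ K_i C`.
(Equivalently: the set of `x ∈ ℓ²` with `x_i² ≤ K_i ‖x‖²` is closed and contains the range.)
-/

set_option autoImplicit false

namespace Pool.Agent.H97.EP

private theorem riesz_mem {ι : Type} (f : ι → ℝ) (hf : Summable fun i => (f i) ^ 2) :
    Memℓp (E := fun _ : ι => ℝ) f 2 := by
  refine memℓp_gen ?_
  refine hf.congr fun i => ?_
  simp

private theorem riesz_norm {ι : Type} (f : lp (fun _ : ι => ℝ) 2) :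
    ‖f‖ ^ 2 = ∑' i, (f i) ^ 2 := by
  have h := lp.norm_rpow_eq_tsum (p := 2) (by norm_num) f
  simpa using h

theorem riesz {V ι : Type} [AddCommGroup V] [Module ℝ V] (F : ι → V →ₗ[ℝ] ℝ)
    (hF : ∀ v, Summable fun i => (F i v) ^ 2) (L : V →ₗ[ℝ] ℝ) (C : ℝ) (hC : 0 ≤ C)
    (hL : ∀ v, (L v) ^ 2 ≤ C * ∑' i, (F i v) ^ 2) :
    ∃ β : ι → ℝ, (Summable fun i => (β i) ^ 2) ∧ ∑' i, (β i) ^ 2 ≤ C ∧
      (∀ v, HasSum (fun i => β i * F i v) (L v)) ∧
      ∀ (i : ι) (K : ℝ), 0 ≤ K → (∀ v, (F i v) ^ 2 ≤ K * ∑' j, (F j v) ^ 2) → (β i) ^ 2 ≤ K * C := by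
  classical
  let E := lp (fun _ : ι => ℝ) 2
  let Λ : V →ₗ[ℝ] E :=
    { toFun := fun v => ⟨fun i => F i v, riesz_mem _ (hF v)⟩
      map_add' := fun v w => by
        ext i
        exact (F i).map_add v w
      map_smul' := fun c v => by
        ext i
        exact (F i).map_smul c v }
  have hΛ : ∀ v i, (Λ v : ι → ℝ) i = F i v := fun v i => rfl
  have hn : ∀ v, ‖Λ v‖ ^ 2 = ∑' i, (F i v) ^ 2 := fun v => by
    rw [riesz_norm]
    simp only [hΛ]
  have hb : ∀ v, |L v| ≤ Real.sqrt C * ‖Λ v‖ := by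
    intro v
    have h1 := hL v
    rw [← hn v] at h1
    have h2 : (L v) ^ 2 ≤ (Real.sqrt C * ‖Λ v‖) ^ 2 := by
      rw [mul_pow, Real.sq_sqrt hC]
      exact h1
    exact abs_le_of_sq_le_sq h2 (by positivity)
  have hker : LinearMap.ker Λ ≤ LinearMap.ker L := by
    intro v hv
    rw [LinearMap.mem_ker] at hv ⊢
    have h1 := hb v
    rw [hv, norm_zero, mul_zero] at h1
    exact abs_nonpos_iff.1 h1
  let g : LinearMap.range Λ →ₗ[ℝ] ℝ :=
    (LinearMap.ker Λ).liftQ L hker ∘ₗ Λ.quotKerEquivRange.symm.toLinearMap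
  have hg : ∀ v, g ⟨Λ v, v, rfl⟩ = L v := by
    intro v
    have h1 : Λ.quotKerEquivRange.symm ⟨Λ v, v, rfl⟩ = (LinearMap.ker Λ).mkQ v := by
      rw [LinearEquiv.symm_apply_eq]
      rfl
    simp only [g, LinearMap.comp_apply, LinearEquiv.coe_coe, h1]
    simp
  have hgb : ∀ x : LinearMap.range Λ, ‖g x‖ ≤ Real.sqrt C * ‖x‖ := by
    rintro ⟨x, v, rfl⟩
    have h1 := hb v
    rw [hg v]
    exact h1
  let f : LinearMap.range Λ →L[ℝ] ℝ := g.mkContinuous (Real.sqrt C) hgb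
  have hfn : ‖f‖ ≤ Real.sqrt C := LinearMap.mkContinuous_norm_le _ (Real.sqrt_nonneg C) hgb
  obtain ⟨G, hG, hGn⟩ := exists_extension_norm_eq (LinearMap.range Λ) f
  let β0 : E := (InnerProductSpace.toDual ℝ E).symm G
  have hβ0 : ‖β0‖ ≤ Real.sqrt C := by
    have h1 : ‖β0‖ = ‖G‖ := (InnerProductSpace.toDual ℝ E).symm.norm_map G
    rw [h1, hGn]
    exact hfn
  let K0 : Submodule ℝ E := (LinearMap.range Λ).topologicalClosure
  have : CompleteSpace K0 := Submodule.topologicalClosure.completeSpace _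
  let β : E := K0.starProjection β0
  have hβK : β ∈ K0 := Submodule.starProjection_apply_mem K0 β0
  have hβn : ‖β‖ ≤ Real.sqrt C := (Submodule.norm_starProjection_apply_le K0 β0).trans hβ0
  have hβ2 : ‖β‖ ^ 2 ≤ C := by
    have h1 : ‖β‖ ^ 2 ≤ Real.sqrt C ^ 2 := pow_le_pow_left₀ (norm_nonneg β) hβn 2
    rwa [Real.sq_sqrt hC] at h1
  refine ⟨fun i => β i, ?_, ?_, ?_, ?_⟩
  · have h1 := lp.memℓp β
    have h2 := h1.summable (by norm_num : 0 < (2 : ENNReal).toReal)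
    refine h2.congr fun i => ?_
    simp
  · rw [← riesz_norm β]
    exact hβ2
  · intro v
    have h1 := lp.hasSum_inner (𝕜 := ℝ) β (Λ v)
    have hmem : Λ v ∈ K0 := Submodule.le_topologicalClosure _ ⟨v, rfl⟩
    have h2 : inner ℝ β (Λ v) = L v := by
      have h3 : inner ℝ β0 (Λ v) = G (Λ v) := InnerProductSpace.toDual_symm_apply
      have h4 : inner ℝ β (Λ v) = inner ℝ β0 (Λ v) := by
        have h5 := Submodule.inner_starProjection_left_eq_right K0 β0 (Λ v)
        rw [Submodule.starProjection_eq_self_iff.mpr hmem] at h5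
        exact h5
      rw [h4, h3, hG ⟨Λ v, v, rfl⟩]
      exact hg v
    rw [h2] at h1
    have h4 : (fun i => inner ℝ ((β : ι → ℝ) i) ((Λ v : ι → ℝ) i)) = fun i => β i * F i v := by
      funext i
      rw [hΛ]
      simp [mul_comm]
    rw [h4] at h1
    exact h1
  · intro i K hK hFK
    have hclosed : IsClosed {x : E | ((x : ι → ℝ) i) ^ 2 ≤ K * ‖x‖ ^ 2} := by
      refine isClosed_le ?_ (continuous_const.mul (continuous_norm.pow 2))
      exact ((continuous_apply i).comp (lp.uniformContinuous_coe (p := 2)).continuous).pow 2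
    have hsub : ((LinearMap.range Λ : Submodule ℝ E) : Set E) ⊆
        {x : E | ((x : ι → ℝ) i) ^ 2 ≤ K * ‖x‖ ^ 2} := by
      rintro x ⟨v, rfl⟩
      change ((Λ v : ι → ℝ) i) ^ 2 ≤ K * ‖Λ v‖ ^ 2
      rw [hΛ, hn v]
      exact hFK v
    have h1 : β ∈ {x : E | ((x : ι → ℝ) i) ^ 2 ≤ K * ‖x‖ ^ 2} :=
      closure_minimal hsub hclosed hβK
    have h2 : ((β : ι → ℝ) i) ^ 2 ≤ K * ‖β‖ ^ 2 := h1
    exact h2.trans (mul_le_mul_of_nonneg_left hβ2 hK)

end Pool.Agent.H97.EP
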