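import Pool.Agent.H97.EP.ABes
import Pool.Agent.H97.EP.ADec
import Pool.Agent.H97.EP.ARiesz

/-!
# Project EP, module `ASol` : the linear solver (helper95)

`ω_n = n^κ/log n` for the primes `n` with `u_n ≥ 1/128`, `F_n f = √ω_n p(u_n)`.
`NQ ≤ C₂ Q^{-(1+κ)} ∑ (F_n f)²` (`sol_low`), `(F_n f)² ≤ K_n ∑ (F_m f)²` (`NQ_pt`), then `riesz`.
-/

set_option autoImplicit false
open MeasureTheory Set
open scoped ENNReal

namespace Pool.Agent.H97.EP

private noncomputable def sol_L (w u : ℝ) : VR →ₗ[ℝ] ℝ where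
  toFun := fun f => pr w f u
  map_add' := fun f g => pr_add w f g u
  map_smul' := fun c f => by rw [pr_smul, RingHom.id_apply, smul_eq_mul]

open Classical in
private noncomputable def sol_om (d Q : ℝ) (n : ℕ) : ℝ :=
  if n.Prime ∧ 1 / 128 ≤ nd d Q n then (n : ℝ) ^ (2 / d) / Real.log n else 0

private theorem sol_om_nonneg (d Q : ℝ) (n : ℕ) : 0 ≤ sol_om d Q n := by
  unfold sol_om
  split_ifs with h
  · have h1 : (1 : ℝ) ≤ n := by exact_mod_cast h.1.one_le
    have := Real.log_nonneg h1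
    positivity
  · exact le_rfl

private noncomputable def sol_F (d Q : ℝ) (n : ℕ) : VR →ₗ[ℝ] ℝ :=
  Real.sqrt (sol_om d Q n) • sol_L (d / 2) (nd d Q n)

private theorem sol_F_apply (d Q : ℝ) (n : ℕ) (f : VR) :
    sol_F d Q n f = Real.sqrt (sol_om d Q n) * pr (d / 2) f (nd d Q n) := rfl

private theorem sol_F_sq (d Q : ℝ) (n : ℕ) (f : VR) :
    (sol_F d Q n f) ^ 2 = sol_om d Q n * pr (d / 2) f (nd d Q n) ^ 2 := by
  rw [sol_F_apply, mul_pow, Real.sq_sqrt (sol_om_nonneg d Q n)]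

private theorem sol_log {n : ℕ} (hn : n.Prime) : 1 / 2 ≤ Real.log n := by
  have h2 : (2 : ℝ) ≤ n := by exact_mod_cast hn.two_le
  have h3 : Real.log 2 ≤ Real.log n := Real.log_le_log (by norm_num) h2
  have := Real.log_two_gt_d9
  linarith

private theorem sol_F_sum {d Q : ℝ} (hd : 4 < d) (hQ : 0 < Q) (f : VR) :
    Summable fun n : ℕ => (sol_F d Q n f) ^ 2 := by
  refine Summable.of_nonneg_of_le (fun n => sq_nonneg _) (fun n => ?_)
    ((pr_sq_summable hd hQ f).mul_left 2)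
  rw [sol_F_sq]
  by_cases h : n.Prime ∧ 1 / 128 ≤ nd d Q n
  · have h1 : sol_om d Q n ≤ 2 * (n : ℝ) ^ (2 / d) := by
      unfold sol_om
      rw [if_pos h, div_le_iff₀ (by linarith [sol_log h.1])]
      have h2 := sol_log h.1
      have h3 : (0 : ℝ) ≤ (n : ℝ) ^ (2 / d) := by positivity
      nlinarith
    calc sol_om d Q n * pr (d / 2) f (nd d Q n) ^ 2
        ≤ 2 * (n : ℝ) ^ (2 / d) * pr (d / 2) f (nd d Q n) ^ 2 := by gcongr
      _ = _ := by ring
  · have h1 : sol_om d Q n = 0 := by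
      unfold sol_om
      rw [if_neg h]
    rw [h1, zero_mul]
    positivity

private theorem sol_sum_disj (J : ℕ → Finset ℕ) (hJ : ∀ i i' j, j ∈ J i → j ∈ J i' → i = i')
    (g : ℕ → ℝ≥0∞) : ∑' i, ∑ j ∈ J i, g j ≤ ∑' j, g j := by
  classical
  have h1 : ∀ i, ∑ j ∈ J i, g j = ∑' j, if j ∈ J i then g j else 0 := by
    intro i
    rw [tsum_eq_sum (s := J i) (fun j hj => if_neg hj)]
    exact Finset.sum_congr rfl fun j hj => (if_pos hj).symm
  simp only [h1]
  rw [ENNReal.tsum_comm]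
  refine ENNReal.tsum_le_tsum fun j => ?_
  by_cases hj : ∃ i, j ∈ J i
  · obtain ⟨i0, hi0⟩ := hj
    rw [tsum_eq_single i0 (fun i hi => if_neg fun h => hi (hJ i i0 j h hi0)), if_pos hi0]
  · push Not at hj
    simp only [hj, if_false, tsum_zero, zero_le]

private theorem sol_low {d θ : ℝ} (hd : 4 < d) (hP : PrimesIn θ) (hθ : θ ≤ 1 - 2/d) :
    ∃ Q0 C : ℝ, 1 ≤ Q0 ∧ 0 < C ∧ ∀ Q : ℝ, Q0 ≤ Q → ∀ f : VR,
      NQ d Q (pr (d / 2) f) ≤
        ENNReal.ofReal (C * Q ^ (-(1 + 2/d)) * ∑' n : ℕ, (sol_F d Q n f) ^ 2) := by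
  obtain ⟨Q0, c, hQ0, hc, hnod⟩ := nodes (h := 1 / 128) hd hP hθ (by norm_num)
  obtain ⟨C1, hC1, hlow⟩ := NQ_low hd
  refine ⟨Q0, C1 / c, hQ0, by positivity, ?_⟩
  intro Q hQ f
  have hQ1 : 1 ≤ Q := hQ0.trans hQ
  have hQp : 0 < Q := by linarith
  have hS := fun i : ℕ => hnod Q hQ (i + 1) (Nat.succ_pos i)
  choose S hSne hSp using hS
  have hmem : ∀ i, ∀ p ∈ S i, p.Prime ∧ ((i : ℝ) + 1) * (1 / 128) ≤ nd d Q p ∧
      nd d Q p < ((i : ℝ) + 2) * (1 / 128) := by
    intro i p hp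
    obtain ⟨h1, h2, h3, -⟩ := hSp i p hp
    push_cast at h2 h3
    refine ⟨h1, h2, ?_⟩
    have : ((i : ℝ) + 1 + 1) = (i : ℝ) + 2 := by ring
    rwa [this] at h3
  have hdisj : ∀ i i' j, j ∈ S i → j ∈ S i' → i = i' := by
    intro i i' j h1 h2
    obtain ⟨-, a1, a2⟩ := hmem i j h1
    obtain ⟨-, b1, b2⟩ := hmem i' j h2
    have c1 : (i : ℝ) + 1 < (i' : ℝ) + 2 := by linarith
    have c2 : (i' : ℝ) + 1 < (i : ℝ) + 2 := by linarith
    have e1 : i + 1 < i' + 2 := by exact_mod_cast c1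
    have e2 : i' + 1 < i + 2 := by exact_mod_cast c2
    omega
  obtain ⟨g, hg⟩ : ∃ g : ℕ → ℝ, ∀ p, g p = (p : ℝ) / Q * (1 + Real.log p) ^ (-2 : ℝ) *
      pr (d / 2) f (nd d Q p) ^ 2 := ⟨_, fun _ => rfl⟩
  have hmin : ∀ i, ∃ p ∈ S i, ∀ q ∈ S i, g p ≤ g q := fun i =>
    Finset.exists_min_image (S i) g (hSne i)
  choose p hpS hpmin using hmin
  have h1 := hlow Q hQ1 f p (fun i => ⟨(hmem i (p i) (hpS i)).1.one_le,
    (hmem i (p i) (hpS i)).2.1, (hmem i (p i) (hpS i)).2.2⟩)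
  have hcell : ∀ i, g (p i) ≤ ∑ q ∈ S i, 1 / c * Q ^ (-(1 + 2/d)) * (sol_F d Q q f) ^ 2 := by
    intro i
    have hcard : (0 : ℝ) < (S i).card := by exact_mod_cast Finset.card_pos.2 (hSne i)
    have h2 : (S i).card * g (p i) ≤ ∑ q ∈ S i, g q := by
      have := Finset.card_nsmul_le_sum (S i) g (g (p i)) (fun q hq => hpmin i q hq)
      rwa [nsmul_eq_mul] at this
    have h3 : ∀ q ∈ S i, g q ≤ (S i).card * (1 / c * Q ^ (-(1 + 2/d)) * (sol_F d Q q f) ^ 2) := by
      intro q hq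
      obtain ⟨hqp, hq1, hq2⟩ := hmem i q hq
      have hq4 := (hSp i q hq).2.2.2
      have hq128 : 1 / 128 ≤ nd d Q q := by
        refine le_trans ?_ hq1
        have : (0 : ℝ) ≤ i := Nat.cast_nonneg i
        linarith
      have hlog := sol_log hqp
      have hlog0 : 0 < Real.log q := by linarith
      have hq0 : (0 : ℝ) < q := by exact_mod_cast hqp.pos
      rw [hg, sol_F_sq]
      have hom : sol_om d Q q = (q : ℝ) ^ (2 / d) / Real.log q := by
        unfold sol_om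
        rw [if_pos ⟨hqp, hq128⟩]
      rw [hom]
      have e1 : (1 + Real.log q) ^ (-2 : ℝ) ≤ (Real.log q ^ 2)⁻¹ := by
        have : (1 + Real.log q) ^ (-2 : ℝ) = ((1 + Real.log q) ^ 2)⁻¹ := by
          rw [Real.rpow_neg (by linarith)]
          norm_num
        rw [this]
        exact inv_anti₀ (by positivity) (by gcongr; linarith)
      have e2 : Q ^ (-(1 + 2 / d)) = (Q * Q ^ (2 / d))⁻¹ := by
        rw [Real.rpow_neg hQp.le, Real.rpow_add hQp, Real.rpow_one]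
      have e3 : (q : ℝ) = (q : ℝ) ^ (1 - 2 / d) * (q : ℝ) ^ (2 / d) := by
        rw [← Real.rpow_add hq0]
        norm_num
      rw [e2]
      have hqk : 0 < (q : ℝ) ^ (2 / d) := by positivity
      have hQk : 0 < Q ^ (2 / d) := by positivity
      have hq1k : 0 < (q : ℝ) ^ (1 - 2 / d) := by positivity
      calc (q : ℝ) / Q * (1 + Real.log q) ^ (-2 : ℝ) * pr (d / 2) f (nd d Q q) ^ 2
          ≤ (q : ℝ) / Q * (Real.log q ^ 2)⁻¹ * pr (d / 2) f (nd d Q q) ^ 2 := by gcongr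
        _ = (c * (Q ^ (2 / d) * (q : ℝ) ^ (1 - 2 / d))) * (1 / c * (Q * Q ^ (2 / d))⁻¹ *
            ((q : ℝ) ^ (2 / d) / Real.log q ^ 2 * pr (d / 2) f (nd d Q q) ^ 2)) := by
            have e4 : (q : ℝ) / Q = (q : ℝ) ^ (1 - 2 / d) * (q : ℝ) ^ (2 / d) / Q := by
              rw [← e3]
            rw [e4]
            generalize (q : ℝ) ^ (1 - 2 / d) = X at *
            generalize (q : ℝ) ^ (2 / d) = Y at *
            generalize Q ^ (2 / d) = Z at *
            generalize Real.log q = l at *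
            generalize pr (d / 2) f (nd d Q q) = m at *
            field_simp
        _ ≤ ((S i).card * Real.log q) * (1 / c * (Q * Q ^ (2 / d))⁻¹ *
            ((q : ℝ) ^ (2 / d) / Real.log q ^ 2 * pr (d / 2) f (nd d Q q) ^ 2)) := by gcongr
        _ = _ := by
            generalize (q : ℝ) ^ (2 / d) = Y at *
            generalize Q ^ (2 / d) = Z at *
            generalize Real.log q = l at *
            generalize pr (d / 2) f (nd d Q q) = m at *
            generalize ((S i).card : ℝ) = k at *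
            field_simp
    have h4 : (S i).card * g (p i) ≤ (S i).card *
        ∑ q ∈ S i, 1 / c * Q ^ (-(1 + 2/d)) * (sol_F d Q q f) ^ 2 := by
      rw [Finset.mul_sum]
      exact h2.trans (Finset.sum_le_sum h3)
    exact le_of_mul_le_mul_left h4 hcard
  have hnn : ∀ n, 0 ≤ 1 / c * Q ^ (-(1 + 2/d)) * (sol_F d Q n f) ^ 2 := fun n => by positivity
  have h5 : ∑' i : ℕ, ENNReal.ofReal (g (p i)) ≤
      ENNReal.ofReal (1 / c * Q ^ (-(1 + 2/d)) * ∑' n : ℕ, (sol_F d Q n f) ^ 2) := by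
    calc ∑' i : ℕ, ENNReal.ofReal (g (p i))
        ≤ ∑' i : ℕ, ∑ q ∈ S i, ENNReal.ofReal (1 / c * Q ^ (-(1 + 2/d)) *
          (sol_F d Q q f) ^ 2) := by
          refine ENNReal.tsum_le_tsum fun i => ?_
          rw [← ENNReal.ofReal_sum_of_nonneg fun q _ => hnn q]
          exact ENNReal.ofReal_le_ofReal (hcell i)
      _ ≤ ∑' n : ℕ, ENNReal.ofReal (1 / c * Q ^ (-(1 + 2/d)) * (sol_F d Q n f) ^ 2) :=
          sol_sum_disj S hdisj _
      _ = _ := by
          rw [← ENNReal.ofReal_tsum_of_nonneg hnn ((sol_F_sum hd hQp f).mul_left _),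
            tsum_mul_left]
  simp only [← hg] at h1
  calc NQ d Q (pr (d / 2) f) ≤ ENNReal.ofReal C1 * ∑' i : ℕ, ENNReal.ofReal (g (p i)) := h1
    _ ≤ ENNReal.ofReal C1 * ENNReal.ofReal (1 / c * Q ^ (-(1 + 2/d)) *
        ∑' n : ℕ, (sol_F d Q n f) ^ 2) := mul_le_mul_right h5 _
    _ = _ := by
        rw [← ENNReal.ofReal_mul hC1.le]
        congr 1
        ring

theorem solver {d θ : ℝ} (hd : 4 < d) (hP : PrimesIn θ) (hθ : θ ≤ 1 - 2/d) :
    ∃ h Q0 C : ℝ, 0 < h ∧ h ≤ 1 ∧ 1 ≤ Q0 ∧ 0 < C ∧ ∀ Q : ℝ, Q0 ≤ Q →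
    ∀ (L : VR →ₗ[ℝ] ℝ) (M : ℝ), 0 ≤ M →
    (∀ f, ENNReal.ofReal ((L f) ^ 2) ≤ ENNReal.ofReal M * NQ d Q (pr (d/2) f)) →
    ∃ β : ℕ → ℝ, (∀ n, β n ≠ 0 → n.Prime ∧ h ≤ nd d Q n) ∧
      (Summable fun n : ℕ => β n ^ 2 * ((n:ℝ) ^ (-(2/d)) * Real.log n)) ∧
      ∑' n : ℕ, β n ^ 2 * ((n:ℝ) ^ (-(2/d)) * Real.log n) ≤ C * Q ^ (-(1 + 2/d)) * M ∧
      (∀ n : ℕ, |β n| ≤ C * Q ^ (-(2/d) - 1/2) * (n:ℝ) ^ (2/d - 1/2) * Real.sqrt M) ∧
      ∀ f, HasSum (fun n => β n * pr (d/2) f (nd d Q n)) (L f) := by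
  obtain ⟨Q0, C2, hQ0, hC2, hlow⟩ := sol_low hd hP hθ
  obtain ⟨Cp, hCp, hpt⟩ := NQ_pt hd
  refine ⟨1 / 128, Q0, C2 + 3 * Real.sqrt Cp * C2, by norm_num, by norm_num, hQ0, by positivity, ?_⟩
  intro Q hQ L M hM hL
  have hQ1 : 1 ≤ Q := hQ0.trans hQ
  have hQp : 0 < Q := by linarith
  have hd0 : 0 < d := by linarith
  obtain ⟨R, hR⟩ : ∃ R : ℝ, R = C2 * Q ^ (-(1 + 2/d)) := ⟨_, rfl⟩
  have hR0 : 0 < R := by rw [hR]; positivity
  have hT0 : ∀ f, 0 ≤ ∑' n : ℕ, (sol_F d Q n f) ^ 2 := fun f => tsum_nonneg fun n => sq_nonneg _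
  have hlow' : ∀ f, NQ d Q (pr (d / 2) f) ≤
      ENNReal.ofReal (R * ∑' n : ℕ, (sol_F d Q n f) ^ 2) := by
    intro f
    rw [hR]
    exact hlow Q hQ f
  have hLb : ∀ f, (L f) ^ 2 ≤ (R * M) * ∑' n : ℕ, (sol_F d Q n f) ^ 2 := by
    intro f
    have h1 : ENNReal.ofReal ((L f) ^ 2) ≤
        ENNReal.ofReal (M * (R * ∑' n : ℕ, (sol_F d Q n f) ^ 2)) := by
      rw [ENNReal.ofReal_mul hM]
      exact (hL f).trans (mul_le_mul_right (hlow' f) _)
    have h2 : 0 ≤ M * (R * ∑' n : ℕ, (sol_F d Q n f) ^ 2) :=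
      mul_nonneg hM (mul_nonneg hR0.le (hT0 f))
    have h3 := (ENNReal.ofReal_le_ofReal_iff h2).1 h1
    linarith
  obtain ⟨β, hβs, hβC, hβL, hβp⟩ := riesz (sol_F d Q) (sol_F_sum hd hQp) L (R * M)
    (by positivity) hLb
  have hom0 : ∀ n, 0 ≤ sol_om d Q n := sol_om_nonneg d Q
  have hact : ∀ n, sol_om d Q n ≠ 0 → n.Prime ∧ 1 / 128 ≤ nd d Q n := by
    intro n hn
    by_contra hcon
    apply hn
    unfold sol_om
    rw [if_neg hcon]
  have hval : ∀ n, sol_om d Q n ≠ 0 → sol_om d Q n = (n : ℝ) ^ (2 / d) / Real.log n := by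
    intro n hn
    unfold sol_om
    rw [if_pos (hact n hn)]
  have hterm : ∀ n, (Real.sqrt (sol_om d Q n) * β n) ^ 2 * ((n:ℝ) ^ (-(2/d)) * Real.log n) ≤
      β n ^ 2 := by
    intro n
    rw [mul_pow, Real.sq_sqrt (hom0 n)]
    by_cases hn : sol_om d Q n = 0
    · rw [hn]
      simp only [zero_mul]
      positivity
    · have hp := hact n hn
      have hlog : 0 < Real.log n := by linarith [sol_log hp.1]
      have hn0 : (0 : ℝ) < n := by exact_mod_cast hp.1.pos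
      rw [hval n hn, Real.rpow_neg hn0.le]
      refine le_of_eq ?_
      have : 0 < (n : ℝ) ^ (2 / d) := by positivity
      field_simp
  have hnnl : ∀ n : ℕ, 0 ≤ (n:ℝ) ^ (-(2/d)) * Real.log n := by
    intro n
    rcases Nat.eq_zero_or_pos n with h0 | h0
    · simp [h0]
    · have h1 : (1 : ℝ) ≤ n := by exact_mod_cast h0
      have := Real.log_nonneg h1
      positivity
  have hsumm : Summable fun n : ℕ => (Real.sqrt (sol_om d Q n) * β n) ^ 2 *
      ((n:ℝ) ^ (-(2/d)) * Real.log n) :=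
    Summable.of_nonneg_of_le (fun n => mul_nonneg (sq_nonneg _) (hnnl n)) hterm hβs
  refine ⟨fun n => Real.sqrt (sol_om d Q n) * β n, ?_, hsumm, ?_, ?_, ?_⟩
  · intro n hn
    refine hact n fun h0 => hn ?_
    simp only [h0, Real.sqrt_zero, zero_mul]
  · have h1 := (hsumm.tsum_le_tsum hterm hβs).trans hβC
    refine h1.trans ?_
    rw [hR]
    have h2 : 0 ≤ 3 * Real.sqrt Cp * C2 * Q ^ (-(1 + 2/d)) * M := by positivity
    linarith
  · intro n
    by_cases hn : sol_om d Q n = 0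
    · simp only [hn, Real.sqrt_zero, zero_mul, abs_zero]
      positivity
    · have hp := hact n hn
      have hlog1 := sol_log hp.1
      have hlog : 0 < Real.log n := by linarith
      have hn1 : 1 ≤ n := hp.1.one_le
      have hn0 : (0 : ℝ) < n := by exact_mod_cast hp.1.pos
      have hKn : ∀ f, (sol_F d Q n f) ^ 2 ≤ (sol_om d Q n * (Q / n) * (1 + Real.log n) ^ 2 *
          Cp * R) * ∑' m : ℕ, (sol_F d Q m f) ^ 2 := by
        intro f
        have h1 := (hpt Q hQ1 f n hn1).trans (mul_le_mul_right (hlow' f) _)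
        rw [← ENNReal.ofReal_mul hCp.le] at h1
        have h2 : 0 ≤ Cp * (R * ∑' n : ℕ, (sol_F d Q n f) ^ 2) :=
          mul_nonneg hCp.le (mul_nonneg hR0.le (hT0 f))
        have h3 := (ENNReal.ofReal_le_ofReal_iff h2).1 h1
        have h4 : (1 + Real.log n) ^ (-2 : ℝ) = ((1 + Real.log n) ^ 2)⁻¹ := by
          rw [Real.rpow_neg (by linarith)]
          norm_num
        rw [h4] at h3
        have hl1 : 0 < 1 + Real.log n := by linarith
        rw [sol_F_sq]
        calc sol_om d Q n * pr (d / 2) f (nd d Q n) ^ 2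
            = sol_om d Q n * (Q / n) * (1 + Real.log n) ^ 2 * ((n : ℝ) / Q *
              ((1 + Real.log n) ^ 2)⁻¹ * pr (d / 2) f (nd d Q n) ^ 2) := by
              field_simp
          _ ≤ sol_om d Q n * (Q / n) * (1 + Real.log n) ^ 2 *
              (Cp * (R * ∑' m : ℕ, (sol_F d Q m f) ^ 2)) := by
              have := hom0 n
              gcongr
          _ = _ := by ring
      have hK0 : 0 ≤ sol_om d Q n * (Q / n) * (1 + Real.log n) ^ 2 * Cp * R := by
        have := hom0 n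
        positivity
      have h5 := hβp n _ hK0 hKn
      have h6 : (1 + Real.log n) ^ 2 ≤ 9 * Real.log n ^ 2 := by nlinarith
      have h7 : (Real.sqrt (sol_om d Q n) * β n) ^ 2 ≤
          (3 * Real.sqrt Cp * C2 * Q ^ (-(2/d) - 1/2) * (n:ℝ) ^ (2/d - 1/2) * Real.sqrt M) ^ 2 := by
        rw [mul_pow, Real.sq_sqrt (hom0 n)]
        calc sol_om d Q n * β n ^ 2 ≤ sol_om d Q n *
              ((sol_om d Q n * (Q / n) * (1 + Real.log n) ^ 2 * Cp * R) * (R * M)) := by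
              have := hom0 n
              gcongr
          _ = sol_om d Q n ^ 2 * (1 + Real.log n) ^ 2 * (Q / n * Cp * R ^ 2 * M) := by ring
          _ ≤ sol_om d Q n ^ 2 * (9 * Real.log n ^ 2) * (Q / n * Cp * R ^ 2 * M) := by
              gcongr
          _ = _ := by
              rw [hval n hn, hR]
              have e1 : (Q ^ (-(2/d) - 1/2)) ^ 2 = Q * (Q ^ (-(1 + 2/d))) ^ 2 := by
                rw [← Real.rpow_natCast, ← Real.rpow_mul hQp.le, ← Real.rpow_natCast,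
                  ← Real.rpow_mul hQp.le]
                nth_rewrite 2 [← Real.rpow_one Q]
                rw [← Real.rpow_add hQp]
                congr 1
                push_cast
                ring
              have e2 : ((n:ℝ) ^ (2/d - 1/2)) ^ 2 = ((n : ℝ) ^ (2 / d)) ^ 2 / n := by
                rw [← Real.rpow_natCast, ← Real.rpow_mul hn0.le, ← Real.rpow_natCast,
                  ← Real.rpow_mul hn0.le, ← Real.rpow_sub_one hn0.ne']
                congr 1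
                push_cast
                ring
              rw [mul_pow, mul_pow, mul_pow, mul_pow, mul_pow, mul_pow, e1, e2, Real.sq_sqrt hCp.le,
                Real.sq_sqrt hM]
              field_simp
              ring
      have h8 := abs_le_of_sq_le_sq h7 (by positivity)
      refine h8.trans ?_
      have h9 : 0 ≤ C2 * Q ^ (-(2/d) - 1/2) * (n:ℝ) ^ (2/d - 1/2) * Real.sqrt M := by
        positivity
      nlinarith
  · intro f
    have h1 := hβL f
    have h2 : (fun n => β n * sol_F d Q n f) =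
        fun n => Real.sqrt (sol_om d Q n) * β n * pr (d / 2) f (nd d Q n) := by
      funext n
      rw [sol_F_apply]
      ring
    rw [h2] at h1
    exact h1

end Pool.Agent.H97.EP
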