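import Pool.Agent.H97.EP.ASol

/-!
# Project EP, module `AT` : the analytic part (`NQ_lt_top`, `seed`, `bessel`, `solver`)
-/
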