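import Pool.Agent.H97.EP.Defs

/-!
# Project EP, module `CA` : the multiplicative functions `aa α`

`aa_mul`: for coprime `m, n`: `Squarefree (m*n) ↔ Squarefree m ∧ Squarefree n`
(`Nat.squarefree_mul`), `Nat.Coprime.primeFactors_mul` (disjoint union).
`aa_sum`: `x ≥ 0` supported on primes.  For every `N`,
`∑_{n ≤ N} aa x n ≤ ∑_{T ⊆ primes ≤ N} ∏_{p∈T} x p = ∏_{p ≤ N} (1 + x p) ≤ exp (∑ x)`
(`n ↦ n.primeFactors` is injective on squarefree numbers; `Finset.prod_one_add`/`Finset.prod_add`).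
`aa_sum_comp`: the terms with `n = 1` (value `1`) and `n` prime (value `x n`) removed: for `N ≥ 1`,
`∑_{n ≤ N, n ≠ 1, n not prime} aa x n ≤ ∏_{p≤N}(1 + x p) - 1 - ∑_{p≤N} x p ≤ E(S_N) ≤ E(S)` where
`E(s) = e^s - 1 - s` is nondecreasing on `[0,∞)`, `S_N = ∑_{p≤N} x p ≤ S`.
-/

set_option autoImplicit false

namespace Pool.Agent.H97.EP

theorem aa_zero (α : ℕ → ℝ) : aa α 0 = 0 := by
  simp [aa, not_squarefree_zero]

theorem aa_one (α : ℕ → ℝ) : aa α 1 = 1 := by
  simp [aa]

theorem aa_prime (α : ℕ → ℝ) {p : ℕ} (hp : p.Prime) : aa α p = α p := by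
  rw [aa, if_pos hp.prime.squarefree, hp.primeFactors, Finset.prod_singleton]

theorem aa_mul (α : ℕ → ℝ) {m n : ℕ} (h : Nat.Coprime m n) : aa α (m * n) = aa α m * aa α n := by
  unfold aa
  by_cases hm : Squarefree m
  · by_cases hn : Squarefree n
    · rw [if_pos ((Nat.squarefree_mul h).mpr ⟨hm, hn⟩), if_pos hm, if_pos hn,
        h.primeFactors_mul, Finset.prod_union h.disjoint_primeFactors]
    · rw [if_neg (fun h' => hn ((Nat.squarefree_mul h).mp h').2), if_neg hn, mul_zero]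
  · rw [if_neg (fun h' => hm ((Nat.squarefree_mul h).mp h').1), if_neg hm, zero_mul]

theorem aa_nonneg {x : ℕ → ℝ} (h0 : ∀ n, 0 ≤ x n) (n : ℕ) : 0 ≤ aa x n := by
  unfold aa
  split_ifs
  · exact Finset.prod_nonneg fun p _ => h0 p
  · exact le_rfl

theorem aa_abs_le_one {α : ℕ → ℝ} (h : ∀ n, |α n| ≤ 1) (n : ℕ) : |aa α n| ≤ 1 := by
  unfold aa
  split_ifs
  · rw [Finset.abs_prod]
    exact Finset.prod_le_one (fun _ _ => abs_nonneg _) (fun p _ => h p)
  · simp

/-- `aa` of a product of functions. -/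
theorem aa_mul_fun (x y : ℕ → ℝ) (n : ℕ) : aa (fun p => x p * y p) n = aa x n * aa y n := by
  unfold aa
  split_ifs
  · rw [Finset.prod_mul_distrib]
  · simp

/-- if `aa α n ≠ 0` then `n` is squarefree, `n ≠ 0` and `α p ≠ 0` for all `p ∣ n`. -/
theorem aa_ne_zero {α : ℕ → ℝ} {n : ℕ} (h : aa α n ≠ 0) :
    Squarefree n ∧ n ≠ 0 ∧ ∀ p ∈ n.primeFactors, α p ≠ 0 := by
  unfold aa at h
  by_cases hs : Squarefree n
  · rw [if_pos hs] at h
    exact ⟨hs, hs.ne_zero, Finset.prod_ne_zero_iff.mp h⟩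
  · exact absurd (if_neg hs) h

private theorem ca_range {x : ℕ → ℝ} (h0 : ∀ n, 0 ≤ x n) (N : ℕ) :
    ∑ n ∈ Finset.range N, aa x n ≤ Real.exp (∑ p ∈ (Finset.range N).filter Nat.Prime, x p) := by
  set P := (Finset.range N).filter Nat.Prime with hP
  have h1 : ∑ n ∈ Finset.range N, aa x n
      = ∑ n ∈ (Finset.range N).filter Squarefree, ∏ p ∈ n.primeFactors, x p := by
    rw [Finset.sum_filter]
    rfl
  have hinj : Set.InjOn Nat.primeFactors
      (((Finset.range N).filter Squarefree : Finset ℕ) : Set ℕ) := by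
    intro a ha b hb hab
    rw [Finset.mem_coe, Finset.mem_filter] at ha hb
    rw [← Nat.prod_primeFactors_of_squarefree ha.2, ← Nat.prod_primeFactors_of_squarefree hb.2,
      hab]
  have h2 : ∑ n ∈ (Finset.range N).filter Squarefree, ∏ p ∈ n.primeFactors, x p
      = ∑ T ∈ ((Finset.range N).filter Squarefree).image Nat.primeFactors, ∏ p ∈ T, x p := by
    rw [Finset.sum_image hinj]
  have h3 : ((Finset.range N).filter Squarefree).image Nat.primeFactors ⊆ P.powerset := by
    intro T hT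
    rw [Finset.mem_image] at hT
    obtain ⟨n, hn, rfl⟩ := hT
    rw [Finset.mem_powerset]
    intro p hp
    rw [Finset.mem_filter, Finset.mem_range] at hn
    rw [hP, Finset.mem_filter, Finset.mem_range]
    exact ⟨(Nat.le_of_mem_primeFactors hp).trans_lt hn.1, Nat.prime_of_mem_primeFactors hp⟩
  rw [h1, h2]
  calc ∑ T ∈ ((Finset.range N).filter Squarefree).image Nat.primeFactors, ∏ p ∈ T, x p
      ≤ ∑ T ∈ P.powerset, ∏ p ∈ T, x p :=
        Finset.sum_le_sum_of_subset_of_nonneg h3 (fun T _ _ => Finset.prod_nonneg fun p _ => h0 p)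
    _ = ∏ p ∈ P, (1 + x p) := (Finset.prod_one_add P).symm
    _ ≤ ∏ p ∈ P, Real.exp (x p) := by
        apply Finset.prod_le_prod
        · intro p _
          have := h0 p
          linarith
        · intro p _
          have := Real.add_one_le_exp (x p)
          linarith
    _ = Real.exp (∑ p ∈ P, x p) := (Real.exp_sum _ _).symm

theorem aa_sum {x : ℕ → ℝ} (h0 : ∀ n, 0 ≤ x n) (hp : ∀ n, x n ≠ 0 → n.Prime) (hs : Summable x) :
    Summable (aa x) ∧ ∑' n, aa x n ≤ Real.exp (∑' n, x n) := by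
  have h : ∀ N, ∑ n ∈ Finset.range N, aa x n ≤ Real.exp (∑' n, x n) := by
    intro N
    refine (ca_range h0 N).trans (Real.exp_le_exp.mpr ?_)
    exact hs.sum_le_tsum _ (fun n _ => h0 n)
  exact ⟨summable_of_sum_range_le (aa_nonneg h0) h,
    Real.tsum_le_of_sum_range_le (aa_nonneg h0) h⟩

private theorem ca_E_mono {a b : ℝ} (ha : 0 ≤ a) (hab : a ≤ b) :
    Real.exp a - 1 - a ≤ Real.exp b - 1 - b := by
  have h1 : Real.exp b = Real.exp a * Real.exp (b - a) := by
    rw [← Real.exp_add]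
    congr 1
    ring
  have h2 := Real.add_one_le_exp (b - a)
  have h3 := Real.one_le_exp ha
  have h4 : Real.exp a * (b - a + 1) ≤ Real.exp b := by
    rw [h1]
    exact mul_le_mul_of_nonneg_left h2 (Real.exp_pos _).le
  nlinarith

theorem aa_sum_comp {x : ℕ → ℝ} (h0 : ∀ n, 0 ≤ x n) (hp : ∀ n, x n ≠ 0 → n.Prime)
    (hs : Summable x) :
    ∑' n : ℕ, (if n = 1 ∨ n.Prime then 0 else aa x n) ≤
      Real.exp (∑' n, x n) - 1 - ∑' n, x n := by
  have hn0 : ∀ n : ℕ, 0 ≤ (if n = 1 ∨ n.Prime then 0 else aa x n) := by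
    intro n
    split_ifs
    · exact le_rfl
    · exact aa_nonneg h0 n
  apply Real.tsum_le_of_sum_range_le hn0
  intro N
  have hmono : ∑ n ∈ Finset.range N, (if n = 1 ∨ n.Prime then 0 else aa x n)
      ≤ ∑ n ∈ Finset.range (N + 2), (if n = 1 ∨ n.Prime then 0 else aa x n) := by
    apply Finset.sum_le_sum_of_subset_of_nonneg
    · intro n hn
      rw [Finset.mem_range] at hn ⊢
      omega
    · intro n _ _
      exact hn0 n
  refine hmono.trans ?_
  set M := N + 2 with hM
  set P := (Finset.range M).filter Nat.Prime with hP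
  have hsplit : ∑ n ∈ Finset.range M, aa x n
      = ∑ n ∈ Finset.range M, (if n = 1 ∨ n.Prime then 0 else aa x n) + 1 + ∑ p ∈ P, x p := by
    have h1 : ∀ n : ℕ, aa x n = (if n = 1 ∨ n.Prime then 0 else aa x n)
        + (if n = 1 then 1 else 0) + (if n.Prime then x n else 0) := by
      intro n
      by_cases h1 : n = 1
      · subst h1
        simp [aa_one, Nat.not_prime_one]
      · by_cases h2 : n.Prime
        · rw [if_pos (Or.inr h2), if_neg h1, if_pos h2, aa_prime _ h2]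
          ring
        · rw [if_neg (by tauto), if_neg h1, if_neg h2]
          ring
    rw [Finset.sum_congr rfl (fun n _ => h1 n), Finset.sum_add_distrib, Finset.sum_add_distrib]
    congr 1
    · congr 1
      rw [Finset.sum_ite_eq' (Finset.range M) 1 (fun _ => (1 : ℝ)), if_pos]
      rw [Finset.mem_range]
      omega
    · rw [hP, Finset.sum_filter]
  have hr := ca_range h0 M
  rw [← hP] at hr
  have hS : ∑ p ∈ P, x p ≤ ∑' n, x n := hs.sum_le_tsum _ (fun n _ => h0 n)
  have hS0 : 0 ≤ ∑ p ∈ P, x p := Finset.sum_nonneg fun p _ => h0 p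
  have := ca_E_mono hS0 hS
  linarith

end Pool.Agent.H97.EP
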