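import Pool.Agent.H97.EP.CA

/-!
# Project EP, module `CB` : the Lipschitz estimate for the composite coefficients

Let `D n = aa (α+β) n - aa α n`, `W q = 4 q^{-κ} log q`, `yα q = 8 α(q)^2 q^{-κ} log q`, `yβ` likewise;
`Sα = ∑ yα ≤ 1`, `Sβ = ∑ yβ ≤ 1`.
For squarefree `n`: `∏_{p|n} (α p + β p) = ∑_{T ⊆ primeFactors n} ∏_{p∈T} β p ∏_{p∉T} α p`
(`Finset.prod_add`), so `D n` is the sum over nonempty `T`; there are at most `2^{ω(n)}` subsets, so by
Cauchy-Schwarz `D(n)^2 ≤ 2^{ω(n)} ∑_{T ≠ ∅} ∏_{T} β^2 ∏_{T^c} α^2` and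
`D(n)^2 aa W n ≤ ∏_{p|n} (yα p + yβ p) - ∏_{p|n} yα p = aa (yα + yβ) n - aa yα n`.
Sum over `n < N`, `P` = primes below `N`: the sum over the `n ≠ 1`, `n` not prime, is at most
`∏_P (1 + yα + yβ) - ∏_P (1 + yα) - ∑_P yβ ≤ e^A (e^B - 1) - B`, `A = ∑_P yα ≤ Sα`, `B = ∑_P yβ ≤ Sβ`,
and `(e^A - 1)(e^B - 1) + (e^B - 1 - B) ≤ 1.73^2 A B + 0.73 B^2 ≤ 3 B (A + B)`.
-/

set_option autoImplicit false

namespace Pool.Agent.H97.EP

private theorem cb_cs (F : Finset ℕ) (α β : ℕ → ℝ) :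
    (∏ p ∈ F, (α p + β p) - ∏ p ∈ F, α p) ^ 2 ≤
      (2 : ℝ) ^ F.card * (∏ p ∈ F, (α p ^ 2 + β p ^ 2) - ∏ p ∈ F, α p ^ 2) := by
  have e1 : ∏ p ∈ F, (α p + β p) - ∏ p ∈ F, α p
      = ∑ T ∈ F.powerset.erase ∅, (∏ p ∈ T, β p) * ∏ p ∈ F \ T, α p := by
    have h1 : ∏ p ∈ F, (α p + β p) = ∑ T ∈ F.powerset, (∏ p ∈ T, β p) * ∏ p ∈ F \ T, α p := by
      rw [← Finset.prod_add]
      exact Finset.prod_congr rfl fun p _ => add_comm _ _
    rw [h1, ← Finset.add_sum_erase _ _ (Finset.empty_mem_powerset F)]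
    simp
  have e2 : ∏ p ∈ F, (α p ^ 2 + β p ^ 2) - ∏ p ∈ F, α p ^ 2
      = ∑ T ∈ F.powerset.erase ∅, ((∏ p ∈ T, β p) * ∏ p ∈ F \ T, α p) ^ 2 := by
    have h1 : ∏ p ∈ F, (α p ^ 2 + β p ^ 2)
        = ∑ T ∈ F.powerset, ((∏ p ∈ T, β p) * ∏ p ∈ F \ T, α p) ^ 2 := by
      have h2 : ∏ p ∈ F, (α p ^ 2 + β p ^ 2)
          = ∑ T ∈ F.powerset, (∏ p ∈ T, β p ^ 2) * ∏ p ∈ F \ T, α p ^ 2 := by
        rw [← Finset.prod_add]
        exact Finset.prod_congr rfl fun p _ => add_comm _ _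
      rw [h2]
      apply Finset.sum_congr rfl
      intro T _
      rw [mul_pow, Finset.prod_pow, Finset.prod_pow]
    rw [h1, ← Finset.add_sum_erase _ _ (Finset.empty_mem_powerset F)]
    simp [Finset.prod_pow]
  rw [e1, e2]
  refine (sq_sum_le_card_mul_sum_sq).trans ?_
  apply mul_le_mul_of_nonneg_right _ (Finset.sum_nonneg fun T _ => sq_nonneg _)
  have h3 : (F.powerset.erase ∅).card ≤ 2 ^ F.card := by
    refine (Finset.card_erase_le).trans ?_
    rw [Finset.card_powerset]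
  exact_mod_cast h3

private theorem cb_point (g : ℕ → ℝ) (hg : ∀ n, 0 ≤ g n) (α β : ℕ → ℝ) (n : ℕ) :
    (aa (fun p => α p + β p) n - aa α n) ^ 2 * aa (fun q => 4 * g q) n ≤
      aa (fun q => 8 * α q ^ 2 * g q + 8 * β q ^ 2 * g q) n - aa (fun q => 8 * α q ^ 2 * g q) n := by
  unfold aa
  by_cases hs : Squarefree n
  · simp only [if_pos hs]
    set F := n.primeFactors with hF
    have h1 : ∏ p ∈ F, (8 * α p ^ 2 * g p + 8 * β p ^ 2 * g p) - ∏ p ∈ F, 8 * α p ^ 2 * g p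
        = ((2 : ℝ) ^ F.card * (∏ p ∈ F, (α p ^ 2 + β p ^ 2) - ∏ p ∈ F, α p ^ 2)) *
          ∏ p ∈ F, 4 * g p := by
      have h2 : ∏ p ∈ F, (8 * α p ^ 2 * g p + 8 * β p ^ 2 * g p)
          = (2 : ℝ) ^ F.card * (∏ p ∈ F, (α p ^ 2 + β p ^ 2)) * ∏ p ∈ F, 4 * g p := by
        rw [← Finset.prod_const, ← Finset.prod_mul_distrib, ← Finset.prod_mul_distrib]
        apply Finset.prod_congr rfl
        intro p _
        ring
      have h3 : ∏ p ∈ F, 8 * α p ^ 2 * g p
          = (2 : ℝ) ^ F.card * (∏ p ∈ F, α p ^ 2) * ∏ p ∈ F, 4 * g p := by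
        rw [← Finset.prod_const, ← Finset.prod_mul_distrib, ← Finset.prod_mul_distrib]
        apply Finset.prod_congr rfl
        intro p _
        ring
      rw [h2, h3]
      ring
    rw [h1]
    apply mul_le_mul_of_nonneg_right (cb_cs F α β)
    apply Finset.prod_nonneg
    intro p _
    have := hg p
    positivity
  · simp [if_neg hs]

private theorem cb_range {a b : ℕ → ℝ} (ha : ∀ n, 0 ≤ a n) (hb : ∀ n, 0 ≤ b n) (N : ℕ) :
    ∑ n ∈ Finset.range N, (aa (fun q => a q + b q) n - aa a n) ≤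
      Real.exp (∑ p ∈ (Finset.range N).filter Nat.Prime, a p) *
        (Real.exp (∑ p ∈ (Finset.range N).filter Nat.Prime, b p) - 1) := by
  set P := (Finset.range N).filter Nat.Prime with hP
  have h1 : ∑ n ∈ Finset.range N, (aa (fun q => a q + b q) n - aa a n)
      = ∑ n ∈ (Finset.range N).filter Squarefree,
        (∏ p ∈ n.primeFactors, (a p + b p) - ∏ p ∈ n.primeFactors, a p) := by
    rw [Finset.sum_filter]
    apply Finset.sum_congr rfl
    intro n _
    unfold aa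
    split_ifs
    · rfl
    · simp
  have hinj : Set.InjOn Nat.primeFactors
      (((Finset.range N).filter Squarefree : Finset ℕ) : Set ℕ) := by
    intro x hx y hy hxy
    rw [Finset.mem_coe, Finset.mem_filter] at hx hy
    rw [← Nat.prod_primeFactors_of_squarefree hx.2, ← Nat.prod_primeFactors_of_squarefree hy.2,
      hxy]
  have h2 : ∑ n ∈ (Finset.range N).filter Squarefree,
        (∏ p ∈ n.primeFactors, (a p + b p) - ∏ p ∈ n.primeFactors, a p)
      = ∑ T ∈ ((Finset.range N).filter Squarefree).image Nat.primeFactors,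
        (∏ p ∈ T, (a p + b p) - ∏ p ∈ T, a p) := by
    rw [Finset.sum_image hinj]
  have h3 : ((Finset.range N).filter Squarefree).image Nat.primeFactors ⊆ P.powerset := by
    intro T hT
    rw [Finset.mem_image] at hT
    obtain ⟨n, hn, rfl⟩ := hT
    rw [Finset.mem_powerset]
    intro p hp
    rw [Finset.mem_filter, Finset.mem_range] at hn
    rw [hP, Finset.mem_filter, Finset.mem_range]
    exact ⟨(Nat.le_of_mem_primeFactors hp).trans_lt hn.1, Nat.prime_of_mem_primeFactors hp⟩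
  rw [h1, h2]
  have hA : ∏ p ∈ P, (1 + a p) ≤ Real.exp (∑ p ∈ P, a p) := by
    rw [Real.exp_sum]
    apply Finset.prod_le_prod
    · intro p _
      have := ha p
      linarith
    · intro p _
      have := Real.add_one_le_exp (a p)
      linarith
  have hB : ∏ p ∈ P, (1 + b p) ≤ Real.exp (∑ p ∈ P, b p) := by
    rw [Real.exp_sum]
    apply Finset.prod_le_prod
    · intro p _
      have := hb p
      linarith
    · intro p _
      have := Real.add_one_le_exp (b p)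
      linarith
  have hB1 : 1 ≤ ∏ p ∈ P, (1 + b p) := by
    calc (1 : ℝ) = ∏ p ∈ P, (1 : ℝ) := by simp
      _ ≤ ∏ p ∈ P, (1 + b p) := by
        apply Finset.prod_le_prod (fun _ _ => zero_le_one)
        intro p _
        have := hb p
        linarith
  calc ∑ T ∈ ((Finset.range N).filter Squarefree).image Nat.primeFactors,
        (∏ p ∈ T, (a p + b p) - ∏ p ∈ T, a p)
      ≤ ∑ T ∈ P.powerset, (∏ p ∈ T, (a p + b p) - ∏ p ∈ T, a p) := by
        apply Finset.sum_le_sum_of_subset_of_nonneg h3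
        intro T _ _
        rw [sub_nonneg]
        apply Finset.prod_le_prod
        · intro p _
          exact ha p
        · intro p _
          have := hb p
          linarith
    _ = ∏ p ∈ P, (1 + (a p + b p)) - ∏ p ∈ P, (1 + a p) := by
        rw [Finset.sum_sub_distrib, Finset.prod_one_add, Finset.prod_one_add]
    _ ≤ (∏ p ∈ P, (1 + a p)) * (∏ p ∈ P, (1 + b p)) - ∏ p ∈ P, (1 + a p) := by
        apply sub_le_sub_right
        rw [← Finset.prod_mul_distrib]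
        apply Finset.prod_le_prod
        · intro p _
          have := hb p
          have := ha p
          linarith
        · intro p _
          have := mul_nonneg (ha p) (hb p)
          nlinarith
    _ = (∏ p ∈ P, (1 + a p)) * (∏ p ∈ P, (1 + b p) - 1) := by ring
    _ ≤ Real.exp (∑ p ∈ P, a p) * (Real.exp (∑ p ∈ P, b p) - 1) := by
        apply mul_le_mul hA (by linarith) (by linarith) (Real.exp_pos _).le

private theorem cb_exp {x : ℝ} (h0 : 0 ≤ x) (h1 : x ≤ 1) :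
    Real.exp x ≤ 1 + x + x ^ 2 / 2 + 2 / 9 * x ^ 3 := by
  have h := Real.exp_bound' h0 h1 (n := 3) (by norm_num)
  simp only [Finset.sum_range_succ, Finset.sum_range_zero, Nat.factorial] at h
  norm_num at h
  linarith

private theorem cb_num {A B : ℝ} (hA : 0 ≤ A) (hA1 : A ≤ 1) (hB : 0 ≤ B) (hB1 : B ≤ 1) :
    Real.exp A * (Real.exp B - 1) - B ≤ 3 * B * (A + B) := by
  have h1 := cb_exp hA hA1
  have h2 := cb_exp hB hB1
  have hA2 : A ^ 2 ≤ A := by nlinarith
  have hA3 : A ^ 3 ≤ A := by nlinarith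
  have hB2 : B ^ 2 ≤ B := by nlinarith
  have hB3 : B ^ 3 ≤ B ^ 2 := by nlinarith [sq_nonneg B]
  have h3 : Real.exp A - 1 ≤ 31 / 18 * A := by linarith
  have h4 : Real.exp B - 1 - B ≤ 13 / 18 * B ^ 2 := by linarith
  have h5 : Real.exp B - 1 ≤ 31 / 18 * B := by linarith
  have h6 : 0 ≤ Real.exp A - 1 := by linarith [Real.one_le_exp hA]
  have h7 : 0 ≤ Real.exp B - 1 := by linarith [Real.one_le_exp hB]
  have h8 : (Real.exp A - 1) * (Real.exp B - 1) ≤ (31 / 18 * A) * (31 / 18 * B) :=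
    mul_le_mul h3 h5 h7 (by positivity)
  have h9 : 0 ≤ A * B := mul_nonneg hA hB
  nlinarith [sq_nonneg B]

theorem lip {κ : ℝ} (hκ : 0 ≤ κ) {α β : ℕ → ℝ} (hα : ∀ n, α n ≠ 0 → n.Prime ∧ 3 ≤ n)
    (hβ : ∀ n, β n ≠ 0 → n.Prime ∧ 3 ≤ n)
    (sα : Summable fun q : ℕ => 8 * α q ^ 2 * ((q : ℝ) ^ (-κ) * Real.log q))
    (sβ : Summable fun q : ℕ => 8 * β q ^ 2 * ((q : ℝ) ^ (-κ) * Real.log q))
    (hα1 : ∑' q : ℕ, 8 * α q ^ 2 * ((q : ℝ) ^ (-κ) * Real.log q) ≤ 1)
    (hβ1 : ∑' q : ℕ, 8 * β q ^ 2 * ((q : ℝ) ^ (-κ) * Real.log q) ≤ 1) :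
    (Summable fun n : ℕ => if n = 1 ∨ n.Prime then 0 else
      (aa (fun p => α p + β p) n - aa α n) ^ 2 *
        aa (fun q => 4 * ((q : ℝ) ^ (-κ) * Real.log q)) n) ∧
    (∑' n : ℕ, if n = 1 ∨ n.Prime then 0 else
      (aa (fun p => α p + β p) n - aa α n) ^ 2 *
        aa (fun q => 4 * ((q : ℝ) ^ (-κ) * Real.log q)) n) ≤
      3 * (∑' q : ℕ, 8 * β q ^ 2 * ((q : ℝ) ^ (-κ) * Real.log q)) *
        ((∑' q : ℕ, 8 * α q ^ 2 * ((q : ℝ) ^ (-κ) * Real.log q)) +
          ∑' q : ℕ, 8 * β q ^ 2 * ((q : ℝ) ^ (-κ) * Real.log q)) := by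
  set g : ℕ → ℝ := fun q => (q : ℝ) ^ (-κ) * Real.log q with hgdef
  have hg : ∀ n, 0 ≤ g n := fun n =>
    mul_nonneg (Real.rpow_nonneg (Nat.cast_nonneg n) _) (Real.log_natCast_nonneg n)
  set a : ℕ → ℝ := fun q => 8 * α q ^ 2 * g q with hadef
  set b : ℕ → ℝ := fun q => 8 * β q ^ 2 * g q with hbdef
  have ha : ∀ n, 0 ≤ a n := fun n => mul_nonneg (by positivity) (hg n)
  have hb : ∀ n, 0 ≤ b n := fun n => mul_nonneg (by positivity) (hg n)
  have hW : ∀ n, 0 ≤ aa (fun q => 4 * g q) n := aa_nonneg fun n => by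
    have := hg n
    positivity
  set S : ℕ → ℝ := fun n => if n = 1 ∨ n.Prime then 0 else
      (aa (fun p => α p + β p) n - aa α n) ^ 2 * aa (fun q => 4 * g q) n with hSdef
  have hS0 : ∀ n, 0 ≤ S n := by
    intro n
    simp only [hSdef]
    split_ifs
    · exact le_rfl
    · exact mul_nonneg (sq_nonneg _) (hW n)
  have hAB : ∀ n, S n + (if n.Prime then b n else 0)
      ≤ aa (fun q => a q + b q) n - aa a n := by
    intro n
    have h0 : 0 ≤ aa (fun q => a q + b q) n - aa a n := by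
      refine le_trans ?_ (cb_point g hg α β n)
      exact mul_nonneg (sq_nonneg _) (hW n)
    simp only [hSdef]
    by_cases h2 : n.Prime
    · rw [if_pos (Or.inr h2), if_pos h2, aa_prime _ h2, aa_prime _ h2]
      linarith
    · rw [if_neg h2]
      by_cases h1 : n = 1
      · rw [if_pos (Or.inl h1)]
        linarith
      · rw [if_neg (by tauto), add_zero]
        exact cb_point g hg α β n
  have hfin : ∀ N, ∑ n ∈ Finset.range N, S n ≤ 3 * (∑' q, b q) * ((∑' q, a q) + ∑' q, b q) := by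
    intro N
    set P := (Finset.range N).filter Nat.Prime with hP
    have h1 : ∑ n ∈ Finset.range N, S n + ∑ p ∈ P, b p
        ≤ Real.exp (∑ p ∈ P, a p) * (Real.exp (∑ p ∈ P, b p) - 1) := by
      refine le_trans ?_ (cb_range ha hb N)
      rw [hP, Finset.sum_filter, ← Finset.sum_add_distrib]
      exact Finset.sum_le_sum fun n _ => hAB n
    have hA : ∑ p ∈ P, a p ≤ ∑' q, a q := sα.sum_le_tsum _ (fun n _ => ha n)
    have hB : ∑ p ∈ P, b p ≤ ∑' q, b q := sβ.sum_le_tsum _ (fun n _ => hb n)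
    have hA0 : 0 ≤ ∑ p ∈ P, a p := Finset.sum_nonneg fun p _ => ha p
    have hB0 : 0 ≤ ∑ p ∈ P, b p := Finset.sum_nonneg fun p _ => hb p
    have h2 := cb_num hA0 (hA.trans hα1) hB0 (hB.trans hβ1)
    have h3 : 3 * (∑ p ∈ P, b p) * (∑ p ∈ P, a p + ∑ p ∈ P, b p)
        ≤ 3 * (∑' q, b q) * ((∑' q, a q) + ∑' q, b q) := by
      apply mul_le_mul (by linarith) (by linarith) (by linarith)
      have : 0 ≤ ∑' q, b q := hB0.trans hB
      positivity
    linarith
  exact ⟨summable_of_sum_range_le hS0 hfin, Real.tsum_le_of_sum_range_le hS0 hfin⟩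

end Pool.Agent.H97.EP
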