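import Pool.Agent.H3.LC.BT
import Pool.Agent.H3.LC.Mertens

/-!
# Project EP, module `CC` : two sums over primes

`prsum`: dyadic: `∑_{2^k < q ≤ 2^{k+1}} 1/(q (log q)^{1/2}) ≤ π(2^{k+1}) / (2^k (k log 2)^{1/2}) ≤
C k^{-3/2}` for `k ≥ 1` by `Pool.Agent.H3.LC.cheb_pi` (or `brun_titchmarsh`), and `∑ k^{-3/2} < ∞`.
`gsum`: `m ↦ m.primeFactors` is injective on squarefree numbers, so the sum is at most
`∏_{3 ≤ q ≤ N} (1 + 1/(q (log q)^{1/2})) ≤ exp (∑_{3≤q≤N} 1/(q (log q)^{1/2}))`.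
-/

set_option autoImplicit false

namespace Pool.Agent.H97.EP

theorem prsum : ∃ C : ℝ, 0 < C ∧ ∀ N : ℕ,
    ∑ q ∈ (Finset.Icc 3 N).filter Nat.Prime, 1 / ((q : ℝ) * (Real.log q) ^ (1 / 2 : ℝ)) ≤ C := by
  obtain ⟨C, hC0, hC⟩ := Pool.Agent.H3.LC.cheb_pi
  have hl2 : 0 < Real.log 2 := Real.log_pos (by norm_num)
  have hsum : Summable (fun k : ℕ => (k : ℝ) ^ (-(3 / 2) : ℝ)) :=
    Real.summable_nat_rpow.2 (by norm_num)
  obtain ⟨D, hD⟩ : ∃ D : ℝ, D = 2 * C / (Real.log 2 * (Real.log 2) ^ (1 / 2 : ℝ)) := ⟨_, rfl⟩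
  have hl2' : 0 < (Real.log 2) ^ (1 / 2 : ℝ) := Real.rpow_pos_of_pos hl2 _
  have hD0 : 0 < D := by
    rw [hD]
    positivity
  have hT0 : 0 ≤ ∑' k : ℕ, (k : ℝ) ^ (-(3 / 2) : ℝ) :=
    tsum_nonneg fun k => Real.rpow_nonneg (Nat.cast_nonneg k) _
  refine ⟨D * (∑' k : ℕ, (k : ℝ) ^ (-(3 / 2) : ℝ)) + 1, by positivity, fun N => ?_⟩
  -- the levels
  have hmaps : ∀ q ∈ (Finset.Icc 3 N).filter Nat.Prime, Nat.log 2 q ∈ Finset.Icc 1 N := by
    intro q hq
    rw [Finset.mem_filter, Finset.mem_Icc] at hq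
    rw [Finset.mem_Icc]
    refine ⟨Nat.log_pos (by norm_num) (by omega), ?_⟩
    exact (Nat.log_le_self 2 q).trans hq.1.2
  rw [← Finset.sum_fiberwise_of_maps_to hmaps]
  have hlevel : ∀ k ∈ Finset.Icc 1 N,
      ∑ q ∈ (Finset.Icc 3 N).filter Nat.Prime with Nat.log 2 q = k,
        1 / ((q : ℝ) * (Real.log q) ^ (1 / 2 : ℝ)) ≤ D * (k : ℝ) ^ (-(3 / 2) : ℝ) := by
    intro k hk
    have hk1 : 1 ≤ k := (Finset.mem_Icc.1 hk).1
    have hkR : (0 : ℝ) < k := by exact_mod_cast hk1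
    obtain ⟨E, hE⟩ : ∃ E : ℝ, E = 1 / ((2 : ℝ) ^ k * ((k : ℝ) * Real.log 2) ^ (1 / 2 : ℝ)) :=
      ⟨_, rfl⟩
    have hE0 : 0 < E := by
      rw [hE]
      positivity
    have hterm : ∀ q ∈ ((Finset.Icc 3 N).filter Nat.Prime).filter (fun q => Nat.log 2 q = k),
        1 / ((q : ℝ) * (Real.log q) ^ (1 / 2 : ℝ)) ≤ E := by
      intro q hq
      rw [Finset.mem_filter, Finset.mem_filter, Finset.mem_Icc] at hq
      obtain ⟨⟨⟨h3, h4⟩, h5⟩, h6⟩ := hq
      have h7 : 2 ^ k ≤ q := by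
        rw [← h6]
        exact Nat.pow_log_le_self 2 (by omega)
      have h7' : (2 : ℝ) ^ k ≤ q := by exact_mod_cast h7
      have h8 : (k : ℝ) * Real.log 2 ≤ Real.log q := by
        rw [← Real.log_pow]
        exact Real.log_le_log (by positivity) h7'
      rw [hE]
      refine one_div_le_one_div_of_le (by positivity) ?_
      exact mul_le_mul h7' (Real.rpow_le_rpow (by positivity) h8 (by norm_num)) (by positivity)
        (by positivity)
    have hcard : ((((Finset.Icc 3 N).filter Nat.Prime).filter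
        (fun q => Nat.log 2 q = k)).card : ℝ) ≤ C * 2 ^ (k + 1) / ((k + 1) * Real.log 2) := by
      have h1 := hC (2 ^ (k + 1)) (by
        calc 2 = 2 ^ 1 := by norm_num
          _ ≤ 2 ^ (k + 1) := Nat.pow_le_pow_right (by norm_num) (by omega))
      push_cast at h1
      rw [Real.log_pow] at h1
      push_cast at h1
      refine le_trans ?_ h1
      have h2 : (((Finset.Icc 3 N).filter Nat.Prime).filter (fun q => Nat.log 2 q = k)) ⊆
          (Finset.Icc 1 (2 ^ (k + 1))).filter Nat.Prime := by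
        intro q hq
        rw [Finset.mem_filter, Finset.mem_filter, Finset.mem_Icc] at hq
        obtain ⟨⟨⟨h3, h4⟩, h5⟩, h6⟩ := hq
        rw [Finset.mem_filter, Finset.mem_Icc]
        refine ⟨⟨by omega, ?_⟩, h5⟩
        rw [← h6]
        exact (Nat.lt_pow_succ_log_self (by norm_num) q).le
      exact_mod_cast Finset.card_le_card h2
    have h1 := Finset.sum_le_card_nsmul _ _ _ hterm
    rw [nsmul_eq_mul] at h1
    refine h1.trans ((mul_le_mul_of_nonneg_right hcard hE0.le).trans ?_)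
    have e1 : ((k : ℝ) * Real.log 2) ^ (1 / 2 : ℝ) =
        (k : ℝ) ^ (1 / 2 : ℝ) * (Real.log 2) ^ (1 / 2 : ℝ) := Real.mul_rpow hkR.le hl2.le
    have e2 : (k : ℝ) ^ (-(3 / 2) : ℝ) = 1 / (k * (k : ℝ) ^ (1 / 2 : ℝ)) := by
      rw [Real.rpow_neg hkR.le, ← one_div]
      congr 1
      have : (3 / 2 : ℝ) = 1 + 1 / 2 := by norm_num
      rw [this, Real.rpow_add hkR, Real.rpow_one]
    have hk2 : 0 < (k : ℝ) ^ (1 / 2 : ℝ) := Real.rpow_pos_of_pos hkR _
    rw [hE, e1, e2, hD]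
    have e3 : C * 2 ^ (k + 1) / (((k : ℝ) + 1) * Real.log 2) *
        (1 / ((2 : ℝ) ^ k * ((k : ℝ) ^ (1 / 2 : ℝ) * (Real.log 2) ^ (1 / 2 : ℝ)))) =
        2 * C / (Real.log 2 * (Real.log 2) ^ (1 / 2 : ℝ)) *
          (1 / (((k : ℝ) + 1) * (k : ℝ) ^ (1 / 2 : ℝ))) := by
      rw [pow_succ]
      field_simp
    rw [e3]
    refine mul_le_mul_of_nonneg_left ?_ (by positivity)
    refine one_div_le_one_div_of_le (by positivity) ?_
    exact mul_le_mul_of_nonneg_right (by linarith) hk2.le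
  refine (Finset.sum_le_sum hlevel).trans ?_
  rw [← Finset.mul_sum]
  have h2 : ∑ k ∈ Finset.Icc 1 N, (k : ℝ) ^ (-(3 / 2) : ℝ) ≤ ∑' k : ℕ, (k : ℝ) ^ (-(3 / 2) : ℝ) :=
    hsum.sum_le_tsum _ fun k _ => Real.rpow_nonneg (Nat.cast_nonneg k) _
  have h3 := mul_le_mul_of_nonneg_left h2 hD0.le
  linarith

theorem gsum : ∃ C : ℝ, 0 < C ∧ ∀ N : ℕ,
    ∑ m ∈ (Finset.Icc 1 N).filter (fun m => Squarefree m ∧ ∀ q ∈ m.primeFactors, 3 ≤ q),
      (∏ q ∈ m.primeFactors, (Real.log q) ^ (-(1 / 2 : ℝ))) / m ≤ C := by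
  classical
  obtain ⟨C, hC0, hC⟩ := prsum
  refine ⟨Real.exp C, Real.exp_pos C, fun N => ?_⟩
  obtain ⟨f, hf⟩ : ∃ f : ℕ → ℝ, ∀ q, f q = 1 / ((q : ℝ) * (Real.log q) ^ (1 / 2 : ℝ)) :=
    ⟨_, fun q => rfl⟩
  have hf0 : ∀ q, 0 ≤ f q := by
    intro q
    rw [hf]
    have : 0 ≤ Real.log q := Real.log_natCast_nonneg q
    positivity
  obtain ⟨F, hF⟩ : ∃ F : Finset ℕ, F = (Finset.Icc 1 N).filter
    (fun m => Squarefree m ∧ ∀ q ∈ m.primeFactors, 3 ≤ q) := ⟨_, rfl⟩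
  obtain ⟨P, hP⟩ : ∃ P : Finset ℕ, P = (Finset.Icc 3 N).filter Nat.Prime := ⟨_, rfl⟩
  have hterm : ∀ m ∈ F, (∏ q ∈ m.primeFactors, (Real.log q) ^ (-(1 / 2 : ℝ))) / m =
      ∏ q ∈ m.primeFactors, f q := by
    intro m hm
    rw [hF, Finset.mem_filter] at hm
    have h1 : (m : ℝ) = ∏ q ∈ m.primeFactors, (q : ℝ) := by
      rw [← Nat.cast_prod, Nat.prod_primeFactors_of_squarefree hm.2.1]
    conv_lhs => rw [h1]
    rw [← Finset.prod_div_distrib]
    refine Finset.prod_congr rfl fun q _ => ?_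
    rw [hf, Real.rpow_neg (Real.log_natCast_nonneg q)]
    rw [div_eq_mul_inv, ← mul_inv, mul_comm, one_div ((q : ℝ) * _)]
  have hinj : Set.InjOn Nat.primeFactors (F : Set ℕ) := by
    intro a ha b hb hab
    rw [Finset.mem_coe, hF, Finset.mem_filter] at ha hb
    rw [← Nat.prod_primeFactors_of_squarefree ha.2.1, hab,
      Nat.prod_primeFactors_of_squarefree hb.2.1]
  have hsub : F.image Nat.primeFactors ⊆ P.powerset := by
    intro S hS
    obtain ⟨m, hm, rfl⟩ := Finset.mem_image.1 hS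
    rw [hF, Finset.mem_filter, Finset.mem_Icc] at hm
    rw [Finset.mem_powerset]
    intro q hq
    rw [hP, Finset.mem_filter, Finset.mem_Icc]
    refine ⟨⟨hm.2.2 q hq, ?_⟩, Nat.prime_of_mem_primeFactors hq⟩
    exact (Nat.le_of_mem_primeFactors hq).trans hm.1.2
  rw [← hF]
  calc ∑ m ∈ F, (∏ q ∈ m.primeFactors, (Real.log q) ^ (-(1 / 2 : ℝ))) / m
      = ∑ m ∈ F, ∏ q ∈ m.primeFactors, f q := Finset.sum_congr rfl hterm
    _ = ∑ S ∈ F.image Nat.primeFactors, ∏ q ∈ S, f q :=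
        (Finset.sum_image (f := fun S => ∏ q ∈ S, f q) hinj).symm
    _ ≤ ∑ S ∈ P.powerset, ∏ q ∈ S, f q :=
        Finset.sum_le_sum_of_subset_of_nonneg hsub fun S _ _ => Finset.prod_nonneg fun q _ => hf0 q
    _ = ∏ q ∈ P, (1 + f q) := (Finset.prod_one_add P).symm
    _ ≤ ∏ q ∈ P, Real.exp (f q) := by
        refine Finset.prod_le_prod (fun q _ => by linarith [hf0 q]) fun q _ => ?_
        rw [add_comm]
        exact Real.add_one_le_exp _
    _ = Real.exp (∑ q ∈ P, f q) := (Real.exp_sum _ _).symm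
    _ ≤ Real.exp C := by
        refine Real.exp_le_exp.2 ?_
        have := hC N
        rw [← hP] at this
        refine le_trans (le_of_eq ?_) this
        exact Finset.sum_congr rfl fun q _ => hf q

end Pool.Agent.H97.EP
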