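import Pool.Agent.H97.EP.Defs
import Pool.Agent.H97.EP.CC

/-!
# Project EP, module `CD` : the weights `sg`, cell sums

Let `w = d/2`, `κ = 2/d = 1/w < 1/2`, `j ≥ 1`, `a = Q (jh)^w`, `b = Q ((j+1)h)^w`, `cl = b - a`; the
cell is `a ≤ n < b` (`nd d Q n = (n/Q)^κ`, monotone).
(1) `b - a ≥ Q h^w w j^{w-1}` (mean value), `j+1 ≤ 2j`, so `b ≤ Q h^w 2^w j^w`,
    `j^{w-1} = (j^w)^{1-κ} ≥ (b/(Q h^w 2^w))^{1-κ}` and
    `b - a ≥ w (Q h^w)^κ 2^{-(w-1)} b^{1-κ} ≥ b^{1-κ}` for `Q ≥ Q0(d,h)`.  Also `b - a ≥ 1`.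
(2) `#F ≤ (b - a) + 1 ≤ 2 (b - a)`.
(3) `∑_{n∈F} ∑_{p | n, p > n^{2κ}} log p · g(n/p)`, `g(m) = ∏_{q|m}(log q)^{-1/2}`: put `m = n/p`;
    `m < n^{1-2κ} ≤ b^{1-2κ}`, `m` squarefree with all prime factors `≥ 3`, and
    `p ∈ [a/m, b/m)`.  Here `(b-a)/m ≥ b^{1-κ} b^{-(1-2κ)} = b^κ`, large.  Brun-Titchmarsh
    (`Pool.Agent.H3.LC.brun_titchmarsh`; cover `[a/m, b/m)` by `(x, x+y]` with `x = ⌈a/m⌉-1`,
    `y = ⌈(b-a)/m⌉ + 1 ≤ 3 (b-a)/m`): the number of such primes is `≤ C ((b-a)/m)/log((b-a)/m) ≤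
    C ((b-a)/m)/(κ log b)`, and `log p ≤ log b`.  So the inner sum over `p` is `≤ (C/κ)(b-a)/m`, and
    `∑_m g(m)/m ≤ C'` (`gsum`).
-/

set_option autoImplicit false

namespace Pool.Agent.H97.EP

/-- The weight `1 + ∑_{p | n, p > n^{2κ}} log p ∏_{q | n/p} (log q)^{-1/2}` on squarefree `n` with
all prime factors at least `3`, and `0` on the other `n`. -/
noncomputable def sg (κ : ℝ) (n : ℕ) : ℝ := by
  classical exact
  if Squarefree n ∧ ∀ q ∈ n.primeFactors, 3 ≤ q then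
    1 + ∑ p ∈ n.primeFactors, (if (n : ℝ) ^ (2 * κ) < p then
      Real.log p * ∏ q ∈ (n / p).primeFactors, (Real.log q) ^ (-(1 / 2 : ℝ)) else 0) else 0

theorem sg_nonneg (κ : ℝ) (n : ℕ) : 0 ≤ sg κ n := by
  classical
  unfold sg
  split_ifs with h
  · refine add_nonneg zero_le_one (Finset.sum_nonneg fun p _ => ?_)
    split_ifs
    · refine mul_nonneg (Real.log_natCast_nonneg p) (Finset.prod_nonneg fun q _ => ?_)
      exact Real.rpow_nonneg (Real.log_natCast_nonneg q) _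
    · exact le_rfl
  · exact le_rfl

/-- the multiplicative weight -/
private noncomputable def cd_g (m : ℕ) : ℝ := ∏ q ∈ m.primeFactors, (Real.log q) ^ (-(1 / 2 : ℝ))

private theorem cd_g_nonneg (m : ℕ) : 0 ≤ cd_g m :=
  Finset.prod_nonneg fun q _ => Real.rpow_nonneg (Real.log_natCast_nonneg q) _

/-- (1): the length of a cell -/
private theorem cd_len {d h : ℝ} (hd : 4 < d) (hh : 0 < h) {Q : ℝ} (hQ : 0 < Q)
    (hQh : (2 : ℝ) ^ (d / 2 - 1) ≤ Q ^ (2 / d) * h) {j : ℕ} (hj : 1 ≤ j) :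
    let a := Q * ((j : ℝ) * h) ^ (d / 2)
    let b := Q * (((j : ℝ) + 1) * h) ^ (d / 2)
    0 < a ∧ 1 ≤ b ∧ 2 ≤ b ^ (2 / d) ∧ b ^ (1 - 2 / d) ≤ b - a := by
  intro a b
  have hj0 : (0 : ℝ) < j := by exact_mod_cast hj
  have hj1 : (1 : ℝ) ≤ j := by exact_mod_cast hj
  have hd0 : 0 < d := by linarith
  have hw : 2 < d / 2 := by linarith
  have ha : 0 < a := by positivity
  have hb : 0 < b := by positivity
  have hB2 : (2 : ℝ) ≤ 2 ^ (d / 2 - 1) := by
    calc (2 : ℝ) = 2 ^ (1 : ℝ) := (Real.rpow_one 2).symm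
      _ ≤ 2 ^ (d / 2 - 1) := Real.rpow_le_rpow_of_exponent_le (by norm_num) (by linarith)
  have hbk : b ^ (2 / d) = Q ^ (2 / d) * h * (j + 1) := by
    have e1 : d / 2 * (2 / d) = 1 := by field_simp
    have e2 : b ^ (2 / d) = Q ^ (2 / d) * ((((j : ℝ) + 1) * h) ^ (d / 2)) ^ (2 / d) :=
      Real.mul_rpow hQ.le (by positivity)
    rw [e2, ← Real.rpow_mul (by positivity), e1, Real.rpow_one]
    ring
  have hbk2 : 2 ≤ b ^ (2 / d) := by
    rw [hbk]
    have : (2 : ℝ) ≤ Q ^ (2 / d) * h := hB2.trans hQh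
    nlinarith
  have hb1 : 1 ≤ b := by
    by_contra hlt
    push Not at hlt
    have : b ^ (2 / d) < 1 := Real.rpow_lt_one hb.le hlt (by positivity)
    linarith
  refine ⟨ha, hb1, hbk2, ?_⟩
  -- the mean value inequality
  have h1 : (j : ℝ) ^ (d / 2) + d / 2 * (j : ℝ) ^ (d / 2 - 1) ≤ ((j : ℝ) + 1) ^ (d / 2) := by
    have h2 := one_add_mul_self_le_rpow_one_add (s := 1 / (j : ℝ))
      (by have : (0 : ℝ) < 1 / j := by positivity
          linarith) (p := d / 2) (by linarith)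
    have h3 : ((j : ℝ) + 1) = j * (1 + 1 / j) := by field_simp
    rw [h3, Real.mul_rpow hj0.le (by positivity)]
    have h4 := mul_le_mul_of_nonneg_left h2 (show 0 ≤ (j : ℝ) ^ (d / 2) by positivity)
    refine le_trans (le_of_eq ?_) h4
    rw [Real.rpow_sub_one hj0.ne']
    field_simp
  have h2 : ((j : ℝ) + 1) ^ (d / 2 - 1) ≤ 2 ^ (d / 2 - 1) * (j : ℝ) ^ (d / 2 - 1) := by
    rw [← Real.mul_rpow (by norm_num) hj0.le]
    exact Real.rpow_le_rpow (by positivity) (by linarith) (by linarith)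
  have hba : b - a = Q * h ^ (d / 2) * (((j : ℝ) + 1) ^ (d / 2) - (j : ℝ) ^ (d / 2)) := by
    show Q * (((j : ℝ) + 1) * h) ^ (d / 2) - Q * ((j : ℝ) * h) ^ (d / 2) = _
    rw [Real.mul_rpow (by positivity) hh.le, Real.mul_rpow hj0.le hh.le]
    ring
  have hbe : b = Q * h ^ (d / 2) * (((j : ℝ) + 1) ^ (d / 2 - 1) * (j + 1)) := by
    show Q * (((j : ℝ) + 1) * h) ^ (d / 2) = _
    rw [Real.mul_rpow (by positivity) hh.le, Real.rpow_sub_one (by positivity)]
    field_simp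
  have hc : 0 < Q * h ^ (d / 2) := by positivity
  have key : b ≤ (b - a) * b ^ (2 / d) := by
    have k1 : Q * h ^ (d / 2) * (d / 2 * (j : ℝ) ^ (d / 2 - 1)) ≤ b - a := by
      rw [hba]
      exact mul_le_mul_of_nonneg_left (by linarith) hc.le
    have k2 : (2 : ℝ) ^ (d / 2 - 1) * (j + 1) ≤ b ^ (2 / d) := by
      rw [hbk]
      exact mul_le_mul_of_nonneg_right hQh (by positivity)
    have k3 : Q * h ^ (d / 2) * (d / 2 * (j : ℝ) ^ (d / 2 - 1)) * ((2 : ℝ) ^ (d / 2 - 1) * (j + 1)) ≤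
        (b - a) * b ^ (2 / d) := by
      refine mul_le_mul k1 k2 (by positivity) ?_
      exact le_trans (by positivity) k1
    refine le_trans ?_ k3
    have k4 : b ≤ Q * h ^ (d / 2) * ((2 ^ (d / 2 - 1) * (j : ℝ) ^ (d / 2 - 1)) * (j + 1)) := by
      rw [hbe]
      exact mul_le_mul_of_nonneg_left (mul_le_mul_of_nonneg_right h2 (by positivity)) hc.le
    refine k4.trans ?_
    have k5 : 0 ≤ Q * h ^ (d / 2) * ((2 ^ (d / 2 - 1) * (j : ℝ) ^ (d / 2 - 1)) * (j + 1)) := by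
      positivity
    calc Q * h ^ (d / 2) * ((2 ^ (d / 2 - 1) * (j : ℝ) ^ (d / 2 - 1)) * (j + 1)) =
        1 * (Q * h ^ (d / 2) * ((2 ^ (d / 2 - 1) * (j : ℝ) ^ (d / 2 - 1)) * (j + 1))) := by ring
      _ ≤ (d / 2) * (Q * h ^ (d / 2) * ((2 ^ (d / 2 - 1) * (j : ℝ) ^ (d / 2 - 1)) * (j + 1))) :=
          mul_le_mul_of_nonneg_right (by linarith) k5
      _ = _ := by ring
  rw [Real.rpow_sub hb, Real.rpow_one, div_le_iff₀ (by positivity)]
  exact key

/-- the primes for one `m` -/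
private theorem cd_primes {C : ℝ} (hC : 0 < C) (hBT : ∀ x y : ℕ, 2 ≤ y →
    (((Finset.Icc (x + 1) (x + y)).filter Nat.Prime).card : ℝ) ≤ C * y / Real.log y)
    {κ a b : ℝ} (hκ : 0 < κ) (ha : 0 < a) (hb : 1 ≤ b) (hb2 : 2 ≤ b ^ κ)
    (hba : b ^ (1 - κ) ≤ b - a) {m : ℕ} (hm : 1 ≤ m) (hmb : (m : ℝ) ≤ b ^ (1 - 2 * κ))
    (P : Finset ℕ) (hP : ∀ p ∈ P, p.Prime ∧ a ≤ (m : ℝ) * p ∧ (m : ℝ) * p < b) :
    ∑ p ∈ P, Real.log p ≤ 3 * C / κ * ((b - a) / m) := by
  have hm0 : (0 : ℝ) < m := by exact_mod_cast hm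
  have hm1 : (1 : ℝ) ≤ m := by exact_mod_cast hm
  have hb0 : 0 < b := by linarith
  have hb1 : 1 < b := by
    rcases lt_or_eq_of_le hb with h | h
    · exact h
    · rw [← h, Real.one_rpow] at hb2
      linarith
  have hlb : 0 < Real.log b := Real.log_pos hb1
  set z : ℝ := (b - a) / m with hz
  have hzb : b ^ κ ≤ z := by
    rw [hz, le_div_iff₀ hm0]
    calc b ^ κ * m ≤ b ^ κ * b ^ (1 - 2 * κ) := mul_le_mul_of_nonneg_left hmb (by positivity)
      _ = b ^ (1 - κ) := by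
          rw [← Real.rpow_add hb0]
          congr 1
          ring
      _ ≤ b - a := hba
  have hz2 : 2 ≤ z := hb2.trans hzb
  obtain ⟨y, hy⟩ : ∃ y : ℕ, y = ⌈z⌉₊ + 1 := ⟨_, rfl⟩
  obtain ⟨x, hx⟩ : ∃ x : ℕ, x + 1 = ⌈a / m⌉₊ := by
    have : 0 < ⌈a / (m : ℝ)⌉₊ := Nat.ceil_pos.2 (by positivity)
    exact ⟨⌈a / (m : ℝ)⌉₊ - 1, by omega⟩
  have hy1 : z ≤ (y : ℝ) := by
    rw [hy]
    push_cast
    linarith [Nat.le_ceil z]
  have hy2 : (y : ℝ) ≤ 3 * z := by
    rw [hy]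
    push_cast
    have := Nat.ceil_lt_add_one (show 0 ≤ z by linarith)
    linarith
  have hyn : 2 ≤ y := by
    have : (2 : ℝ) ≤ y := hz2.trans hy1
    exact_mod_cast this
  have hsub : P ⊆ (Finset.Icc (x + 1) (x + y)).filter Nat.Prime := by
    intro p hp
    obtain ⟨h1, h2, h3⟩ := hP p hp
    rw [Finset.mem_filter, Finset.mem_Icc]
    refine ⟨⟨?_, ?_⟩, h1⟩
    · rw [hx]
      refine Nat.ceil_le.2 ?_
      rw [div_le_iff₀ hm0, mul_comm]
      exact h2
    · have h4 : (p : ℝ) ≤ (x + y : ℕ) := by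
        have h5 : (p : ℝ) < b / m := by
          rw [lt_div_iff₀ hm0, mul_comm]
          exact h3
        have h6 : a / m ≤ (x : ℝ) + 1 := by
          have := Nat.le_ceil (a / (m : ℝ))
          rw [← hx] at this
          push_cast at this
          exact this
        have h7 : z + 1 ≤ (y : ℝ) := by
          rw [hy]
          push_cast
          linarith [Nat.le_ceil z]
        have h8 : b / m = a / m + z := by
          rw [hz]
          field_simp
          ring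
        push_cast
        linarith
      exact_mod_cast h4
  have hcard : (P.card : ℝ) ≤ 3 * C * z / (κ * Real.log b) := by
    calc (P.card : ℝ) ≤ (((Finset.Icc (x + 1) (x + y)).filter Nat.Prime).card : ℝ) := by
          exact_mod_cast Finset.card_le_card hsub
      _ ≤ C * y / Real.log y := hBT x y hyn
      _ ≤ 3 * C * z / (κ * Real.log b) := by
          refine div_le_div₀ (by positivity) ?_ (by positivity) ?_
          · have := mul_le_mul_of_nonneg_left hy2 hC.le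
            linarith
          · rw [← Real.log_rpow hb0]
            exact Real.log_le_log (by positivity) (hzb.trans hy1)
  calc ∑ p ∈ P, Real.log p ≤ ∑ p ∈ P, Real.log b := by
        refine Finset.sum_le_sum fun p hp => ?_
        obtain ⟨h1, h2, h3⟩ := hP p hp
        have hp0 : (0 : ℝ) < p := by exact_mod_cast h1.pos
        refine Real.log_le_log hp0 ?_
        nlinarith
    _ = P.card * Real.log b := by rw [Finset.sum_const, nsmul_eq_mul]
    _ ≤ 3 * C * z / (κ * Real.log b) * Real.log b := mul_le_mul_of_nonneg_right hcard hlb.le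
    _ = 3 * C / κ * z := by field_simp

theorem sg_cell {d h : ℝ} (hd : 4 < d) (hh : 0 < h) (hh1 : h ≤ 1) : ∃ A Q0 : ℝ, 0 < A ∧ 1 ≤ Q0 ∧
    ∀ Q : ℝ, Q0 ≤ Q → ∀ j : ℕ, 1 ≤ j → ∀ F : Finset ℕ,
      (∀ n ∈ F, (j : ℝ) * h ≤ nd d Q n ∧ nd d Q n < ((j : ℝ) + 1) * h) →
      ∑ n ∈ F, sg (2 / d) n ≤ A * cl d Q h j := by
  classical
  obtain ⟨C, hC, hBT⟩ := Pool.Agent.H3.LC.brun_titchmarsh
  obtain ⟨C', hC', hgs⟩ := gsum
  have hd0 : 0 < d := by linarith
  have hκ : 0 < 2 / d := by positivity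
  have hκ2 : 2 / d < 1 / 2 := by
    rw [div_lt_div_iff₀ hd0 (by norm_num)]
    linarith
  refine ⟨2 + 3 * C / (2 / d) * C', max 1 (((2 : ℝ) ^ (d / 2 - 1) / h) ^ (d / 2)), by positivity,
    le_max_left _ _, fun Q hQ j hj F hF => ?_⟩
  have hQ1 : 1 ≤ Q := (le_max_left _ _).trans hQ
  have hQ0 : 0 < Q := by linarith
  have hQh : (2 : ℝ) ^ (d / 2 - 1) ≤ Q ^ (2 / d) * h := by
    have h1 : (((2 : ℝ) ^ (d / 2 - 1) / h) ^ (d / 2)) ^ (2 / d) ≤ Q ^ (2 / d) :=
      Real.rpow_le_rpow (by positivity) ((le_max_right _ _).trans hQ) hκ.le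
    have e1 : d / 2 * (2 / d) = 1 := by field_simp
    rw [← Real.rpow_mul (by positivity), e1, Real.rpow_one] at h1
    rwa [div_le_iff₀ hh] at h1
  obtain ⟨ha, hb1, hb2, hba⟩ := cd_len hd hh hQ0 hQh hj
  have hcl : cl d Q h j = Q * (((j : ℝ) + 1) * h) ^ (d / 2) - Q * ((j : ℝ) * h) ^ (d / 2) := by
    unfold cl
    ring
  rw [hcl]
  set a : ℝ := Q * ((j : ℝ) * h) ^ (d / 2) with hadef
  set b : ℝ := Q * (((j : ℝ) + 1) * h) ^ (d / 2) with hbdef
  have hb0 : 0 < b := by linarith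
  have hj0 : (0 : ℝ) < j := by exact_mod_cast hj
  -- the cell in terms of `n`
  have hab : ∀ n ∈ F, a ≤ (n : ℝ) ∧ (n : ℝ) < b := by
    intro n hn
    obtain ⟨h1, h2⟩ := hF n hn
    have hn0 : (0 : ℝ) ≤ (n : ℝ) / Q := by positivity
    have e1 : 2 / d * (d / 2) = 1 := by field_simp
    have e2 : (nd d Q n) ^ (d / 2) = (n : ℝ) / Q := by
      unfold nd
      rw [← Real.rpow_mul hn0, e1, Real.rpow_one]
    have hnd0 : 0 ≤ nd d Q n := by unfold nd; positivity
    constructor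
    · have h3 : ((j : ℝ) * h) ^ (d / 2) ≤ (nd d Q n) ^ (d / 2) :=
        Real.rpow_le_rpow (by positivity) h1 (by positivity)
      rw [e2, le_div_iff₀ hQ0, mul_comm] at h3
      exact h3
    · have h3 : (nd d Q n) ^ (d / 2) < (((j : ℝ) + 1) * h) ^ (d / 2) :=
        Real.rpow_lt_rpow hnd0 h2 (by positivity)
      rw [e2, div_lt_iff₀ hQ0, mul_comm] at h3
      exact h3
  have hba1 : 1 ≤ b - a := by
    have : (1 : ℝ) ≤ b ^ (1 - 2 / d) := Real.one_le_rpow hb1 (by linarith)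
    linarith
  -- the number of elements
  have hcard : (F.card : ℝ) ≤ 2 * (b - a) := by
    have h1 : F ⊆ Finset.Ico ⌈a⌉₊ ⌈b⌉₊ := by
      intro n hn
      obtain ⟨h2, h3⟩ := hab n hn
      rw [Finset.mem_Ico]
      exact ⟨Nat.ceil_le.2 h2, Nat.lt_ceil.2 h3⟩
    have h2 := Finset.card_le_card h1
    rw [Nat.card_Ico] at h2
    have h3 : (F.card : ℝ) ≤ (⌈b⌉₊ : ℝ) - ⌈a⌉₊ := by
      have h4 : ⌈a⌉₊ ≤ ⌈b⌉₊ := Nat.ceil_le_ceil (by linarith)
      have h5 : (F.card : ℝ) ≤ ((⌈b⌉₊ - ⌈a⌉₊ : ℕ) : ℝ) := by exact_mod_cast h2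
      rwa [Nat.cast_sub h4] at h5
    have h4 := Nat.ceil_lt_add_one hb0.le
    have h5 := Nat.le_ceil a
    linarith
  -- the second part
  set S : ℕ → Finset ℕ := fun n => if Squarefree n ∧ ∀ q ∈ n.primeFactors, 3 ≤ q then
    n.primeFactors.filter (fun p : ℕ => (n : ℝ) ^ (2 * (2 / d)) < (p : ℝ)) else ∅ with hS
  have hsg : ∀ n, sg (2 / d) n ≤ 1 + ∑ p ∈ S n, Real.log p * cd_g (n / p) := by
    intro n
    by_cases h1 : Squarefree n ∧ ∀ q ∈ n.primeFactors, 3 ≤ q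
    · have h2 : S n = n.primeFactors.filter (fun p : ℕ => (n : ℝ) ^ (2 * (2 / d)) < (p : ℝ)) :=
        if_pos h1
      rw [h2, Finset.sum_filter]
      unfold sg
      rw [if_pos h1]
      exact le_rfl
    · have h2 : S n = ∅ := if_neg h1
      rw [h2, Finset.sum_empty]
      unfold sg
      rw [if_neg h1]
      norm_num
  have hsum : ∑ n ∈ F, ∑ p ∈ S n, Real.log p * cd_g (n / p) ≤
      3 * C / (2 / d) * C' * (b - a) := by
    obtain ⟨N, hN⟩ : ∃ N : ℕ, N = ⌊b ^ (1 - 2 * (2 / d))⌋₊ := ⟨_, rfl⟩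
    set MM : Finset ℕ := (Finset.Icc 1 N).filter
      (fun m => Squarefree m ∧ ∀ q ∈ m.primeFactors, 3 ≤ q) with hMM
    set PP : ℕ → Finset ℕ := fun m => (Finset.range ⌈b⌉₊).filter
      (fun p : ℕ => p.Prime ∧ a ≤ (m : ℝ) * p ∧ (m : ℝ) * p < b) with hPP
    have hfac : ∀ n ∈ F, ∀ p ∈ S n, n / p * p = n ∧ n / p ∈ MM ∧ p ∈ PP (n / p) := by
      intro n hn p hp
      rw [hS] at hp
      simp only at hp
      split_ifs at hp with h1
      · rw [Finset.mem_filter] at hp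
        obtain ⟨hp1, hp2⟩ := hp
        have hpp := Nat.prime_of_mem_primeFactors hp1
        have hpn := Nat.dvd_of_mem_primeFactors hp1
        have hn0 : n ≠ 0 := (Nat.mem_primeFactors.1 hp1).2.2
        have hnp : n / p * p = n := Nat.div_mul_cancel hpn
        have hdvd : n / p ∣ n := Nat.div_dvd_of_dvd hpn
        have hm0 : n / p ≠ 0 := by
          intro h0
          rw [h0, zero_mul] at hnp
          exact hn0 hnp.symm
        have hnpr : ((n / p : ℕ) : ℝ) * p = n := by exact_mod_cast hnp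
        obtain ⟨hn1, hn2⟩ := hab n hn
        have hnpos : (0 : ℝ) < n := by exact_mod_cast Nat.pos_of_ne_zero hn0
        have hn1' : (1 : ℝ) ≤ n := by exact_mod_cast Nat.one_le_iff_ne_zero.2 hn0
        refine ⟨hnp, ?_, ?_⟩
        · rw [hMM, Finset.mem_filter, Finset.mem_Icc]
          refine ⟨⟨Nat.one_le_iff_ne_zero.2 hm0, ?_⟩, h1.1.squarefree_of_dvd hdvd,
            fun q hq => h1.2 q (Nat.primeFactors_mono hdvd hn0 hq)⟩
          rw [hN]
          refine Nat.le_floor ?_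
          have h3 : ((n / p : ℕ) : ℝ) ≤ (n : ℝ) ^ (1 - 2 * (2 / d)) := by
            rw [Real.rpow_sub hnpos, Real.rpow_one, le_div_iff₀ (by positivity)]
            calc ((n / p : ℕ) : ℝ) * (n : ℝ) ^ (2 * (2 / d)) ≤ ((n / p : ℕ) : ℝ) * p :=
                  mul_le_mul_of_nonneg_left hp2.le (Nat.cast_nonneg _)
              _ = n := hnpr
          exact h3.trans (Real.rpow_le_rpow hnpos.le hn2.le (by linarith))
        · rw [hPP]
          simp only [Finset.mem_filter, Finset.mem_range]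
          refine ⟨?_, hpp, by rw [hnpr]; exact hn1, by rw [hnpr]; exact hn2⟩
          refine Nat.lt_ceil.2 (lt_of_le_of_lt ?_ hn2)
          exact_mod_cast Nat.le_of_dvd (Nat.pos_of_ne_zero hn0) hpn
      · exact absurd hp (Finset.notMem_empty p)
    have h1 : ∑ n ∈ F, ∑ p ∈ S n, Real.log p * cd_g (n / p) =
        ∑ x ∈ F.sigma S, Real.log x.2 * cd_g (x.1 / x.2) := Finset.sum_sigma' _ _ _
    have h2 : ∑ x ∈ F.sigma S, Real.log x.2 * cd_g (x.1 / x.2) =
        ∑ y ∈ (F.sigma S).image (fun x => ((x.1 / x.2, x.2) : ℕ × ℕ)),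
          Real.log y.2 * cd_g y.1 := by
      rw [Finset.sum_image]
      intro x hx x' hx' hxx
      rw [Finset.mem_coe, Finset.mem_sigma] at hx hx'
      have e1 := (hfac x.1 hx.1 x.2 hx.2).1
      have e2 := (hfac x'.1 hx'.1 x'.2 hx'.2).1
      simp only [Prod.mk.injEq] at hxx
      have e3 : x.1 = x'.1 := by rw [← e1, ← e2, hxx.1, hxx.2]
      exact Sigma.ext e3 (heq_of_eq hxx.2)
    have h3 : (F.sigma S).image (fun x => ((x.1 / x.2, x.2) : ℕ × ℕ)) ⊆
        (MM ×ˢ Finset.range ⌈b⌉₊).filter (fun y => y.2 ∈ PP y.1) := by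
      intro y hy
      rw [Finset.mem_image] at hy
      obtain ⟨x, hx, rfl⟩ := hy
      rw [Finset.mem_sigma] at hx
      obtain ⟨-, e2, e3⟩ := hfac x.1 hx.1 x.2 hx.2
      rw [Finset.mem_filter, Finset.mem_product]
      exact ⟨⟨e2, (Finset.mem_filter.1 e3).1⟩, e3⟩
    rw [h1, h2]
    calc ∑ y ∈ (F.sigma S).image (fun x => ((x.1 / x.2, x.2) : ℕ × ℕ)),
          Real.log y.2 * cd_g y.1 ≤
        ∑ y ∈ (MM ×ˢ Finset.range ⌈b⌉₊).filter (fun y => y.2 ∈ PP y.1),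
          Real.log y.2 * cd_g y.1 :=
          Finset.sum_le_sum_of_subset_of_nonneg h3 fun y _ _ =>
            mul_nonneg (Real.log_natCast_nonneg _) (cd_g_nonneg _)
      _ = ∑ m ∈ MM, ∑ p ∈ PP m, Real.log p * cd_g m := by
          rw [Finset.sum_filter, Finset.sum_product]
          refine Finset.sum_congr rfl fun m _ => ?_
          rw [← Finset.sum_filter]
          refine Finset.sum_congr ?_ fun p _ => rfl
          ext p
          rw [Finset.mem_filter]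
          exact ⟨fun h => h.2, fun h => ⟨(Finset.mem_filter.1 h).1, h⟩⟩
      _ ≤ ∑ m ∈ MM, 3 * C / (2 / d) * (b - a) * (cd_g m / m) := by
          refine Finset.sum_le_sum fun m hm => ?_
          rw [hMM, Finset.mem_filter, Finset.mem_Icc] at hm
          have hmN : (m : ℝ) ≤ b ^ (1 - 2 * (2 / d)) := by
            have := hm.1.2
            rw [hN] at this
            exact (Nat.le_floor_iff (by positivity)).1 this
          have h4 := cd_primes hC hBT hκ ha hb1 hb2 hba hm.1.1 hmN (PP m) (fun p hp =>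
            (Finset.mem_filter.1 hp).2)
          rw [← Finset.sum_mul]
          have h5 := mul_le_mul_of_nonneg_right h4 (cd_g_nonneg m)
          refine h5.trans (le_of_eq ?_)
          ring
      _ = 3 * C / (2 / d) * (b - a) * ∑ m ∈ MM, cd_g m / m := by rw [Finset.mul_sum]
      _ ≤ 3 * C / (2 / d) * (b - a) * C' := by
          refine mul_le_mul_of_nonneg_left (hgs N) ?_
          have : 0 ≤ b - a := by linarith
          positivity
      _ = 3 * C / (2 / d) * C' * (b - a) := by ring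
  calc ∑ n ∈ F, sg (2 / d) n ≤ ∑ n ∈ F, (1 + ∑ p ∈ S n, Real.log p * cd_g (n / p)) :=
        Finset.sum_le_sum fun n _ => hsg n
    _ = F.card + ∑ n ∈ F, ∑ p ∈ S n, Real.log p * cd_g (n / p) := by
        rw [Finset.sum_add_distrib, Finset.sum_const, nsmul_eq_mul, mul_one]
    _ ≤ 2 * (b - a) + 3 * C / (2 / d) * C' * (b - a) := add_le_add hcard hsum
    _ = (2 + 3 * C / (2 / d) * C') * (b - a) := by ring

end Pool.Agent.H97.EP
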