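import Pool.Agent.H97.EP.CA
import Pool.Agent.H97.EP.CD

/-!
# Project EP, module `CE` : the weights `sg`, pointwise lower bound

`n` squarefree, not `1`, not prime, all prime factors `≥ 3` (so `log q ≥ log 3 > 1` and `n ≥ 15`,
`log n ≥ 1`).  `n^κ aa W n = ∏_{q|n} 4 log q` (`∏_{q|n} q = n`).  `ω` = number of prime factors.
(A) some prime `p | n` with `p > n^{2κ}`: `sg ≥ log p ∏_{q|n/p} (log q)^{-1/2}` (the other terms are
    nonnegative), so `sg · ∏_{q|n} 4 log q ≥ 4^ω (log p)^2 ∏_{q|n/p} (log q)^{1/2} ≥ (log p)^2 ≥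
    4κ^2 (log n)^2`.
(B) all prime factors `≤ n^{2κ}`: `(log n)^2 = (∑_{q|n} log q)^2 = ∑_q log^2 q + ∑_{q≠q'} log q log q'
    ≤ 2κ (log n)^2 + ω^2 ∏_{q|n} log q`, hence `(1-2κ)(log n)^2 ≤ 4^ω ∏ log q ≤ sg ∏ 4 log q`
    (`ω^2 ≤ 4^ω`; `log q log q' ≤ ∏_{r|n} log r` as all `log r ≥ 1`).
Finally `(1 + log n)^2 ≤ 4 (log n)^2`.
-/

set_option autoImplicit false

namespace Pool.Agent.H97.EP

private theorem ce_log3 {q : ℕ} (hq : 3 ≤ q) : 1 ≤ Real.log q := by
  have h3 : Real.exp 1 ≤ (3 : ℝ) := Real.exp_one_lt_three.le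
  have h4 : (3 : ℝ) ≤ q := by exact_mod_cast hq
  exact (Real.le_log_iff_exp_le (by linarith)).2 (h3.trans h4)

private theorem ce_prod {n : ℕ} (hs : Squarefree n) : ∏ q ∈ n.primeFactors, (q : ℝ) = n := by
  have h := Nat.prod_primeFactors_of_squarefree hs
  have h2 : ((∏ q ∈ n.primeFactors, q : ℕ) : ℝ) = (n : ℝ) := by rw [h]
  rw [← h2, Nat.cast_prod]

private theorem ce_logsum {n : ℕ} (hs : Squarefree n) :
    ∑ q ∈ n.primeFactors, Real.log q = Real.log n := by
  rw [← ce_prod hs, Real.log_prod]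
  intro q hq
  have := (Nat.prime_of_mem_primeFactors hq).pos
  positivity

private theorem ce_aa {κ : ℝ} {n : ℕ} (hs : Squarefree n) :
    (n : ℝ) ^ κ * aa (fun q => 4 * ((q : ℝ) ^ (-κ) * Real.log q)) n =
      ∏ q ∈ n.primeFactors, (4 * Real.log q) := by
  have hn : 0 < n := Nat.pos_of_ne_zero hs.ne_zero
  have h1 : ∏ q ∈ n.primeFactors, (q : ℝ) ^ (-κ) = (n : ℝ) ^ (-κ) := by
    rw [Real.finsetProd_rpow _ _ (fun q _ => Nat.cast_nonneg q), ce_prod hs]
  have h2 : (n : ℝ) ^ κ * (n : ℝ) ^ (-κ) = 1 := by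
    rw [← Real.rpow_add (by exact_mod_cast hn)]; simp
  have h3 : aa (fun q => 4 * ((q : ℝ) ^ (-κ) * Real.log q)) n =
      (n : ℝ) ^ (-κ) * ∏ q ∈ n.primeFactors, (4 * Real.log q) := by
    unfold aa
    rw [if_pos hs, ← h1, ← Finset.prod_mul_distrib]
    exact Finset.prod_congr rfl fun q _ => by ring
  rw [h3, ← mul_assoc, h2, one_mul]

theorem sg_point {κ : ℝ} (hκ : 0 < κ) (hκ2 : κ < 1 / 2) : ∃ C : ℝ, 0 < C ∧ ∀ n : ℕ,
    Squarefree n → (∀ q ∈ n.primeFactors, 3 ≤ q) → n ≠ 1 → ¬ n.Prime →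
    (1 + Real.log n) ^ 2 ≤
      C * sg κ n * ((n : ℝ) ^ κ * aa (fun q => 4 * ((q : ℝ) ^ (-κ) * Real.log q)) n) := by
  have hk1 : 0 < 1 - 2 * κ := by linarith
  refine ⟨1 / κ ^ 2 + 4 / (1 - 2 * κ), by positivity, fun n hs h3 hn1 _ => ?_⟩
  rw [ce_aa hs]
  have hn : 0 < n := Nat.pos_of_ne_zero hs.ne_zero
  have hnR : (0 : ℝ) < n := by exact_mod_cast hn
  have hL : ∀ q ∈ n.primeFactors, 1 ≤ Real.log q := fun q hq => ce_log3 (h3 q hq)
  have hsum := ce_logsum hs
  have hlogn : 1 ≤ Real.log n := by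
    obtain ⟨q, hq⟩ : n.primeFactors.Nonempty := by
      rw [Nat.nonempty_primeFactors]; omega
    have h1 := hL q hq
    rw [← hsum]
    refine h1.trans (Finset.single_le_sum (f := fun q : ℕ => Real.log q) (fun i hi => ?_) hq)
    exact zero_le_one.trans (hL i hi)
  have h4 : (1 + Real.log n) ^ 2 ≤ 4 * Real.log n ^ 2 := by nlinarith
  have hterm : ∀ p ∈ n.primeFactors, 0 ≤ (if (n : ℝ) ^ (2 * κ) < p then
      Real.log p * ∏ q ∈ (n / p).primeFactors, (Real.log q) ^ (-(1 / 2 : ℝ)) else 0) := by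
    intro p hp
    split_ifs
    · refine mul_nonneg (zero_le_one.trans (hL p hp)) (Finset.prod_nonneg fun q _ => ?_)
      exact Real.rpow_nonneg (Real.log_natCast_nonneg q) _
    · exact le_rfl
  have hsg : sg κ n = 1 + ∑ p ∈ n.primeFactors, (if (n : ℝ) ^ (2 * κ) < p then
      Real.log p * ∏ q ∈ (n / p).primeFactors, (Real.log q) ^ (-(1 / 2 : ℝ)) else 0) := by
    unfold sg
    rw [if_pos ⟨hs, h3⟩]
  have hsg1 : 1 ≤ sg κ n := by
    rw [hsg]; linarith [Finset.sum_nonneg hterm]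
  have hPpos : 0 ≤ ∏ q ∈ n.primeFactors, (4 * Real.log q) :=
    Finset.prod_nonneg fun q hq => by linarith [hL q hq]
  by_cases hA : ∃ p ∈ n.primeFactors, (n : ℝ) ^ (2 * κ) < p
  · obtain ⟨p, hp, hlt⟩ := hA
    have hpp := Nat.prime_of_mem_primeFactors hp
    obtain ⟨m, hm⟩ := Nat.dvd_of_mem_primeFactors hp
    have hcop : Nat.Coprime p m := by
      rw [hm, Nat.squarefree_mul_iff] at hs; exact hs.1
    have hdiv : n / p = m := by rw [hm]; exact Nat.mul_div_cancel_left m hpp.pos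
    have hpf : n.primeFactors = {p} ∪ m.primeFactors := by
      rw [hm, hcop.primeFactors_mul, hpp.primeFactors]
    have hdisj : Disjoint ({p} : Finset ℕ) m.primeFactors := by
      rw [← hpp.primeFactors]; exact hcop.disjoint_primeFactors
    have hLm : ∀ q ∈ m.primeFactors, 1 ≤ Real.log q := fun q hq => hL q (by
      rw [hpf]; exact Finset.mem_union_right _ hq)
    have hlow : Real.log p * ∏ q ∈ m.primeFactors, (Real.log q) ^ (-(1 / 2 : ℝ)) ≤ sg κ n := by
      have h5 := Finset.single_le_sum hterm hp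
      rw [if_pos hlt, hdiv] at h5
      rw [hsg]; linarith
    have hprod : ∏ q ∈ n.primeFactors, (4 * Real.log q) =
        (4 * Real.log p) * ∏ q ∈ m.primeFactors, (4 * Real.log q) := by
      rw [hpf, Finset.prod_union hdisj, Finset.prod_singleton]
    have hlp : 1 ≤ Real.log p := hL p hp
    have hcomb : 1 ≤ (∏ q ∈ m.primeFactors, (Real.log q) ^ (-(1 / 2 : ℝ))) *
        ∏ q ∈ m.primeFactors, (4 * Real.log q) := by
      rw [← Finset.prod_mul_distrib]
      refine Finset.one_le_prod fun q hq => ?_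
      have hq1 := hLm q hq
      have h6 : (Real.log q) ^ (-(1 / 2 : ℝ)) * Real.log q = (Real.log q) ^ (1 / 2 : ℝ) := by
        nth_rw 2 [← Real.rpow_one (Real.log q)]
        rw [← Real.rpow_add (by linarith)]; norm_num
      have h7 : 1 ≤ (Real.log q) ^ (1 / 2 : ℝ) := Real.one_le_rpow hq1 (by norm_num)
      calc (1 : ℝ) ≤ 4 * (Real.log q) ^ (1 / 2 : ℝ) := by linarith
        _ = (Real.log q) ^ (-(1 / 2 : ℝ)) * (4 * Real.log q) := by rw [← h6]; ring
    have hkey : Real.log p ^ 2 ≤ sg κ n * ∏ q ∈ n.primeFactors, (4 * Real.log q) := by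
      have h8 : Real.log p * (∏ q ∈ m.primeFactors, (Real.log q) ^ (-(1 / 2 : ℝ))) *
          ∏ q ∈ n.primeFactors, (4 * Real.log q) ≤
          sg κ n * ∏ q ∈ n.primeFactors, (4 * Real.log q) :=
        mul_le_mul_of_nonneg_right hlow hPpos
      refine le_trans ?_ h8
      rw [hprod]
      have h9 : Real.log p * (∏ q ∈ m.primeFactors, (Real.log q) ^ (-(1 / 2 : ℝ))) *
          ((4 * Real.log p) * ∏ q ∈ m.primeFactors, (4 * Real.log q)) =
          4 * Real.log p ^ 2 * ((∏ q ∈ m.primeFactors, (Real.log q) ^ (-(1 / 2 : ℝ))) *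
            ∏ q ∈ m.primeFactors, (4 * Real.log q)) := by ring
      rw [h9]
      nlinarith [sq_nonneg (Real.log p)]
    have hlpn : 2 * κ * Real.log n ≤ Real.log p := by
      rw [← Real.log_rpow hnR]
      exact Real.log_le_log (by positivity) hlt.le
    have h10 : (2 * κ * Real.log n) ^ 2 ≤ Real.log p ^ 2 :=
      pow_le_pow_left₀ (by positivity) hlpn 2
    have h11 : 4 * Real.log n ^ 2 ≤
        1 / κ ^ 2 * (sg κ n * ∏ q ∈ n.primeFactors, (4 * Real.log q)) := by
      have h12 : 4 * Real.log n ^ 2 = 1 / κ ^ 2 * (2 * κ * Real.log n) ^ 2 := by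
        field_simp; ring
      rw [h12]
      exact mul_le_mul_of_nonneg_left (h10.trans hkey) (by positivity)
    have h13 : 0 ≤ 4 / (1 - 2 * κ) * (sg κ n * ∏ q ∈ n.primeFactors, (4 * Real.log q)) := by
      have : 0 ≤ sg κ n := zero_le_one.trans hsg1
      positivity
    calc (1 + Real.log n) ^ 2 ≤ 4 * Real.log n ^ 2 := h4
      _ ≤ 1 / κ ^ 2 * (sg κ n * ∏ q ∈ n.primeFactors, (4 * Real.log q)) +
          4 / (1 - 2 * κ) * (sg κ n * ∏ q ∈ n.primeFactors, (4 * Real.log q)) := by linarith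
      _ = _ := by ring
  · push Not at hA
    have hup : ∀ q ∈ n.primeFactors, Real.log q ≤ 2 * κ * Real.log n := by
      intro q hq
      have hq0 : (0 : ℝ) < q := by exact_mod_cast (Nat.prime_of_mem_primeFactors hq).pos
      rw [← Real.log_rpow hnR]
      exact Real.log_le_log hq0 (hA q hq)
    set P := ∏ q ∈ n.primeFactors, Real.log q with hP
    set ω := n.primeFactors.card with hω
    have hpair : ∀ q ∈ n.primeFactors, ∀ r ∈ n.primeFactors.erase q,
        Real.log q * Real.log r ≤ P := by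
      intro q hq r hr
      rw [hP, ← Finset.mul_prod_erase _ _ hq]
      refine mul_le_mul_of_nonneg_left ?_ (zero_le_one.trans (hL q hq))
      rw [← Finset.mul_prod_erase _ _ hr]
      have hr1 : 1 ≤ Real.log r := hL r (Finset.mem_of_mem_erase hr)
      have h14 : 1 ≤ ∏ x ∈ (n.primeFactors.erase q).erase r, Real.log x :=
        Finset.one_le_prod fun x hx =>
          hL x (Finset.mem_of_mem_erase (Finset.mem_of_mem_erase hx))
      nlinarith
    have hP0 : 0 ≤ P := Finset.prod_nonneg fun q hq => zero_le_one.trans (hL q hq)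
    have hrow : ∀ q ∈ n.primeFactors, Real.log q * Real.log n ≤
        Real.log q * (2 * κ * Real.log n) + ω * P := by
      intro q hq
      have h15 : Real.log n = Real.log q + ∑ r ∈ n.primeFactors.erase q, Real.log r := by
        rw [← hsum]
        exact (Finset.add_sum_erase n.primeFactors (fun r : ℕ => Real.log r) hq).symm
      have h16 : Real.log q * ∑ r ∈ n.primeFactors.erase q, Real.log r ≤ ω * P := by
        rw [Finset.mul_sum]
        calc ∑ r ∈ n.primeFactors.erase q, Real.log q * Real.log r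
            ≤ ∑ r ∈ n.primeFactors.erase q, P := Finset.sum_le_sum (hpair q hq)
          _ = ((n.primeFactors.erase q).card : ℝ) * P := by
              rw [Finset.sum_const, nsmul_eq_mul]
          _ ≤ ω * P := by
              refine mul_le_mul_of_nonneg_right ?_ hP0
              exact_mod_cast Finset.card_le_card (Finset.erase_subset _ _)
      have h17 : Real.log q * Real.log q ≤ Real.log q * (2 * κ * Real.log n) :=
        mul_le_mul_of_nonneg_left (hup q hq) (zero_le_one.trans (hL q hq))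
      calc Real.log q * Real.log n
          = Real.log q * Real.log q +
            Real.log q * ∑ r ∈ n.primeFactors.erase q, Real.log r := by
              conv_lhs => rw [h15]
              ring
        _ ≤ _ := add_le_add h17 h16
    have htot : Real.log n ^ 2 ≤ 2 * κ * Real.log n ^ 2 + (ω : ℝ) ^ 2 * P := by
      have h18 := Finset.sum_le_sum hrow
      rw [← Finset.sum_mul, Finset.sum_add_distrib, ← Finset.sum_mul, hsum, Finset.sum_const,
        nsmul_eq_mul, ← hω] at h18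
      calc Real.log n ^ 2 = Real.log n * Real.log n := sq _
        _ ≤ _ := h18
        _ = _ := by ring
    have hω4 : (ω : ℝ) ^ 2 ≤ 4 ^ ω := by
      have h19 : (ω : ℝ) ≤ 2 ^ ω := by exact_mod_cast (Nat.lt_two_pow_self (n := ω)).le
      calc (ω : ℝ) ^ 2 ≤ (2 ^ ω) ^ 2 := pow_le_pow_left₀ (Nat.cast_nonneg _) h19 2
        _ = 4 ^ ω := by rw [← pow_mul, mul_comm ω 2, pow_mul]; norm_num
    have hprod4 : ∏ q ∈ n.primeFactors, (4 * Real.log q) = 4 ^ ω * P := by
      rw [Finset.prod_mul_distrib, Finset.prod_const]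
    have h20 : (1 - 2 * κ) * Real.log n ^ 2 ≤
        sg κ n * ∏ q ∈ n.primeFactors, (4 * Real.log q) := by
      have h21 : (ω : ℝ) ^ 2 * P ≤ 4 ^ ω * P := mul_le_mul_of_nonneg_right hω4 hP0
      have h22 : ∏ q ∈ n.primeFactors, (4 * Real.log q) ≤
          sg κ n * ∏ q ∈ n.primeFactors, (4 * Real.log q) :=
        le_mul_of_one_le_left hPpos hsg1
      rw [hprod4] at h22 ⊢
      linarith
    have h23 : 4 * Real.log n ^ 2 ≤
        4 / (1 - 2 * κ) * (sg κ n * ∏ q ∈ n.primeFactors, (4 * Real.log q)) := by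
      have h24 : 4 * Real.log n ^ 2 = 4 / (1 - 2 * κ) * ((1 - 2 * κ) * Real.log n ^ 2) := by
        field_simp
      rw [h24]
      exact mul_le_mul_of_nonneg_left h20 (by positivity)
    have h25 : 0 ≤ 1 / κ ^ 2 * (sg κ n * ∏ q ∈ n.primeFactors, (4 * Real.log q)) := by
      have : 0 ≤ sg κ n := zero_le_one.trans hsg1
      positivity
    calc (1 + Real.log n) ^ 2 ≤ 4 * Real.log n ^ 2 := h4
      _ ≤ 1 / κ ^ 2 * (sg κ n * ∏ q ∈ n.primeFactors, (4 * Real.log q)) +
          4 / (1 - 2 * κ) * (sg κ n * ∏ q ∈ n.primeFactors, (4 * Real.log q)) := by linarith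
      _ = _ := by ring

end Pool.Agent.H97.EP
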