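import Pool.Agent.H97.EP.AT
import Pool.Agent.H97.EP.CE

/-!
# Project EP, module `CF` : the functional of the composite nodes

Let `κ = 2/d`, `ν n = sg κ n * (n^κ (1 + log n)^(-2))` if `h ≤ nd d Q n`, else `0`.
`bessel` applied to `σ n = if h ≤ nd d Q n then sg κ n else 0`, `A` from `sg_cell`
(subsets of a cell with `j ≥ 1`): `∑ ν p(u_n)^2 ≤ C A Q^{1+κ} N`, `N = NQ d Q (pr (d/2) f) < ∞`.
If `c n ≠ 0`: `n` has a prime factor `q` (as `n ≠ 1`; `n ≠ 0` squarefree), `q ≤ n`, so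
`h ≤ nd d Q q ≤ nd d Q n`, and by `sg_point` `1 ≤ ν n · C' aa W n`, i.e. `c^2 ≤ (C' c^2 aa W) ν`.
Cauchy-Schwarz: `∑ |c p(u_n)| ≤ (∑ C' c^2 aa W)^{1/2} (∑ ν p^2)^{1/2}` — in `ℝ` via
`Summable` of squares (`|x y| ≤ (x^2 + y^2)/2`; e.g. `Real.inner_mul_le_norm_mul_norm`,
`inner_le_Lp_mul_Lq_tsum_of_nonneg` with `p = q = 2`).  Final constant `C' C A`.
-/

set_option autoImplicit false
open MeasureTheory Set
open scoped ENNReal

namespace Pool.Agent.H97.EP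

private theorem cf_aa_nonneg (κ : ℝ) (n : ℕ) :
    0 ≤ aa (fun q => 4 * ((q : ℝ) ^ (-κ) * Real.log q)) n := by
  unfold aa
  split_ifs
  · refine Finset.prod_nonneg fun q _ => ?_
    exact mul_nonneg (by norm_num)
      (mul_nonneg (Real.rpow_nonneg (Nat.cast_nonneg _) _) (Real.log_natCast_nonneg _))
  · exact le_rfl

/-- Cauchy-Schwarz for series, with a pointwise bound of the product. -/
private theorem cf_cs {z x y : ℕ → ℝ} (hx : ∀ n, 0 ≤ x n) (hy : ∀ n, 0 ≤ y n)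
    (hz : ∀ n, z n ^ 2 ≤ x n * y n) (hxs : Summable x) (hys : Summable y) :
    (Summable fun n => |z n|) ∧ (∑' n, z n) ^ 2 ≤ (∑' n, x n) * ∑' n, y n := by
  have h2 : ∀ t : ℝ, 0 ≤ t → Real.sqrt t ^ (2 : ℝ) = t := by
    intro t ht
    rw [Real.rpow_two, Real.sq_sqrt ht]
  have hCS := Real.summable_and_inner_le_Lp_mul_Lq_tsum_of_nonneg (f := fun n => Real.sqrt (x n))
    (g := fun n => Real.sqrt (y n)) Real.HolderConjugate.two_two (fun n => Real.sqrt_nonneg _)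
    (fun n => Real.sqrt_nonneg _)
    (by simpa only [h2 _ (hx _)] using hxs) (by simpa only [h2 _ (hy _)] using hys)
  obtain ⟨hs, hle⟩ := hCS
  have hle2 : ∑' n, Real.sqrt (x n) * Real.sqrt (y n) ≤
      Real.sqrt (∑' n, x n) * Real.sqrt (∑' n, y n) := by
    have e1 : (fun n => Real.sqrt (x n) ^ (2 : ℝ)) = x := funext fun n => h2 _ (hx n)
    have e2 : (fun n => Real.sqrt (y n) ^ (2 : ℝ)) = y := funext fun n => h2 _ (hy n)
    rw [e1, e2, ← Real.sqrt_eq_rpow, ← Real.sqrt_eq_rpow] at hle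
    exact hle
  have habs : ∀ n, |z n| ≤ Real.sqrt (x n) * Real.sqrt (y n) := by
    intro n
    rw [← Real.sqrt_mul (hx n), ← Real.sqrt_sq_eq_abs]
    exact Real.sqrt_le_sqrt (hz n)
  have hsz : Summable fun n => |z n| := Summable.of_nonneg_of_le (fun n => abs_nonneg _) habs hs
  refine ⟨hsz, ?_⟩
  have h3 : |∑' n, z n| ≤ Real.sqrt (∑' n, x n) * Real.sqrt (∑' n, y n) := by
    have h4 : |∑' n, z n| ≤ ∑' n, |z n| := by
      have := norm_tsum_le_tsum_norm (f := z) (by simpa only [Real.norm_eq_abs] using hsz)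
      simpa only [Real.norm_eq_abs] using this
    exact h4.trans ((hsz.tsum_le_tsum habs hs).trans hle2)
  have hX : 0 ≤ ∑' n, x n := tsum_nonneg hx
  have hY : 0 ≤ ∑' n, y n := tsum_nonneg hy
  calc (∑' n, z n) ^ 2 = |∑' n, z n| ^ 2 := (sq_abs _).symm
    _ ≤ (Real.sqrt (∑' n, x n) * Real.sqrt (∑' n, y n)) ^ 2 :=
      pow_le_pow_left₀ (abs_nonneg _) h3 2
    _ = (∑' n, x n) * ∑' n, y n := by
      rw [mul_pow, Real.sq_sqrt hX, Real.sq_sqrt hY]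

theorem comp_bound {d h : ℝ} (hd : 4 < d) (hh : 0 < h) (hh1 : h ≤ 1) : ∃ C Q0 : ℝ, 0 < C ∧
    1 ≤ Q0 ∧ ∀ Q : ℝ, Q0 ≤ Q → ∀ c : ℕ → ℝ,
    (∀ n, c n ≠ 0 → Squarefree n ∧ n ≠ 1 ∧ ¬ n.Prime ∧ ∀ q ∈ n.primeFactors, 3 ≤ q ∧ h ≤ nd d Q q) →
    (Summable fun n : ℕ => c n ^ 2 * aa (fun q => 4 * ((q : ℝ) ^ (-(2 / d)) * Real.log q)) n) →
    ∀ f : VR, (Summable fun n : ℕ => |c n * pr (d / 2) f (nd d Q n)|) ∧
      ENNReal.ofReal ((∑' n : ℕ, c n * pr (d / 2) f (nd d Q n)) ^ 2) ≤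
        ENNReal.ofReal (C * Q ^ (1 + 2 / d) *
          ∑' n : ℕ, c n ^ 2 * aa (fun q => 4 * ((q : ℝ) ^ (-(2 / d)) * Real.log q)) n) *
        NQ d Q (pr (d / 2) f) := by
  have hd0 : 0 < d := by linarith
  have hκ : 0 < 2 / d := by positivity
  have hκ2 : 2 / d < 1 / 2 := by
    rw [div_lt_div_iff₀ hd0 (by norm_num)]
    linarith
  obtain ⟨C1, hC1, hB⟩ := bessel hd hh hh1
  obtain ⟨A, Q0, hA, hQ0, hcell⟩ := sg_cell hd hh hh1
  obtain ⟨C2, hC2, hpt⟩ := sg_point hκ hκ2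
  refine ⟨C2 * (C1 * A), Q0, by positivity, hQ0, ?_⟩
  intro Q hQ c hc hsum f
  have hQ1 : 1 ≤ Q := hQ0.trans hQ
  have hQpos : 0 < Q := by linarith
  set κ : ℝ := 2 / d with hκdef
  set g : ℕ → ℝ := fun n => pr (d / 2) f (nd d Q n) with hg
  set σ : ℕ → ℝ := fun n => if h ≤ nd d Q n then sg κ n else 0 with hσ
  have hσ0 : ∀ n, 0 ≤ σ n := by
    intro n
    simp only [hσ]
    split_ifs
    · exact sg_nonneg κ n
    · exact le_rfl
  have hσle : ∀ n, σ n ≤ sg κ n := by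
    intro n
    simp only [hσ]
    split_ifs
    · exact le_rfl
    · exact sg_nonneg κ n
  have hσs : ∀ n, σ n ≠ 0 → h ≤ nd d Q n := by
    intro n hn
    by_contra hcon
    apply hn
    simp only [hσ]
    rw [if_neg hcon]
  have hB1 := hB Q hQ1 σ A hA.le hσ0 hσs (by
    intro j hj F hF
    exact (Finset.sum_le_sum fun n _ => hσle n).trans (hcell Q hQ j hj F hF)) f
  set ν : ℕ → ℝ := fun n => σ n * ((n : ℝ) ^ κ * (1 + Real.log n) ^ (-2 : ℝ)) with hν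
  have hlog : ∀ n : ℕ, 0 ≤ Real.log n := fun n => Real.log_natCast_nonneg n
  have hν0 : ∀ n, 0 ≤ ν n := by
    intro n
    refine mul_nonneg (hσ0 n) (mul_nonneg (Real.rpow_nonneg (Nat.cast_nonneg _) _) ?_)
    exact Real.rpow_nonneg (by linarith [hlog n]) _
  have hy0 : ∀ n, 0 ≤ ν n * g n ^ 2 := fun n => mul_nonneg (hν0 n) (sq_nonneg _)
  have hNQ : NQ d Q (pr (d / 2) f) < ⊤ := NQ_lt_top hd hQpos f
  have hB2 : ∑' n : ℕ, ENNReal.ofReal (ν n * g n ^ 2) ≤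
      ENNReal.ofReal (C1 * A * Q ^ (1 + κ)) * NQ d Q (pr (d / 2) f) := hB1
  have hfin : ∑' n : ℕ, ENNReal.ofReal (ν n * g n ^ 2) ≠ ⊤ :=
    ne_top_of_le_ne_top (ENNReal.mul_ne_top ENNReal.ofReal_ne_top hNQ.ne) hB2
  have hys : Summable fun n => ν n * g n ^ 2 := by
    have h1 := ENNReal.summable_toReal hfin
    refine h1.congr fun n => ?_
    rw [ENNReal.toReal_ofReal (hy0 n)]
  have hyt : ENNReal.ofReal (∑' n, ν n * g n ^ 2) = ∑' n : ℕ, ENNReal.ofReal (ν n * g n ^ 2) :=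
    ENNReal.ofReal_tsum_of_nonneg hy0 hys
  set W : ℕ → ℝ := fun n => aa (fun q => 4 * ((q : ℝ) ^ (-κ) * Real.log q)) n with hW
  have hW0 : ∀ n, 0 ≤ W n := fun n => cf_aa_nonneg κ n
  have hsum' : Summable fun n => c n ^ 2 * W n := hsum
  have hxs : Summable fun n => C2 * (c n ^ 2 * W n) := hsum'.mul_left C2
  have hx0 : ∀ n, 0 ≤ C2 * (c n ^ 2 * W n) := fun n =>
    mul_nonneg hC2.le (mul_nonneg (sq_nonneg _) (hW0 n))
  have hz : ∀ n, (c n * g n) ^ 2 ≤ C2 * (c n ^ 2 * W n) * (ν n * g n ^ 2) := by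
    intro n
    by_cases hcn : c n = 0
    · rw [hcn]
      simp
    · obtain ⟨hsq, hn1, hnp, hq⟩ := hc n hcn
      have hn0 : n ≠ 0 := hsq.ne_zero
      have h1 := hpt n hsq (fun q hq' => (hq q hq').1) hn1 hnp
      have h2 : h ≤ nd d Q n := by
        obtain ⟨q, hqp, hqn⟩ := Nat.exists_prime_and_dvd hn1
        have h3 := (hq q (Nat.mem_primeFactors.2 ⟨hqp, hqn, hn0⟩)).2
        refine h3.trans ?_
        unfold nd
        have h4 : (q : ℝ) ≤ n := by exact_mod_cast Nat.le_of_dvd (Nat.pos_of_ne_zero hn0) hqn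
        exact Real.rpow_le_rpow (by positivity) (div_le_div_of_nonneg_right h4 hQpos.le) hκ.le
      have hσn : σ n = sg κ n := by
        simp only [hσ]
        rw [if_pos h2]
      have hpos : 0 < 1 + Real.log n := by linarith [hlog n]
      have e1 : (1 + Real.log n) ^ (-2 : ℝ) = ((1 + Real.log n) ^ 2)⁻¹ := by
        rw [Real.rpow_neg hpos.le, Real.rpow_two]
      have h5 : 1 ≤ C2 * W n * ν n := by
        have h6 : (1 + Real.log n) ^ 2 * ((1 + Real.log n) ^ 2)⁻¹ ≤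
            C2 * sg κ n * ((n : ℝ) ^ κ * W n) * ((1 + Real.log n) ^ 2)⁻¹ :=
          mul_le_mul_of_nonneg_right h1 (by positivity)
        rw [mul_inv_cancel₀ (by positivity)] at h6
        have e2 : C2 * W n * ν n = C2 * sg κ n * ((n : ℝ) ^ κ * W n) *
            ((1 + Real.log n) ^ 2)⁻¹ := by
          show C2 * W n * (σ n * ((n : ℝ) ^ κ * (1 + Real.log n) ^ (-2 : ℝ))) = _
          rw [hσn, e1]
          ring
        rw [e2]
        exact h6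
      have h7 : (c n * g n) ^ 2 * 1 ≤ (c n * g n) ^ 2 * (C2 * W n * ν n) :=
        mul_le_mul_of_nonneg_left h5 (sq_nonneg _)
      calc (c n * g n) ^ 2 = (c n * g n) ^ 2 * 1 := by ring
        _ ≤ (c n * g n) ^ 2 * (C2 * W n * ν n) := h7
        _ = _ := by ring
  obtain ⟨hs1, hs2⟩ := cf_cs hx0 hy0 hz hxs hys
  refine ⟨hs1, ?_⟩
  rw [tsum_mul_left] at hs2
  set S : ℝ := ∑' n, c n ^ 2 * W n with hS
  have hS0 : 0 ≤ S := tsum_nonneg fun n => mul_nonneg (sq_nonneg _) (hW0 n)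
  have hQp : 0 ≤ Q ^ (1 + κ) := Real.rpow_nonneg hQpos.le _
  calc ENNReal.ofReal ((∑' n, c n * g n) ^ 2)
      ≤ ENNReal.ofReal (C2 * S * ∑' n, ν n * g n ^ 2) := ENNReal.ofReal_le_ofReal hs2
    _ = ENNReal.ofReal (C2 * S) * ENNReal.ofReal (∑' n, ν n * g n ^ 2) :=
      ENNReal.ofReal_mul (by positivity)
    _ = ENNReal.ofReal (C2 * S) * ∑' n : ℕ, ENNReal.ofReal (ν n * g n ^ 2) := by rw [hyt]
    _ ≤ ENNReal.ofReal (C2 * S) * (ENNReal.ofReal (C1 * A * Q ^ (1 + κ)) *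
        NQ d Q (pr (d / 2) f)) := by gcongr
    _ = ENNReal.ofReal (C2 * S * (C1 * A * Q ^ (1 + κ))) * NQ d Q (pr (d / 2) f) := by
      rw [← mul_assoc, ← ENNReal.ofReal_mul (by positivity)]
    _ = ENNReal.ofReal (C2 * (C1 * A) * Q ^ (1 + κ) * S) * NQ d Q (pr (d / 2) f) := by
      congr 2
      ring

end Pool.Agent.H97.EP
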