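import Pool.Agent.H97.EP.Defs

/-!
# Project EP, module `CG` : the test functions, elementary facts

`pr w f u` is linear in `f` (`Finsupp.sum_add_index'`, `Finsupp.sum_smul_index`), and decays:
`e^{-tu} ≤ C_{t,M} u^{-M}` for `u > 0`.  For `d > 2`, `Q > 0`: `nd d Q n = (n/Q)^{2/d}`,
`|pr w f (nd d Q n)| ≤ C (nd d Q n)^{-d} = C (n/Q)^{-2}` for `n ≥ 1`, summable
(compare `Pool/Agent/H97/SD/Dec.lean`, the complex version).
`pr_single`: `Finsupp.sum_single_index`.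
-/

set_option autoImplicit false

namespace Pool.Agent.H97.EP

theorem pr_add (w : ℝ) (f g : VR) (u : ℝ) : pr w (f + g) u = pr w f u + pr w g u := by
  unfold pr
  exact Finsupp.sum_add_index' (fun t => zero_mul _) (fun t a b => add_mul a b _)

theorem pr_smul (w : ℝ) (r : ℝ) (f : VR) (u : ℝ) : pr w (r • f) u = r * pr w f u := by
  unfold pr
  rw [Finsupp.sum_smul_index (fun t => zero_mul _), Finsupp.mul_sum]
  exact Finsupp.sum_congr fun t _ => mul_assoc _ _ _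

theorem pr_single (w : ℝ) (t : {t : ℝ // 0 < t}) (c : ℝ) (u : ℝ) :
    pr w (Finsupp.single t c) u =
      c * (Real.exp (-(t.1 * u)) - t.1 ^ (-w) * Real.exp (-(u / t.1))) := by
  unfold pr
  rw [Finsupp.sum_single_index (zero_mul _)]

private theorem cg_exp_summable {d Q : ℝ} (hd : 2 < d) (hQ : 0 < Q) {t : ℝ} (ht : 0 < t) :
    Summable fun n : ℕ => Real.exp (-(t * nd d Q n)) := by
  obtain ⟨k, hk⟩ := exists_nat_gt d
  have hd0 : 0 < d := by linarith
  have hp : 1 < 2 / d * k := by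
    rw [div_mul_eq_mul_div, lt_div_iff₀ hd0]
    linarith
  rw [← summable_nat_add_iff 1]
  have hs : Summable fun n : ℕ => ((n + 1 : ℕ) : ℝ) ^ (-(2 / d * k)) := by
    rw [summable_nat_add_iff (f := fun n : ℕ => (n : ℝ) ^ (-(2 / d * k))) 1]
    exact Real.summable_nat_rpow.2 (by linarith)
  refine Summable.of_nonneg_of_le (fun n => (Real.exp_pos _).le) (fun n => ?_)
    (hs.mul_left ((k.factorial : ℝ) * (t ^ k)⁻¹ * Q ^ (2 / d * k)))
  have hn : (0 : ℝ) < ((n + 1 : ℕ) : ℝ) := by positivity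
  have hu : 0 < nd d Q (n + 1) := Real.rpow_pos_of_pos (div_pos hn hQ) _
  have hy : 0 < t * nd d Q (n + 1) := mul_pos ht hu
  have h1 := Real.pow_div_factorial_le_exp _ hy.le k
  rw [Real.exp_neg]
  have hfac : (0 : ℝ) < k.factorial := by exact_mod_cast Nat.factorial_pos k
  have h2 : (Real.exp (t * nd d Q (n + 1)))⁻¹ ≤ ((t * nd d Q (n + 1)) ^ k / k.factorial)⁻¹ :=
    inv_anti₀ (by positivity) h1
  refine h2.trans (le_of_eq ?_)
  have h3 : nd d Q (n + 1) ^ k = ((n + 1 : ℕ) : ℝ) ^ (2 / d * k) * (Q ^ (2 / d * k))⁻¹ := by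
    unfold nd
    rw [← Real.rpow_natCast, ← Real.rpow_mul (div_pos hn hQ).le, Real.div_rpow hn.le hQ.le,
      div_eq_mul_inv]
  rw [inv_div, mul_pow, h3, Real.rpow_neg hn.le]
  have h4 : (0 : ℝ) < ((n + 1 : ℕ) : ℝ) ^ (2 / d * (k : ℝ)) := Real.rpow_pos_of_pos hn _
  have h5 : (0 : ℝ) < Q ^ (2 / d * (k : ℝ)) := Real.rpow_pos_of_pos hQ _
  have h6 : (0 : ℝ) < t ^ k := pow_pos ht k
  field_simp

private theorem cg_pr_summable {d Q : ℝ} (hd : 2 < d) (hQ : 0 < Q) (w : ℝ) (f : VR) :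
    Summable fun n : ℕ => pr w f (nd d Q n) := by
  unfold pr
  simp only [Finsupp.sum]
  refine summable_sum fun t _ => ?_
  refine Summable.mul_left _ ?_
  refine (cg_exp_summable hd hQ t.2).sub (Summable.mul_left _ ?_)
  have h1 := cg_exp_summable hd hQ (inv_pos.2 t.2)
  refine h1.congr fun n => ?_
  rw [inv_mul_eq_div]

theorem pr_nd_summable {d Q : ℝ} (hd : 2 < d) (hQ : 0 < Q) (w : ℝ) (f : VR) :
    Summable fun n : ℕ => |pr w f (nd d Q n)| :=
  (cg_pr_summable hd hQ w f).abs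

private theorem cg_a_summable {d Q : ℝ} (hd : 2 < d) (hQ : 0 < Q) (a : ℕ → ℝ)
    (ha : ∀ n, |a n| ≤ 1) (w : ℝ) (f : VR) :
    Summable fun n : ℕ => a n * pr w f (nd d Q n) := by
  refine Summable.of_norm_bounded (pr_nd_summable hd hQ w f) fun n => ?_
  rw [Real.norm_eq_abs, abs_mul]
  exact mul_le_of_le_one_left (abs_nonneg _) (ha n)

/-- The functional `f ↦ ∑ a(n) p(u_n)` for bounded `a`. -/
noncomputable def Rf {d Q : ℝ} (hd : 2 < d) (hQ : 0 < Q) (a : ℕ → ℝ) (ha : ∀ n, |a n| ≤ 1) :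
    VR →ₗ[ℝ] ℝ where
  toFun f := ∑' n : ℕ, a n * pr (d / 2) f (nd d Q n)
  map_add' f g := by
    rw [← (cg_a_summable hd hQ a ha _ f).tsum_add (cg_a_summable hd hQ a ha _ g)]
    exact tsum_congr fun n => by rw [pr_add, mul_add]
  map_smul' r f := by
    rw [RingHom.id_apply, smul_eq_mul, ← tsum_mul_left]
    exact tsum_congr fun n => by rw [pr_smul]; ring

theorem Rf_apply {d Q : ℝ} (hd : 2 < d) (hQ : 0 < Q) (a : ℕ → ℝ) (ha : ∀ n, |a n| ≤ 1) (f : VR) :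
    Rf hd hQ a ha f = ∑' n : ℕ, a n * pr (d / 2) f (nd d Q n) := rfl

theorem nd_mono {d Q : ℝ} (hd : 2 < d) (hQ : 0 < Q) {m n : ℕ} (h : m ≤ n) :
    nd d Q m ≤ nd d Q n := by
  unfold nd
  refine Real.rpow_le_rpow (by positivity) ?_ (by positivity)
  exact div_le_div_of_nonneg_right (by exact_mod_cast h) hQ.le

/-- for large `Q` the condition `h ≤ u_n` forces `3 ≤ n`. -/
theorem nd_three {d h : ℝ} (hd : 2 < d) (hh : 0 < h) : ∃ Q0 : ℝ, 1 ≤ Q0 ∧ ∀ Q : ℝ, Q0 ≤ Q →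
    ∀ n : ℕ, h ≤ nd d Q n → 3 ≤ n := by
  have hp : 0 < h ^ (d / 2) := Real.rpow_pos_of_pos hh _
  have hd0 : 0 < d := by linarith
  refine ⟨max 1 (3 / h ^ (d / 2)), le_max_left _ _, fun Q hQ n hn => ?_⟩
  have hQ1 : 1 ≤ Q := (le_max_left _ _).trans hQ
  have hQ2 : 3 / h ^ (d / 2) ≤ Q := (le_max_right _ _).trans hQ
  have hQ0 : 0 < Q := by linarith
  have h1 : h ^ (d / 2) ≤ n / Q := by
    have h2 := Real.rpow_le_rpow hh.le hn (by positivity : 0 ≤ d / 2)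
    refine h2.trans (le_of_eq ?_)
    unfold nd
    rw [← Real.rpow_mul (by positivity)]
    have h3 : 2 / d * (d / 2) = 1 := by field_simp
    rw [h3, Real.rpow_one]
  rw [le_div_iff₀ hQ0] at h1
  rw [div_le_iff₀ hp] at hQ2
  have h4 : (3 : ℝ) ≤ n := by nlinarith
  exact_mod_cast h4

end Pool.Agent.H97.EP
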