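import Pool.Agent.H97.EP.CB
import Pool.Agent.H97.EP.CF
import Pool.Agent.H97.EP.CG

/-!
# Project EP, module `CH` : one Newton step

`κ = 2/d`, `R_a(f) = ∑ a(n) p(u_n)`, `p = pr (d/2) f`, `u_n = nd d Q n` (linear in `f`: `Rf`, for
`|a| ≤ 1`, `aa_abs_le_one`).  Take `h`, `C` from `solver`, `C'` from `comp_bound` for this `h`,
`Q0` the maximum of the thresholds (`solver`, `comp_bound`, `nd_three`), `K = max(1, 8C, 24 C C')`
(any large constant).
`solver` with `L = -R_{aa α}`, `M` gives `β`; `h ≤ nd d Q n` implies `3 ≤ n` (`nd_three`);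
`Sβ = ∑ 8 β^2 n^{-κ} log n ≤ 8 C Q^{-(1+κ)} M ≤ K Q^{-(1+κ)} M ≤ 1`.
Let `D n = aa (α+β) n - aa α n`: `D 1 = 0`, `D p = β p` for primes, so if `|α+β| ≤ 1`,
`R_{aa(α+β)}(f) - R_{aa α}(f) = ∑_{p} β p p(u_p) + ∑_{n comp} D n p(u_n) = -R_{aa α}(f) + ∑_{comp}`
(all sums absolutely convergent: `pr_nd_summable`, `HasSum` from `solver`, `β` is supported on
primes).  So `R_{aa(α+β)}(f) = ∑_n c n p(u_n)`, `c n = if n = 1 ∨ n.Prime then 0 else D n`.
If `c n ≠ 0` then `n` is squarefree, and every prime factor `q` has `α q + β q ≠ 0` or `α q ≠ 0`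
(`aa_ne_zero`), hence `3 ≤ q`, `h ≤ nd d Q q`.  `comp_bound` and `lip` (note
`c n^2 aa W n = if .. then 0 else D^2 aa W`):
`|R|^2 ≤ C' Q^{1+κ} · 3 Sβ (Sα + Sβ) N ≤ 3 C' (8 C M)(S + K Q^{-(1+κ)} M) N`.
-/

set_option autoImplicit false
open MeasureTheory Set
open scoped ENNReal

namespace Pool.Agent.H97.EP

private theorem ch_decomp {α β : ℕ → ℝ} (hβ : ∀ n, β n ≠ 0 → n.Prime) (n : ℕ) :
    aa (fun p => α p + β p) n = aa α n + β n +
      (if n = 1 ∨ n.Prime then 0 else aa (fun p => α p + β p) n - aa α n) := by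
  by_cases h1 : n = 1
  · subst h1
    have hb : β 1 = 0 := by
      by_contra h
      exact Nat.not_prime_one (hβ 1 h)
    rw [if_pos (Or.inl rfl), aa_one, aa_one, hb]
    ring
  · by_cases h2 : n.Prime
    · rw [if_pos (Or.inr h2), aa_prime _ h2, aa_prime _ h2]
      ring
    · have hb : β n = 0 := by
        by_contra h
        exact h2 (hβ n h)
      rw [if_neg (by tauto), hb]
      ring

theorem step {d θ : ℝ} (hd : 4 < d) (hP : PrimesIn θ) (hθ : θ ≤ 1 - 2 / d) :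
    ∃ h K Q0 : ℝ, 0 < h ∧ 1 ≤ K ∧ 1 ≤ Q0 ∧ ∀ Q : ℝ, Q0 ≤ Q → ∀ (α : ℕ → ℝ) (M S : ℝ),
    (∀ n, α n ≠ 0 → n.Prime ∧ 3 ≤ n ∧ h ≤ nd d Q n) → (∀ n, |α n| ≤ 1) →
    (Summable fun q : ℕ => 8 * α q ^ 2 * ((q : ℝ) ^ (-(2 / d)) * Real.log q)) →
    ∑' q : ℕ, 8 * α q ^ 2 * ((q : ℝ) ^ (-(2 / d)) * Real.log q) ≤ S → S ≤ 1 → 0 ≤ M →
    K * Q ^ (-(1 + 2 / d)) * M ≤ 1 →
    (∀ f : VR, ENNReal.ofReal ((∑' n : ℕ, aa α n * pr (d / 2) f (nd d Q n)) ^ 2) ≤
      ENNReal.ofReal M * NQ d Q (pr (d / 2) f)) →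
    ∃ β : ℕ → ℝ, (∀ n, β n ≠ 0 → n.Prime ∧ 3 ≤ n ∧ h ≤ nd d Q n) ∧
      (Summable fun q : ℕ => 8 * β q ^ 2 * ((q : ℝ) ^ (-(2 / d)) * Real.log q)) ∧
      ∑' q : ℕ, 8 * β q ^ 2 * ((q : ℝ) ^ (-(2 / d)) * Real.log q) ≤
        K * Q ^ (-(1 + 2 / d)) * M ∧
      (∀ n : ℕ, |β n| ≤ K * Q ^ (-(2 / d) - 1 / 2) * (n : ℝ) ^ (2 / d - 1 / 2) * Real.sqrt M) ∧
      ((∀ n, |α n + β n| ≤ 1) → ∀ f : VR,
        ENNReal.ofReal ((∑' n : ℕ, aa (fun p => α p + β p) n * pr (d / 2) f (nd d Q n)) ^ 2) ≤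
          ENNReal.ofReal (K * (S + K * Q ^ (-(1 + 2 / d)) * M) * M) * NQ d Q (pr (d / 2) f)) := by
  have hd2 : 2 < d := by linarith
  have hκ : 0 ≤ 2 / d := by positivity
  obtain ⟨h, Q1, C, hh, hh1, hQ1, hC, hsol⟩ := solver hd hP hθ
  obtain ⟨C', Q2, hC', hQ2, hcomp⟩ := comp_bound hd hh hh1
  obtain ⟨Q3, hQ3, hthree⟩ := nd_three hd2 hh
  have hCC : 0 < C * C' := mul_pos hC hC'
  set K : ℝ := 1 + 8 * C + 24 * (C * C') with hK
  have hK1 : 1 ≤ K := by nlinarith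
  have hK8 : 8 * C ≤ K := by nlinarith
  have hKC : C ≤ K := by nlinarith
  have hK24 : 24 * (C * C') ≤ K := by nlinarith
  refine ⟨h, K, max Q1 (max Q2 Q3), hh, hK1, hQ1.trans (le_max_left _ _), ?_⟩
  intro Q hQ α M S hα hα1 sα hSα hS1 hM hKM hfun
  have hQ1' : Q1 ≤ Q := (le_max_left _ _).trans hQ
  have hQ2' : Q2 ≤ Q := (le_max_left _ _).trans ((le_max_right _ _).trans hQ)
  have hQ3' : Q3 ≤ Q := (le_max_right _ _).trans ((le_max_right _ _).trans hQ)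
  have hQpos : 0 < Q := lt_of_lt_of_le one_pos (hQ1.trans hQ1')
  have haα : ∀ n, |aa α n| ≤ 1 := aa_abs_le_one hα1
  set X : ℝ := Q ^ (-(1 + 2 / d)) with hX
  have hXpos : 0 < X := Real.rpow_pos_of_pos hQpos _
  obtain ⟨β, hβ, sβ, hSβ, hβpt, hβsum⟩ := hsol Q hQ1' (-(Rf hd2 hQpos (aa α) haα)) M hM (by
    intro f
    have h1 : (-(Rf hd2 hQpos (aa α) haα)) f = -(∑' n : ℕ, aa α n * pr (d / 2) f (nd d Q n)) := by
      rw [LinearMap.neg_apply, Rf_apply]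
    rw [h1, neg_sq]
    exact hfun f)
  have hβ' : ∀ n, β n ≠ 0 → n.Prime ∧ 3 ≤ n ∧ h ≤ nd d Q n := fun n hn =>
    ⟨(hβ n hn).1, hthree Q hQ3' n (hβ n hn).2, (hβ n hn).2⟩
  have sβ8 : Summable fun q : ℕ => 8 * β q ^ 2 * ((q : ℝ) ^ (-(2 / d)) * Real.log q) := by
    refine (sβ.mul_left 8).congr fun q => ?_
    ring
  have hβ8 : ∑' q : ℕ, 8 * β q ^ 2 * ((q : ℝ) ^ (-(2 / d)) * Real.log q) =
      8 * ∑' q : ℕ, β q ^ 2 * ((q : ℝ) ^ (-(2 / d)) * Real.log q) := by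
    rw [← tsum_mul_left]
    exact tsum_congr fun q => by ring
  have hSβ8 : ∑' q : ℕ, 8 * β q ^ 2 * ((q : ℝ) ^ (-(2 / d)) * Real.log q) ≤ 8 * C * X * M := by
    rw [hβ8]
    calc 8 * ∑' q : ℕ, β q ^ 2 * ((q : ℝ) ^ (-(2 / d)) * Real.log q) ≤ 8 * (C * X * M) :=
          mul_le_mul_of_nonneg_left hSβ (by norm_num)
      _ = 8 * C * X * M := by ring
  have hXM : 0 ≤ X * M := mul_nonneg hXpos.le hM
  have hSβK : ∑' q : ℕ, 8 * β q ^ 2 * ((q : ℝ) ^ (-(2 / d)) * Real.log q) ≤ K * X * M := by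
    refine hSβ8.trans ?_
    calc 8 * C * X * M = 8 * C * (X * M) := by ring
      _ ≤ K * (X * M) := mul_le_mul_of_nonneg_right hK8 hXM
      _ = K * X * M := by ring
  refine ⟨β, hβ', sβ8, hSβK, ?_, ?_⟩
  · intro n
    refine (hβpt n).trans ?_
    have h1 : 0 ≤ Q ^ (-(2 / d) - 1 / 2) * (n : ℝ) ^ (2 / d - 1 / 2) * Real.sqrt M := by
      have := Real.rpow_nonneg hQpos.le (-(2 / d) - 1 / 2)
      have := Real.rpow_nonneg (Nat.cast_nonneg n : (0 : ℝ) ≤ n) (2 / d - 1 / 2)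
      positivity
    calc C * Q ^ (-(2 / d) - 1 / 2) * (n : ℝ) ^ (2 / d - 1 / 2) * Real.sqrt M
        = C * (Q ^ (-(2 / d) - 1 / 2) * (n : ℝ) ^ (2 / d - 1 / 2) * Real.sqrt M) := by ring
      _ ≤ K * (Q ^ (-(2 / d) - 1 / 2) * (n : ℝ) ^ (2 / d - 1 / 2) * Real.sqrt M) :=
          mul_le_mul_of_nonneg_right hKC h1
      _ = K * Q ^ (-(2 / d) - 1 / 2) * (n : ℝ) ^ (2 / d - 1 / 2) * Real.sqrt M := by ring
  · intro hαβ f
    have haαβ : ∀ n, |aa (fun p => α p + β p) n| ≤ 1 := aa_abs_le_one hαβ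
    set c : ℕ → ℝ := fun n => if n = 1 ∨ n.Prime then 0 else
      aa (fun p => α p + β p) n - aa α n with hc
    have hdec : ∀ n, aa (fun p => α p + β p) n = aa α n + β n + c n :=
      ch_decomp fun n hn => (hβ n hn).1
    -- summability
    have hps := pr_nd_summable hd2 hQpos (d / 2) f
    have hbdd : ∀ a : ℕ → ℝ, (∀ n, |a n| ≤ 1) →
        Summable fun n : ℕ => a n * pr (d / 2) f (nd d Q n) := by
      intro a ha
      refine Summable.of_norm_bounded hps fun n => ?_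
      rw [Real.norm_eq_abs, abs_mul]
      calc |a n| * |pr (d / 2) f (nd d Q n)| ≤ 1 * |pr (d / 2) f (nd d Q n)| :=
            mul_le_mul_of_nonneg_right (ha n) (abs_nonneg _)
        _ = |pr (d / 2) f (nd d Q n)| := one_mul _
    have s1 := hbdd _ haαβ
    have s2 := hbdd _ haα
    have s3 := (hβsum f).summable
    have s4 : Summable fun n : ℕ => c n * pr (d / 2) f (nd d Q n) := by
      refine ((s1.sub s2).sub s3).congr fun n => ?_
      rw [hdec n]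
      ring
    have hsum : ∑' n : ℕ, aa (fun p => α p + β p) n * pr (d / 2) f (nd d Q n) =
        ∑' n : ℕ, c n * pr (d / 2) f (nd d Q n) := by
      have h1 : ∑' n : ℕ, aa (fun p => α p + β p) n * pr (d / 2) f (nd d Q n) =
          ∑' n : ℕ, (aa α n * pr (d / 2) f (nd d Q n) + β n * pr (d / 2) f (nd d Q n) +
            c n * pr (d / 2) f (nd d Q n)) := by
        refine tsum_congr fun n => ?_
        rw [hdec n]
        ring
      rw [h1, (s2.add s3).tsum_add s4, s2.tsum_add s3, (hβsum f).tsum_eq,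
        LinearMap.neg_apply, Rf_apply]
      ring
    have hcne : ∀ n, c n ≠ 0 → Squarefree n ∧ n ≠ 1 ∧ ¬ n.Prime ∧
        ∀ q ∈ n.primeFactors, 3 ≤ q ∧ h ≤ nd d Q q := by
      intro n hn
      have hn' : ¬ (n = 1 ∨ n.Prime) := by
        intro hcon
        apply hn
        simp only [hc]
        rw [if_pos hcon]
      have hval : c n = aa (fun p => α p + β p) n - aa α n := by
        simp only [hc]
        rw [if_neg hn']
      have hor : aa (fun p => α p + β p) n ≠ 0 ∨ aa α n ≠ 0 := by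
        by_contra hcon
        push Not at hcon
        rw [hval, hcon.1, hcon.2, sub_zero] at hn
        exact hn rfl
      have hgood : ∀ q, (α q ≠ 0 ∨ β q ≠ 0) → 3 ≤ q ∧ h ≤ nd d Q q := by
        intro q hq
        rcases hq with hq | hq
        · exact (hα q hq).2
        · exact (hβ' q hq).2
      refine ⟨?_, fun h1 => hn' (Or.inl h1), fun h1 => hn' (Or.inr h1), ?_⟩
      · rcases hor with h1 | h1
        · exact (aa_ne_zero h1).1
        · exact (aa_ne_zero h1).1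
      · intro q hq
        apply hgood
        rcases hor with h1 | h1
        · have h2 := (aa_ne_zero h1).2.2 q hq
          by_contra hcon
          push Not at hcon
          exact h2 (by rw [hcon.1, hcon.2, add_zero])
        · exact Or.inl ((aa_ne_zero h1).2.2 q hq)
    obtain ⟨slip, hlip⟩ := lip hκ (fun n hn => ⟨(hα n hn).1, (hα n hn).2.1⟩)
      (fun n hn => ⟨(hβ' n hn).1, (hβ' n hn).2.1⟩) sα sβ8 (hSα.trans hS1) (hSβK.trans hKM)
    have hcsq : ∀ n : ℕ, c n ^ 2 * aa (fun q => 4 * ((q : ℝ) ^ (-(2 / d)) * Real.log q)) n =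
        if n = 1 ∨ n.Prime then 0 else
          (aa (fun p => α p + β p) n - aa α n) ^ 2 *
            aa (fun q => 4 * ((q : ℝ) ^ (-(2 / d)) * Real.log q)) n := by
      intro n
      simp only [hc]
      split_ifs
      · ring
      · rfl
    have sc : Summable fun n : ℕ => c n ^ 2 *
        aa (fun q => 4 * ((q : ℝ) ^ (-(2 / d)) * Real.log q)) n :=
      slip.congr fun n => (hcsq n).symm
    have hcs : ∑' n : ℕ, c n ^ 2 * aa (fun q => 4 * ((q : ℝ) ^ (-(2 / d)) * Real.log q)) n ≤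
        3 * (∑' q : ℕ, 8 * β q ^ 2 * ((q : ℝ) ^ (-(2 / d)) * Real.log q)) *
        ((∑' q : ℕ, 8 * α q ^ 2 * ((q : ℝ) ^ (-(2 / d)) * Real.log q)) +
          ∑' q : ℕ, 8 * β q ^ 2 * ((q : ℝ) ^ (-(2 / d)) * Real.log q)) := by
      rw [tsum_congr hcsq]
      exact hlip
    obtain ⟨-, hfin⟩ := hcomp Q hQ2' c hcne sc f
    rw [hsum]
    refine hfin.trans ?_
    refine mul_le_mul_left ?_ _
    apply ENNReal.ofReal_le_ofReal
    -- the numerical estimate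
    have hSβ0 : 0 ≤ ∑' q : ℕ, 8 * β q ^ 2 * ((q : ℝ) ^ (-(2 / d)) * Real.log q) := by
      refine tsum_nonneg fun q => ?_
      have := Real.rpow_nonneg (Nat.cast_nonneg q : (0 : ℝ) ≤ q) (-(2 / d))
      have := Real.log_natCast_nonneg q
      positivity
    have hSα0 : 0 ≤ ∑' q : ℕ, 8 * α q ^ 2 * ((q : ℝ) ^ (-(2 / d)) * Real.log q) := by
      refine tsum_nonneg fun q => ?_
      have := Real.rpow_nonneg (Nat.cast_nonneg q : (0 : ℝ) ≤ q) (-(2 / d))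
      have := Real.log_natCast_nonneg q
      positivity
    set Sβ := ∑' q : ℕ, 8 * β q ^ 2 * ((q : ℝ) ^ (-(2 / d)) * Real.log q)
    set Sα := ∑' q : ℕ, 8 * α q ^ 2 * ((q : ℝ) ^ (-(2 / d)) * Real.log q)
    have hQX : Q ^ (1 + 2 / d) * X = 1 := by
      rw [hX, Real.rpow_neg hQpos.le]
      exact mul_inv_cancel₀ (Real.rpow_pos_of_pos hQpos _).ne'
    have hY : 0 < Q ^ (1 + 2 / d) := Real.rpow_pos_of_pos hQpos _
    have h1 : Sα + Sβ ≤ S + K * X * M := add_le_add hSα hSβK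
    have h2 : 3 * Sβ * (Sα + Sβ) ≤ 3 * (8 * C * X * M) * (S + K * X * M) := by
      apply mul_le_mul (mul_le_mul_of_nonneg_left hSβ8 (by norm_num)) h1 (by positivity)
      have : 0 ≤ 8 * C * (X * M) := by positivity
      nlinarith
    have hSnn : 0 ≤ S + K * X * M := le_trans (by positivity) h1
    calc C' * Q ^ (1 + 2 / d) *
          ∑' n : ℕ, c n ^ 2 * aa (fun q => 4 * ((q : ℝ) ^ (-(2 / d)) * Real.log q)) n
        ≤ C' * Q ^ (1 + 2 / d) * (3 * (8 * C * X * M) * (S + K * X * M)) :=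
          mul_le_mul_of_nonneg_left (hcs.trans h2) (by positivity)
      _ = 24 * (C * C') * (Q ^ (1 + 2 / d) * X) * ((S + K * X * M) * M) := by ring
      _ = 24 * (C * C') * ((S + K * X * M) * M) := by rw [hQX, mul_one]
      _ ≤ K * ((S + K * X * M) * M) :=
          mul_le_mul_of_nonneg_right hK24 (mul_nonneg hSnn hM)
      _ = K * (S + K * X * M) * M := by ring

end Pool.Agent.H97.EP
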