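import Pool.Agent.H97.EP.CH

/-!
# Project EP, module `CI` : the Newton iteration

`κ = 2/d < 1/2`.  Let `h, K, Q0` be as in `step`, `Cs` as in `seed` (`≥ 1` w.l.o.g.), and take one
large `Q ≥ Q0`; `M_i = Cs Q 16^{-i}`, `q_i = ∑_{j<i} 4^{-j} ≤ 4/3`,
`A = (K Cs)^{1/2} Q^{-κ/2}`, `B(n) = K Q^{-κ-1/2} n^{κ-1/2} (Cs Q)^{1/2} = K Cs^{1/2} Q^{-κ} n^{κ-1/2}`.
`Q` so large that `K Q^{-(1+κ)} Cs Q ≤ 1`, `(4/3)^2 A^2 ≤ 1`,
`K ((4/3)^2 A^2 + K Cs Q^{-κ}) ≤ 1/16` and `(4/3) K Cs^{1/2} Q^{-κ} ≤ 1`.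
Construct `α_0 = 0, α_{i+1} = α_i + β_i` with, for all `i`,
(a) support as in `step`; (b) `|α_i n| ≤ B(n) q_i` (so `≤ 1` for `n ≥ 1`; `α_i 0 = 0`);
(c) `S(α_i)^{1/2} ≤ A q_i` where `S(α) = ∑ 8 α^2 n^{-κ} log n` (triangle inequality in `ℓ²`:
    Minkowski), so `S(α_i) ≤ (4/3)^2 A^2 ≤ 1`;
(d) `|R_i(f)|^2 ≤ M_i N(f)`: for `i = 0` this is `seed` (`aa 0 n = 1` for `n = 1`, `0` otherwise);
    the step gives `K (S + K Q^{-(1+κ)} M_i) M_i ≤ M_i/16 = M_{i+1}`;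
(e) `|α_{i+1} n - α_i n| ≤ B(n) 4^{-i}`.
(Apply `step` with `S = (4/3)^2 A^2`, `M = M_i`: `S(β_i) ≤ K Q^{-(1+κ)} M_i = A^2 16^{-i}`,
`√M_i = (Cs Q)^{1/2} 4^{-i}`.  To construct the sequence use a subtype and `Nat.rec`, or
`exists_seq_of_forall_exists`-style choice.)
Limit: `α n = lim α_i n` exists by (e) (geometric); `|α n| ≤ 1`; `α n ≠ 0` implies `α_i n ≠ 0` for some
`i`, so `n` is a prime `≥ 3`.  For finite `F`, `∑_{n∈F} 8 α^2 n^{-κ} log n = lim ≤ 1`, hence summable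
(`summable_of_sum_le`), and `log n ≥ 1` on the support gives `Summable (α^2 n^{-κ})`.
`aa α_i n → aa α n` for every `n` (finite products), `|aa| ≤ 1`, `∑ |p(u_n)| < ∞`
(`pr_nd_summable`): `tendsto_tsum_of_dominated_convergence` gives
`R_{aa α}(f) = lim R_i(f)`, and `|R_i(f)|^2 ≤ M_i N(f) → 0` (`NQ_lt_top`).
-/

set_option autoImplicit false
open MeasureTheory Set Filter Topology
open scoped ENNReal

namespace Pool.Agent.H97.EP

/-- The weight `8 q^{-κ} log q`. -/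
private noncomputable def ciW (d : ℝ) (q : ℕ) : ℝ := (q : ℝ) ^ (-(2 / d)) * Real.log q

private theorem ciW_nonneg (d : ℝ) (q : ℕ) : 0 ≤ ciW d q :=
  mul_nonneg (Real.rpow_nonneg (Nat.cast_nonneg q) _) (Real.log_natCast_nonneg q)

/-- Minkowski's inequality in the form needed here. -/
private theorem ci_mink {d : ℝ} {x y : ℕ → ℝ} {T a b : ℝ} (ha : 0 < a) (hb : 0 < b)
    (sx : Summable fun q : ℕ => 8 * x q ^ 2 * ciW d q)
    (sy : Summable fun q : ℕ => 8 * y q ^ 2 * ciW d q)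
    (hx : ∑' q : ℕ, 8 * x q ^ 2 * ciW d q ≤ T * a ^ 2)
    (hy : ∑' q : ℕ, 8 * y q ^ 2 * ciW d q ≤ T * b ^ 2) :
    (Summable fun q : ℕ => 8 * (x q + y q) ^ 2 * ciW d q) ∧
      ∑' q : ℕ, 8 * (x q + y q) ^ 2 * ciW d q ≤ T * (a + b) ^ 2 := by
  have key : ∀ q : ℕ, 8 * (x q + y q) ^ 2 * ciW d q ≤
      (1 + b / a) * (8 * x q ^ 2 * ciW d q) + (1 + a / b) * (8 * y q ^ 2 * ciW d q) := by
    intro q
    have h1 : (x q + y q) ^ 2 ≤ (1 + b / a) * x q ^ 2 + (1 + a / b) * y q ^ 2 := by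
      have h2 : 0 ≤ (b * x q - a * y q) ^ 2 / (a * b) := by positivity
      have h3 : (b * x q - a * y q) ^ 2 / (a * b) =
          b / a * x q ^ 2 + a / b * y q ^ 2 - 2 * x q * y q := by
        field_simp
        ring
      rw [h3] at h2
      nlinarith
    have h4 := mul_le_mul_of_nonneg_right h1 (mul_nonneg (by norm_num : (0 : ℝ) ≤ 8) (ciW_nonneg d q))
    calc 8 * (x q + y q) ^ 2 * ciW d q = (x q + y q) ^ 2 * (8 * ciW d q) := by ring
      _ ≤ ((1 + b / a) * x q ^ 2 + (1 + a / b) * y q ^ 2) * (8 * ciW d q) := h4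
      _ = _ := by ring
  have s := (sx.mul_left (1 + b / a)).add (sy.mul_left (1 + a / b))
  have s' : Summable fun q : ℕ => 8 * (x q + y q) ^ 2 * ciW d q :=
    Summable.of_nonneg_of_le (fun q => mul_nonneg (by positivity) (ciW_nonneg d q)) key s
  refine ⟨s', ?_⟩
  calc ∑' q : ℕ, 8 * (x q + y q) ^ 2 * ciW d q
      ≤ ∑' q : ℕ, ((1 + b / a) * (8 * x q ^ 2 * ciW d q) + (1 + a / b) * (8 * y q ^ 2 * ciW d q)) :=
        s'.tsum_le_tsum key s
    _ = (1 + b / a) * ∑' q : ℕ, 8 * x q ^ 2 * ciW d q +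
        (1 + a / b) * ∑' q : ℕ, 8 * y q ^ 2 * ciW d q := by
        rw [(sx.mul_left _).tsum_add (sy.mul_left _), tsum_mul_left, tsum_mul_left]
    _ ≤ (1 + b / a) * (T * a ^ 2) + (1 + a / b) * (T * b ^ 2) :=
        add_le_add (mul_le_mul_of_nonneg_left hx (by positivity))
          (mul_le_mul_of_nonneg_left hy (by positivity))
    _ = T * (a + b) ^ 2 := by
        field_simp
        ring

private theorem ci_aa_zero (n : ℕ) : aa (fun _ => (0 : ℝ)) n = if n = 1 then 1 else 0 := by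
  split_ifs with h
  · rw [h, aa_one]
  · by_contra hne
    obtain ⟨-, h0, hp⟩ := aa_ne_zero hne
    have hex : (n.primeFactors).Nonempty := Nat.nonempty_primeFactors.2 (by omega)
    obtain ⟨p, hp'⟩ := hex
    exact hp p hp' rfl

/-- The conditions on the `i`-th approximation. -/
private def CiP (d h Q b T Cs : ℝ) (i : ℕ) (α : ℕ → ℝ) : Prop :=
  (∀ n, α n ≠ 0 → n.Prime ∧ 3 ≤ n ∧ h ≤ nd d Q n) ∧
  (∀ n, |α n| ≤ b * (3 - 2 * (1 / 4) ^ i)) ∧
  (Summable fun q : ℕ => 8 * α q ^ 2 * ciW d q) ∧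
  (∑' q : ℕ, 8 * α q ^ 2 * ciW d q ≤ T * (3 - 2 * (1 / 4) ^ i) ^ 2) ∧
  ∀ f : VR, ENNReal.ofReal ((∑' n : ℕ, aa α n * pr (d / 2) f (nd d Q n)) ^ 2) ≤
      ENNReal.ofReal (Cs * Q * (1 / 16) ^ i) * NQ d Q (pr (d / 2) f)

private theorem ci_pow_bounds (i : ℕ) : 0 < (1 / 4 : ℝ) ^ i ∧ (1 / 4 : ℝ) ^ i ≤ 1 :=
  ⟨by positivity, pow_le_one₀ (by norm_num) (by norm_num)⟩

private theorem ci_zero {d h Q b T Cs : ℝ} (hb : 0 ≤ b) (hT : 0 ≤ T)
    (hseed : ∀ f : VR, ENNReal.ofReal (pr (d / 2) f (nd d Q 1) ^ 2) ≤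
      ENNReal.ofReal (Cs * Q) * NQ d Q (pr (d / 2) f)) :
    CiP d h Q b T Cs 0 (fun _ => 0) := by
  refine ⟨fun n hn => absurd rfl hn, ?_, ?_, ?_, ?_⟩
  · intro n
    norm_num
    exact hb
  · simp
  · norm_num
    exact hT
  · intro f
    have h1 : ∑' n : ℕ, aa (fun _ => (0 : ℝ)) n * pr (d / 2) f (nd d Q n) =
        pr (d / 2) f (nd d Q 1) := by
      rw [tsum_eq_single 1]
      · rw [ci_aa_zero, if_pos rfl, one_mul]
      · intro n hn
        rw [ci_aa_zero, if_neg hn, zero_mul]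
    rw [h1]
    simpa using hseed f

theorem exists_alpha {d θ : ℝ} (hd : 4 < d) (hP : PrimesIn θ) (hθ : θ ≤ 1 - 2 / d) :
    ∃ (Q : ℝ) (α : ℕ → ℝ), 1 ≤ Q ∧ (∀ n, α n ≠ 0 → n.Prime ∧ 3 ≤ n) ∧ (∀ n, |α n| ≤ 1) ∧
      (Summable fun n : ℕ => α n ^ 2 * (n : ℝ) ^ (-(2 / d))) ∧
      ∀ f : VR, ∑' n : ℕ, aa α n * pr (d / 2) f (nd d Q n) = 0 := by
  have hd0 : 0 < d := by linarith
  have hd2 : 2 < d := by linarith
  have hκ : 0 < 2 / d := by positivity
  have hκ2 : 2 / d < 1 / 2 := by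
    rw [div_lt_div_iff₀ hd0 (by norm_num)]
    linarith
  obtain ⟨h, K, Q0, hh, hK, hQ0, hstep⟩ := step hd hP hθ
  obtain ⟨Cs, hCs, hseed⟩ := seed hd
  -- choice of `Q`
  have hTpos : 0 < K ^ 2 * (1 + Cs) := by positivity
  obtain ⟨Q, hQε, hQQ0⟩ : ∃ Q : ℝ, Q ^ (-(2 / d)) ≤ 1 / (256 * (K ^ 2 * (1 + Cs))) ∧ Q0 ≤ Q := by
    have h1 := tendsto_rpow_neg_atTop hκ
    have h2 : ∀ᶠ Q : ℝ in atTop, Q ^ (-(2 / d)) < 1 / (256 * (K ^ 2 * (1 + Cs))) :=
      h1.eventually (gt_mem_nhds (by positivity))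
    obtain ⟨Q, hQ⟩ := (h2.and (eventually_ge_atTop Q0)).exists
    exact ⟨Q, hQ.1.le, hQ.2⟩
  have hQ1 : 1 ≤ Q := hQ0.trans hQQ0
  have hQpos : 0 < Q := by linarith
  set ε : ℝ := Q ^ (-(2 / d)) with hε
  have hεpos : 0 < ε := Real.rpow_pos_of_pos hQpos _
  have hTε : K ^ 2 * (1 + Cs) * ε ≤ 1 / 256 := by
    calc K ^ 2 * (1 + Cs) * ε ≤ K ^ 2 * (1 + Cs) * (1 / (256 * (K ^ 2 * (1 + Cs)))) :=
          mul_le_mul_of_nonneg_left hQε hTpos.le
      _ = 1 / 256 := by field_simp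
  have hKK : K ≤ K ^ 2 := by nlinarith
  set T : ℝ := K * Cs * ε with hT
  have hTnn : 0 ≤ T := by positivity
  have hKT : K * T ≤ 1 / 256 := by
    refine le_trans ?_ hTε
    have : K * T = K ^ 2 * Cs * ε := by rw [hT]; ring
    rw [this]
    apply mul_le_mul_of_nonneg_right _ hεpos.le
    nlinarith [sq_nonneg K]
  have hTle : T ≤ 1 / 256 := by nlinarith
  have hsqrt : Real.sqrt Cs ≤ 1 + Cs := by
    rw [Real.sqrt_le_left (by linarith)]
    nlinarith
  set b : ℝ := K * Real.sqrt Cs * ε with hb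
  have hbnn : 0 ≤ b := by positivity
  have hble : b ≤ 1 / 256 := by
    refine le_trans ?_ hTε
    rw [hb]
    apply mul_le_mul_of_nonneg_right _ hεpos.le
    calc K * Real.sqrt Cs ≤ K * (1 + Cs) := mul_le_mul_of_nonneg_left hsqrt (by linarith)
      _ ≤ K ^ 2 * (1 + Cs) := mul_le_mul_of_nonneg_right hKK (by linarith)
  have hXQ : Q ^ (-(1 + 2 / d)) * Q = ε := by
    rw [hε]
    nth_rewrite 2 [← Real.rpow_one Q]
    rw [← Real.rpow_add hQpos]
    congr 1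
    ring
  have hXMi : ∀ i : ℕ, K * Q ^ (-(1 + 2 / d)) * (Cs * Q * (1 / 16) ^ i) =
      T * ((1 / 4) ^ i) ^ 2 := by
    intro i
    have h1 : ((1 / 4 : ℝ) ^ i) ^ 2 = (1 / 16) ^ i := by
      rw [← pow_mul, mul_comm, pow_mul]
      norm_num
    rw [h1, hT, ← hXQ]
    ring
  -- the induction step
  have hind : ∀ (i : ℕ) (α : ℕ → ℝ), CiP d h Q b T Cs i α →
      ∃ α' : ℕ → ℝ, CiP d h Q b T Cs (i + 1) α' ∧ ∀ n, |α' n - α n| ≤ b * (1 / 4) ^ i := by
    intro i α hα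
    obtain ⟨hsup, hbd, hs, hS, hR⟩ := hα
    obtain ⟨hp0, hp1⟩ := ci_pow_bounds i
    set r : ℝ := (1 / 4 : ℝ) ^ i with hr
    have hr1 : (1 / 4 : ℝ) ^ (i + 1) = r / 4 := by
      rw [pow_succ, hr]
      ring
    have h16 : (1 / 16 : ℝ) ^ (i + 1) = (1 / 16) ^ i / 16 := by
      rw [pow_succ]
      ring
    have h16r : ((1 / 16 : ℝ)) ^ i = r ^ 2 := by
      rw [hr, ← pow_mul, mul_comm, pow_mul]
      norm_num
    have hα1 : ∀ n, |α n| ≤ 1 := by
      intro n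
      refine (hbd n).trans ?_
      nlinarith
    have hMnn : 0 ≤ Cs * Q * (1 / 16 : ℝ) ^ i := by positivity
    have h9 : (3 - 2 * r) ^ 2 ≤ 9 := by nlinarith
    have h9T : T * (3 - 2 * r) ^ 2 ≤ 9 * T := by
      calc T * (3 - 2 * r) ^ 2 ≤ T * 9 := mul_le_mul_of_nonneg_left h9 hTnn
        _ = 9 * T := by ring
    obtain ⟨β, hβsup, hβs, hβS, hβpt, hβR⟩ := hstep Q hQQ0 α (Cs * Q * (1 / 16) ^ i) (9 * T) hsup hα1
      hs (hS.trans h9T) (by linarith) hMnn (by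
        rw [hXMi]
        have : r ^ 2 ≤ 1 := by nlinarith
        nlinarith) hR
    rw [hXMi] at hβS hβR
    -- the bound for `β`
    have hβb : ∀ n, |β n| ≤ b * r := by
      intro n
      by_cases hn : β n = 0
      · rw [hn, abs_zero]
        positivity
      · refine (hβpt n).trans ?_
        have hn3 : 3 ≤ n := (hβsup n hn).2.1
        have hn1 : (1 : ℝ) ≤ n := by
          have : 1 ≤ n := by omega
          exact_mod_cast this
        have h1 : (n : ℝ) ^ (2 / d - 1 / 2) ≤ 1 :=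
          Real.rpow_le_one_of_one_le_of_nonpos hn1 (by linarith)
        have h2 : Real.sqrt (Cs * Q * (1 / 16) ^ i) = Real.sqrt Cs * Q ^ (1 / 2 : ℝ) * r := by
          rw [h16r, Real.sqrt_mul (by positivity), Real.sqrt_mul hCs.le, Real.sqrt_sq hp0.le,
            Real.sqrt_eq_rpow Q]
        have h3 : Q ^ (-(2 / d) - 1 / 2) * Q ^ (1 / 2 : ℝ) = ε := by
          rw [← Real.rpow_add hQpos, hε]
          congr 1
          ring
        have h4 : 0 ≤ Q ^ (-(2 / d) - 1 / 2) := Real.rpow_nonneg hQpos.le _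
        calc K * Q ^ (-(2 / d) - 1 / 2) * (n : ℝ) ^ (2 / d - 1 / 2) *
              Real.sqrt (Cs * Q * (1 / 16) ^ i)
            ≤ K * Q ^ (-(2 / d) - 1 / 2) * 1 * Real.sqrt (Cs * Q * (1 / 16) ^ i) := by
              apply mul_le_mul_of_nonneg_right _ (Real.sqrt_nonneg _)
              apply mul_le_mul_of_nonneg_left h1
              positivity
          _ = K * Real.sqrt Cs * (Q ^ (-(2 / d) - 1 / 2) * Q ^ (1 / 2 : ℝ)) * r := by
              rw [h2]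
              ring
          _ = b * r := by rw [h3, hb]
    have hbd' : ∀ n, |α n + β n| ≤ b * (3 - 2 * (1 / 4) ^ (i + 1)) := by
      intro n
      calc |α n + β n| ≤ |α n| + |β n| := abs_add_le _ _
        _ ≤ b * (3 - 2 * r) + b * r := add_le_add (hbd n) (hβb n)
        _ ≤ b * (3 - 2 * (1 / 4) ^ (i + 1)) := by
            rw [hr1]
            nlinarith
    have hαβ1 : ∀ n, |α n + β n| ≤ 1 := by
      intro n
      refine (hbd' n).trans ?_
      rw [hr1]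
      nlinarith
    refine ⟨fun p => α p + β p, ⟨?_, hbd', ?_, ?_, ?_⟩, ?_⟩
    · intro n hn
      by_cases h1 : α n = 0
      · exact hβsup n (fun h2 => hn (by simp only [h1, h2, add_zero]))
      · exact hsup n h1
    · exact (ci_mink (a := 3 - 2 * r) (b := r) (T := T) (by linarith) hp0 hs hβs hS hβS).1
    · refine (ci_mink (a := 3 - 2 * r) (b := r) (T := T) (by linarith) hp0 hs hβs hS hβS).2.trans ?_
      rw [hr1]
      apply mul_le_mul_of_nonneg_left _ hTnn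
      have h5 : 0 ≤ 3 - 2 * r + r := by linarith
      have h6 : 3 - 2 * r + r ≤ 3 - 2 * (r / 4) := by linarith
      exact pow_le_pow_left₀ h5 h6 2
    · intro f
      refine (hβR hαβ1 f).trans ?_
      refine mul_le_mul_left ?_ _
      apply ENNReal.ofReal_le_ofReal
      rw [h16]
      have h7 : K * (9 * T + T * r ^ 2) ≤ 1 / 16 := by
        have : r ^ 2 ≤ 1 := by nlinarith
        have h8 : K * (9 * T + T * r ^ 2) = K * T * (9 + r ^ 2) := by ring
        rw [h8]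
        have h9 : 0 ≤ K * T := by positivity
        nlinarith
      calc K * (9 * T + T * r ^ 2) * (Cs * Q * (1 / 16) ^ i)
          ≤ 1 / 16 * (Cs * Q * (1 / 16) ^ i) := mul_le_mul_of_nonneg_right h7 hMnn
        _ = Cs * Q * ((1 / 16) ^ i / 16) := by ring
    · intro n
      simpa using hβb n
  -- the sequence
  choose g hg1 hg2 using hind
  have h0 : CiP d h Q b T Cs 0 (fun _ => 0) := ci_zero hbnn hTnn (fun f => hseed Q hQ1 f)
  let s' : (i : ℕ) → {α : ℕ → ℝ // CiP d h Q b T Cs i α} := fun i =>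
    Nat.rec (motive := fun i => {α : ℕ → ℝ // CiP d h Q b T Cs i α}) ⟨fun _ => 0, h0⟩
      (fun i x => ⟨g i x.1 x.2, hg1 i x.1 x.2⟩) i
  obtain ⟨s, hsP, hsd⟩ : ∃ s : ℕ → ℕ → ℝ, (∀ i, CiP d h Q b T Cs i (s i)) ∧
      ∀ i n, |s (i + 1) n - s i n| ≤ b * (1 / 4) ^ i :=
    ⟨fun i => (s' i).1, fun i => (s' i).2, fun i n => hg2 i (s' i).1 (s' i).2 n⟩
  have hlim : ∀ n, ∃ a : ℝ, Tendsto (fun i => s i n) atTop (𝓝 a) := by
    intro n
    apply cauchySeq_tendsto_of_complete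
    refine cauchySeq_of_le_geometric (1 / 4) b (by norm_num) fun i => ?_
    rw [Real.dist_eq, abs_sub_comm]
    exact hsd i n
  choose α hα using hlim
  have hsabs : ∀ i n, |s i n| ≤ 1 := by
    intro i n
    refine ((hsP i).2.1 n).trans ?_
    obtain ⟨hp0, hp1⟩ := ci_pow_bounds i
    nlinarith
  have hsup : ∀ n, α n ≠ 0 → n.Prime ∧ 3 ≤ n := by
    intro n hn
    by_contra hcon
    apply hn
    have h1 : ∀ i, s i n = 0 := by
      intro i
      by_contra h2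
      have := (hsP i).1 n h2
      exact hcon ⟨this.1, this.2.1⟩
    have h2 := hα n
    simp only [h1] at h2
    exact tendsto_nhds_unique h2 tendsto_const_nhds
  have habs : ∀ n, |α n| ≤ 1 := fun n =>
    le_of_tendsto' (hα n).abs fun i => hsabs i n
  refine ⟨Q, α, hQ1, hsup, habs, ?_, ?_⟩
  · -- summability
    refine summable_of_sum_le (c := 1) (fun n => by
      have := Real.rpow_nonneg (Nat.cast_nonneg n : (0 : ℝ) ≤ n) (-(2 / d))
      positivity) fun F => ?_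
    have h1 : ∑ n ∈ F, α n ^ 2 * (n : ℝ) ^ (-(2 / d)) ≤ ∑ n ∈ F, 8 * α n ^ 2 * ciW d n := by
      refine Finset.sum_le_sum fun n _ => ?_
      by_cases hn : α n = 0
      · simp [hn]
      · have hn3 : 3 ≤ n := (hsup n hn).2
        have hlog : 1 ≤ Real.log n := by
          rw [Real.le_log_iff_exp_le (by positivity)]
          have h3 : (3 : ℝ) ≤ n := by exact_mod_cast hn3
          linarith [Real.exp_one_lt_d9]
        have h4 : 0 ≤ α n ^ 2 * (n : ℝ) ^ (-(2 / d)) := by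
          have := Real.rpow_nonneg (Nat.cast_nonneg n : (0 : ℝ) ≤ n) (-(2 / d))
          positivity
        calc α n ^ 2 * (n : ℝ) ^ (-(2 / d)) = α n ^ 2 * (n : ℝ) ^ (-(2 / d)) * 1 := (mul_one _).symm
          _ ≤ α n ^ 2 * (n : ℝ) ^ (-(2 / d)) * (8 * Real.log n) :=
              mul_le_mul_of_nonneg_left (by linarith) h4
          _ = 8 * α n ^ 2 * ciW d n := by rw [ciW]; ring
    refine h1.trans ?_
    have h2 : Tendsto (fun i => ∑ n ∈ F, 8 * s i n ^ 2 * ciW d n) atTop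
        (𝓝 (∑ n ∈ F, 8 * α n ^ 2 * ciW d n)) :=
      tendsto_finsetSum _ fun n _ => (((hα n).pow 2).const_mul 8).mul_const _
    refine le_of_tendsto' h2 fun i => ?_
    obtain ⟨hp0, hp1⟩ := ci_pow_bounds i
    calc ∑ n ∈ F, 8 * s i n ^ 2 * ciW d n ≤ ∑' n, 8 * s i n ^ 2 * ciW d n :=
          (hsP i).2.2.1.sum_le_tsum F fun n _ => mul_nonneg (by positivity) (ciW_nonneg d n)
      _ ≤ T * (3 - 2 * (1 / 4) ^ i) ^ 2 := (hsP i).2.2.2.1
      _ ≤ 1 := by
          have h3 : (3 - 2 * (1 / 4 : ℝ) ^ i) ^ 2 ≤ 9 := by nlinarith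
          nlinarith
  · intro f
    have hps := pr_nd_summable hd2 hQpos (d / 2) f
    have haa : ∀ n, Tendsto (fun i => aa (s i) n) atTop (𝓝 (aa α n)) := by
      intro n
      unfold aa
      split_ifs
      · exact tendsto_finsetProd _ fun p _ => hα p
      · exact tendsto_const_nhds
    have hR : Tendsto (fun i => ∑' n : ℕ, aa (s i) n * pr (d / 2) f (nd d Q n)) atTop
        (𝓝 (∑' n : ℕ, aa α n * pr (d / 2) f (nd d Q n))) := by
      refine tendsto_tsum_of_dominated_convergence hps (fun n => (haa n).mul_const _) ?_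
      refine Eventually.of_forall fun i n => ?_
      rw [Real.norm_eq_abs, abs_mul]
      calc |aa (s i) n| * |pr (d / 2) f (nd d Q n)| ≤ 1 * |pr (d / 2) f (nd d Q n)| :=
            mul_le_mul_of_nonneg_right (aa_abs_le_one (hsabs i) n) (abs_nonneg _)
        _ = |pr (d / 2) f (nd d Q n)| := one_mul _
    have hN : NQ d Q (pr (d / 2) f) < ⊤ := NQ_lt_top hd hQpos f
    set N : ℝ := (NQ d Q (pr (d / 2) f)).toReal with hNdef
    have hNe : NQ d Q (pr (d / 2) f) = ENNReal.ofReal N := (ENNReal.ofReal_toReal hN.ne).symm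
    have hNnn : 0 ≤ N := ENNReal.toReal_nonneg
    have hRi : ∀ i, (∑' n : ℕ, aa (s i) n * pr (d / 2) f (nd d Q n)) ^ 2 ≤
        Cs * Q * (1 / 16) ^ i * N := by
      intro i
      have h1 := (hsP i).2.2.2.2 f
      rw [hNe, ← ENNReal.ofReal_mul (by positivity)] at h1
      exact (ENNReal.ofReal_le_ofReal_iff (by positivity)).1 h1
    have hlim0 : Tendsto (fun i : ℕ => Cs * Q * (1 / 16 : ℝ) ^ i * N) atTop (𝓝 0) := by
      have h1 := tendsto_pow_atTop_nhds_zero_of_lt_one (r := (1 / 16 : ℝ)) (by norm_num)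
        (by norm_num)
      have h2 := (h1.const_mul (Cs * Q)).mul_const N
      simpa using h2
    have hsq : (∑' n : ℕ, aa α n * pr (d / 2) f (nd d Q n)) ^ 2 ≤ 0 :=
      le_of_tendsto_of_tendsto' (hR.pow 2) hlim0 hRi
    have := sq_nonneg (∑' n : ℕ, aa α n * pr (d / 2) f (nd d Q n))
    exact pow_eq_zero_iff (two_ne_zero) |>.1 (le_antisymm hsq this)

end Pool.Agent.H97.EP
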