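import Pool.Agent.H97.EP.CA
import Pool.Agent.H97.EP.CG
import Pool.Agent.H97.SD.Defs

/-!
# Project EP, module `CJ` : convergence, theta identity

`aa_conv`: `κ = 2/d`, `x n = α n^2 n^{-κ}` is supported on primes, so `∑ aa x n < ∞` (`aa_sum`), and
`aa x n = aa(α) n ^2 n^{-κ}` for squarefree `n` (`∏_{p|n} p = n`; `aa x n = 0` otherwise, where also
`aa α n = 0`).  `|aa α n| n^{-σ} ≤ (aa(α)(n)^2 n^{-κ} + n^{κ-2σ})/2`, `2σ - κ > 1`.
`aa_theta`: apply the hypothesis to `f = single t 1`: `pr_single`; both series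
`∑ aa α n e^{-t u_n}`, `∑ aa α n e^{-u_n/t}` converge absolutely (`|aa α| ≤ 1`; `u_n = (n/Q)^{2/d}`,
`e^{-c u} ≤ C u^{-d}`), everything is real so the conjugation does nothing, `nd^0 = 1`
(`Real.rpow_zero`), `Pool.Agent.H97.SD.nd d Q n = nd d Q n` by definition.
-/

set_option autoImplicit false

namespace Pool.Agent.H97.EP

private lemma cj_exp {d Q c : ℝ} (hd : 2 < d) (hQ : 0 < Q) (hc : 0 < c) :
    Summable fun n : ℕ => Real.exp (-(c * nd d Q n)) := by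
  obtain ⟨N, hN⟩ := exists_nat_gt (d / 2)
  have hd0 : 0 < d := by linarith
  have hk : 1 < 2 / d * N := by
    rw [div_mul_eq_mul_div, lt_div_iff₀ hd0]
    linarith
  rw [← summable_nat_add_iff 1]
  have hs : Summable fun n : ℕ => ((n + 1 : ℕ) : ℝ) ^ (-(2 / d * N)) := by
    have h := Real.summable_nat_rpow.2 (show -(2 / d * (N : ℝ)) < -1 by linarith)
    exact (summable_nat_add_iff 1).2 h
  refine Summable.of_nonneg_of_le (fun n => (Real.exp_pos _).le) (fun n => ?_)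
    (hs.mul_left ((N.factorial : ℝ) * (c ^ N)⁻¹ * Q ^ (2 / d * N)))
  have hn : (0 : ℝ) < ((n + 1 : ℕ) : ℝ) := by positivity
  set x : ℝ := c * nd d Q (n + 1) with hx
  have hnd : 0 < nd d Q (n + 1) := Real.rpow_pos_of_pos (by positivity) _
  have hxp : 0 < x := mul_pos hc hnd
  have h1 := Real.pow_div_factorial_le_exp x hxp.le N
  have h2 : Real.exp (-x) ≤ N.factorial / x ^ N := by
    rw [Real.exp_neg, inv_le_comm₀ (Real.exp_pos _) (by positivity), inv_div]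
    exact h1
  refine h2.trans (le_of_eq ?_)
  have h3 : x ^ N = c ^ N * ((((n + 1 : ℕ) : ℝ) ^ (2 / d * N)) / Q ^ (2 / d * N)) := by
    rw [hx, mul_pow, nd, ← Real.rpow_natCast (_ ^ (2 / d)) N, ← Real.rpow_mul (by positivity),
      Real.div_rpow hn.le hQ.le]
  rw [h3, Real.rpow_neg hn.le]
  have h4 : (0 : ℝ) < ((n + 1 : ℕ) : ℝ) ^ (2 / d * N) := Real.rpow_pos_of_pos hn _
  have h5 : 0 < Q ^ (2 / d * N) := Real.rpow_pos_of_pos hQ _
  field_simp

private lemma cj_sum {d Q c : ℝ} (hd : 2 < d) (hQ : 0 < Q) (hc : 0 < c) {a : ℕ → ℝ}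
    (ha : ∀ n, |a n| ≤ 1) : Summable fun n : ℕ => a n * Real.exp (-(c * nd d Q n)) := by
  refine Summable.of_norm_bounded (cj_exp hd hQ hc) fun n => ?_
  rw [Real.norm_eq_abs, abs_mul, abs_of_pos (Real.exp_pos _)]
  exact mul_le_of_le_one_left (Real.exp_pos _).le (ha n)

private lemma cj_aa_rpow {e : ℝ} {n : ℕ} (hn : Squarefree n) :
    aa (fun p => (p : ℝ) ^ e) n = (n : ℝ) ^ e := by
  rw [aa, if_pos hn, Real.finsetProd_rpow _ _ (fun p _ => Nat.cast_nonneg p), ← Nat.cast_prod,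
    Nat.prod_primeFactors_of_squarefree hn]

theorem aa_conv {d : ℝ} (hd : 2 < d) {α : ℕ → ℝ} (hα : ∀ n, α n ≠ 0 → n.Prime ∧ 3 ≤ n)
    (hs : Summable fun n : ℕ => α n ^ 2 * (n : ℝ) ^ (-(2 / d))) {σ : ℝ}
    (hσ : 1 / 2 + 1 / d < σ) : Summable fun n : ℕ => |aa α n| * (n : ℝ) ^ (-σ) := by
  have hx : Summable (aa fun n : ℕ => α n ^ 2 * (n : ℝ) ^ (-(2 / d))) := by
    refine (aa_sum (fun n => by positivity) (fun n hn => ?_) hs).1
    have : α n ≠ 0 := by
      rintro h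
      exact hn (by rw [h]; ring)
    exact (hα n this).1
  have hy : Summable fun n : ℕ => (n : ℝ) ^ (2 / d - 2 * σ) := by
    refine Real.summable_nat_rpow.2 ?_
    have : 2 / d = 2 * (1 / d) := by ring
    rw [this]
    linarith
  refine Summable.of_nonneg_of_le (fun n => by positivity) (fun n => ?_)
    ((hx.add hy).mul_left (1 / 2))
  by_cases hn : Squarefree n
  · have hn0 : 0 < (n : ℝ) := by exact_mod_cast Nat.pos_of_ne_zero hn.ne_zero
    have e1 : aa (fun n : ℕ => α n ^ 2 * (n : ℝ) ^ (-(2 / d))) n =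
        (|aa α n| * (n : ℝ) ^ (-(1 / d))) ^ 2 := by
      rw [aa_mul_fun (fun n => α n ^ 2) (fun n => (n : ℝ) ^ (-(2 / d))), cj_aa_rpow hn]
      have e2 : aa (fun n => α n ^ 2) n = aa α n ^ 2 := by
        rw [sq, ← aa_mul_fun]
        congr 1
        funext p
        ring
      rw [e2, mul_pow, sq_abs, ← Real.rpow_natCast (_ ^ (-(1 / d))) 2, ← Real.rpow_mul hn0.le]
      congr 2
      push_cast
      ring
    have e3 : (n : ℝ) ^ (2 / d - 2 * σ) = ((n : ℝ) ^ (1 / d - σ)) ^ 2 := by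
      rw [← Real.rpow_natCast (_ ^ (1 / d - σ)) 2, ← Real.rpow_mul hn0.le]
      congr 1
      push_cast
      ring
    have e4 : |aa α n| * (n : ℝ) ^ (-σ) =
        (|aa α n| * (n : ℝ) ^ (-(1 / d))) * (n : ℝ) ^ (1 / d - σ) := by
      rw [mul_assoc, ← Real.rpow_add hn0]
      congr 2
      ring
    rw [e1, e3, e4]
    nlinarith [sq_nonneg (|aa α n| * (n : ℝ) ^ (-(1 / d)) - (n : ℝ) ^ (1 / d - σ))]
  · have e1 : aa α n = 0 := by rw [aa, if_neg hn]
    have e2 : aa (fun n : ℕ => α n ^ 2 * (n : ℝ) ^ (-(2 / d))) n = 0 := by rw [aa, if_neg hn]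
    rw [e1, e2, abs_zero, zero_mul, zero_add]
    positivity

theorem aa_theta {d Q : ℝ} (hd : 2 < d) (hQ : 0 < Q) {α : ℕ → ℝ} (h1 : ∀ n, |α n| ≤ 1)
    (h : ∀ f : VR, ∑' n : ℕ, aa α n * pr (d / 2) f (nd d Q n) = 0) {t : ℝ} (ht : 0 < t) :
    SD.Th d Q 0 (fun n => ((aa α n : ℝ) : ℂ)) t =
      ((t ^ (-(d / 2 + 2 * (0 : ℝ))) : ℝ) : ℂ) *
        (starRingEnd ℂ) (SD.Th d Q 0 (fun n => ((aa α n : ℝ) : ℂ)) (1 / t)) := by
  have hTh : ∀ s : ℝ, SD.Th d Q 0 (fun n => ((aa α n : ℝ) : ℂ)) s =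
      ((∑' n : ℕ, aa α n * Real.exp (-(s * nd d Q n)) : ℝ) : ℂ) := by
    intro s
    rw [SD.Th, Complex.ofReal_tsum]
    refine tsum_congr fun n => ?_
    have : SD.nd d Q n = nd d Q n := rfl
    rw [this, Real.rpow_zero, one_mul, mul_comm (nd d Q n) s]
    push_cast
    ring
  rw [hTh, hTh, Complex.conj_ofReal, ← Complex.ofReal_mul]
  congr 1
  have ha := aa_abs_le_one h1
  have hs1 := cj_sum hd hQ ht ha
  have hs2 := cj_sum hd hQ (one_div_pos.2 ht) ha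
  have h2 := h (Finsupp.single ⟨t, ht⟩ 1)
  have h3 : ∀ n : ℕ, aa α n * pr (d / 2) (Finsupp.single ⟨t, ht⟩ 1) (nd d Q n) =
      aa α n * Real.exp (-(t * nd d Q n)) -
        t ^ (-(d / 2)) * (aa α n * Real.exp (-(1 / t * nd d Q n))) := by
    intro n
    rw [pr_single]
    have : nd d Q n / t = 1 / t * nd d Q n := by ring
    simp only
    rw [this]
    ring
  simp_rw [h3] at h2
  rw [hs1.tsum_sub (hs2.mul_left _), tsum_mul_left] at h2
  have h4 : -(d / 2 + 2 * (0 : ℝ)) = -(d / 2) := by ring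
  rw [h4]
  linarith

end Pool.Agent.H97.EP
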