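import Pool.Agent.H97.EP.CA

/-!
# Project EP, module `CK` : the Euler product in exponential form

`α` supported on primes, `|α| ≤ 1`.  `b n = (-1)^{k+1} α(p)^k / k` if `n = p^k` (`k ≥ 1`, `p` prime;
`p = n.minFac`, `k = n.factorization p`), `b n = 0` otherwise; `|b n| ≤ 1`.
For `Re s > 1` both `LSeries` converge absolutely (`|aa α n| ≤ 1`).  The function
`f n = aa α n n^{-s}` (`f 0 = 0`, `f 1 = 1`, `f (m n) = f m f n` for coprime `m, n`) is absolutely
summable, so `EulerProduct.eulerProduct_hasProd` gives `∑ f n = ∏_p ∑_k f (p^k)`, and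
`∑_k f(p^k) = 1 + α p p^{-s}` (`p^k` is not squarefree for `k ≥ 2`).  With `z = α p p^{-s}`,
`|z| ≤ 1/2^{Re s} < 1`: `1 + z = exp (∑_{k≥1} (-1)^{k+1} z^k/k)` (`Complex.hasSum_taylorSeries_log`,
`Complex.exp_log`), and `∑_p ∑_{k≥1} b(p^k) p^{-ks} = LSeries b s` (sum over prime powers; Mathlib:
`Nat.Primes.prodNatEquiv`, used for the von Mangoldt function / `riemannZeta` Euler product in
logarithmic form, `ArithmeticFunction.LSeries...`; `Summable.tsum_sigma`).  Conclude with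
`exp (∑_p g p) = ∏_p exp (g p)` (`Complex.exp` of a `HasSum` is a `HasProd`: `HasSum.cexp`), and
uniqueness of products.
-/

set_option autoImplicit false

namespace Pool.Agent.H97.EP

open Classical in
/-- the coefficients of the logarithm -/
private noncomputable def ck_b (α : ℕ → ℝ) (n : ℕ) : ℂ :=
  if IsPrimePow n then
    (-1) ^ (n.factorization n.minFac + 1) * ((α n.minFac : ℝ) : ℂ) ^ (n.factorization n.minFac) /
      (n.factorization n.minFac : ℂ)
  else 0

private theorem ck_b_pow (α : ℕ → ℝ) {p : ℕ} (hp : p.Prime) (k : ℕ) :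
    ck_b α (p ^ (k + 1)) = (-1) ^ (k + 1 + 1) * ((α p : ℝ) : ℂ) ^ (k + 1) / ((k + 1 : ℕ) : ℂ) := by
  have h1 : IsPrimePow (p ^ (k + 1)) := hp.isPrimePow.pow (Nat.succ_ne_zero k)
  have h2 : (p ^ (k + 1)).minFac = p := hp.pow_minFac (Nat.succ_ne_zero k)
  have h3 : (p ^ (k + 1)).factorization p = k + 1 := by
    rw [hp.factorization_pow, Finsupp.single_eq_same]
  unfold ck_b
  rw [if_pos h1, h2, h3]

private theorem ck_b_norm {α : ℕ → ℝ} (h1 : ∀ n, |α n| ≤ 1) (n : ℕ) : ‖ck_b α n‖ ≤ 1 := by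
  unfold ck_b
  split_ifs with h
  · have h2 : ‖((α n.minFac : ℝ) : ℂ)‖ ≤ 1 := by
      rw [Complex.norm_real, Real.norm_eq_abs]
      exact h1 _
    rw [norm_div, norm_mul, norm_pow, norm_neg, norm_one, one_pow, one_mul, norm_pow]
    have h3 : ‖((α n.minFac : ℝ) : ℂ)‖ ^ n.factorization n.minFac ≤ 1 :=
      pow_le_one₀ (norm_nonneg _) h2
    have h4 : (1 : ℝ) ≤ ‖((n.factorization n.minFac : ℕ) : ℂ)‖ := by
      rw [Complex.norm_natCast]
      have h5 : n.factorization n.minFac ≠ 0 := by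
        have hn1 : n ≠ 1 := h.ne_one
        have hn0 : n ≠ 0 := h.ne_zero
        have hp : n.minFac.Prime := Nat.minFac_prime hn1
        exact (hp.factorization_pos_of_dvd hn0 (Nat.minFac_dvd n)).ne'
      exact_mod_cast Nat.one_le_iff_ne_zero.mpr h5
    rw [div_le_one (by linarith)]
    exact h3.trans h4
  · simp

private theorem ck_pow (p k : ℕ) (s : ℂ) : ((p ^ k : ℕ) : ℂ) ^ s = ((p : ℂ) ^ s) ^ k := by
  rw [Nat.cast_pow, ← Complex.natCast_cpow_natCast_mul, Complex.cpow_nat_mul]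

private theorem ck_z {α : ℕ → ℝ} (h1 : ∀ n, |α n| ≤ 1) {s : ℂ} (hs : 1 < s.re) {p : ℕ}
    (hp : p.Prime) : ‖((α p : ℝ) : ℂ) / (p : ℂ) ^ s‖ < 1 := by
  have h2 : ‖((α p : ℝ) : ℂ)‖ ≤ 1 := by
    rw [Complex.norm_real, Real.norm_eq_abs]
    exact h1 _
  have h3 : 1 < ‖(p : ℂ) ^ s‖ := by
    rw [Complex.norm_natCast_cpow_of_pos hp.pos]
    exact Real.one_lt_rpow (by exact_mod_cast hp.one_lt) (by linarith)
  rw [norm_div, div_lt_one (by linarith)]
  linarith

private theorem ck_local {α : ℕ → ℝ} (h1 : ∀ n, |α n| ≤ 1) {s : ℂ} (hs : 1 < s.re) {p : ℕ}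
    (hp : p.Prime) :
    ∑' k : ℕ, LSeries.term (ck_b α) s (p ^ (k + 1))
      = Complex.log (1 + ((α p : ℝ) : ℂ) / (p : ℂ) ^ s) := by
  have h := Complex.hasSum_taylorSeries_log (ck_z h1 hs hp)
  have h2 := (hasSum_nat_add_iff' 1).mpr h
  simp only [Finset.sum_range_one, pow_zero, Nat.cast_zero, div_zero, sub_zero] at h2
  rw [← h2.tsum_eq]
  apply tsum_congr
  intro k
  rw [LSeries.term_of_ne_zero (pow_ne_zero _ hp.ne_zero), ck_b_pow α hp, ck_pow, div_pow]
  ring

private theorem ck_euler_factor (α : ℕ → ℝ) {s : ℂ} {p : ℕ}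
    (hp : p.Prime) :
    ∑' e : ℕ, LSeries.term (fun n => ((aa α n : ℝ) : ℂ)) s (p ^ e)
      = 1 + ((α p : ℝ) : ℂ) / (p : ℂ) ^ s := by
  rw [tsum_eq_sum (s := Finset.range 2)]
  · rw [Finset.sum_range_succ, Finset.sum_range_one, pow_zero, pow_one,
      LSeries.term_of_ne_zero one_ne_zero, LSeries.term_of_ne_zero hp.ne_zero, aa_one,
      aa_prime α hp]
    simp
  · intro e he
    rw [Finset.mem_range, not_lt] at he
    rw [LSeries.term_of_ne_zero (pow_ne_zero _ hp.ne_zero)]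
    have h : ¬ Squarefree (p ^ e) := by
      intro h
      have := (Nat.squarefree_pow_iff hp.ne_one (by omega)).mp h
      omega
    simp [aa, h]

theorem aa_euler {α : ℕ → ℝ} (hα : ∀ n, α n ≠ 0 → n.Prime) (h1 : ∀ n, |α n| ≤ 1) :
    ∃ b : ℕ → ℂ, (∀ n, ¬ IsPrimePow n → b n = 0) ∧ (∀ n, ‖b n‖ ≤ 1) ∧
      ∀ s : ℂ, 1 < s.re →
        LSeries (fun n => ((aa α n : ℝ) : ℂ)) s = Complex.exp (LSeries b s) := by
  refine ⟨ck_b α, fun n hn => by unfold ck_b; rw [if_neg hn], ck_b_norm h1, ?_⟩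
  intro s hs
  have hsf : LSeriesSummable (fun n => ((aa α n : ℝ) : ℂ)) s := by
    apply LSeriesSummable_of_bounded_of_one_lt_re (m := 1) _ hs
    intro n _
    rw [Complex.norm_real, Real.norm_eq_abs]
    exact aa_abs_le_one h1 n
  have hsb : LSeriesSummable (ck_b α) s := by
    apply LSeriesSummable_of_bounded_of_one_lt_re (m := 1) _ hs
    intro n _
    exact ck_b_norm h1 n
  set f : ℕ → ℂ := LSeries.term (fun n => ((aa α n : ℝ) : ℂ)) s with hf
  set g : ℕ → ℂ := LSeries.term (ck_b α) s with hg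
  have hf0 : f 0 = 0 := LSeries.term_zero _ _
  have hf1 : f 1 = 1 := by
    rw [hf, LSeries.term_of_ne_zero one_ne_zero, aa_one]
    simp
  have hfm : ∀ {m n : ℕ}, m.Coprime n → f (m * n) = f m * f n := by
    intro m n hmn
    rcases eq_or_ne m 0 with rfl | hm
    · rw [zero_mul, hf0, zero_mul]
    rcases eq_or_ne n 0 with rfl | hn
    · rw [mul_zero, hf0, mul_zero]
    rw [hf, LSeries.term_of_ne_zero (mul_ne_zero hm hn), LSeries.term_of_ne_zero hm,
      LSeries.term_of_ne_zero hn, aa_mul α hmn]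
    push_cast
    rw [Complex.natCast_mul_natCast_cpow]
    field_simp
  have hprod := EulerProduct.eulerProduct_hasProd hf1 hfm hsf.norm hf0
  have hgs : Summable (fun p : Nat.Primes => ∑' k : ℕ, g ((p : ℕ) ^ (k + 1))) := by
    have h2 : Summable (fun pk : Nat.Primes × ℕ => g ((pk.1 : ℕ) ^ (pk.2 + 1))) := by
      have h3 := Summable.comp_injective (f := g) hsb
        (Subtype.val_injective.comp Nat.Primes.prodNatEquiv.injective)
      refine h3.congr ?_
      intro pk
      rfl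
    exact h2.prod
  have hsupp : Function.support g ⊆ {n | IsPrimePow n} := by
    intro n hn
    rw [Function.mem_support] at hn
    by_contra h
    apply hn
    rw [Set.mem_setOf_eq] at h
    rcases eq_or_ne n 0 with rfl | hn0
    · exact LSeries.term_zero _ _
    · rw [hg, LSeries.term_of_ne_zero hn0]
      have : ck_b α n = 0 := by
        unfold ck_b
        rw [if_neg h]
      rw [this, zero_div]
  have hsum : LSeries (ck_b α) s = ∑' p : Nat.Primes, ∑' k : ℕ, g ((p : ℕ) ^ (k + 1)) :=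
    tsum_eq_tsum_primes_of_support_subset_prime_powers hsb hsupp
  have hexp := hgs.hasSum.cexp
  rw [← hsum] at hexp
  have heq : (Complex.exp ∘ fun p : Nat.Primes => ∑' k : ℕ, g ((p : ℕ) ^ (k + 1)))
      = fun p : Nat.Primes => ∑' e : ℕ, f ((p : ℕ) ^ e) := by
    funext p
    rw [Function.comp_apply, hg, ck_local h1 hs p.prop, hf, ck_euler_factor α p.prop,
      Complex.exp_log]
    intro h0
    have h2 := ck_z h1 hs p.prop
    have h3 : ((α (p : ℕ) : ℝ) : ℂ) / ((p : ℕ) : ℂ) ^ s = -1 := by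
      linear_combination h0
    rw [h3, norm_neg, norm_one] at h2
    exact lt_irrefl _ h2
  rw [heq] at hexp
  exact hprod.unique hexp

end Pool.Agent.H97.EP
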