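import Mathlib

/-!
# Project EP : definitions for the primes in short intervals (part D)
-/

set_option autoImplicit false

namespace Pool.Agent.H97.EP

/-- `∑_{A < p ≤ B} log p` (for `A, B ≥ 0`). -/
noncomputable def th (A B : ℝ) : ℝ :=
  ∑ p ∈ (Finset.Ioc ⌊A⌋₊ ⌊B⌋₊).filter Nat.Prime, Real.log p

/-- `∑_{A < p q ≤ B} log p log q` over ordered pairs of primes (for `A, B ≥ 0`). -/
noncomputable def th2 (A B : ℝ) : ℝ :=
  ∑ n ∈ Finset.Ioc ⌊A⌋₊ ⌊B⌋₊, ∑ x ∈ n.divisorsAntidiagonal.filter (fun x => x.1.Prime ∧ x.2.Prime),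
    Real.log x.1 * Real.log x.2

/-- Selberg's formula in all intervals `(X, X+Y]`, `X ≥ X0`, `X^θ ≤ Y ≤ X`, with relative error `η`. -/
def SelS (η θ X0 : ℝ) : Prop := ∀ X : ℝ, X0 ≤ X → ∀ Y : ℝ, X ^ θ ≤ Y → Y ≤ X →
  |th X (X + Y) * Real.log X + th2 X (X + Y) - 2 * Y * Real.log X| ≤ η * Y * Real.log X

/-- The density of primes in `(e^u, (1+δ) e^u]`. -/
noncomputable def rho (δ u : ℝ) : ℝ := th (Real.exp u) ((1 + δ) * Real.exp u) / (δ * Real.exp u)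

end Pool.Agent.H97.EP
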