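import Mathlib

/-!
# Project EP : the degrees of the elements of the Selberg class
-/

set_option autoImplicit false

namespace Pool.Agent.H97.EP

/-- `SelbergDegree d`: some element of the Selberg class has degree `d`, i.e. the Dirichlet series
`∑ a(n) n^{-s}` converges absolutely for `Re s > 1` and satisfies
axiom 1 (continuation: `(s-1)^m F(s)` extends to an entire function `G` of finite order),
axiom 2 (Ramanujan: `a(n) ≪ n^ε` for every `ε > 0`),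
axiom 3 (functional equation with data `k, Q, λ_j, μ_j, ω`), and
axiom 4 (Euler product: `F = exp (∑ b(n) n^{-s})`, `b` supported on prime powers,
`b(n) ≪ n^θ`, `θ < 1/2`), and `d = 2 ∑ λ_j`.  The clauses are those of the frozen
statements of the problem. -/
def SelbergDegree (d : ℝ) : Prop :=
  ∃ (a : ℕ → ℂ) (m : ℕ) (G : ℂ → ℂ) (k : ℕ) (Q : ℝ) (lam : Fin k → ℝ) (mu : Fin k → ℂ)
    (ω : ℂ) (b : ℕ → ℂ) (θ : ℝ),
    (∀ s : ℂ, 1 < s.re → LSeriesSummable a s) ∧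
    Differentiable ℂ G ∧
    (∃ A C : ℝ, ∀ s : ℂ, ‖G s‖ ≤ C * Real.exp (‖s‖ ^ A)) ∧
    (∀ s : ℂ, 1 < s.re → G s = (s - 1) ^ m * LSeries a s) ∧
    0 < Q ∧ (∀ j, 0 < lam j) ∧ (∀ j, 0 ≤ (mu j).re) ∧ ‖ω‖ = 1 ∧
    (∀ s : ℂ, 0 < s.re → s.re < 1 →
      (Q : ℂ) ^ s * (∏ j, Complex.Gamma ((lam j : ℂ) * s + mu j)) * (G s / (s - 1) ^ m) =
      ω * starRingEnd ℂ
        ((Q : ℂ) ^ (1 - starRingEnd ℂ s)
          * (∏ j, Complex.Gamma ((lam j : ℂ) * (1 - starRingEnd ℂ s) + mu j))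
          * (G (1 - starRingEnd ℂ s) / (1 - starRingEnd ℂ s - 1) ^ m))) ∧
    (∀ ε : ℝ, 0 < ε → ∃ C : ℝ, ∀ n : ℕ, 1 ≤ n → ‖a n‖ ≤ C * (n : ℝ) ^ ε) ∧
    (∀ n : ℕ, ¬ IsPrimePow n → b n = 0) ∧
    θ < 1 / 2 ∧
    (∃ C : ℝ, ∀ n : ℕ, 1 ≤ n → ‖b n‖ ≤ C * (n : ℝ) ^ θ) ∧
    (∀ s : ℂ, 1 < s.re → LSeries a s = Complex.exp (LSeries b s)) ∧
    2 * (∑ j, lam j) = d

/-- The frozen statement of the problem says: no `d` with `2 < d < 3` is such a degree. -/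
theorem selbergDegree_iff_frozen :
    (∀ (a : ℕ → ℂ) (m : ℕ) (G : ℂ → ℂ) (k : ℕ) (Q : ℝ) (lam : Fin k → ℝ) (mu : Fin k → ℂ)
      (ω : ℂ) (b : ℕ → ℂ) (θ : ℝ),
      (∀ s : ℂ, 1 < s.re → LSeriesSummable a s) →
      Differentiable ℂ G →
      (∃ A C : ℝ, ∀ s : ℂ, ‖G s‖ ≤ C * Real.exp (‖s‖ ^ A)) →
      (∀ s : ℂ, 1 < s.re → G s = (s - 1) ^ m * LSeries a s) →
      0 < Q → (∀ j, 0 < lam j) → (∀ j, 0 ≤ (mu j).re) → ‖ω‖ = 1 →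
      (∀ s : ℂ, 0 < s.re → s.re < 1 →
        (Q : ℂ) ^ s * (∏ j, Complex.Gamma ((lam j : ℂ) * s + mu j)) * (G s / (s - 1) ^ m) =
        ω * starRingEnd ℂ
          ((Q : ℂ) ^ (1 - starRingEnd ℂ s)
            * (∏ j, Complex.Gamma ((lam j : ℂ) * (1 - starRingEnd ℂ s) + mu j))
            * (G (1 - starRingEnd ℂ s) / (1 - starRingEnd ℂ s - 1) ^ m))) →
      (∀ ε : ℝ, 0 < ε → ∃ C : ℝ, ∀ n : ℕ, 1 ≤ n → ‖a n‖ ≤ C * (n : ℝ) ^ ε) →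
      (∀ n : ℕ, ¬ IsPrimePow n → b n = 0) →
      θ < 1 / 2 →
      (∃ C : ℝ, ∀ n : ℕ, 1 ≤ n → ‖b n‖ ≤ C * (n : ℝ) ^ θ) →
      (∀ s : ℂ, 1 < s.re → LSeries a s = Complex.exp (LSeries b s)) →
      ¬ (2 < 2 * (∑ j, lam j) ∧ 2 * (∑ j, lam j) < 3)) ↔
    ¬ ∃ d : ℝ, 2 < d ∧ d < 3 ∧ SelbergDegree d := by
  constructor
  · rintro h ⟨d, h2, h3, a, m, G, k, Q, lam, mu, ω, b, θ, c1, c2, c3, c4, c5, c6, c7, c8, c9, c10,
      c11, c12, c13, c14, c15⟩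
    exact h a m G k Q lam mu ω b θ c1 c2 c3 c4 c5 c6 c7 c8 c9 c10 c11 c12 c13 c14
      ⟨by rw [c15]; exact h2, by rw [c15]; exact h3⟩
  · intro h a m G k Q lam mu ω b θ c1 c2 c3 c4 c5 c6 c7 c8 c9 c10 c11 c12 c13 c14 hd
    exact h ⟨_, hd.1, hd.2, a, m, G, k, Q, lam, mu, ω, b, θ, c1, c2, c3, c4, c5, c6, c7, c8, c9,
      c10, c11, c12, c13, c14, rfl⟩

end Pool.Agent.H97.EP
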