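import Pool.Agent.H97.EP.DefsD

/-!
# Project EP, module `HB` : elementary properties of `th`, `th2`, `rho`

`⌊A⌋₊ < n ≤ ⌊B⌋₊ ↔ A < n ≤ B` for `A, B ≥ 0` (`Nat.floor_lt`, `Nat.le_floor_iff`); additivity from
`Finset.Ioc_union_Ioc_eq_Ioc` (disjoint union).  `rho δ` is measurable because
`u ↦ (⌊e^u⌋₊, ⌊(1+δ)e^u⌋₊)` is measurable into the countable discrete space `ℕ × ℕ`; it is bounded on
bounded intervals because for `u ≤ b` the sum has at most `⌊2e^b⌋₊` terms (take `K` with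
`th ≤ (⌊(1+δ)e^b⌋₊) * log(⌊(1+δ)e^b⌋₊ + 1)` and `δ e^u ≥ δ e^a`).
-/

set_option autoImplicit false
open MeasureTheory Set

namespace Pool.Agent.H97.EP

theorem th_nonneg (A B : ℝ) : 0 ≤ th A B := by
  unfold th
  exact Finset.sum_nonneg fun p _ => Real.log_natCast_nonneg p

theorem th2_nonneg (A B : ℝ) : 0 ≤ th2 A B := by
  unfold th2
  exact Finset.sum_nonneg fun n _ => Finset.sum_nonneg fun x _ =>
    mul_nonneg (Real.log_natCast_nonneg _) (Real.log_natCast_nonneg _)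

/-- Splitting a sum over `(⌊A⌋₊, ⌊C⌋₊]` at `⌊B⌋₊`. -/
private theorem sum_Ioc_split {A B C : ℝ} (hAB : A ≤ B) (hBC : B ≤ C) (f : ℕ → ℝ) :
    ∑ n ∈ Finset.Ioc ⌊A⌋₊ ⌊C⌋₊, f n
      = ∑ n ∈ Finset.Ioc ⌊A⌋₊ ⌊B⌋₊, f n + ∑ n ∈ Finset.Ioc ⌊B⌋₊ ⌊C⌋₊, f n := by
  rw [← Finset.sum_union, Finset.Ioc_union_Ioc_eq_Ioc (Nat.floor_le_floor hAB)
    (Nat.floor_le_floor hBC)]
  rw [Finset.disjoint_left]
  intro x hx hx'
  rw [Finset.mem_Ioc] at hx hx'
  omega

theorem th_add {A B C : ℝ} (hA : 0 ≤ A) (hAB : A ≤ B) (hBC : B ≤ C) :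
    th A C = th A B + th B C := by
  have _ := hA
  unfold th
  rw [Finset.sum_filter, Finset.sum_filter, Finset.sum_filter]
  exact sum_Ioc_split hAB hBC _

theorem th2_add {A B C : ℝ} (hA : 0 ≤ A) (hAB : A ≤ B) (hBC : B ≤ C) :
    th2 A C = th2 A B + th2 B C := by
  have _ := hA
  unfold th2
  exact sum_Ioc_split hAB hBC _

theorem rho_nonneg {δ : ℝ} (hδ : 0 < δ) (u : ℝ) : 0 ≤ rho δ u := by
  unfold rho
  exact div_nonneg (th_nonneg _ _) (mul_nonneg hδ.le (Real.exp_pos u).le)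

theorem rho_measurable (δ : ℝ) : Measurable (rho δ) := by
  have h1 : Measurable (fun u : ℝ => ((⌊Real.exp u⌋₊, ⌊(1 + δ) * Real.exp u⌋₊) : ℕ × ℕ)) :=
    (Nat.measurable_floor.comp Real.measurable_exp).prodMk
      (Nat.measurable_floor.comp (Real.measurable_exp.const_mul (1 + δ)))
  have h2 : Measurable (fun x : ℕ × ℕ =>
      ∑ p ∈ (Finset.Ioc x.1 x.2).filter Nat.Prime, Real.log (p : ℝ)) := measurable_of_countable _
  have h3 := (h2.comp h1).div (Real.measurable_exp.const_mul δ)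
  exact h3

theorem rho_bdd {δ : ℝ} (hδ : 0 < δ) (a b : ℝ) : ∃ K : ℝ, 0 ≤ K ∧ ∀ u : ℝ, a ≤ u → u ≤ b → rho δ u ≤ K := by
  obtain ⟨N, hN⟩ : ∃ N : ℕ, N = ⌊(1 + δ) * Real.exp b⌋₊ := ⟨_, rfl⟩
  refine ⟨(∑ n ∈ Finset.range (N + 1), Real.log (n : ℝ)) / (δ * Real.exp a), ?_, ?_⟩
  · exact div_nonneg (Finset.sum_nonneg fun n _ => Real.log_natCast_nonneg n)
      (mul_nonneg hδ.le (Real.exp_pos a).le)
  · intro u hau hub
    unfold rho
    have h1 : th (Real.exp u) ((1 + δ) * Real.exp u) ≤ ∑ n ∈ Finset.range (N + 1), Real.log (n : ℝ) := by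
      unfold th
      refine Finset.sum_le_sum_of_subset_of_nonneg ?_ fun n _ _ => Real.log_natCast_nonneg n
      intro p hp
      rw [Finset.mem_filter, Finset.mem_Ioc] at hp
      rw [Finset.mem_range]
      have h2 : ⌊(1 + δ) * Real.exp u⌋₊ ≤ N := by
        rw [hN]
        exact Nat.floor_le_floor (mul_le_mul_of_nonneg_left (Real.exp_le_exp.2 hub) (by linarith))
      omega
    have h2 : 0 < δ * Real.exp a := mul_pos hδ (Real.exp_pos a)
    have h3 : δ * Real.exp a ≤ δ * Real.exp u :=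
      mul_le_mul_of_nonneg_left (Real.exp_le_exp.2 hau) hδ.le
    exact div_le_div₀ (Finset.sum_nonneg fun n _ => Real.log_natCast_nonneg n) h1 h2 h3

theorem rho_int {δ : ℝ} (hδ : 0 < δ) (a b : ℝ) : IntervalIntegrable (rho δ) volume a b := by
  obtain ⟨K, hK0, hK⟩ := rho_bdd hδ (min a b) (max a b)
  rw [intervalIntegrable_iff]
  refine Measure.integrableOn_of_bounded (M := K) ?_ (rho_measurable δ).aestronglyMeasurable ?_
  · rw [uIoc, Real.volume_Ioc]
    exact ENNReal.ofReal_ne_top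
  · refine (ae_restrict_iff' measurableSet_uIoc).2 (Filter.Eventually.of_forall ?_)
    intro u hu
    rw [uIoc, Set.mem_Ioc] at hu
    rw [Real.norm_eq_abs, abs_of_nonneg (rho_nonneg hδ u)]
    exact hK u hu.1.le hu.2

theorem rho_mul_int {δ δ' : ℝ} (hδ : 0 < δ) (hδ' : 0 < δ') (u a b : ℝ) :
    IntervalIntegrable (fun t => rho δ (u - t) * rho δ' t) volume a b := by
  obtain ⟨K, hK0, hK⟩ := rho_bdd hδ' (min a b) (max a b)
  obtain ⟨L, hL0, hL⟩ := rho_bdd hδ (u - max a b) (u - min a b)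
  rw [intervalIntegrable_iff]
  have hm : Measurable (fun t => rho δ (u - t) * rho δ' t) :=
    ((rho_measurable δ).comp (measurable_const.sub measurable_id)).mul (rho_measurable δ')
  refine Measure.integrableOn_of_bounded (M := L * K) ?_ hm.aestronglyMeasurable ?_
  · rw [uIoc, Real.volume_Ioc]
    exact ENNReal.ofReal_ne_top
  · refine (ae_restrict_iff' measurableSet_uIoc).2 (Filter.Eventually.of_forall ?_)
    intro t ht
    rw [uIoc, Set.mem_Ioc] at ht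
    rw [Real.norm_eq_abs, abs_of_nonneg (mul_nonneg (rho_nonneg hδ _) (rho_nonneg hδ' _))]
    exact mul_le_mul (hL _ (by linarith [ht.2]) (by linarith [ht.1])) (hK t ht.1.le ht.2)
      (rho_nonneg hδ' _) hL0

end Pool.Agent.H97.EP
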