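import Pool.Agent.H97.EP.SDf

/-!
# Project EP, module `SD` : the function `Λ_2`

`μ * log² = Λ log + Λ * Λ`: `log = Λ * 1` and `log² = (Λ log) * 1 + Λ * log = (Λ log + Λ * Λ) * 1`
(multiply `Λ * 1 = log` by `log n = log d + log (n/d)`).  Mathlib: `ArithmeticFunction.vonMangoldt_mul_zeta`,
`ArithmeticFunction.moebius_mul_coe_zeta`, inversion `ArithmeticFunction.sum_eq_iff_sum_mul_moebius_eq`
(possibly there is already a version in the team library: search `log ^ 2` and `moebius`, e.g.
`Pool/Agent/H88/PSI`, `Pool/Agent/H76`).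
`L2_le`: `∑_{ab=n} Λ(a)Λ(b) ≤ (∑_{a|n} Λ(a))² = log² n`, `Λ(n) log n ≤ log² n`.
-/

set_option autoImplicit false

namespace Pool.Agent.H97.EP.SS

open ArithmeticFunction in
private theorem sd_key : (pmul vonMangoldt ArithmeticFunction.log + vonMangoldt * vonMangoldt) *
    ((ArithmeticFunction.zeta : ArithmeticFunction ℕ) : ArithmeticFunction ℝ) =
    pmul ArithmeticFunction.log ArithmeticFunction.log := by
  rw [add_mul, mul_assoc, vonMangoldt_mul_zeta]
  ext n
  rcases Nat.eq_zero_or_pos n with rfl | hn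
  · simp
  rw [ArithmeticFunction.add_apply, ArithmeticFunction.mul_apply, ArithmeticFunction.mul_apply,
    ← Finset.sum_add_distrib]
  have h1 : ∀ x ∈ n.divisorsAntidiagonal,
      (pmul vonMangoldt ArithmeticFunction.log) x.1 *
        ((ArithmeticFunction.zeta : ArithmeticFunction ℕ) : ArithmeticFunction ℝ) x.2 +
        vonMangoldt x.1 * ArithmeticFunction.log x.2 = vonMangoldt x.1 * Real.log n := by
    intro x hx
    rw [Nat.mem_divisorsAntidiagonal] at hx
    have hx1 : x.1 ≠ 0 := by rintro h; rw [h, zero_mul] at hx; exact hx.2 hx.1.symm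
    have hx2 : x.2 ≠ 0 := by rintro h; rw [h, mul_zero] at hx; exact hx.2 hx.1.symm
    have hlog : Real.log n = Real.log x.1 + Real.log x.2 := by
      rw [← Real.log_mul (by exact_mod_cast hx1) (by exact_mod_cast hx2), ← Nat.cast_mul, hx.1]
    rw [pmul_apply, natCoe_apply, zeta_apply_ne hx2, log_apply, log_apply, hlog]
    push_cast
    ring
  rw [Finset.sum_congr rfl h1, pmul_apply, log_apply,
    Nat.sum_divisorsAntidiagonal (fun i _ => vonMangoldt i * Real.log n), ← Finset.sum_mul,
    vonMangoldt_sum]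

open ArithmeticFunction in
private theorem sd_key2 : pmul vonMangoldt ArithmeticFunction.log + vonMangoldt * vonMangoldt =
    ((moebius : ArithmeticFunction ℤ) : ArithmeticFunction ℝ) *
      pmul ArithmeticFunction.log ArithmeticFunction.log := by
  rw [← sd_key, mul_left_comm, coe_moebius_mul_coe_zeta, mul_one]

theorem L2_eq {n : ℕ} (hn : n ≠ 0) : L2 n = ArithmeticFunction.vonMangoldt n * Real.log n +
    ∑ x ∈ n.divisorsAntidiagonal, ArithmeticFunction.vonMangoldt x.1 *
      ArithmeticFunction.vonMangoldt x.2 := by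
  have h1 := congrArg (fun f : ArithmeticFunction ℝ => f n) sd_key2
  simp only [ArithmeticFunction.add_apply, ArithmeticFunction.mul_apply,
    ArithmeticFunction.pmul_apply, ArithmeticFunction.log_apply,
    ArithmeticFunction.intCoe_apply] at h1
  rw [h1]
  unfold L2
  rw [Nat.sum_divisorsAntidiagonal (fun i j =>
    (ArithmeticFunction.moebius i : ℝ) * (Real.log j * Real.log j))]
  refine Finset.sum_congr rfl fun d hd => ?_
  rw [Nat.mem_divisors] at hd
  have hd0 : d ≠ 0 := by rintro rfl; exact hd.2 (zero_dvd_iff.1 hd.1)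
  rw [Nat.cast_div hd.1 (by exact_mod_cast hd0), sq]

theorem L2_nonneg (n : ℕ) : 0 ≤ L2 n := by
  rcases eq_or_ne n 0 with rfl | hn
  · simp [L2]
  rw [L2_eq hn]
  refine add_nonneg (mul_nonneg ArithmeticFunction.vonMangoldt_nonneg (Real.log_natCast_nonneg n)) ?_
  exact Finset.sum_nonneg fun x _ => mul_nonneg ArithmeticFunction.vonMangoldt_nonneg
    ArithmeticFunction.vonMangoldt_nonneg

theorem L2_le {n : ℕ} (hn : n ≠ 0) : L2 n ≤ 2 * Real.log n ^ 2 := by
  have hl : 0 ≤ Real.log n := Real.log_natCast_nonneg n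
  rw [L2_eq hn]
  have h1 : ArithmeticFunction.vonMangoldt n * Real.log n ≤ Real.log n ^ 2 := by
    rw [sq]
    exact mul_le_mul_of_nonneg_right ArithmeticFunction.vonMangoldt_le_log hl
  have h2 : ∑ x ∈ n.divisorsAntidiagonal, ArithmeticFunction.vonMangoldt x.1 *
      ArithmeticFunction.vonMangoldt x.2 ≤ Real.log n ^ 2 := by
    calc ∑ x ∈ n.divisorsAntidiagonal, ArithmeticFunction.vonMangoldt x.1 *
          ArithmeticFunction.vonMangoldt x.2
        ≤ ∑ x ∈ n.divisorsAntidiagonal, ArithmeticFunction.vonMangoldt x.1 * Real.log n := by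
          refine Finset.sum_le_sum fun x hx => ?_
          rw [Nat.mem_divisorsAntidiagonal] at hx
          refine mul_le_mul_of_nonneg_left ?_ ArithmeticFunction.vonMangoldt_nonneg
          refine ArithmeticFunction.vonMangoldt_le_log.trans ?_
          have hx2 : x.2 ≠ 0 := by rintro h; rw [h, mul_zero] at hx; exact hx.2 hx.1.symm
          have hle : x.2 ≤ n := Nat.le_of_dvd (Nat.pos_of_ne_zero hn) ⟨x.1, by rw [mul_comm]; exact hx.1.symm⟩
          exact Real.log_le_log (by exact_mod_cast Nat.pos_of_ne_zero hx2) (by exact_mod_cast hle)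
      _ = Real.log n ^ 2 := by
          rw [Nat.sum_divisorsAntidiagonal
            (fun i _ => ArithmeticFunction.vonMangoldt i * Real.log n), ← Finset.sum_mul,
            ArithmeticFunction.vonMangoldt_sum, sq]
  linarith

private theorem sd_vonMangoldt {n : ℕ} (hn : Squarefree n) :
    ArithmeticFunction.vonMangoldt n = if n.Prime then Real.log n else 0 := by
  split_ifs with h
  · exact ArithmeticFunction.vonMangoldt_apply_prime h
  · rw [ArithmeticFunction.vonMangoldt_apply, if_neg]
    intro hp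
    obtain ⟨p, k, hpp, hk, rfl⟩ := (isPrimePow_nat_iff n).1 hp
    rcases (Nat.squarefree_pow_iff hpp.ne_one hk.ne').1 hn with ⟨_, rfl⟩
    exact h (by rwa [pow_one])

/-- for squarefree `n` only primes and products of two primes contribute. -/
theorem L2_squarefree {n : ℕ} (hn : Squarefree n) : L2 n =
    (if n.Prime then Real.log n ^ 2 else 0) +
    ∑ x ∈ n.divisorsAntidiagonal.filter (fun x => x.1.Prime ∧ x.2.Prime),
      Real.log x.1 * Real.log x.2 := by
  rw [L2_eq hn.ne_zero, sd_vonMangoldt hn, Finset.sum_filter]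
  congr 1
  · split_ifs
    · rw [sq]
    · rw [zero_mul]
  · refine Finset.sum_congr rfl fun x hx => ?_
    rw [Nat.mem_divisorsAntidiagonal] at hx
    have h1 : Squarefree x.1 := hn.squarefree_of_dvd ⟨x.2, hx.1.symm⟩
    have h2 : Squarefree x.2 := hn.squarefree_of_dvd ⟨x.1, by rw [mul_comm]; exact hx.1.symm⟩
    rw [sd_vonMangoldt h1, sd_vonMangoldt h2]
    by_cases ha : x.1.Prime <;> by_cases hb : x.2.Prime <;> simp [ha, hb]

end Pool.Agent.H97.EP.SS
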