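import Pool.Agent.H97.EP.SC
import Pool.Agent.H97.EP.SD
import Pool.Agent.H97.EP.HB
import Pool.Agent.H3.LC.Mertens

/-!
# Project EP, module `SF` : from rough integers to primes

`z = X^{e1}`, `L = log X`, `Y ≥ X^{1-e1} ≥ X^{0.99}`, `I = (X, X+Y]`.
(a) The rough `n ∈ I` that are not squarefree are divisible by `p²` for some prime
`z < p ≤ √(2X)`: at most `∑_{z<p} (Y/p² + 1) ≤ Y/z·2 + 2√X` of them, each `L2 n ≤ 2 log²(2X) ≤ 8L²`:
total `≤ Y` for large `X`.  In the same way the `n = p²` in `th2` contribute at most `2√X·4L² ≤ Y`.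
(b) For squarefree rough `n ∈ I`: `L2_squarefree`.  Primes `p ∈ I` are rough (`p > X ≥ z`), and
`∑_{p∈I} log² p = L th + O(log 2 · th X (X+Y))`, `th X (X+Y) ≤ C Y` by `th_bt`
(`log(X+Y+1)/log Y ≤ 2`).
(c) The pairs `p q ∈ I`, `p ≠ q`, that are not rough have `p ≤ z` or `q ≤ z`:
`≤ 2 ∑_{p≤z} log p · th (X/p) ((X+Y)/p) ≤ 2 ∑_{p≤z} log p · C (Y/p) · 4` (`Y/p ≥ X^{0.9}`), and
`∑_{p≤z} log p/p ≤ log z + C ≤ 2 e1 L` for large `X` (`mertens1` or
`Pool.Agent.H3.LC.Mertens`; Chebyshev is enough with another constant).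
Total error `≤ C e1 Y L + C Y ≤ C' e1 Y L` for `X ≥ X0(e1)`.
-/

set_option autoImplicit false

namespace Pool.Agent.H97.EP.SS

open Finset

/-- the contribution of `n` to `th2` -/
private noncomputable def sf_T (n : ℕ) : ℝ :=
  ∑ x ∈ n.divisorsAntidiagonal.filter (fun x => x.1.Prime ∧ x.2.Prime),
    Real.log x.1 * Real.log x.2

private theorem sf_T_nonneg (n : ℕ) : 0 ≤ sf_T n :=
  sum_nonneg fun _ _ => mul_nonneg (Real.log_natCast_nonneg _) (Real.log_natCast_nonneg _)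

open ArithmeticFunction in
private theorem sf_T_le {n : ℕ} (hn : n ≠ 0) : sf_T n ≤ 2 * Real.log n ^ 2 := by
  refine le_trans ?_ (L2_le hn)
  rw [L2_eq hn]
  have h1 : sf_T n ≤ ∑ x ∈ n.divisorsAntidiagonal, vonMangoldt x.1 * vonMangoldt x.2 := by
    have h2 : sf_T n = ∑ x ∈ n.divisorsAntidiagonal.filter (fun x => x.1.Prime ∧ x.2.Prime),
        vonMangoldt x.1 * vonMangoldt x.2 := by
      refine sum_congr rfl fun x hx => ?_
      rw [mem_filter] at hx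
      rw [vonMangoldt_apply_prime hx.2.1, vonMangoldt_apply_prime hx.2.2]
    rw [h2]
    exact sum_le_sum_of_subset_of_nonneg (filter_subset _ _)
      fun x _ _ => mul_nonneg vonMangoldt_nonneg vonMangoldt_nonneg
  have h3 : 0 ≤ vonMangoldt n * Real.log n :=
    mul_nonneg vonMangoldt_nonneg (Real.log_natCast_nonneg _)
  linarith

open scoped Classical in
private theorem sf_dec {z A B : ℝ} (hA : 0 ≤ A) (hzA : z ≤ A) :
    |GG z A B - (∑ p ∈ (Ioc ⌊A⌋₊ ⌊B⌋₊).filter Nat.Prime, Real.log p ^ 2 + th2 A B)| ≤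
      ∑ n ∈ (Ioc ⌊A⌋₊ ⌊B⌋₊).filter (fun n => ¬ (Rough z n ∧ Squarefree n)), sf_T n +
      ∑ n ∈ (Ioc ⌊A⌋₊ ⌊B⌋₊).filter (fun n => Rough z n ∧ ¬ Squarefree n), L2 n := by
  set I := Ioc ⌊A⌋₊ ⌊B⌋₊ with hI
  have h1 : GG z A B = ∑ n ∈ I.filter (fun n => Rough z n ∧ Squarefree n), L2 n +
      ∑ n ∈ I.filter (fun n => Rough z n ∧ ¬ Squarefree n), L2 n := by
    rw [GG, ← hI, ← sum_filter_add_sum_filter_not (I.filter (Rough z)) (fun n => Squarefree n),
      filter_filter, filter_filter]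
  have h2 : ∑ n ∈ I.filter (fun n => Rough z n ∧ Squarefree n), L2 n =
      ∑ n ∈ I.filter (fun n => Rough z n ∧ Squarefree n),
        (if n.Prime then Real.log n ^ 2 else 0) +
      ∑ n ∈ I.filter (fun n => Rough z n ∧ Squarefree n), sf_T n := by
    rw [← sum_add_distrib]
    refine sum_congr rfl fun n hn => ?_
    rw [mem_filter] at hn
    exact L2_squarefree hn.2.2
  have h3 : ∑ p ∈ I.filter Nat.Prime, Real.log p ^ 2 =
      ∑ n ∈ I.filter (fun n => Rough z n ∧ Squarefree n),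
        (if n.Prime then Real.log n ^ 2 else 0) := by
    rw [← sum_filter, filter_filter]
    congr 1
    ext p
    simp only [mem_filter]
    constructor
    · rintro ⟨hp, hp'⟩
      refine ⟨hp, ⟨⟨hp'.ne_zero, fun q hq hqp => ?_⟩, hp'.squarefree⟩, hp'⟩
      rw [(Nat.prime_dvd_prime_iff_eq hq hp').1 hqp]
      rw [hI, mem_Ioc] at hp
      exact lt_of_le_of_lt hzA ((Nat.floor_lt hA).1 hp.1)
    · rintro ⟨hp, -, hp'⟩
      exact ⟨hp, hp'⟩
  have h4 : th2 A B = ∑ n ∈ I.filter (fun n => Rough z n ∧ Squarefree n), sf_T n +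
      ∑ n ∈ I.filter (fun n => ¬ (Rough z n ∧ Squarefree n)), sf_T n := by
    rw [sum_filter_add_sum_filter_not]
    rfl
  have h5 : 0 ≤ ∑ n ∈ I.filter (fun n => ¬ (Rough z n ∧ Squarefree n)), sf_T n :=
    sum_nonneg fun n _ => sf_T_nonneg n
  have h6 : 0 ≤ ∑ n ∈ I.filter (fun n => Rough z n ∧ ¬ Squarefree n), L2 n :=
    sum_nonneg fun n _ => L2_nonneg n
  rw [h1, h2, h3, h4, abs_le]
  constructor <;> linarith

open scoped Classical in
private theorem sf_E1 {z X Y : ℝ} (hz : 1 ≤ z) (hX : 1 ≤ X) (hY : 0 ≤ Y) (hYX : Y ≤ X) :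
    ∑ n ∈ (Ioc ⌊X⌋₊ ⌊X + Y⌋₊).filter (fun n => Rough z n ∧ ¬ Squarefree n), L2 n ≤
      2 * Real.log (2 * X) ^ 2 * ((Y + 1) * (2 / z) + Real.sqrt (2 * X)) := by
  set I := Ioc ⌊X⌋₊ ⌊X + Y⌋₊ with hI
  set S := I.filter (fun n => Rough z n ∧ ¬ Squarefree n) with hS
  set K := Nat.sqrt ⌊X + Y⌋₊ with hK
  set M := ⌊X + Y⌋₊ - ⌊X⌋₊ with hM
  have hfl : ⌊X⌋₊ ≤ ⌊X + Y⌋₊ := Nat.floor_le_floor (by linarith)
  have hMr : (M : ℝ) ≤ Y + 1 := by
    rw [hM, Nat.cast_sub hfl]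
    have h1 := Nat.floor_le (show 0 ≤ X + Y by linarith)
    have h2 := Nat.lt_floor_add_one X
    linarith
  have hKr : (K : ℝ) ≤ Real.sqrt (2 * X) := by
    refine Real.le_sqrt_of_sq_le ?_
    have h1 : K * K ≤ ⌊X + Y⌋₊ := Nat.sqrt_le _
    have h2 : ((K * K : ℕ) : ℝ) ≤ (⌊X + Y⌋₊ : ℝ) := by exact_mod_cast h1
    push_cast at h2
    have h3 := Nat.floor_le (show 0 ≤ X + Y by linarith)
    nlinarith
  have hcard : (S.card : ℝ) ≤ (Y + 1) * (2 / z) + Real.sqrt (2 * X) := by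
    have hsub : S ⊆ (Ioc ⌊z⌋₊ K).biUnion fun d => I.filter fun n => d * d ∣ n := by
      intro n hn
      rw [hS, mem_filter] at hn
      obtain ⟨hnI, hr, hsq⟩ := hn
      rw [Nat.squarefree_iff_prime_squarefree] at hsq
      push Not at hsq
      obtain ⟨p, hp, hpn⟩ := hsq
      rw [mem_biUnion]
      refine ⟨p, ?_, mem_filter.2 ⟨hnI, hpn⟩⟩
      rw [mem_Ioc]
      have hzp : z < p := hr.2 p hp ((dvd_mul_right p p).trans hpn)
      refine ⟨(Nat.floor_lt (by linarith)).2 hzp, ?_⟩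
      rw [hK, Nat.le_sqrt]
      rw [hI, mem_Ioc] at hnI
      exact (Nat.le_of_dvd (Nat.pos_of_ne_zero hr.1) hpn).trans hnI.2
    have h1 : (S.card : ℝ) ≤ ∑ d ∈ Ioc ⌊z⌋₊ K, ((I.filter fun n => d * d ∣ n).card : ℝ) := by
      exact_mod_cast (card_le_card hsub).trans card_biUnion_le
    have hz1 : 1 ≤ ⌊z⌋₊ := Nat.le_floor (by exact_mod_cast hz)
    have h2 : ∀ d ∈ Ioc ⌊z⌋₊ K, ((I.filter fun n => d * d ∣ n).card : ℝ) ≤
        (Y + 1) * ((d : ℝ) ^ 2)⁻¹ + 1 := by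
      intro d hd
      rw [mem_Ioc] at hd
      have hd0 : 1 ≤ d * d := Nat.one_le_iff_ne_zero.2 (by
        have : d ≠ 0 := by omega
        positivity)
      have h3 := Pool.Agent.H3.LC.bt_count ⌊X⌋₊ M (d * d) hd0
      have h4 : Icc (⌊X⌋₊ + 1) (⌊X⌋₊ + M) = I := by
        rw [hI, hM, Nat.add_sub_cancel' hfl]
        ext n
        simp only [mem_Icc, mem_Ioc]
        omega
      rw [h4] at h3
      have h5 := (abs_le.1 h3).2
      have h6 : (M : ℝ) / ((d * d : ℕ) : ℝ) ≤ (Y + 1) * ((d : ℝ) ^ 2)⁻¹ := by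
        push_cast
        rw [← sq, div_eq_mul_inv]
        exact mul_le_mul_of_nonneg_right hMr (by positivity)
      linarith
    have h7 : ∑ d ∈ Ioc ⌊z⌋₊ K, ((Y + 1) * ((d : ℝ) ^ 2)⁻¹ + 1) ≤
        (Y + 1) * (2 / z) + Real.sqrt (2 * X) := by
      rw [sum_add_distrib, ← mul_sum]
      refine add_le_add (mul_le_mul_of_nonneg_left ?_ (by linarith)) ?_
      · rcases le_total ⌊z⌋₊ K with h | h
        · have h8 := sum_Ioc_inv_sq_le_sub (α := ℝ) (k := ⌊z⌋₊) (n := K) (by omega) h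
          have h9 : ((⌊z⌋₊ : ℝ))⁻¹ ≤ 2 / z := by
            have h10 := Nat.lt_floor_add_one z
            have h11 : (1 : ℝ) ≤ ⌊z⌋₊ := by exact_mod_cast hz1
            rw [inv_eq_one_div, div_le_div_iff₀ (by linarith) (by linarith)]
            linarith
          have h12 : 0 ≤ ((K : ℝ))⁻¹ := by positivity
          linarith
        · rw [Ioc_eq_empty (by omega), sum_empty]
          positivity
      · rw [sum_const, Nat.card_Ioc, nsmul_eq_mul, mul_one]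
        refine le_trans ?_ hKr
        exact_mod_cast Nat.sub_le _ _
    exact h1.trans ((sum_le_sum h2).trans h7)
  have h8 : ∑ n ∈ S, L2 n ≤ S.card * (2 * Real.log (2 * X) ^ 2) := by
    rw [← nsmul_eq_mul]
    refine sum_le_card_nsmul _ _ _ fun n hn => ?_
    rw [hS, mem_filter] at hn
    have hn0 : n ≠ 0 := hn.2.1.1
    refine (L2_le hn0).trans ?_
    have hnI := hn.1
    rw [hI, mem_Ioc] at hnI
    have h9 : (n : ℝ) ≤ X + Y := (Nat.le_floor_iff (by linarith)).1 hnI.2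
    have h10 : (1 : ℝ) ≤ n := by exact_mod_cast Nat.one_le_iff_ne_zero.2 hn0
    have h11 : Real.log n ≤ Real.log (2 * X) := Real.log_le_log (by linarith) (by linarith)
    have h12 : 0 ≤ Real.log n := Real.log_nonneg h10
    nlinarith
  calc ∑ n ∈ S, L2 n ≤ S.card * (2 * Real.log (2 * X) ^ 2) := h8
    _ ≤ ((Y + 1) * (2 / z) + Real.sqrt (2 * X)) * (2 * Real.log (2 * X) ^ 2) :=
        mul_le_mul_of_nonneg_right hcard (by positivity)
    _ = _ := mul_comm _ _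

open scoped Classical in
private theorem sf_C1 {X Y : ℝ} (hX : 1 ≤ X) (hY : 0 ≤ Y) (hYX : Y ≤ X) :
    ∑ n ∈ (Ioc ⌊X⌋₊ ⌊X + Y⌋₊).filter (fun n => ¬ Squarefree n), sf_T n ≤
      (Real.sqrt (2 * X) + 1) * (2 * Real.log (2 * X) ^ 2) := by
  set I := Ioc ⌊X⌋₊ ⌊X + Y⌋₊ with hI
  set K := Nat.sqrt ⌊X + Y⌋₊ with hK
  have hKr : (K : ℝ) ≤ Real.sqrt (2 * X) := by
    refine Real.le_sqrt_of_sq_le ?_
    have h1 : K * K ≤ ⌊X + Y⌋₊ := Nat.sqrt_le _
    have h2 : ((K * K : ℕ) : ℝ) ≤ (⌊X + Y⌋₊ : ℝ) := by exact_mod_cast h1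
    push_cast at h2
    have h3 := Nat.floor_le (show 0 ≤ X + Y by linarith)
    nlinarith
  have h1 : ∑ n ∈ I.filter (fun n => ¬ Squarefree n), sf_T n ≤
      ∑ n ∈ I.filter (fun n => IsSquare n), 2 * Real.log (2 * X) ^ 2 := by
    have h2 : ∑ n ∈ I.filter (fun n => ¬ Squarefree n), sf_T n =
        ∑ n ∈ (I.filter (fun n => ¬ Squarefree n)).filter (fun n => IsSquare n), sf_T n := by
      refine (sum_subset (filter_subset _ _) fun n hn hn' => ?_).symm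
      rw [mem_filter] at hn
      have hns : ¬ IsSquare n := fun h => hn' (mem_filter.2 ⟨mem_filter.2 hn, h⟩)
      rw [sf_T]
      refine sum_eq_zero fun x hx => ?_
      exfalso
      rw [mem_filter, Nat.mem_divisorsAntidiagonal] at hx
      obtain ⟨⟨hx1, -⟩, hx2, hx3⟩ := hx
      by_cases h : x.1 = x.2
      · exact hns ⟨x.1, by rw [← hx1, ← h]⟩
      · apply hn.2
        rw [← hx1, Nat.squarefree_mul ((Nat.coprime_primes hx2 hx3).2 h)]
        exact ⟨hx2.squarefree, hx3.squarefree⟩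
    rw [h2]
    calc ∑ n ∈ (I.filter (fun n => ¬ Squarefree n)).filter (fun n => IsSquare n), sf_T n
        ≤ ∑ n ∈ I.filter (fun n => IsSquare n), sf_T n :=
          sum_le_sum_of_subset_of_nonneg
            (filter_subset_filter _ (filter_subset _ _)) fun n _ _ => sf_T_nonneg n
      _ ≤ _ := by
          refine sum_le_sum fun n hn => ?_
          rw [mem_filter, hI, mem_Ioc] at hn
          have hn0 : n ≠ 0 := by omega
          refine (sf_T_le hn0).trans ?_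
          have h9 : (n : ℝ) ≤ X + Y := (Nat.le_floor_iff (by linarith)).1 hn.1.2
          have h10 : (1 : ℝ) ≤ n := by exact_mod_cast Nat.one_le_iff_ne_zero.2 hn0
          have h11 : Real.log n ≤ Real.log (2 * X) := Real.log_le_log (by linarith) (by linarith)
          have h12 : 0 ≤ Real.log n := Real.log_nonneg h10
          nlinarith
  refine h1.trans ?_
  rw [sum_const, nsmul_eq_mul]
  refine mul_le_mul_of_nonneg_right ?_ (by positivity)
  have h2 : I.filter (fun n => IsSquare n) ⊆ (range (K + 1)).image fun r => r * r := by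
    intro n hn
    rw [mem_filter, hI, mem_Ioc] at hn
    obtain ⟨⟨-, h3⟩, r, hr⟩ := hn
    rw [mem_image]
    refine ⟨r, ?_, hr.symm⟩
    rw [mem_range, Nat.lt_succ_iff, hK, Nat.le_sqrt, ← hr]
    exact h3
  have h3 := (card_le_card h2).trans card_image_le
  rw [card_range] at h3
  have h4 : ((I.filter (fun n => IsSquare n)).card : ℝ) ≤ ((K + 1 : ℕ) : ℝ) := by
    exact_mod_cast h3
  push_cast at h4
  linarith

/-- the pairs with small first component -/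
private noncomputable def sf_U (z : ℝ) (n : ℕ) : ℝ :=
  ∑ x ∈ n.divisorsAntidiagonal.filter (fun x => (x.1.Prime ∧ x.1 ≤ ⌊z⌋₊) ∧ x.2.Prime),
    Real.log x.1 * Real.log x.2

private theorem sf_T_le_U {z : ℝ} (hz : 0 ≤ z) {n : ℕ} (hn : n ≠ 0) (h : ¬ Rough z n) :
    sf_T n ≤ 2 * sf_U z n := by
  classical
  have h1 : ∃ p : ℕ, p.Prime ∧ p ∣ n ∧ p ≤ ⌊z⌋₊ := by
    by_contra hcon
    push Not at hcon
    exact h ⟨hn, fun p hp hpn => (Nat.floor_lt hz).1 (hcon p hp hpn)⟩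
  obtain ⟨p, hp, hpn, hpz⟩ := h1
  have h2 : sf_U z n = ∑ x ∈ n.divisorsAntidiagonal.filter
      (fun x => (x.2.Prime ∧ x.2 ≤ ⌊z⌋₊) ∧ x.1.Prime), Real.log x.1 * Real.log x.2 := by
    rw [sf_U]
    refine sum_nbij' Prod.swap Prod.swap ?_ ?_ ?_ ?_ ?_
    · intro x hx
      rw [mem_filter, Nat.mem_divisorsAntidiagonal] at hx ⊢
      exact ⟨⟨by rw [← hx.1.1]; exact mul_comm _ _, hx.1.2⟩, hx.2⟩
    · intro x hx
      rw [mem_filter, Nat.mem_divisorsAntidiagonal] at hx ⊢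
      exact ⟨⟨by rw [← hx.1.1]; exact mul_comm _ _, hx.1.2⟩, hx.2⟩
    · intro x _; rfl
    · intro x _; rfl
    · intro x _; exact mul_comm _ _
  have h3 : 2 * sf_U z n = ∑ x ∈ n.divisorsAntidiagonal.filter
      (fun x => (x.1.Prime ∧ x.1 ≤ ⌊z⌋₊) ∧ x.2.Prime), Real.log x.1 * Real.log x.2 +
      ∑ x ∈ n.divisorsAntidiagonal.filter
      (fun x => (x.2.Prime ∧ x.2 ≤ ⌊z⌋₊) ∧ x.1.Prime), Real.log x.1 * Real.log x.2 := by
    rw [← h2, two_mul]
    rfl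
  rw [h3, sf_T, sum_filter, sum_filter, sum_filter, ← sum_add_distrib]
  refine sum_le_sum fun x hx => ?_
  have hf : 0 ≤ Real.log x.1 * Real.log x.2 :=
    mul_nonneg (Real.log_natCast_nonneg _) (Real.log_natCast_nonneg _)
  have hA : 0 ≤ if (x.1.Prime ∧ x.1 ≤ ⌊z⌋₊) ∧ x.2.Prime then
      Real.log x.1 * Real.log x.2 else 0 := by
    split_ifs
    · exact hf
    · exact le_rfl
  have hB : 0 ≤ if (x.2.Prime ∧ x.2 ≤ ⌊z⌋₊) ∧ x.1.Prime then
      Real.log x.1 * Real.log x.2 else 0 := by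
    split_ifs
    · exact hf
    · exact le_rfl
  by_cases hP : x.1.Prime ∧ x.2.Prime
  · rw [if_pos hP]
    rw [Nat.mem_divisorsAntidiagonal] at hx
    rw [← hx.1] at hpn
    rcases (hp.dvd_mul).1 hpn with h4 | h4
    · have h5 := (Nat.prime_dvd_prime_iff_eq hp hP.1).1 h4
      have h6 : (x.1.Prime ∧ x.1 ≤ ⌊z⌋₊) ∧ x.2.Prime := ⟨⟨hP.1, by rw [← h5]; exact hpz⟩, hP.2⟩
      rw [if_pos h6]
      linarith
    · have h5 := (Nat.prime_dvd_prime_iff_eq hp hP.2).1 h4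
      have h6 : (x.2.Prime ∧ x.2 ≤ ⌊z⌋₊) ∧ x.1.Prime := ⟨⟨hP.2, by rw [← h5]; exact hpz⟩, hP.1⟩
      rw [if_pos h6]
      linarith
  · rw [if_neg hP]
    exact add_nonneg hA hB

private theorem sf_U_sum {z A B : ℝ} (hA : 0 ≤ A) (hAB : A ≤ B) :
    ∑ n ∈ Ioc ⌊A⌋₊ ⌊B⌋₊, sf_U z n =
      ∑ p ∈ (Icc 1 ⌊z⌋₊).filter Nat.Prime, Real.log p * th (A / p) (B / p) := by
  have h1 : ∀ p : ℕ, Real.log p * th (A / p) (B / p) =
      ∑ q ∈ (Ioc ⌊A / p⌋₊ ⌊B / p⌋₊).filter Nat.Prime, Real.log p * Real.log q := by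
    intro p
    rw [th, mul_sum]
  simp only [h1, sf_U]
  rw [sum_sigma', sum_sigma']
  have hB : 0 ≤ B := hA.trans hAB
  have hiff : ∀ p q : ℕ, p.Prime → ((⌊A⌋₊ < p * q ∧ p * q ≤ ⌊B⌋₊) ↔
      (⌊A / p⌋₊ < q ∧ q ≤ ⌊B / p⌋₊)) := by
    intro p q hp
    have hp0 : (0 : ℝ) < p := by exact_mod_cast hp.pos
    rw [Nat.floor_lt hA, Nat.le_floor_iff hB, Nat.floor_lt (by positivity),
      Nat.le_floor_iff (by positivity), div_lt_iff₀ hp0, le_div_iff₀ hp0]
    push_cast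
    rw [mul_comm (p : ℝ)]
  refine sum_nbij' (fun y => ⟨y.2.1, y.2.2⟩) (fun y => ⟨y.1 * y.2, (y.1, y.2)⟩) ?_ ?_ ?_ ?_ ?_
  · rintro ⟨n, p, q⟩ hy
    simp only [mem_sigma, mem_filter, mem_Ioc, Nat.mem_divisorsAntidiagonal] at hy
    obtain ⟨hn, ⟨hpq, -⟩, ⟨hp, hpz⟩, hq⟩ := hy
    simp only [mem_sigma, mem_filter, mem_Ioc, mem_Icc]
    rw [← hpq] at hn
    exact ⟨⟨⟨hp.one_lt.le, hpz⟩, hp⟩, (hiff p q hp).1 hn, hq⟩
  · rintro ⟨p, q⟩ hy
    simp only [mem_sigma, mem_filter, mem_Ioc, mem_Icc] at hy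
    obtain ⟨⟨⟨-, hpz⟩, hp⟩, hpq, hq⟩ := hy
    simp only [mem_sigma, mem_filter, mem_Ioc, Nat.mem_divisorsAntidiagonal]
    exact ⟨(hiff p q hp).2 hpq, ⟨trivial, Nat.mul_ne_zero hp.ne_zero hq.ne_zero⟩,
      ⟨hp, hpz⟩, hq⟩
  · rintro ⟨n, p, q⟩ hy
    simp only [mem_sigma, mem_filter, mem_Ioc, Nat.mem_divisorsAntidiagonal] at hy
    obtain ⟨hn, ⟨hpq, -⟩, ⟨hp, hpz⟩, hq⟩ := hy
    simp only [hpq]
  · rintro ⟨p, q⟩ _
    rfl
  · rintro ⟨n, p, q⟩ _
    rfl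

private theorem sf_log_ev (s c : ℝ) (hs : 0 < s) (hc : 0 < c) :
    ∀ᶠ X : ℝ in Filter.atTop, c * Real.log X ^ 2 ≤ X ^ s := by
  have h := (isLittleO_log_rpow_rpow_atTop 2 hs).bound (show 0 < 1 / c by positivity)
  filter_upwards [h, Filter.eventually_ge_atTop 1] with X h1 hX
  have h2 : 0 ≤ Real.log X := Real.log_nonneg hX
  rw [Real.norm_of_nonneg (Real.rpow_nonneg h2 _), Real.norm_of_nonneg (Real.rpow_nonneg (by linarith) _),
    Real.rpow_two] at h1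
  rw [div_mul_eq_mul_div, one_mul, le_div_iff₀ hc] at h1
  linarith

theorem rough_prime : ∃ C : ℝ, 0 < C ∧ ∀ e1 : ℝ, 0 < e1 → e1 ≤ 1 / 100 → ∃ X0 : ℝ, 1 ≤ X0 ∧
    ∀ X : ℝ, X0 ≤ X → ∀ Y : ℝ, X ^ (1 - e1) ≤ Y → Y ≤ X →
    |GG (X ^ e1) X (X + Y) - (th X (X + Y) * Real.log X + th2 X (X + Y))| ≤
      C * e1 * Y * Real.log X := by
  classical
  obtain ⟨C1, hC1, hbt⟩ := th_bt
  obtain ⟨C2, hC2, hmt⟩ := Pool.Agent.H3.LC.mertens
  refine ⟨10 * C1 + 2, by linarith, fun e1 he1 he1' => ?_⟩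
  have hev := (((sf_log_ev e1 32 he1 (by norm_num)).and
    (sf_log_ev (1 / 4) 40 (by norm_num) (by norm_num))).and
    (Real.tendsto_log_atTop.eventually_ge_atTop (max (1 / e1) (C2 / e1)))).and
    (Filter.eventually_ge_atTop (9 : ℝ))
  obtain ⟨X0, hX0⟩ := Filter.eventually_atTop.1 hev
  refine ⟨max 1 X0, le_max_left _ _, fun X hX Y hY hYX => ?_⟩
  obtain ⟨⟨⟨hx1, hx2⟩, hx3⟩, hx4⟩ := hX0 X ((le_max_right _ _).trans hX)
  set L := Real.log X with hL
  set z := X ^ e1 with hz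
  have hXpos : 0 < X := by linarith
  have hX1 : 1 ≤ X := by linarith
  have hL1 : 1 ≤ e1 * L := by
    have := (le_max_left _ _).trans hx3
    rw [div_le_iff₀ he1] at this
    linarith
  have hL2 : C2 ≤ e1 * L := by
    have := (le_max_right _ _).trans hx3
    rw [div_le_iff₀ he1] at this
    linarith
  have hLpos : 0 < L := by
    by_contra hcon
    push Not at hcon
    nlinarith
  have hLbig : 1 ≤ L := by nlinarith
  have hz32 : 32 * L ^ 2 ≤ z := hx1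
  have hz1 : 1 ≤ z := by nlinarith
  have hzX : z ≤ X := by
    have := Real.rpow_le_rpow_of_exponent_le hX1 (show e1 ≤ 1 by linarith)
    rwa [Real.rpow_one] at this
  have hlogz : Real.log z = e1 * L := by rw [hz, Real.log_rpow hXpos]
  -- `Y ≥ X^(3/4)`
  have hY34 : X ^ (3 / 4 : ℝ) ≤ Y :=
    (Real.rpow_le_rpow_of_exponent_le hX1 (by linarith)).trans hY
  have hsq : (X ^ (3 / 4 : ℝ)) ^ 2 = X * Real.sqrt X := by
    rw [← Real.rpow_natCast, ← Real.rpow_mul hXpos.le, Real.sqrt_eq_rpow]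
    nth_rewrite 2 [← Real.rpow_one X]
    rw [← Real.rpow_add hXpos]
    norm_num
  have hsqrt3 : 3 ≤ Real.sqrt X := Real.le_sqrt_of_sq_le (by linarith)
  have hX34 : 3 * X ≤ (X ^ (3 / 4 : ℝ)) ^ 2 := by
    rw [hsq]
    nlinarith
  have hX34' : 2 ≤ X ^ (3 / 4 : ℝ) := by
    have : 0 ≤ X ^ (3 / 4 : ℝ) := Real.rpow_nonneg hXpos.le _
    by_contra hcon
    push Not at hcon
    nlinarith
  have hYpos : 0 < Y := by linarith
  -- Brun-Titchmarsh in the form needed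
  have hbt' : ∀ A B : ℝ, 0 ≤ A → A + B ≤ 2 * X → X ^ (3 / 4 : ℝ) ≤ B → th A (A + B) ≤ 2 * C1 * B := by
    intro A B hA hAB hB
    have h1 := hbt A B hA (hX34'.trans hB)
    have hB2 : 2 ≤ B := hX34'.trans hB
    have hlB : 0 < Real.log B := Real.log_pos (by linarith)
    have h2 : Real.log (A + B + 1) ≤ 2 * Real.log B := by
      have h3 : A + B + 1 ≤ B ^ 2 := by
        have h4 : (X ^ (3 / 4 : ℝ)) ^ 2 ≤ B ^ 2 := by
          have : 0 ≤ X ^ (3 / 4 : ℝ) := Real.rpow_nonneg hXpos.le _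
          nlinarith
        linarith
      have h5 := Real.log_le_log (by linarith) h3
      rwa [Real.log_pow] at h5
    refine h1.trans ?_
    rw [div_le_iff₀ hlB]
    calc C1 * B * Real.log (A + B + 1) ≤ C1 * B * (2 * Real.log B) :=
          mul_le_mul_of_nonneg_left h2 (by positivity)
      _ = _ := by ring
  -- the primes
  have hD : |∑ p ∈ (Ioc ⌊X⌋₊ ⌊X + Y⌋₊).filter Nat.Prime, Real.log p ^ 2 -
      th X (X + Y) * L| ≤ 2 * C1 * Y := by
    have h1 : ∑ p ∈ (Ioc ⌊X⌋₊ ⌊X + Y⌋₊).filter Nat.Prime, Real.log p ^ 2 - th X (X + Y) * L =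
        ∑ p ∈ (Ioc ⌊X⌋₊ ⌊X + Y⌋₊).filter Nat.Prime, Real.log p * (Real.log p - L) := by
      rw [th, sum_mul, ← sum_sub_distrib]
      exact sum_congr rfl fun p _ => by ring
    have h2 : ∀ p ∈ (Ioc ⌊X⌋₊ ⌊X + Y⌋₊).filter Nat.Prime,
        0 ≤ Real.log p - L ∧ Real.log p - L ≤ 1 := by
      intro p hp
      rw [mem_filter, mem_Ioc] at hp
      have h3 : X < p := (Nat.floor_lt hXpos.le).1 hp.1.1
      have h4 : (p : ℝ) ≤ X + Y := (Nat.le_floor_iff (by linarith)).1 hp.1.2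
      have h5 : Real.log p ≤ Real.log (2 * X) := Real.log_le_log (by linarith) (by linarith)
      rw [Real.log_mul (by norm_num) hXpos.ne'] at h5
      have h6 := Real.log_two_lt_d9
      have h7 := Real.log_le_log hXpos h3.le
      constructor
      · rw [hL]; linarith
      · rw [hL]; linarith
    rw [h1, abs_of_nonneg (sum_nonneg fun p hp =>
      mul_nonneg (Real.log_natCast_nonneg _) (h2 p hp).1)]
    refine le_trans ?_ (hbt' X Y hXpos.le (by linarith) hY34)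
    rw [th]
    refine sum_le_sum fun p hp => ?_
    have := Real.log_natCast_nonneg p
    have h3 := (h2 p hp).2
    nlinarith
  -- the not rough ones
  have hC2' : ∑ n ∈ (Ioc ⌊X⌋₊ ⌊X + Y⌋₊).filter (fun n => ¬ Rough z n), sf_T n ≤
      8 * C1 * e1 * Y * L := by
    have h1 : ∑ n ∈ (Ioc ⌊X⌋₊ ⌊X + Y⌋₊).filter (fun n => ¬ Rough z n), sf_T n ≤
        2 * ∑ n ∈ Ioc ⌊X⌋₊ ⌊X + Y⌋₊, sf_U z n := by
      rw [mul_sum]
      calc ∑ n ∈ (Ioc ⌊X⌋₊ ⌊X + Y⌋₊).filter (fun n => ¬ Rough z n), sf_T n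
          ≤ ∑ n ∈ (Ioc ⌊X⌋₊ ⌊X + Y⌋₊).filter (fun n => ¬ Rough z n), 2 * sf_U z n := by
            refine sum_le_sum fun n hn => ?_
            rw [mem_filter, mem_Ioc] at hn
            exact sf_T_le_U (by linarith) (by omega) hn.2
        _ ≤ _ := by
            refine sum_le_sum_of_subset_of_nonneg (filter_subset _ _) fun n _ _ => ?_
            refine mul_nonneg (by norm_num) (sum_nonneg fun x _ =>
              mul_nonneg (Real.log_natCast_nonneg _) (Real.log_natCast_nonneg _))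
    rw [sf_U_sum hXpos.le (by linarith)] at h1
    have h2 : ∀ p ∈ (Icc 1 ⌊z⌋₊).filter Nat.Prime,
        Real.log p * th (X / p) ((X + Y) / p) ≤ 2 * C1 * Y * (Real.log p / p) := by
      intro p hp
      rw [mem_filter, mem_Icc] at hp
      have hp1 : (1 : ℝ) ≤ p := by exact_mod_cast hp.1.1
      have hpz : (p : ℝ) ≤ z := (Nat.le_floor_iff (by linarith)).1 hp.1.2
      have h3 : X ^ (3 / 4 : ℝ) ≤ Y / p := by
        rw [le_div_iff₀ (by linarith)]
        calc X ^ (3 / 4 : ℝ) * p ≤ X ^ (3 / 4 : ℝ) * z :=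
              mul_le_mul_of_nonneg_left hpz (Real.rpow_nonneg hXpos.le _)
          _ = X ^ (3 / 4 + e1) := by rw [hz, ← Real.rpow_add hXpos]
          _ ≤ X ^ (1 - e1) := Real.rpow_le_rpow_of_exponent_le hX1 (by linarith)
          _ ≤ Y := hY
      have h4 : X / p + Y / p ≤ 2 * X := by
        rw [← add_div, div_le_iff₀ (by linarith)]
        nlinarith
      have h5 := hbt' (X / p) (Y / p) (by positivity) h4 h3
      rw [← add_div] at h5
      calc Real.log p * th (X / p) ((X + Y) / p) ≤ Real.log p * (2 * C1 * (Y / p)) :=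
            mul_le_mul_of_nonneg_left h5 (Real.log_natCast_nonneg _)
        _ = _ := by ring
    have h6 : ∑ p ∈ (Icc 1 ⌊z⌋₊).filter Nat.Prime, Real.log p / p ≤ 2 * (e1 * L) := by
      have h7 := (abs_le.1 (hmt ⌊z⌋₊ (Nat.le_floor (by exact_mod_cast hz1)))).2
      have h8 : Real.log (⌊z⌋₊ : ℝ) ≤ e1 * L := by
        rw [← hlogz]
        refine Real.log_le_log ?_ (Nat.floor_le (by linarith))
        exact_mod_cast Nat.floor_pos.2 hz1
      linarith
    calc _ ≤ 2 * ∑ p ∈ (Icc 1 ⌊z⌋₊).filter Nat.Prime,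
            Real.log p * th (X / p) ((X + Y) / p) := h1
      _ ≤ 2 * ∑ p ∈ (Icc 1 ⌊z⌋₊).filter Nat.Prime, 2 * C1 * Y * (Real.log p / p) :=
          mul_le_mul_of_nonneg_left (sum_le_sum h2) (by norm_num)
      _ = 4 * C1 * Y * ∑ p ∈ (Icc 1 ⌊z⌋₊).filter Nat.Prime, Real.log p / p := by
          rw [← mul_sum]; ring
      _ ≤ 4 * C1 * Y * (2 * (e1 * L)) := mul_le_mul_of_nonneg_left h6 (by positivity)
      _ = _ := by ring
  have hE1 := sf_E1 hz1 hX1 hYpos.le hYX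
  have hE2 := sf_C1 hX1 hYpos.le hYX
  have hdec := sf_dec (z := z) (B := X + Y) hXpos.le hzX
  have hsplit : ∑ n ∈ (Ioc ⌊X⌋₊ ⌊X + Y⌋₊).filter (fun n => ¬ (Rough z n ∧ Squarefree n)), sf_T n ≤
      ∑ n ∈ (Ioc ⌊X⌋₊ ⌊X + Y⌋₊).filter (fun n => ¬ Rough z n), sf_T n +
      ∑ n ∈ (Ioc ⌊X⌋₊ ⌊X + Y⌋₊).filter (fun n => ¬ Squarefree n), sf_T n := by
    rw [sum_filter, sum_filter, sum_filter, ← sum_add_distrib]
    refine sum_le_sum fun n _ => ?_
    have := sf_T_nonneg n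
    by_cases h1 : Rough z n
    · by_cases h2 : Squarefree n
      · simp [h1, h2]
      · simp [h1, h2]
    · by_cases h2 : Squarefree n
      · simp [h1, h2]
      · simp [h1, h2, this]
  -- numerical estimates
  have hlog2X : Real.log (2 * X) ≤ 2 * L := by
    have h1 : 2 * X ≤ X ^ 2 := by nlinarith
    have h2 := Real.log_le_log (by linarith) h1
    rwa [Real.log_pow] at h2
  have hlog2X' : Real.log (2 * X) ^ 2 ≤ 4 * L ^ 2 := by
    have h1 : 0 ≤ Real.log (2 * X) := Real.log_nonneg (by linarith)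
    nlinarith
  have hsqrt2 : Real.sqrt (2 * X) ≤ (3 / 2) * Real.sqrt X := by
    rw [show (3 / 2) * Real.sqrt X = Real.sqrt ((9 / 4) * X) by
      rw [Real.sqrt_mul (by norm_num), show (9 / 4 : ℝ) = (3 / 2) ^ 2 by norm_num,
        Real.sqrt_sq (by norm_num)]]
    exact Real.sqrt_le_sqrt (by linarith)
  have hN1 : 8 * L ^ 2 * ((Y + 1) * (2 / z)) ≤ Y := by
    have h1 : 32 * L ^ 2 / z ≤ 1 := by rw [div_le_one (by linarith)]; exact hz32
    have h2 : 8 * L ^ 2 * ((Y + 1) * (2 / z)) = (32 * L ^ 2 / z) * ((Y + 1) / 2) := by ring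
    rw [h2]
    have h3 : (Y + 1) / 2 ≤ Y := by linarith
    calc (32 * L ^ 2 / z) * ((Y + 1) / 2) ≤ 1 * ((Y + 1) / 2) :=
          mul_le_mul_of_nonneg_right h1 (by linarith)
      _ ≤ Y := by linarith
  have hN2 : 8 * L ^ 2 * Real.sqrt (2 * X) + 8 * L ^ 2 * (Real.sqrt (2 * X) + 1) ≤ Y := by
    have h1 : Real.sqrt (2 * X) + (Real.sqrt (2 * X) + 1) ≤ 5 * Real.sqrt X := by linarith
    calc 8 * L ^ 2 * Real.sqrt (2 * X) + 8 * L ^ 2 * (Real.sqrt (2 * X) + 1)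
        = 8 * L ^ 2 * (Real.sqrt (2 * X) + (Real.sqrt (2 * X) + 1)) := by ring
      _ ≤ 8 * L ^ 2 * (5 * Real.sqrt X) := mul_le_mul_of_nonneg_left h1 (by positivity)
      _ = (40 * L ^ 2) * Real.sqrt X := by ring
      _ ≤ X ^ (1 / 4 : ℝ) * Real.sqrt X := mul_le_mul_of_nonneg_right hx2 (Real.sqrt_nonneg _)
      _ = X ^ (3 / 4 : ℝ) := by
          rw [Real.sqrt_eq_rpow, ← Real.rpow_add hXpos]
          norm_num
      _ ≤ Y := hY34
  have hE1' : 2 * Real.log (2 * X) ^ 2 * ((Y + 1) * (2 / z) + Real.sqrt (2 * X)) ≤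
      8 * L ^ 2 * ((Y + 1) * (2 / z)) + 8 * L ^ 2 * Real.sqrt (2 * X) := by
    have h1 : 0 ≤ (Y + 1) * (2 / z) + Real.sqrt (2 * X) := by positivity
    nlinarith
  have hE2' : (Real.sqrt (2 * X) + 1) * (2 * Real.log (2 * X) ^ 2) ≤
      8 * L ^ 2 * (Real.sqrt (2 * X) + 1) := by
    have h1 : 0 ≤ Real.sqrt (2 * X) + 1 := by positivity
    nlinarith
  have hfin : |GG z X (X + Y) - (th X (X + Y) * L + th2 X (X + Y))| ≤
      8 * C1 * e1 * Y * L + 2 * Y + 2 * C1 * Y := by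
    have h1 : GG z X (X + Y) - (th X (X + Y) * L + th2 X (X + Y)) =
        (GG z X (X + Y) - (∑ p ∈ (Ioc ⌊X⌋₊ ⌊X + Y⌋₊).filter Nat.Prime, Real.log p ^ 2 +
          th2 X (X + Y))) +
        (∑ p ∈ (Ioc ⌊X⌋₊ ⌊X + Y⌋₊).filter Nat.Prime, Real.log p ^ 2 - th X (X + Y) * L) := by
      ring
    rw [h1]
    refine (abs_add_le _ _).trans ?_
    linarith
  refine hfin.trans ?_
  have h2 : Y ≤ e1 * Y * L := by nlinarith
  nlinarith [mul_le_mul_of_nonneg_left h2 hC1.le]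

end Pool.Agent.H97.EP.SS
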