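import Pool.Agent.H97.EP.HB
import Pool.Agent.H3.LC.Mertens

/-!
# Project EP, module `HD` : Mertens' first theorem and the mass of `rho`

`mertens1`: classical: `∑_{n≤x} log n = ∑_{d≤x} Λ(d) ⌊x/d⌋ = x log x + O(x)`, `ψ(x) = O(x)` (Mathlib:
`Chebyshev.psi`, `Chebyshev.theta_le_log4_mul_x`), prime powers contribute
`∑_p log p/(p(p-1)) < ∞`.  Search Mathlib and the team library first (`Pool/Agent/H91/GoldMertens*.lean`,
`Pool/Agent/H3/LC/Mertens.lean` (in the pack: import it), `Pool/Agent/H36/IS/MtA.lean`,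
`Pool/Agent/H91/PK/MA.lean` ...).

`mass`: for a prime `p`, `∫_{t : e^t < p ≤ (1+δ)e^t} dt/(δ e^t) = 1/p` exactly (the set is
`[log p - log(1+δ), log p)`, contained in `[0, ∞)` since `δ ≤ 1`, `p ≥ 2`).  Hence
`∑_{p ≤ e^u} log p/p ≤ ∫_0^u rho δ t dt ≤ ∑_{p ≤ (1+δ)e^u} log p/p`, and both bounds are `u + O(1)`
by `mertens1` (`log((1+δ)e^u) ≤ u + log 2`).
-/

set_option autoImplicit false
open MeasureTheory Set

namespace Pool.Agent.H97.EP

theorem mertens1 : ∃ C : ℝ, 0 < C ∧ ∀ x : ℝ, 1 ≤ x →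
    |∑ p ∈ (Finset.Ioc 0 ⌊x⌋₊).filter Nat.Prime, Real.log p / p - Real.log x| ≤ C := by
  obtain ⟨C, hC0, hC⟩ := Pool.Agent.H3.LC.mertens
  refine ⟨C + Real.log 2, by have := Real.log_nonneg (x := 2) (by norm_num); linarith, fun x hx => ?_⟩
  have hx0 : (0 : ℝ) ≤ x := by linarith
  have hn : 1 ≤ ⌊x⌋₊ := Nat.le_floor (by simpa using hx)
  have h1 := hC ⌊x⌋₊ hn
  have e : Finset.Ioc 0 ⌊x⌋₊ = Finset.Icc 1 ⌊x⌋₊ := by
    ext k; simp only [Finset.mem_Ioc, Finset.mem_Icc]; omega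
  rw [e]
  have hn1 : (1 : ℝ) ≤ (⌊x⌋₊ : ℝ) := by exact_mod_cast hn
  have h2 : (⌊x⌋₊ : ℝ) ≤ x := Nat.floor_le hx0
  have h3 : x ≤ 2 * (⌊x⌋₊ : ℝ) := by
    have := (Nat.lt_floor_add_one x).le
    linarith
  have h4 : Real.log (⌊x⌋₊ : ℝ) ≤ Real.log x := Real.log_le_log (by linarith) h2
  have h5 : Real.log x ≤ Real.log 2 + Real.log (⌊x⌋₊ : ℝ) := by
    rw [← Real.log_mul (by norm_num) (by linarith)]
    exact Real.log_le_log (by linarith) h3
  rw [abs_le] at h1 ⊢
  constructor <;> linarith [h1.1, h1.2]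

/-- the contribution of the prime `p` -/
private noncomputable def hdF (δ : ℝ) (p : ℕ) : ℝ → ℝ :=
  (Ico (Real.log p - Real.log (1 + δ)) (Real.log p)).indicator fun t => Real.exp (-t) / δ

private theorem hdF_nonneg {δ : ℝ} (hδ : 0 < δ) (p : ℕ) (t : ℝ) : 0 ≤ hdF δ p t :=
  Set.indicator_nonneg (fun _ _ => div_nonneg (Real.exp_pos _).le hδ.le) t

private theorem hdF_integrable {δ : ℝ} (p : ℕ) : Integrable (hdF δ p) := by
  unfold hdF
  rw [integrable_indicator_iff measurableSet_Ico]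
  have hc : Continuous fun t : ℝ => Real.exp (-t) / δ := by fun_prop
  exact (hc.integrableOn_Icc (a := Real.log p - Real.log (1 + δ)) (b := Real.log p)).mono_set
    Ico_subset_Icc_self

private theorem hdF_integral {δ : ℝ} (hδ : 0 < δ) {p : ℕ} (hp : 0 < p) :
    ∫ t, hdF δ p t = 1 / p := by
  have hp0 : (0 : ℝ) < p := by exact_mod_cast hp
  have hl : 0 ≤ Real.log (1 + δ) := Real.log_nonneg (by linarith)
  unfold hdF
  rw [integral_indicator measurableSet_Ico, integral_Ico_eq_integral_Ioc,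
    ← intervalIntegral.integral_of_le (by linarith), intervalIntegral.integral_div]
  have h1 : ∫ t in (Real.log p - Real.log (1 + δ))..(Real.log p), Real.exp (-t) =
      Real.exp (-(Real.log p - Real.log (1 + δ))) - Real.exp (-Real.log p) := by
    rw [intervalIntegral.integral_comp_neg (fun t => Real.exp t), integral_exp]
  rw [h1]
  have h2 : Real.exp (-(Real.log p - Real.log (1 + δ))) = (1 + δ) / p := by
    rw [show -(Real.log p - Real.log (1 + δ)) = Real.log (1 + δ) - Real.log p by ring,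
      Real.exp_sub, Real.exp_log (by linarith), Real.exp_log hp0]
  have h3 : Real.exp (-Real.log p) = 1 / p := by
    rw [Real.exp_neg, Real.exp_log hp0, one_div]
  rw [h2, h3]
  field_simp
  ring

private theorem hdF_le {δ : ℝ} (hδ : 0 < δ) {p : ℕ} (hp : 0 < p) {u : ℝ} (hu : 0 ≤ u) :
    ∫ t in (0 : ℝ)..u, hdF δ p t ≤ 1 / p := by
  rw [intervalIntegral.integral_of_le hu, ← hdF_integral hδ hp]
  exact setIntegral_le_integral (hdF_integrable p) (Filter.Eventually.of_forall fun t => hdF_nonneg hδ p t)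

private theorem hdF_eq {δ : ℝ} (hδ : 0 < δ) (hδ1 : δ ≤ 1) {p : ℕ} (hp : 2 ≤ p) {u : ℝ} (hu : 0 ≤ u)
    (hpu : (p : ℝ) ≤ Real.exp u) : ∫ t in (0 : ℝ)..u, hdF δ p t = 1 / p := by
  have hp2 : (2 : ℝ) ≤ p := by exact_mod_cast hp
  rw [intervalIntegral.integral_of_le hu, ← hdF_integral hδ (by omega : 0 < p),
    ← integral_Icc_eq_integral_Ioc]
  apply setIntegral_eq_integral_of_forall_compl_eq_zero
  intro t ht
  unfold hdF
  rw [Set.indicator_of_notMem]
  intro h
  apply ht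
  have h1 : Real.log (1 + δ) ≤ Real.log p := Real.log_le_log (by linarith) (by linarith)
  have h2 : Real.log p ≤ u := by
    rw [← Real.log_exp u]
    exact Real.log_le_log (by linarith) hpu
  exact ⟨by linarith [h.1], by linarith [h.2]⟩

private theorem hd_rho {δ : ℝ} (hδ : 0 < δ) {u t : ℝ} (htu : t ≤ u) :
    rho δ t = ∑ p ∈ (Finset.Ioc 0 ⌊(1 + δ) * Real.exp u⌋₊).filter Nat.Prime,
      Real.log p * hdF δ p t := by
  have het : 0 < Real.exp t := Real.exp_pos t
  have h1 : ∀ p ∈ (Finset.Ioc 0 ⌊(1 + δ) * Real.exp u⌋₊).filter Nat.Prime,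
      Real.log p * hdF δ p t = if p ∈ (Finset.Ioc ⌊Real.exp t⌋₊ ⌊(1 + δ) * Real.exp t⌋₊) then
        Real.log p * (1 / (δ * Real.exp t)) else 0 := by
    intro p hp
    rw [Finset.mem_filter] at hp
    have hp0 : (0 : ℝ) < p := by exact_mod_cast hp.2.pos
    have hiff : p ∈ (Finset.Ioc ⌊Real.exp t⌋₊ ⌊(1 + δ) * Real.exp t⌋₊) ↔
        t ∈ Ico (Real.log p - Real.log (1 + δ)) (Real.log p) := by
      rw [Finset.mem_Ioc, Nat.floor_lt het.le, Nat.le_floor_iff (by positivity), Set.mem_Ico,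
        ← Real.log_div hp0.ne' (by linarith), Real.lt_log_iff_exp_lt hp0,
        Real.log_le_iff_le_exp (by positivity), div_le_iff₀ (by linarith)]
      rw [mul_comm (Real.exp t)]
      tauto
    unfold hdF
    by_cases hmem : p ∈ (Finset.Ioc ⌊Real.exp t⌋₊ ⌊(1 + δ) * Real.exp t⌋₊)
    · rw [if_pos hmem, Set.indicator_of_mem (hiff.1 hmem), Real.exp_neg]
      field_simp
    · rw [if_neg hmem, Set.indicator_of_notMem (fun h => hmem (hiff.2 h)), mul_zero]
  rw [Finset.sum_congr rfl h1, ← Finset.sum_filter, Finset.filter_filter]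
  unfold rho th
  rw [Finset.sum_div]
  have h2 : (Finset.Ioc ⌊Real.exp t⌋₊ ⌊(1 + δ) * Real.exp t⌋₊).filter Nat.Prime =
      (Finset.Ioc 0 ⌊(1 + δ) * Real.exp u⌋₊).filter (fun p => Nat.Prime p ∧
        p ∈ Finset.Ioc ⌊Real.exp t⌋₊ ⌊(1 + δ) * Real.exp t⌋₊) := by
    ext p
    simp only [Finset.mem_filter]
    constructor
    · rintro ⟨h3, h4⟩
      refine ⟨?_, h4, h3⟩
      rw [Finset.mem_Ioc] at h3 ⊢
      refine ⟨h4.pos, h3.2.trans (Nat.floor_mono ?_)⟩
      exact mul_le_mul_of_nonneg_left (Real.exp_le_exp.2 htu) (by linarith)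
    · rintro ⟨_, h4, h3⟩
      exact ⟨h3, h4⟩
  rw [h2]
  refine Finset.sum_congr rfl fun p _ => ?_
  rw [div_eq_mul_one_div]

theorem mass : ∃ C : ℝ, 0 < C ∧ ∀ δ u : ℝ, 0 < δ → δ ≤ 1 → 0 ≤ u →
    |(∫ t in (0 : ℝ)..u, rho δ t) - u| ≤ C := by
  obtain ⟨C, hC0, hC⟩ := mertens1
  have hlog2 : 0 ≤ Real.log 2 := Real.log_nonneg (by norm_num)
  refine ⟨C + Real.log 2, by linarith, fun δ u hδ hδ1 hu => ?_⟩
  have heu : 1 ≤ Real.exp u := Real.one_le_exp hu
  set N := ⌊(1 + δ) * Real.exp u⌋₊ with hN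
  have h1 : ∫ t in (0 : ℝ)..u, rho δ t =
      ∑ p ∈ (Finset.Ioc 0 N).filter Nat.Prime, Real.log p * ∫ t in (0 : ℝ)..u, hdF δ p t := by
    have e1 : ∫ t in (0 : ℝ)..u, rho δ t = ∫ t in (0 : ℝ)..u,
        ∑ p ∈ (Finset.Ioc 0 N).filter Nat.Prime, Real.log p * hdF δ p t := by
      apply intervalIntegral.integral_congr
      intro t ht
      rw [Set.uIcc_of_le hu] at ht
      exact hd_rho hδ ht.2
    rw [e1, intervalIntegral.integral_finsetSum]
    · exact Finset.sum_congr rfl fun p _ => intervalIntegral.integral_const_mul _ _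
    · intro p _
      exact ((hdF_integrable p).intervalIntegrable).const_mul _
  have h2 := hC (Real.exp u) heu
  have hx1 : 1 ≤ (1 + δ) * Real.exp u := by nlinarith
  have h3 := hC ((1 + δ) * Real.exp u) hx1
  rw [Real.log_exp] at h2
  have h4 : Real.log ((1 + δ) * Real.exp u) = Real.log (1 + δ) + u := by
    rw [Real.log_mul (by linarith) (Real.exp_pos u).ne', Real.log_exp]
  rw [h4, ← hN] at h3
  have h5 : Real.log (1 + δ) ≤ Real.log 2 := Real.log_le_log (by linarith) (by linarith)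
  have h6 : ∫ t in (0 : ℝ)..u, rho δ t ≤
      ∑ p ∈ (Finset.Ioc 0 N).filter Nat.Prime, Real.log p / p := by
    rw [h1]
    refine Finset.sum_le_sum fun p hp => ?_
    rw [Finset.mem_filter] at hp
    rw [div_eq_mul_one_div]
    exact mul_le_mul_of_nonneg_left (hdF_le hδ hp.2.pos hu)
      (Real.log_nonneg (by exact_mod_cast hp.2.one_le))
  have h7 : ∑ p ∈ (Finset.Ioc 0 ⌊Real.exp u⌋₊).filter Nat.Prime, Real.log p / p ≤
      ∫ t in (0 : ℝ)..u, rho δ t := by
    rw [h1]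
    have hsub : (Finset.Ioc 0 ⌊Real.exp u⌋₊).filter Nat.Prime ⊆
        (Finset.Ioc 0 N).filter Nat.Prime := by
      apply Finset.filter_subset_filter
      apply Finset.Ioc_subset_Ioc_right
      exact Nat.floor_mono (by nlinarith)
    calc ∑ p ∈ (Finset.Ioc 0 ⌊Real.exp u⌋₊).filter Nat.Prime, Real.log p / p
        = ∑ p ∈ (Finset.Ioc 0 ⌊Real.exp u⌋₊).filter Nat.Prime,
            Real.log p * ∫ t in (0 : ℝ)..u, hdF δ p t := by
          refine Finset.sum_congr rfl fun p hp => ?_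
          rw [Finset.mem_filter, Finset.mem_Ioc] at hp
          rw [hdF_eq hδ hδ1 hp.2.two_le hu ((Nat.le_floor_iff (Real.exp_pos u).le).1 hp.1.2),
            div_eq_mul_one_div]
      _ ≤ _ := by
          refine Finset.sum_le_sum_of_subset_of_nonneg hsub fun p hp _ => ?_
          rw [Finset.mem_filter] at hp
          refine mul_nonneg (Real.log_nonneg (by exact_mod_cast hp.2.one_le)) ?_
          exact intervalIntegral.integral_nonneg hu fun t _ => hdF_nonneg hδ p t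
  rw [abs_le] at h2 h3 ⊢
  constructor <;> linarith [h2.1, h2.2, h3.1, h3.2]

end Pool.Agent.H97.EP
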