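import Pool.Agent.H97.EP.DefsD

/-!
# Project EP : definitions for Selberg's formula in short intervals
-/

set_option autoImplicit false

namespace Pool.Agent.H97.EP.SS

/-- `n ≥ 1` and all prime factors of `n` exceed `z`. -/
def Rough (z : ℝ) (n : ℕ) : Prop := n ≠ 0 ∧ ∀ p : ℕ, p.Prime → p ∣ n → z < p

/-- `∏_{p ≤ z} (1 - 1/p)` -/
noncomputable def VZ (z : ℝ) : ℝ :=
  ∏ p ∈ (Finset.Icc 1 ⌊z⌋₊).filter Nat.Prime, (1 - 1 / (p : ℝ))

open scoped Classical in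
/-- The number of rough integers in `(A, B]`. -/
noncomputable def rc (z A B : ℝ) : ℝ :=
  (((Finset.Ioc ⌊A⌋₊ ⌊B⌋₊).filter (Rough z)).card : ℝ)

/-- `Λ_2(n) = ∑_{d | n} μ(d) log² (n/d)` -/
noncomputable def L2 (n : ℕ) : ℝ :=
  ∑ d ∈ n.divisors, (ArithmeticFunction.moebius d : ℝ) * Real.log ((n : ℝ) / d) ^ 2

open scoped Classical in
/-- `∑_{A < n ≤ B, n rough} Λ_2(n)` -/
noncomputable def GG (z A B : ℝ) : ℝ := ∑ n ∈ (Finset.Ioc ⌊A⌋₊ ⌊B⌋₊).filter (Rough z), L2 n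

open scoped Classical in
/-- The main term `V(z) ∑_{d ≤ D, d rough} μ(d)/d log² (X/d)`. -/
noncomputable def Mn (z X D : ℝ) : ℝ :=
  VZ z * ∑ d ∈ (Finset.Icc 1 ⌊D⌋₊).filter (Rough z),
    (ArithmeticFunction.moebius d : ℝ) / d * Real.log (X / d) ^ 2

end Pool.Agent.H97.EP.SS
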