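import Pool.Agent.H36.IS.Mt
import Pool.Agent.H3.LC.BT
import Pool.Agent.H97.EP.SDf

/-!
# Project EP, module `SC` : Mertens products, rough harmonic sums, Brun-Titchmarsh

`VZ_bounds`: from `Pool.Agent.H36.IS.mertens3` (`log n ∏_{p≤n}(1-1/p) → e^{-γ} > 0`) for large `z`, and
positivity/compactness for small `z` (finitely many values of `⌊z⌋`; `log ⌊z⌋ ≤ log z ≤ 2 log ⌊z⌋`
for `z ≥ 2`).
`rough_harm`: rough `m ≤ M` have all prime factors in `(z, M]`, so the sum is at most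
`∏_{z<p≤M} (1-1/p)^{-1} = VZ z / VZ M ≤ C log M/log z` (Mathlib: `Nat.factoredNumbers` /
`EulerProduct.summable_and_hasSum_factoredNumbers_prod_filter_prime_geometric`,
or `Pool.Agent.H91.GoldMertens`...; several team files bound such sums: search `factoredNumbers`).
`th_bt`: `th A (A+B) ≤ #primes · log(A+B)`; `brun_titchmarsh` with `x = ⌊A⌋`, `y = ⌈B⌉+1`.
-/

set_option autoImplicit false

namespace Pool.Agent.H97.EP.SS

/-- the product over the primes up to `n` -/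
private noncomputable def sc_P (n : ℕ) : ℝ :=
  ∏ p ∈ (Finset.range (n + 1)).filter Nat.Prime, (1 - 1 / (p : ℝ))

private theorem sc_factor {p : ℕ} (hp : p.Prime) :
    0 < 1 - 1 / (p : ℝ) ∧ 1 - 1 / (p : ℝ) ≤ 1 := by
  have h2 : (2 : ℝ) ≤ (p : ℝ) := by exact_mod_cast hp.two_le
  have h3 : 1 / (p : ℝ) ≤ 1 / 2 := one_div_le_one_div_of_le (by norm_num) h2
  have h4 : 0 ≤ 1 / (p : ℝ) := by positivity
  constructor <;> linarith

private theorem sc_set (N : ℕ) :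
    (Finset.Icc 1 N).filter Nat.Prime = (Finset.range (N + 1)).filter Nat.Prime := by
  ext p
  simp only [Finset.mem_filter, Finset.mem_Icc, Finset.mem_range]
  constructor
  · rintro ⟨h1, h2⟩
    exact ⟨by omega, h2⟩
  · rintro ⟨h1, h2⟩
    exact ⟨⟨h2.one_lt.le, by omega⟩, h2⟩

private theorem sc_VZ (z : ℝ) : VZ z = sc_P ⌊z⌋₊ := by
  rw [VZ, sc_P, sc_set]

private theorem sc_P_pos (n : ℕ) : 0 < sc_P n :=
  Finset.prod_pos fun _ hp => (sc_factor (Finset.mem_filter.1 hp).2).1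

private theorem sc_P_le (n : ℕ) : sc_P n ≤ 1 :=
  Finset.prod_le_one (fun _ hp => (sc_factor (Finset.mem_filter.1 hp).2).1.le)
    fun _ hp => (sc_factor (Finset.mem_filter.1 hp).2).2

private theorem sc_P_anti {m n : ℕ} (h : m ≤ n) : sc_P n ≤ sc_P m := by
  refine Finset.prod_le_prod_of_subset_of_le_one ?_ ?_ ?_
  · exact Finset.filter_subset_filter _ (Finset.range_subset_range.2 (by omega))
  · exact fun p hp => (sc_factor (Finset.mem_filter.1 hp).2).1.le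
  · exact fun p hp _ => (sc_factor (Finset.mem_filter.1 hp).2).2

private theorem sc_nat : ∃ c C : ℝ, 0 < c ∧ 0 < C ∧ ∀ n : ℕ, 2 ≤ n →
    c ≤ Real.log n * sc_P n ∧ Real.log n * sc_P n ≤ C := by
  have hL : 0 < Real.exp (-Real.eulerMascheroniConstant) := Real.exp_pos _
  have h1 := Pool.Agent.H36.IS.mertens3.eventually
    (Ioo_mem_nhds (half_lt_self hL) (show Real.exp (-Real.eulerMascheroniConstant) <
      2 * Real.exp (-Real.eulerMascheroniConstant) by linarith))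
  obtain ⟨N, hN⟩ := Filter.eventually_atTop.1 h1
  have hlog2 : 0 < Real.log 2 := Real.log_pos (by norm_num)
  refine ⟨min (Real.exp (-Real.eulerMascheroniConstant) / 2) (Real.log 2 * sc_P N),
    max (2 * Real.exp (-Real.eulerMascheroniConstant)) (Real.log (N + 1)),
    lt_min (by linarith) (mul_pos hlog2 (sc_P_pos N)), lt_max_of_lt_left (by linarith),
    fun n hn => ?_⟩
  have hn2 : (2 : ℝ) ≤ n := by exact_mod_cast hn
  rcases le_total N n with h | h
  · have h2 := hN n h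
    exact ⟨(min_le_left _ _).trans h2.1.le, h2.2.le.trans (le_max_left _ _)⟩
  · constructor
    · refine (min_le_right _ _).trans ?_
      exact mul_le_mul (Real.log_le_log (by norm_num) hn2) (sc_P_anti h) (sc_P_pos N).le
        (Real.log_nonneg (by linarith))
    · refine le_trans ?_ (le_max_right _ _)
      have h3 : Real.log n ≤ Real.log (N + 1) := by
        refine Real.log_le_log (by linarith) ?_
        have : (n : ℝ) ≤ N := by exact_mod_cast h
        linarith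
      calc Real.log n * sc_P n ≤ Real.log n * 1 :=
            mul_le_mul_of_nonneg_left (sc_P_le n) (Real.log_nonneg (by linarith))
        _ = Real.log n := mul_one _
        _ ≤ _ := h3

theorem VZ_bounds : ∃ c C : ℝ, 0 < c ∧ 0 < C ∧ ∀ z : ℝ, 2 ≤ z →
    c / Real.log z ≤ VZ z ∧ VZ z ≤ C / Real.log z := by
  obtain ⟨c, C, hc, hC, h⟩ := sc_nat
  refine ⟨c, 2 * C, hc, by linarith, fun z hz => ?_⟩
  have hn : 2 ≤ ⌊z⌋₊ := Nat.le_floor (by exact_mod_cast hz)
  obtain ⟨h1, h2⟩ := h _ hn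
  have hn2 : (2 : ℝ) ≤ (⌊z⌋₊ : ℝ) := by exact_mod_cast hn
  have hlz : 0 < Real.log z := Real.log_pos (by linarith)
  have hln : 0 < Real.log (⌊z⌋₊ : ℝ) := Real.log_pos (by linarith)
  have h3 : Real.log (⌊z⌋₊ : ℝ) ≤ Real.log z :=
    Real.log_le_log (by linarith) (Nat.floor_le (by linarith))
  have h4 : Real.log z ≤ 2 * Real.log (⌊z⌋₊ : ℝ) := by
    have h5 : z < (⌊z⌋₊ : ℝ) + 1 := Nat.lt_floor_add_one z
    have h6 : z ≤ (⌊z⌋₊ : ℝ) ^ 2 := by nlinarith
    have h7 := Real.log_le_log (by linarith) h6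
    rwa [Real.log_pow] at h7
  rw [sc_VZ]
  constructor
  · rw [div_le_iff₀ hlz]
    calc c ≤ Real.log (⌊z⌋₊ : ℝ) * sc_P ⌊z⌋₊ := h1
      _ ≤ Real.log z * sc_P ⌊z⌋₊ := mul_le_mul_of_nonneg_right h3 (sc_P_pos _).le
      _ = _ := mul_comm _ _
  · rw [le_div_iff₀ hlz]
    calc sc_P ⌊z⌋₊ * Real.log z ≤ sc_P ⌊z⌋₊ * (2 * Real.log (⌊z⌋₊ : ℝ)) :=
          mul_le_mul_of_nonneg_left h4 (sc_P_pos _).le
      _ = 2 * (Real.log (⌊z⌋₊ : ℝ) * sc_P ⌊z⌋₊) := by ring
      _ ≤ 2 * C := by linarith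

/-- the completely multiplicative function `1 / n` -/
private noncomputable def sc_f : ℕ →* ℝ where
  toFun n := (n : ℝ)⁻¹
  map_one' := by simp
  map_mul' m n := by rw [Nat.cast_mul, mul_inv]

open scoped Classical in
private theorem sc_harm (z M : ℝ) :
    ∑ m ∈ (Finset.Icc 1 ⌊M⌋₊).filter (Rough z), 1 / (m : ℝ) ≤
      ∏ p ∈ (Finset.Ioc ⌊z⌋₊ ⌊M⌋₊).filter Nat.Prime, (1 - 1 / (p : ℝ))⁻¹ := by
  have hf : ∀ {p : ℕ}, p.Prime → ‖sc_f p‖ < 1 := by
    intro p hp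
    have h2 : (1 : ℝ) < (p : ℝ) := by exact_mod_cast hp.one_lt
    change ‖((p : ℝ))⁻¹‖ < 1
    rw [norm_inv, Real.norm_of_nonneg (by linarith)]
    exact inv_lt_one_of_one_lt₀ h2
  have h := (EulerProduct.summable_and_hasSum_factoredNumbers_prod_filter_prime_geometric
    (f := sc_f) hf (Finset.Ioc ⌊z⌋₊ ⌊M⌋₊)).2
  set S := (Finset.Icc 1 ⌊M⌋₊).filter (Rough z) with hS
  have hmem : ∀ m ∈ S, m ∈ Nat.factoredNumbers (Finset.Ioc ⌊z⌋₊ ⌊M⌋₊) := by
    intro m hm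
    rw [hS, Finset.mem_filter, Finset.mem_Icc] at hm
    rw [Nat.mem_factoredNumbers_iff_forall_le]
    refine ⟨by omega, fun p hpm hp hdvd => ?_⟩
    rw [Finset.mem_Ioc]
    refine ⟨?_, by omega⟩
    by_contra hcon
    push Not at hcon
    have h1 := hm.2.2 p hp hdvd
    have h2 : (p : ℝ) ≤ z := by
      rcases le_or_gt 0 z with hz | hz
      · exact (Nat.le_floor_iff hz).1 hcon
      · rw [Nat.floor_of_nonpos hz.le] at hcon
        have := hp.pos
        omega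
    linarith
  have h1 : ∏ p ∈ (Finset.Ioc ⌊z⌋₊ ⌊M⌋₊).filter Nat.Prime, (1 - 1 / (p : ℝ))⁻¹ =
      ∏ p ∈ (Finset.Ioc ⌊z⌋₊ ⌊M⌋₊).filter Nat.Prime, (1 - sc_f p)⁻¹ := by
    refine Finset.prod_congr rfl fun p _ => ?_
    change _ = (1 - (p : ℝ)⁻¹)⁻¹
    rw [one_div]
  rw [h1]
  let e : S ↪ Nat.factoredNumbers (Finset.Ioc ⌊z⌋₊ ⌊M⌋₊) :=
    ⟨fun m => ⟨m.1, hmem m.1 m.2⟩, fun a b hab => Subtype.ext
      (congrArg (fun x : Nat.factoredNumbers (Finset.Ioc ⌊z⌋₊ ⌊M⌋₊) => (x : ℕ)) hab)⟩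
  have h2 : ∑ m ∈ S, 1 / (m : ℝ) = ∑ m ∈ S.attach.map e, sc_f m := by
    rw [Finset.sum_map, ← Finset.sum_attach S fun m : ℕ => 1 / (m : ℝ)]
    refine Finset.sum_congr rfl fun m _ => ?_
    exact one_div _
  rw [h2]
  refine sum_le_hasSum _ (fun m _ => ?_) h
  change 0 ≤ ((m : ℕ) : ℝ)⁻¹
  positivity

open scoped Classical in
theorem rough_harm : ∃ C : ℝ, 0 < C ∧ ∀ z M : ℝ, 2 ≤ z → z ≤ M →
    ∑ m ∈ (Finset.Icc 1 ⌊M⌋₊).filter (Rough z), 1 / (m : ℝ) ≤ C * (Real.log M / Real.log z) := by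
  obtain ⟨c, C, hc, hC, h⟩ := VZ_bounds
  refine ⟨C / c, by positivity, fun z M hz hzM => ?_⟩
  have hlz : 0 < Real.log z := Real.log_pos (by linarith)
  have hlM : 0 < Real.log M := Real.log_pos (by linarith)
  refine (sc_harm z M).trans ?_
  have hfl : ⌊z⌋₊ ≤ ⌊M⌋₊ := Nat.floor_le_floor hzM
  have h1 : VZ z * ∏ p ∈ (Finset.Ioc ⌊z⌋₊ ⌊M⌋₊).filter Nat.Prime, (1 - 1 / (p : ℝ)) = VZ M := by
    rw [VZ, VZ, ← Finset.prod_union]
    · congr 1
      rw [← Finset.filter_union]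
      congr 1
      ext p
      simp only [Finset.mem_union, Finset.mem_Icc, Finset.mem_Ioc]
      omega
    · rw [Finset.disjoint_left]
      intro p hp hp'
      rw [Finset.mem_filter, Finset.mem_Icc] at hp
      rw [Finset.mem_filter, Finset.mem_Ioc] at hp'
      omega
  have hprod : 0 < ∏ p ∈ (Finset.Ioc ⌊z⌋₊ ⌊M⌋₊).filter Nat.Prime, (1 - 1 / (p : ℝ)) :=
    Finset.prod_pos fun _ hp => (sc_factor (Finset.mem_filter.1 hp).2).1
  rw [Finset.prod_inv_distrib]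
  have h2 := (h z hz).2
  have h3 := (h M (by linarith)).1
  have hVz : 0 < VZ z := by rw [sc_VZ]; exact sc_P_pos _
  have hVM : 0 < VZ M := by rw [sc_VZ]; exact sc_P_pos _
  have h4 : (∏ p ∈ (Finset.Ioc ⌊z⌋₊ ⌊M⌋₊).filter Nat.Prime, (1 - 1 / (p : ℝ)))⁻¹ =
      VZ z / VZ M := by
    rw [← h1]
    field_simp
  rw [h4, div_le_iff₀ hVM]
  calc VZ z ≤ C / Real.log z := h2
    _ = C / c * (Real.log M / Real.log z) * (c / Real.log M) := by field_simp
    _ ≤ C / c * (Real.log M / Real.log z) * VZ M :=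
        mul_le_mul_of_nonneg_left h3 (by positivity)

theorem th_bt : ∃ C : ℝ, 0 < C ∧ ∀ A B : ℝ, 0 ≤ A → 2 ≤ B →
    th A (A + B) ≤ C * B * Real.log (A + B + 1) / Real.log B := by
  obtain ⟨C, hC, h⟩ := Pool.Agent.H3.LC.brun_titchmarsh
  refine ⟨2 * C, by linarith, fun A B hA hB => ?_⟩
  have hlB : 0 < Real.log B := Real.log_pos (by linarith)
  have hlog : 0 ≤ Real.log (A + B + 1) := Real.log_nonneg (by linarith)
  set S := (Finset.Ioc ⌊A⌋₊ ⌊A + B⌋₊).filter Nat.Prime with hS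
  set y : ℕ := ⌈B⌉₊ + 1 with hy
  have hBc : B ≤ (⌈B⌉₊ : ℝ) := Nat.le_ceil B
  have hBc' : (⌈B⌉₊ : ℝ) < B + 1 := Nat.ceil_lt_add_one (by linarith)
  have hyr : (y : ℝ) = (⌈B⌉₊ : ℝ) + 1 := by rw [hy]; push_cast; ring
  have hy2 : 2 ≤ y := by
    have : (2 : ℝ) ≤ (y : ℝ) := by rw [hyr]; linarith
    exact_mod_cast this
  have h1 : (S.card : ℝ) ≤ C * y / Real.log y := by
    refine le_trans ?_ (h ⌊A⌋₊ y hy2)
    have hsub : S ⊆ (Finset.Icc (⌊A⌋₊ + 1) (⌊A⌋₊ + y)).filter Nat.Prime := by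
      refine Finset.filter_subset_filter _ ?_
      intro p hp
      rw [Finset.mem_Ioc] at hp
      rw [Finset.mem_Icc]
      refine ⟨by omega, hp.2.trans ?_⟩
      have h3 : A + B < ((⌊A⌋₊ + y + 1 : ℕ) : ℝ) := by
        push_cast
        have := Nat.lt_floor_add_one A
        rw [hyr]
        linarith
      have := (Nat.floor_lt (by linarith)).2 h3
      omega
    exact_mod_cast Finset.card_le_card hsub
  have h2 : th A (A + B) ≤ S.card * Real.log (A + B + 1) := by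
    rw [th, ← hS, ← nsmul_eq_mul]
    refine Finset.sum_le_card_nsmul _ _ _ fun p hp => ?_
    rw [hS, Finset.mem_filter, Finset.mem_Ioc] at hp
    have h4 : (p : ℝ) ≤ A + B := (Nat.le_floor_iff (by linarith)).1 hp.1.2
    have h5 : (0 : ℝ) < p := by exact_mod_cast hp.2.pos
    exact Real.log_le_log h5 (by linarith)
  have h3 : C * y / Real.log y ≤ 2 * C * B / Real.log B := by
    have h4 : Real.log B ≤ Real.log y := Real.log_le_log (by linarith) (by rw [hyr]; linarith)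
    have h5 : C * y ≤ 2 * C * B := by
      have : (y : ℝ) ≤ 2 * B := by rw [hyr]; linarith
      nlinarith
    exact div_le_div₀ (by positivity) h5 hlB h4
  calc th A (A + B) ≤ S.card * Real.log (A + B + 1) := h2
    _ ≤ (2 * C * B / Real.log B) * Real.log (A + B + 1) :=
        mul_le_mul_of_nonneg_right (h1.trans h3) hlog
    _ = _ := by ring

end Pool.Agent.H97.EP.SS
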