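import Pool.Agent.H91.EHA.SwJ3
import Pool.Agent.H97.EP.SC
import Pool.Agent.H97.EP.HD

/-!
# Project EP, module `SG` : Selberg's formula for `(X, 2X]`

`pnt_th`: from `Pool.Agent.H91.EHA.pnt` (prime number theorem with error `C y/(log y)^c`, `c = 1`):
`ψ(2X) - ψ(X) = X + o(X)`, prime powers contribute `O(√X log X)` (Mathlib `Chebyshev`:
`psi - theta`), floors of real `X` cost `O(log X)`.
`selberg_long`: `L = log X`, `ε = η/C`.  `th X 2X · L = X L (1 + O(ε))`.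
`th2 X (2X) = ∑_{p} log p · th (X/p) (2X/p)`, `p ≤ X` (`q ≥ 2`).
* `p ≤ X^{1-ε}`: `X/p ≥ X^ε` is large, so `th (X/p) (2X/p) = (X/p)(1 + O(ε))`; by `mertens1`
  `∑_{p ≤ X^{1-ε}} log p/p = (1-ε) L + O(1)`.  Contribution `X L (1 + O(ε))`.
* `X^{1-ε} < p ≤ X`: then `q ≤ 2 X^ε`; exchanging roles the contribution is
  `≤ ∑_{q ≤ 2X^ε} log q · th (X/q) (2X/q) ≤ ∑_q log q · C X/q ≤ C X (ε L + 1)` (`th_bt`).
-/

set_option autoImplicit false

namespace Pool.Agent.H97.EP.SS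

open Finset in
private lemma sg_psi (x : ℝ) : Chebyshev.psi x = ∑ n ∈ Icc 1 ⌊x⌋₊, Pool.Agent.H91.EHA.Lam n := by
  unfold Chebyshev.psi Pool.Agent.H91.EHA.Lam
  refine sum_congr ?_ fun _ _ => rfl
  ext n
  simp only [mem_Ioc, mem_Icc]
  omega

/-- the prime number theorem for `θ` -/
private lemma sg_theta {η : ℝ} (hη : 0 < η) : ∃ X0 : ℝ, 1 ≤ X0 ∧ ∀ x : ℝ, X0 ≤ x →
    |Chebyshev.theta x - x| ≤ η * x := by
  obtain ⟨C, hC, hpnt⟩ := Pool.Agent.H91.EHA.pnt 1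
  have e1 : ∀ᶠ x : ℝ in Filter.atTop, 3 * C / η ≤ Real.log (⌊x⌋₊ : ℝ) :=
    ((Real.tendsto_log_atTop.comp tendsto_natCast_atTop_atTop).comp
      tendsto_nat_floor_atTop).eventually_ge_atTop _
  have e2 : ∀ᶠ x : ℝ in Filter.atTop, 3 / η ≤ x := Filter.eventually_ge_atTop _
  have e3 : ∀ᶠ x : ℝ in Filter.atTop, Real.log x ≤ η / 6 * x ^ (1 / 2 : ℝ) := by
    have h := (isLittleO_log_rpow_atTop (show (0 : ℝ) < 1 / 2 by norm_num)).bound
      (show (0 : ℝ) < η / 6 by positivity)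
    filter_upwards [h, Filter.eventually_ge_atTop (1 : ℝ)] with x hx hx1
    rw [Real.norm_eq_abs, abs_of_nonneg (Real.log_nonneg hx1), Real.norm_eq_abs,
      abs_of_nonneg (Real.rpow_nonneg (by linarith) _)] at hx
    exact hx
  obtain ⟨X0, hX0⟩ := Filter.eventually_atTop.1 (e1.and (e2.and e3))
  refine ⟨max X0 4, (by norm_num : (1 : ℝ) ≤ 4).trans (le_max_right _ _), fun x hx => ?_⟩
  obtain ⟨h1, h2, h3⟩ := hX0 x ((le_max_left _ _).trans hx)
  have hx4 : 4 ≤ x := (le_max_right _ _).trans hx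
  have hx0 : 0 < x := by linarith
  have hfl : 2 ≤ ⌊x⌋₊ := Nat.le_floor (by push_cast; linarith)
  have k1 := hpnt ⌊x⌋₊ hfl
  rw [← sg_psi, pow_one] at k1
  have k2 := Chebyshev.abs_psi_sub_theta_le_sqrt_mul_log (show 1 ≤ x by linarith)
  have f1 := Nat.floor_le hx0.le
  have f2 := Nat.lt_floor_add_one x
  have hlog0 : 0 < Real.log (⌊x⌋₊ : ℝ) := Real.log_pos (by exact_mod_cast hfl)
  have k3 : C * (⌊x⌋₊ : ℝ) / Real.log (⌊x⌋₊ : ℝ) ≤ η / 3 * x := by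
    rw [div_le_iff₀ hlog0]
    rw [div_le_iff₀ hη] at h1
    have g1 : C * (⌊x⌋₊ : ℝ) ≤ C * x := mul_le_mul_of_nonneg_left f1 hC.le
    nlinarith
  have k4 : 2 * Real.sqrt x * Real.log x ≤ η / 3 * x := by
    rw [Real.sqrt_eq_rpow]
    have g1 : 0 ≤ x ^ (1 / 2 : ℝ) := Real.rpow_nonneg hx0.le _
    have g2 : x ^ (1 / 2 : ℝ) * x ^ (1 / 2 : ℝ) = x := by
      rw [← Real.rpow_add hx0]
      norm_num
    have g3 : x ^ (1 / 2 : ℝ) * Real.log x ≤ x ^ (1 / 2 : ℝ) * (η / 6 * x ^ (1 / 2 : ℝ)) :=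
      mul_le_mul_of_nonneg_left h3 g1
    have g4 : x ^ (1 / 2 : ℝ) * (η / 6 * x ^ (1 / 2 : ℝ)) = η / 6 * x := by
      calc x ^ (1 / 2 : ℝ) * (η / 6 * x ^ (1 / 2 : ℝ))
          = η / 6 * (x ^ (1 / 2 : ℝ) * x ^ (1 / 2 : ℝ)) := by ring
        _ = η / 6 * x := by rw [g2]
    linarith
  have k5 : 1 ≤ η / 3 * x := by
    rw [div_le_iff₀ hη] at h2
    linarith
  rw [abs_le] at k1 k2 ⊢
  constructor
  · linarith [k1.1, k1.2, k2.1, k2.2]
  · linarith [k1.1, k1.2, k2.1, k2.2]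

private lemma sg_th_zero (x : ℝ) : th 0 x = Chebyshev.theta x := by
  unfold th Chebyshev.theta
  rw [Nat.floor_zero]

theorem pnt_th {η : ℝ} (hη : 0 < η) : ∃ X0 : ℝ, 1 ≤ X0 ∧ ∀ X : ℝ, X0 ≤ X →
    |th X (X + X) - X| ≤ η * X := by
  obtain ⟨X0, h1, h2⟩ := sg_theta (η := η / 3) (by positivity)
  refine ⟨X0, h1, fun X hX => ?_⟩
  have hX0 : 0 < X := by linarith
  have k1 := th_add (le_refl (0 : ℝ)) hX0.le (show X ≤ X + X by linarith)
  rw [sg_th_zero, sg_th_zero] at k1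
  have k2 := h2 X hX
  have k3 := h2 (X + X) (by linarith)
  rw [abs_le] at k2 k3 ⊢
  constructor
  · linarith [k2.1, k2.2, k3.1, k3.2]
  · linarith [k2.1, k2.2, k3.1, k3.2]

/-- the pairs of primes in `th2` -/
private def sg_PP (a b : ℕ) : Finset (ℕ × ℕ) :=
  (Finset.Ioc 0 b ×ˢ Finset.Ioc 0 b).filter
    (fun x => (x.1.Prime ∧ x.2.Prime) ∧ a < x.1 * x.2 ∧ x.1 * x.2 ≤ b)

private lemma sg_mem {a b : ℕ} {x : ℕ × ℕ} : x ∈ sg_PP a b ↔
    (x.1.Prime ∧ x.2.Prime) ∧ a < x.1 * x.2 ∧ x.1 * x.2 ≤ b := by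
  unfold sg_PP
  rw [Finset.mem_filter, Finset.mem_product, Finset.mem_Ioc, Finset.mem_Ioc]
  constructor
  · exact fun h => h.2
  · intro h
    have h1 := h.1.1.pos
    have h2 := h.1.2.pos
    have h3 : x.1 ≤ x.1 * x.2 := Nat.le_mul_of_pos_right _ h2
    have h4 : x.2 ≤ x.1 * x.2 := Nat.le_mul_of_pos_left _ h1
    exact ⟨⟨⟨h1, h3.trans h.2.2⟩, ⟨h2, h4.trans h.2.2⟩⟩, h⟩

private lemma sg_th2 (A B : ℝ) : th2 A B =
    ∑ x ∈ sg_PP ⌊A⌋₊ ⌊B⌋₊, Real.log x.1 * Real.log x.2 := by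
  unfold th2
  rw [← Finset.sum_fiberwise_of_maps_to (s := sg_PP ⌊A⌋₊ ⌊B⌋₊) (t := Finset.Ioc ⌊A⌋₊ ⌊B⌋₊)
    (g := fun x => x.1 * x.2) (fun x hx => Finset.mem_Ioc.2 (sg_mem.1 hx).2)]
  refine Finset.sum_congr rfl fun n hn => ?_
  rw [Finset.mem_Ioc] at hn
  refine Finset.sum_congr ?_ fun _ _ => rfl
  ext x
  rw [Finset.mem_filter, Finset.mem_filter, Nat.mem_divisorsAntidiagonal, sg_mem]
  constructor
  · rintro ⟨⟨h1, -⟩, h2⟩
    exact ⟨⟨h2, by rw [h1]; exact hn⟩, h1⟩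
  · rintro ⟨⟨h1, h2⟩, h3⟩
    exact ⟨⟨h3, by omega⟩, h1⟩

private lemma sg_part (A B : ℝ) {t : ℕ} (ht : t ≤ ⌊B⌋₊) :
    ∑ x ∈ (sg_PP ⌊A⌋₊ ⌊B⌋₊).filter (fun x => x.1 ≤ t), Real.log x.1 * Real.log x.2 =
      ∑ p ∈ (Finset.Ioc 0 t).filter Nat.Prime, Real.log p * th (A / p) (B / p) := by
  rw [← Finset.sum_fiberwise_of_maps_to (t := (Finset.Ioc 0 t).filter Nat.Prime)
    (g := fun x : ℕ × ℕ => x.1) (fun x hx => by
      rw [Finset.mem_filter, sg_mem] at hx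
      rw [Finset.mem_filter, Finset.mem_Ioc]
      exact ⟨⟨hx.1.1.1.pos, hx.2⟩, hx.1.1.1⟩)]
  refine Finset.sum_congr rfl fun p hp => ?_
  rw [Finset.mem_filter, Finset.mem_Ioc] at hp
  obtain ⟨⟨hp0, hpt⟩, hpp⟩ := hp
  unfold th
  rw [Finset.mul_sum, Nat.floor_div_natCast, Nat.floor_div_natCast]
  refine Finset.sum_nbij' (fun x => x.2) (fun q => (p, q)) ?_ ?_ ?_ ?_ ?_
  · rintro ⟨x, q⟩ hx
    rw [Finset.mem_filter, Finset.mem_filter, sg_mem] at hx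
    obtain ⟨⟨⟨⟨h1, h2⟩, h3, h4⟩, h5⟩, h6⟩ := hx
    simp only at h1 h2 h3 h4 h5 h6
    subst h6
    rw [Finset.mem_filter, Finset.mem_Ioc]
    refine ⟨⟨?_, ?_⟩, h2⟩
    · rw [Nat.div_lt_iff_lt_mul hp0, mul_comm]
      exact h3
    · rw [Nat.le_div_iff_mul_le hp0, mul_comm]
      exact h4
  · intro q hq
    rw [Finset.mem_filter, Finset.mem_Ioc, Nat.div_lt_iff_lt_mul hp0, Nat.le_div_iff_mul_le hp0,
      mul_comm q p] at hq
    rw [Finset.mem_filter, Finset.mem_filter, sg_mem]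
    exact ⟨⟨⟨⟨hpp, hq.2⟩, hq.1⟩, hpt⟩, rfl⟩
  · rintro ⟨x, q⟩ hx
    rw [Finset.mem_filter] at hx
    have h6 : x = p := hx.2
    rw [h6]
  · intro q _
    rfl
  · rintro ⟨x, q⟩ hx
    rw [Finset.mem_filter] at hx
    have h6 : x = p := hx.2
    simp only []
    rw [h6]

private lemma sg_symm (a b t : ℕ) :
    ∑ x ∈ (sg_PP a b).filter (fun x => x.2 ≤ t), Real.log x.1 * Real.log x.2 =
      ∑ x ∈ (sg_PP a b).filter (fun x => x.1 ≤ t), Real.log x.1 * Real.log x.2 := by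
  refine Finset.sum_nbij' (fun x => (x.2, x.1)) (fun x => (x.2, x.1)) ?_ ?_ ?_ ?_ ?_
  · intro x hx
    rw [Finset.mem_filter, sg_mem] at hx ⊢
    exact ⟨⟨⟨hx.1.1.2, hx.1.1.1⟩, by rw [mul_comm]; exact hx.1.2⟩, hx.2⟩
  · intro x hx
    rw [Finset.mem_filter, sg_mem] at hx ⊢
    exact ⟨⟨⟨hx.1.1.2, hx.1.1.1⟩, by rw [mul_comm]; exact hx.1.2⟩, hx.2⟩
  · intro x _
    rfl
  · intro x _
    rfl
  · intro x _
    exact mul_comm _ _

/-- the part with `p ≤ T` -/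
private lemma sg_A {X T ε : ℝ} (h : ∀ p : ℕ, p.Prime → (p : ℝ) ≤ T →
    |th (X / p) (X / p + X / p) - X / p| ≤ ε * (X / p)) (hT : 0 ≤ T) :
    |∑ p ∈ (Finset.Ioc 0 ⌊T⌋₊).filter Nat.Prime, Real.log p * th (X / p) ((X + X) / p) -
      X * ∑ p ∈ (Finset.Ioc 0 ⌊T⌋₊).filter Nat.Prime, Real.log p / p| ≤
      ε * (X * ∑ p ∈ (Finset.Ioc 0 ⌊T⌋₊).filter Nat.Prime, Real.log p / p) := by
  rw [Finset.mul_sum, ← Finset.sum_sub_distrib, Finset.mul_sum]
  refine (Finset.abs_sum_le_sum_abs _ _).trans (Finset.sum_le_sum fun p hp => ?_)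
  rw [Finset.mem_filter, Finset.mem_Ioc] at hp
  have h1 := h p hp.2 ((Nat.le_floor_iff hT).1 hp.1.2)
  have hl : 0 ≤ Real.log p := Real.log_natCast_nonneg p
  have e1 : Real.log p * th (X / p) ((X + X) / p) - X * (Real.log p / p) =
      Real.log p * (th (X / p) (X / p + X / p) - X / p) := by
    rw [add_div]
    ring
  rw [e1, abs_mul, abs_of_nonneg hl]
  have e2 : ε * (X * (Real.log p / p)) = Real.log p * (ε * (X / p)) := by ring
  rw [e2]
  exact mul_le_mul_of_nonneg_left h1 hl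

theorem selberg_long {η : ℝ} (hη : 0 < η) : ∃ X0 : ℝ, 1 ≤ X0 ∧ ∀ X : ℝ, X0 ≤ X →
    |th X (X + X) * Real.log X + th2 X (X + X) - 2 * X * Real.log X| ≤ η * X * Real.log X := by
  obtain ⟨C, hC, hm⟩ := mertens1
  set ε : ℝ := min (1 / 2) (η / 10) with hε
  have hε0 : 0 < ε := lt_min (by norm_num) (by positivity)
  have hε1 : ε ≤ 1 / 2 := min_le_left _ _
  have hε2 : ε ≤ η / 10 := min_le_right _ _
  obtain ⟨X1, hX1, hp⟩ := pnt_th hε0
  have e1 : ∀ᶠ X : ℝ in Filter.atTop, X1 ≤ X ^ ε :=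
    (tendsto_rpow_atTop hε0).eventually_ge_atTop _
  have e2 : ∀ᶠ X : ℝ in Filter.atTop, 2 * X1 ≤ X ^ (1 - ε) :=
    (tendsto_rpow_atTop (show 0 < 1 - ε by linarith)).eventually_ge_atTop _
  have e3 : ∀ᶠ X : ℝ in Filter.atTop, (4 * C + 2) * 2 / η ≤ Real.log X :=
    Real.tendsto_log_atTop.eventually_ge_atTop _
  obtain ⟨X0, hX0⟩ := Filter.eventually_atTop.1 (e1.and (e2.and e3))
  refine ⟨max X0 (max X1 1), (le_max_right _ _).trans (le_max_right _ _), fun X hX => ?_⟩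
  obtain ⟨q1, q2, q3⟩ := hX0 X ((le_max_left _ _).trans hX)
  have hX1' : X1 ≤ X := (le_max_left _ _).trans ((le_max_right _ _).trans hX)
  have hXge : 1 ≤ X := (le_max_right _ _).trans ((le_max_right _ _).trans hX)
  have hXp : 0 < X := by linarith
  set L := Real.log X with hL
  have hL0 : 0 < L := by
    have : 0 < (4 * C + 2) * 2 / η := by positivity
    linarith
  set P : ℝ := X ^ (1 - ε) with hP
  set T : ℝ := 2 * X ^ ε with hT
  have hP0 : 0 < P := Real.rpow_pos_of_pos hXp _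
  have hXe : 0 < X ^ ε := Real.rpow_pos_of_pos hXp _
  have hPX : P * X ^ ε = X := by
    rw [hP, ← Real.rpow_add hXp]
    norm_num
  have hP1 : 1 ≤ P := Real.one_le_rpow hXge (by linarith)
  have hXe1 : 1 ≤ X ^ ε := Real.one_le_rpow hXge hε0.le
  have hT1 : 1 ≤ T := by linarith
  have hPle : P ≤ X + X := by nlinarith
  have hTle : T ≤ X + X := by nlinarith
  -- the two parts
  have hA1 := sg_A (X := X) (T := P) (ε := ε) (fun p hpp hpT => by
    have hp0 : (0 : ℝ) < p := by exact_mod_cast hpp.pos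
    refine hp (X / p) ?_
    rw [le_div_iff₀ hp0]
    calc X1 * p ≤ X ^ ε * P := mul_le_mul q1 hpT hp0.le hXe.le
      _ = X := by rw [mul_comm]; exact hPX) hP0.le
  have hA2 := sg_A (X := X) (T := T) (ε := ε) (fun p hpp hpT => by
    have hp0 : (0 : ℝ) < p := by exact_mod_cast hpp.pos
    refine hp (X / p) ?_
    rw [le_div_iff₀ hp0]
    have g1 : X1 * p ≤ X1 * (2 * X ^ ε) := mul_le_mul_of_nonneg_left hpT (by linarith)
    have g2 : 2 * X1 * X ^ ε ≤ P * X ^ ε := mul_le_mul_of_nonneg_right q2 hXe.le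
    linarith) (by linarith)
  have hm1 := hm P hP1
  have hm2 := hm T hT1
  have hlP : Real.log P = (1 - ε) * L := Real.log_rpow hXp _
  have hlT : Real.log T = Real.log 2 + ε * L := by
    rw [hT, Real.log_mul (by norm_num) hXe.ne', Real.log_rpow hXp]
  rw [hlP] at hm1
  rw [hlT] at hm2
  have hs1 := sg_part X (X + X) (t := ⌊P⌋₊) (Nat.floor_le_floor hPle)
  have hs2 := sg_part X (X + X) (t := ⌊T⌋₊) (Nat.floor_le_floor hTle)
  rw [← hs1] at hA1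
  rw [← hs2] at hA2
  set SA := ∑ x ∈ (sg_PP ⌊X⌋₊ ⌊X + X⌋₊).filter (fun x => x.1 ≤ ⌊P⌋₊),
    Real.log x.1 * Real.log x.2 with hSA
  set SB := ∑ x ∈ (sg_PP ⌊X⌋₊ ⌊X + X⌋₊).filter (fun x => x.1 ≤ ⌊T⌋₊),
    Real.log x.1 * Real.log x.2 with hSB
  set mP := ∑ p ∈ (Finset.Ioc 0 ⌊P⌋₊).filter Nat.Prime, Real.log p / p with hmP
  set mT := ∑ p ∈ (Finset.Ioc 0 ⌊T⌋₊).filter Nat.Prime, Real.log p / p with hmT
  have hF0 : ∀ x : ℕ × ℕ, 0 ≤ Real.log x.1 * Real.log x.2 := fun x =>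
    mul_nonneg (Real.log_natCast_nonneg _) (Real.log_natCast_nonneg _)
  have hlo : SA ≤ th2 X (X + X) := by
    rw [sg_th2]
    exact Finset.sum_le_sum_of_subset_of_nonneg (Finset.filter_subset _ _) fun x _ _ => hF0 x
  have hhi : th2 X (X + X) ≤ SA + SB := by
    rw [sg_th2, ← Finset.sum_filter_add_sum_filter_not (sg_PP ⌊X⌋₊ ⌊X + X⌋₊)
      (fun x => x.1 ≤ ⌊P⌋₊)]
    refine add_le_add le_rfl ?_
    rw [hSB, ← sg_symm]
    refine Finset.sum_le_sum_of_subset_of_nonneg (fun x hx => ?_) fun x _ _ => hF0 x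
    rw [Finset.mem_filter] at hx ⊢
    refine ⟨hx.1, ?_⟩
    have g1 := (sg_mem.1 hx.1).2.2
    have g2 : P < x.1 := by
      have := hx.2
      rw [not_le] at this
      exact (Nat.floor_lt hP0.le).1 this
    have g3 : (x.1 : ℝ) * x.2 ≤ X + X := by
      have := (Nat.le_floor_iff (by linarith : 0 ≤ X + X)).1 g1
      push_cast at this
      exact this
    refine Nat.le_floor ?_
    have g4 : P * x.2 ≤ P * T := by
      have g5 : P * x.2 ≤ x.1 * x.2 := mul_le_mul_of_nonneg_right g2.le (Nat.cast_nonneg _)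
      have g6 : P * T = X + X := by
        rw [hT]
        linarith
      linarith
    exact le_of_mul_le_mul_left g4 hP0
  -- bounds
  have hlog2 : Real.log 2 ≤ 1 := by
    have := Real.log_two_lt_d9
    linarith
  have hlog20 : 0 ≤ Real.log 2 := Real.log_nonneg (by norm_num)
  have hth := hp X hX1'
  rw [abs_le] at hA1 hA2 hm1 hm2 hth
  have hXL : 0 < X * L := by positivity
  have b1 : X * mP ≤ X * ((1 - ε) * L + C) := mul_le_mul_of_nonneg_left (by linarith) hXp.le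
  have b2 : X * ((1 - ε) * L - C) ≤ X * mP := mul_le_mul_of_nonneg_left (by linarith) hXp.le
  have b3 : X * mT ≤ X * (Real.log 2 + ε * L + C) := mul_le_mul_of_nonneg_left (by linarith) hXp.le
  have hup : th2 X (X + X) ≤ (1 + ε) * (X * (L + 2 * C + Real.log 2)) := by
    have c1 : SA ≤ (1 + ε) * (X * mP) := by linarith [hA1.2]
    have c2 : SB ≤ (1 + ε) * (X * mT) := by linarith [hA2.2]
    have c3 : (1 + ε) * (X * mP) ≤ (1 + ε) * (X * ((1 - ε) * L + C)) :=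
      mul_le_mul_of_nonneg_left b1 (by linarith)
    have c4 : (1 + ε) * (X * mT) ≤ (1 + ε) * (X * (Real.log 2 + ε * L + C)) :=
      mul_le_mul_of_nonneg_left b3 (by linarith)
    have c5 : (1 + ε) * (X * ((1 - ε) * L + C)) + (1 + ε) * (X * (Real.log 2 + ε * L + C)) =
        (1 + ε) * (X * (L + 2 * C + Real.log 2)) := by ring
    linarith
  have hdn : (1 - ε) * (X * ((1 - ε) * L - C)) ≤ th2 X (X + X) := by
    have c1 : (1 - ε) * (X * mP) ≤ SA := by linarith [hA1.1]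
    have c2 : (1 - ε) * (X * ((1 - ε) * L - C)) ≤ (1 - ε) * (X * mP) :=
      mul_le_mul_of_nonneg_left b2 (by linarith)
    linarith
  have hup2 : th2 X (X + X) ≤ X * L + ε * (X * L) + (4 * C + 2) * X := by
    have c1 : (1 + ε) * (X * (L + 2 * C + Real.log 2)) =
        X * L + ε * (X * L) + (1 + ε) * (2 * C + Real.log 2) * X := by ring
    have c2 : (1 + ε) * (2 * C + Real.log 2) ≤ 4 * C + 2 := by nlinarith
    have c3 : (1 + ε) * (2 * C + Real.log 2) * X ≤ (4 * C + 2) * X :=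
      mul_le_mul_of_nonneg_right c2 hXp.le
    linarith
  have hdn2 : X * L - 2 * ε * (X * L) - (4 * C + 2) * X ≤ th2 X (X + X) := by
    have c1 : (1 - ε) * (X * ((1 - ε) * L - C)) =
        X * L - 2 * ε * (X * L) + ε ^ 2 * (X * L) - (1 - ε) * C * X := by ring
    have c2 : 0 ≤ ε ^ 2 * (X * L) := by positivity
    have c3 : (1 - ε) * C * X ≤ (4 * C + 2) * X :=
      mul_le_mul_of_nonneg_right (by nlinarith) hXp.le
    linarith
  have hconst : (4 * C + 2) * X ≤ η / 2 * (X * L) := by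
    rw [div_le_iff₀ hη] at q3
    have : (4 * C + 2) * 2 * X ≤ L * η * X := mul_le_mul_of_nonneg_right q3 hXp.le
    linarith
  have hεη : ε * (X * L) ≤ η / 10 * (X * L) := mul_le_mul_of_nonneg_right hε2 hXL.le
  have hthL1 : th X (X + X) * L ≤ (X + ε * X) * L := mul_le_mul_of_nonneg_right (by linarith [hth.2]) hL0.le
  have hthL2 : (X - ε * X) * L ≤ th X (X + X) * L := mul_le_mul_of_nonneg_right (by linarith [hth.1]) hL0.le
  rw [abs_le]
  have hηp : 0 ≤ η * (X * L) := by positivity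
  constructor
  · linarith
  · linarith

end Pool.Agent.H97.EP.SS
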