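import Pool.Agent.H97.EP.SE
import Pool.Agent.H97.EP.SF
import Pool.Agent.H97.EP.SG

/-!
# Project EP, module `SH` : Selberg's formula in short intervals

Let `C` be larger than the constants of `main_dec` and `rough_prime`.  Choose `j` large and
`k = 4j`, `e1 = 2^{-j}`, `e2 = (4k+61) e1 = (16j+61) 2^{-j}` (so `e1 ≤ 1/100`, `e2 + 61 e1 + e1 < 1/2`)
with `C (2^{-k}/e1² + 8 (4k+61)³ e1) = C (2^{-2j} + 8 (16j+61)³ 2^{-j}) ≤ η/16` and `C e1 ≤ η/16`.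
`θ = 1 - e1`, `z = X^{e1}`, `D = X^{1-e2}`, `Y ∈ [X^θ, X]`, `L = log X`.  Check for large `X`:
`D z^{4k+60} = X^{1-e1} ≤ Y`; `z^60 = X^{60 e1} ≤ X^{1-e1-e2}/2 ≤ Y D/(2X)`;
`log(2X/D) = log 2 + e2 L ≤ 2 e2 L`, so `(log(2X/D))³/(log z)² ≤ 8 e2³ L/e1² = 8 (4k+61)³ e1 L`;
`(L²/(log z)²)(1 + L 2^{-k}) = (1 + L 2^{-k})/e1²`.
So `|GG z X (X+Y)/Y - Mn| ≤ C((1 + L 2^{-k})/e1² + 8(4k+61)³ e1 L) ≤ (η/8) L` for large `X`, for this
`Y` and also for `Y = X`; hence `|GG z X (X+Y)/Y - GG z X (2X)/X| ≤ (η/4) L`.  By `rough_prime`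
(twice, each `≤ (η/16) L`) and `selberg_long (η/4)` the claim follows:
`η/4 + 2 η/16 + η/4 ≤ η`.
-/

set_option autoImplicit false

namespace Pool.Agent.H97.EP.SS

private lemma sh_choose {δ : ℝ} (hδ : 0 < δ) : ∃ j : ℕ, 1 ≤ j ∧ (j : ℝ) ^ 3 * (1 / 2) ^ j ≤ δ := by
  have h := tendsto_pow_const_mul_const_pow_of_abs_lt_one 3 (r := (1 / 2 : ℝ))
    (by rw [abs_of_pos (by norm_num)]; norm_num)
  have h2 := (h.eventually (ge_mem_nhds hδ)).and (Filter.eventually_ge_atTop 1)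
  obtain ⟨j, hj1, hj2⟩ := h2.exists
  exact ⟨j, hj2, hj1⟩

private lemma sh_large {e1 e2 z0 Lm Xm : ℝ} (he1 : 0 < e1) (he2 : 0 < e2) :
    ∃ X0 : ℝ, 1 ≤ X0 ∧ ∀ X : ℝ, X0 ≤ X → z0 ≤ X ^ e1 ∧ Lm ≤ Real.log X ∧ Xm ≤ X ∧ 4 ≤ X ∧
      Real.log 2 ≤ e2 * Real.log X := by
  have h1 := (tendsto_rpow_atTop he1).eventually_ge_atTop z0
  have h2 := Real.tendsto_log_atTop.eventually_ge_atTop Lm
  have h3 := Filter.eventually_ge_atTop Xm
  have h4 := Filter.eventually_ge_atTop (4 : ℝ)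
  have h5 := (Real.tendsto_log_atTop.const_mul_atTop he2).eventually_ge_atTop (Real.log 2)
  obtain ⟨X0, hX0⟩ := Filter.eventually_atTop.1 (h1.and (h2.and (h3.and (h4.and h5))))
  exact ⟨max X0 1, le_max_right _ _, fun X hX => hX0 X ((le_max_left _ _).trans hX)⟩

/-- the estimate of `main_dec` for our parameters -/
private lemma sh_main {C1 η e1 : ℝ} {j : ℕ} (hC1 : 0 < C1) (he1 : e1 = (1 / 2) ^ j)
    {z0 : ℝ} (hmd : ∀ z X Y D : ℝ, z0 ≤ z → 1 ≤ D →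
      D * z ^ (4 * ((4 * j : ℕ) : ℝ) + 60 : ℝ) ≤ Y → Y ≤ X → z ^ (60 : ℝ) ≤ Y * D / (2 * X) →
      |GG z X (X + Y) - Y * Mn z X D| ≤
        C1 * Y * ((Real.log X) ^ 2 / (Real.log z) ^ 2 * (1 + Real.log X * (1 / 2 : ℝ) ^ (4 * j)) +
          (Real.log (2 * X / D)) ^ 3 / (Real.log z) ^ 2))
    (h1 : (16 * j + 61) * e1 + 61 * e1 ≤ 1 / 2)
    (h2 : C1 * (e1 ^ 2 + 8 * (16 * j + 61) ^ 3 * e1) ≤ η / 16)
    {X : ℝ} (hX4 : 4 ≤ X) (hz : z0 ≤ X ^ e1) (hL : 16 * C1 / e1 ^ 2 ≤ η * Real.log X)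
    (hlog2 : Real.log 2 ≤ ((16 * j + 61) * e1) * Real.log X) {Y : ℝ} (hY1 : X ^ (1 - e1) ≤ Y)
    (hY2 : Y ≤ X) :
    |GG (X ^ e1) X (X + Y) - Y * Mn (X ^ e1) X (X ^ (1 - (16 * j + 61) * e1))| ≤
      η / 8 * (Y * Real.log X) := by
  have he0 : 0 < e1 := by rw [he1]; positivity
  have hX0 : 0 < X := by linarith
  have hX1 : 1 ≤ X := by linarith
  have hL0 : 0 < Real.log X := Real.log_pos (by linarith)
  have hY0 : 0 < Y := (Real.rpow_pos_of_pos hX0 _).trans_le hY1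
  set L := Real.log X with hLdef
  set e2 : ℝ := (16 * j + 61) * e1 with he2
  have he2p : 0 < e2 := by positivity
  have hD1 : 1 ≤ X ^ (1 - e2) := Real.one_le_rpow hX1 (by linarith)
  have hDpos : 0 < X ^ (1 - e2) := by linarith
  have hDz : X ^ (1 - e2) * (X ^ e1) ^ (4 * ((4 * j : ℕ) : ℝ) + 60 : ℝ) ≤ Y := by
    have e : X ^ (1 - e2) * (X ^ e1) ^ (4 * ((4 * j : ℕ) : ℝ) + 60 : ℝ) = X ^ (1 - e1) := by
      rw [← Real.rpow_mul hX0.le, ← Real.rpow_add hX0]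
      congr 1
      rw [he2]
      push_cast
      ring
    rw [e]
    exact hY1
  have hz60 : (X ^ e1) ^ (60 : ℝ) ≤ Y * X ^ (1 - e2) / (2 * X) := by
    rw [le_div_iff₀ (by positivity), ← Real.rpow_mul hX0.le]
    have g1 : X ^ (e1 * 60) * (2 * X) = 2 * X ^ (e1 * 60 + 1) := by
      rw [Real.rpow_add hX0, Real.rpow_one]
      ring
    have g2 : X ^ (1 - e1) * X ^ (1 - e2) = X ^ (1 - e2 - 61 * e1) * X ^ (e1 * 60 + 1) := by
      rw [← Real.rpow_add hX0, ← Real.rpow_add hX0]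
      congr 1
      ring
    have g3 : (2 : ℝ) ≤ X ^ (1 - e2 - 61 * e1) := by
      have g4 : X ^ (1 / 2 : ℝ) ≤ X ^ (1 - e2 - 61 * e1) :=
        Real.rpow_le_rpow_of_exponent_le hX1 (by linarith)
      have g5 : (4 : ℝ) ^ (1 / 2 : ℝ) ≤ X ^ (1 / 2 : ℝ) :=
        Real.rpow_le_rpow (by norm_num) hX4 (by norm_num)
      have g6 : (4 : ℝ) ^ (1 / 2 : ℝ) = 2 := by
        rw [← Real.sqrt_eq_rpow, show (4 : ℝ) = 2 ^ 2 by norm_num, Real.sqrt_sq (by norm_num)]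
      linarith
    rw [g1]
    have g7 : X ^ (1 - e1) * X ^ (1 - e2) ≤ Y * X ^ (1 - e2) :=
      mul_le_mul_of_nonneg_right hY1 hDpos.le
    rw [g2] at g7
    refine le_trans ?_ g7
    exact mul_le_mul_of_nonneg_right g3 (Real.rpow_nonneg hX0.le _)
  have hmain := hmd (X ^ e1) X Y (X ^ (1 - e2)) hz hD1 hDz hY2 hz60
  refine hmain.trans ?_
  have hlz : Real.log (X ^ e1) = e1 * L := Real.log_rpow hX0 _
  have hlD : Real.log (2 * X / X ^ (1 - e2)) ≤ 2 * e2 * L := by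
    have e : 2 * X / X ^ (1 - e2) = 2 * X ^ e2 := by
      rw [Real.rpow_sub hX0, Real.rpow_one]
      field_simp
    rw [e, Real.log_mul (by norm_num) (Real.rpow_pos_of_pos hX0 _).ne', Real.log_rpow hX0]
    linarith
  have hlD0 : 0 ≤ Real.log (2 * X / X ^ (1 - e2)) := by
    refine Real.log_nonneg ?_
    rw [le_div_iff₀ hDpos, one_mul]
    have : X ^ (1 - e2) ≤ X ^ (1 : ℝ) := Real.rpow_le_rpow_of_exponent_le hX1 (by linarith)
    rw [Real.rpow_one] at this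
    linarith
  rw [hlz]
  have hpow : (1 / 2 : ℝ) ^ (4 * j) = e1 ^ 4 := by
    rw [he1, ← pow_mul, mul_comm]
  rw [hpow]
  have k1 : Real.log (2 * X / X ^ (1 - e2)) ^ 3 / (e1 * L) ^ 2 ≤ 8 * (16 * j + 61) ^ 3 * e1 * L := by
    rw [div_le_iff₀ (by positivity)]
    have k2 := pow_le_pow_left₀ hlD0 hlD 3
    refine k2.trans (le_of_eq ?_)
    rw [he2]
    ring
  have k3 : L ^ 2 / (e1 * L) ^ 2 * (1 + L * e1 ^ 4) = 1 / e1 ^ 2 + e1 ^ 2 * L := by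
    field_simp
  rw [k3]
  have k4 : C1 * Y * (1 / e1 ^ 2 + e1 ^ 2 * L +
      Real.log (2 * X / X ^ (1 - e2)) ^ 3 / (e1 * L) ^ 2) ≤
      C1 * Y * (1 / e1 ^ 2 + e1 ^ 2 * L + 8 * (16 * j + 61) ^ 3 * e1 * L) :=
    mul_le_mul_of_nonneg_left (by linarith) (by positivity)
  refine k4.trans ?_
  have k5 : C1 * Y * (1 / e1 ^ 2 + e1 ^ 2 * L + 8 * (16 * j + 61) ^ 3 * e1 * L) =
      Y * (C1 / e1 ^ 2) + Y * L * (C1 * (e1 ^ 2 + 8 * (16 * j + 61) ^ 3 * e1)) := by ring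
  rw [k5]
  have k6 : C1 / e1 ^ 2 ≤ η / 16 * L := by
    have e : 16 * C1 / e1 ^ 2 = 16 * (C1 / e1 ^ 2) := by ring
    rw [e] at hL
    linarith
  have k7 : Y * (C1 / e1 ^ 2) ≤ Y * (η / 16 * L) := mul_le_mul_of_nonneg_left k6 hY0.le
  have k8 : Y * L * (C1 * (e1 ^ 2 + 8 * (16 * j + 61) ^ 3 * e1)) ≤ Y * L * (η / 16) :=
    mul_le_mul_of_nonneg_left h2 (by positivity)
  linarith

theorem selberg_short (η : ℝ) (hη : 0 < η) :
    ∃ θ X0 : ℝ, 0 < θ ∧ θ < 1 ∧ 1 ≤ X0 ∧ SelS η θ X0 := by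
  obtain ⟨C1, hC1, hmd⟩ := main_dec
  obtain ⟨C2, hC2, hrp⟩ := rough_prime
  obtain ⟨X3, hX3, hsl⟩ := selberg_long (η := η / 4) (by positivity)
  set C : ℝ := C1 + C2 with hC
  have hC0 : 0 < C := by positivity
  obtain ⟨j, hj1, hj⟩ := sh_choose (δ := min (1 / 1000) (η / (16 * C * 4000000)))
    (lt_min (by norm_num) (by positivity))
  have hjR : (1 : ℝ) ≤ j := by exact_mod_cast hj1
  set e1 : ℝ := (1 / 2) ^ j with he1
  have he0 : 0 < e1 := by positivity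
  have he1' : e1 ≤ 1 := by
    rw [he1]
    exact pow_le_one₀ (by norm_num) (by norm_num)
  have hj3 : (1 : ℝ) ≤ (j : ℝ) ^ 3 := one_le_pow₀ hjR
  have hjj : (j : ℝ) ≤ (j : ℝ) ^ 3 := by
    have := pow_le_pow_right₀ hjR (show 1 ≤ 3 by norm_num)
    rwa [pow_one] at this
  have ha : (j : ℝ) ^ 3 * e1 ≤ 1 / 1000 := hj.trans (min_le_left _ _)
  have hb : (j : ℝ) ^ 3 * e1 ≤ η / (16 * C * 4000000) := hj.trans (min_le_right _ _)
  have hb' : C * ((j : ℝ) ^ 3 * e1) * 4000000 ≤ η / 16 := by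
    rw [le_div_iff₀ (by positivity)] at hb
    linarith
  have he1s : e1 ≤ (j : ℝ) ^ 3 * e1 := le_mul_of_one_le_left he0.le hj3
  have hje : (j : ℝ) * e1 ≤ (j : ℝ) ^ 3 * e1 := mul_le_mul_of_nonneg_right hjj he0.le
  have hsm : e1 ≤ 1 / 100 := by linarith
  have h1 : (16 * j + 61) * e1 + 61 * e1 ≤ 1 / 2 := by linarith
  have hcube : (16 * (j : ℝ) + 61) ^ 3 ≤ 456533 * (j : ℝ) ^ 3 := by
    have g1 : 16 * (j : ℝ) + 61 ≤ 77 * j := by linarith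
    have g2 := pow_le_pow_left₀ (by positivity) g1 3
    refine g2.trans (le_of_eq ?_)
    ring
  have h2 : C1 * (e1 ^ 2 + 8 * (16 * j + 61) ^ 3 * e1) ≤ η / 16 := by
    have g1 : e1 ^ 2 ≤ (j : ℝ) ^ 3 * e1 := by nlinarith
    have g2 : (16 * (j : ℝ) + 61) ^ 3 * e1 ≤ 456533 * (j : ℝ) ^ 3 * e1 :=
      mul_le_mul_of_nonneg_right hcube he0.le
    have g3 : e1 ^ 2 + 8 * (16 * j + 61) ^ 3 * e1 ≤ 4000000 * ((j : ℝ) ^ 3 * e1) := by
      have : 0 ≤ (j : ℝ) ^ 3 * e1 := by positivity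
      linarith
    have g4 : C1 * (e1 ^ 2 + 8 * (16 * j + 61) ^ 3 * e1) ≤ C1 * (4000000 * ((j : ℝ) ^ 3 * e1)) :=
      mul_le_mul_of_nonneg_left g3 hC1.le
    have g5 : C1 * (4000000 * ((j : ℝ) ^ 3 * e1)) ≤ C * (4000000 * ((j : ℝ) ^ 3 * e1)) :=
      mul_le_mul_of_nonneg_right (by linarith) (by positivity)
    linarith
  have h3 : C2 * e1 ≤ η / 16 := by
    have g1 : C2 * e1 ≤ C * ((j : ℝ) ^ 3 * e1) := by
      have g2 : C2 * e1 ≤ C * e1 := mul_le_mul_of_nonneg_right (by linarith) he0.le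
      exact g2.trans (mul_le_mul_of_nonneg_left he1s hC0.le)
    have g3 : 0 ≤ C * ((j : ℝ) ^ 3 * e1) := by positivity
    linarith
  obtain ⟨z0, hz0, hmd'⟩ := hmd (4 * j)
  obtain ⟨X1, hX1, hrp'⟩ := hrp e1 he0 hsm
  obtain ⟨X0, hX01, hX0⟩ := sh_large (e1 := e1) (e2 := (16 * j + 61) * e1) (z0 := z0)
    (Lm := 16 * C1 / e1 ^ 2 / η) (Xm := max X1 X3) he0 (by positivity)
  refine ⟨1 - e1, X0, by linarith, by linarith, hX01, ?_⟩
  intro X hX Y hY1 hY2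
  obtain ⟨q1, q2, q3, q4, q5⟩ := hX0 X hX
  have hXp : 0 < X := by linarith
  have hL0 : 0 < Real.log X := Real.log_pos (by linarith)
  have hY0 : 0 < Y := (Real.rpow_pos_of_pos hXp _).trans_le hY1
  have hLm : 16 * C1 / e1 ^ 2 ≤ η * Real.log X := by
    rw [div_le_iff₀ hη] at q2
    linarith
  have hXX : X ^ (1 - e1) ≤ X := by
    have := Real.rpow_le_rpow_of_exponent_le (show 1 ≤ X by linarith)
      (show 1 - e1 ≤ 1 by linarith)
    rwa [Real.rpow_one] at this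
  have m1 := sh_main hC1 he1 hmd' h1 h2 q4 q1 hLm q5 hY1 hY2
  have m2 := sh_main hC1 he1 hmd' h1 h2 q4 q1 hLm q5 hXX le_rfl
  have r1 := hrp' X ((le_max_left _ _).trans q3) Y hY1 hY2
  have r2 := hrp' X ((le_max_left _ _).trans q3) X hXX le_rfl
  have s1 := hsl X ((le_max_right _ _).trans q3)
  set L := Real.log X with hLdef
  set M := Mn (X ^ e1) X (X ^ (1 - (16 * j + 61) * e1)) with hM
  have r1' : |GG (X ^ e1) X (X + Y) - (th X (X + Y) * L + th2 X (X + Y))| ≤ η / 16 * (Y * L) := by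
    refine r1.trans ?_
    have : C2 * e1 * Y * L = C2 * e1 * (Y * L) := by ring
    rw [this]
    exact mul_le_mul_of_nonneg_right h3 (by positivity)
  have r2' : |GG (X ^ e1) X (X + X) - (th X (X + X) * L + th2 X (X + X))| ≤ η / 16 * (X * L) := by
    refine r2.trans ?_
    have : C2 * e1 * X * L = C2 * e1 * (X * L) := by ring
    rw [this]
    exact mul_le_mul_of_nonneg_right h3 (by positivity)
  -- the value of M
  have hMn : |M - 2 * L| ≤ 7 * η / 16 * L := by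
    have t1 : |X * (M - 2 * L)| ≤ 7 * η / 16 * L * X := by
      rw [abs_le] at m2 r2' s1 ⊢
      constructor
      · linarith [m2.1, m2.2, r2'.1, r2'.2, s1.1, s1.2]
      · linarith [m2.1, m2.2, r2'.1, r2'.2, s1.1, s1.2]
    rw [abs_mul, abs_of_pos hXp, mul_comm] at t1
    exact le_of_mul_le_mul_right t1 hXp
  have hYM : |Y * (M - 2 * L)| ≤ 7 * η / 16 * L * Y := by
    rw [abs_mul, abs_of_pos hY0, mul_comm]
    exact mul_le_mul_of_nonneg_right hMn hY0.le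
  have hpos : 0 ≤ η * (Y * L) := by positivity
  rw [abs_le] at m1 r1' hYM ⊢
  constructor
  · linarith [m1.1, m1.2, r1'.1, r1'.2, hYM.1, hYM.2]
  · linarith [m1.1, m1.2, r1'.1, r1'.2, hYM.1, hYM.2]

end Pool.Agent.H97.EP.SS
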