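import Pool.Agent.H97.EP.Main
import Pool.Agent.H97.EP.SH

/-!
# Project EP, module `Fin0` : every large real number is a degree
-/

set_option autoImplicit false

namespace Pool.Agent.H97.EP

/-- Primes in all short intervals, for some exponent below `1` (elementary proof). -/
theorem exists_primesIn : ∃ θ : ℝ, 0 < θ ∧ θ < 1 ∧ PrimesIn θ := by
  obtain ⟨θ, X0, h0, h1, hX, hS⟩ := SS.selberg_short (1 / 1000) (by norm_num)
  exact primes_of_selberg h0 h1 hX hS

theorem exists_degree_bound : ∃ d0 : ℝ, ∀ d : ℝ, d0 ≤ d → SelbergDegree d := by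
  obtain ⟨θ, h0, h1, hP⟩ := exists_primesIn
  refine ⟨max 5 (2 / (1 - θ)), fun d hd => ?_⟩
  have h2 : (0 : ℝ) < 1 - θ := by linarith
  have h3 : 5 ≤ d := (le_max_left _ _).trans hd
  have h4 : 2 / (1 - θ) ≤ d := (le_max_right _ _).trans hd
  refine degree_of_primesIn hP (by linarith) ?_
  have h5 : 2 ≤ d * (1 - θ) := (div_le_iff₀ h2).1 h4
  have h6 : 2 / d ≤ 1 - θ := by
    rw [div_le_iff₀ (by linarith)]
    linarith
  linarith

end Pool.Agent.H97.EP
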