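import Pool.Agent.H97.EP.Main
import Pool.Agent.H88.E58.Fn

/-!
# Project EP, module `Fin1` : every real number `> 16/3` is a degree

Uses the theorem `primesIn_58` (primes in every interval `(x, x + x^θ]`, `θ > 5/8`).
-/

set_option autoImplicit false

namespace Pool.Agent.H97.EP

theorem degree_of_gt {d : ℝ} (hd : 16 / 3 < d) : SelbergDegree d := by
  have hd0 : 0 < d := by linarith
  have h1 : (5 : ℝ) / 8 < 1 - 2 / d := by
    have h2 : 2 / d < 3 / 8 := by
      rw [div_lt_iff₀ hd0]
      linarith
    linarith
  exact degree_of_primesIn (Pool.Agent.H88.E58.primesIn_58 (1 - 2 / d) h1) (by linarith) le_rfl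

end Pool.Agent.H97.EP
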