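import Mathlib

/-!
# Project EP, module `HA` : an approximately multiplicative function of mean zero does not exist

All integrals are over bounded intervals, all integrands are measurable and bounded by `2`.
Write `x ⋆ y` for the inequality `1 - a c ≤ (1 - γ a b) + (1 - γ b c)` valid for `a, b, c, γ ∈ [-1,1]`
(proof: `γ b (a + c) ≤ |a + c| ≤ 1 + a c`, the last because `(1 - a)(1 - c) ≥ 0`, `(1+a)(1+c) ≥ 0`).

1. `u = 1` in `h1` and `h3`: `∫_0^1 f(1-t) g(t) dt ≥ f(1) - e ≥ 1 - 2e`; since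
   `f(1-t) g(t) ≤ |f(1-t)|`, `∫_0^1 (1 - |f|) ≤ 2e` (substitution `t -> 1-t`).
2. For `0 ≤ u ≤ 1` multiply `h1` by `f(u)`: `∫_0^u f(u) f(u-t) g(t) dt ≥ u f(u)^2 - e`, so
   `∫_0^u (1 - f(u) f(u-t) g(t)) dt ≤ u (1 - f(u)^2) + e ≤ 2 (1 - |f(u)|) + e`.
   Integrate over `u ∈ [0,1]`: `I := ∫_0^1 ∫_0^u (1 - f(u) f(u-t) g(t)) dt du ≤ 4e + e = 5e`.
   The integrand is nonnegative.
3. On the region `0 ≤ 2t ≤ u ≤ 1` apply the inequality with `a = f(u)`, `b = f(u-t)`, `c = f(u-2t)`,
   `γ = g(t)`: `∫∫_{2t ≤ u} (1 - f(u) f(u-2t)) ≤ ∫∫_{2t≤u} (1 - f(u) f(u-t) g(t)) +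
   ∫∫_{2t≤u} (1 - f(u-t) f(u-2t) g(t)) ≤ I + I ≤ 10e` (in the second integral put `u' = u - t`,
   `t ≤ u' ≤ 1`; use nonnegativity to enlarge the region).
4. Put `s = 2t`: `∫_0^1 ∫_0^u (1 - f(u) f(u-s)) ds du ≤ 20e`.  The left side is
   `1/2 - ∫_0^1 f(u) (∫_0^u f) du ≥ 1/2 - e` by `h2`.  So `1/2 ≤ 21 e`.

(For Fubini it is convenient to write the double integrals as integrals over `ℝ × ℝ` or
`∫ u in 0..1, ∫ t in 0..1, indicator`, with `MeasureTheory.integral_integral_swap`.)
-/

set_option autoImplicit false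
open MeasureTheory Set

namespace Pool.Agent.H97.EP

/-- The triangle `0 < t ≤ u ≤ 1`. -/
private def ha_T : Set (ℝ × ℝ) := {p | 0 < p.2 ∧ p.2 ≤ p.1 ∧ p.1 ≤ 1}

private lemma ha_T_meas : MeasurableSet ha_T := by
  have h1 : MeasurableSet {p : ℝ × ℝ | 0 < p.2} := measurableSet_lt measurable_const measurable_snd
  have h2 : MeasurableSet {p : ℝ × ℝ | p.2 ≤ p.1} := measurableSet_le measurable_snd measurable_fst
  have h3 : MeasurableSet {p : ℝ × ℝ | p.1 ≤ 1} := measurableSet_le measurable_fst measurable_const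
  exact h1.inter (h2.inter h3)

private lemma ha_intg {H : ℝ × ℝ → ℝ} (hH : Measurable H) (hb : ∀ p, |H p| ≤ 2)
    (hs : ∀ p, p ∉ Icc (0 : ℝ) 2 ×ˢ Icc (0 : ℝ) 2 → H p = 0) :
    Integrable H (volume.prod volume) := by
  have h1 : IntegrableOn H (Icc (0 : ℝ) 2 ×ˢ Icc (0 : ℝ) 2) (volume.prod volume) := by
    refine Measure.integrableOn_of_bounded (M := 2) ?_ hH.aestronglyMeasurable ?_
    · rw [Measure.prod_prod]
      simp
      exact ENNReal.mul_ne_top (by simp) (by simp)
    · exact Filter.Eventually.of_forall fun p => hb p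
  rw [← integrableOn_univ]
  refine h1.of_forall_sdiff_eq_zero MeasurableSet.univ fun p hp => hs p hp.2

private lemma ha_ind_intg {H : ℝ × ℝ → ℝ} (hH : Measurable H) (hb : ∀ p, |H p| ≤ 2) :
    Integrable (ha_T.indicator H) (volume.prod volume) := by
  refine ha_intg (hH.indicator ha_T_meas) (fun p => ?_) (fun p hp => ?_)
  · by_cases h : p ∈ ha_T
    · rw [indicator_of_mem h]; exact hb p
    · rw [indicator_of_notMem h, abs_zero]; norm_num
  · refine indicator_of_notMem (fun h => hp ?_) _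
    obtain ⟨h1, h2, h3⟩ := h
    exact ⟨⟨by linarith, by linarith⟩, ⟨by linarith, by linarith⟩⟩

private lemma ha_iter {H : ℝ × ℝ → ℝ} (hH : Measurable H) (hb : ∀ p, |H p| ≤ 2) :
    (∫ p, ha_T.indicator H p ∂(volume.prod volume)) =
        ∫ u in (0 : ℝ)..1, ∫ t in (0 : ℝ)..u, H (u, t) ∧
      IntervalIntegrable (fun u => ∫ t in (0 : ℝ)..u, H (u, t)) volume 0 1 := by
  have h1 : ∀ u : ℝ, (∫ t, ha_T.indicator H (u, t)) =
      (Ioc (0 : ℝ) 1).indicator (fun u => ∫ t in (0 : ℝ)..u, H (u, t)) u := by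
    intro u
    by_cases hu : u ∈ Ioc (0 : ℝ) 1
    · rw [indicator_of_mem hu, intervalIntegral.integral_of_le hu.1.le,
        ← integral_indicator measurableSet_Ioc]
      congr 1
      ext t
      by_cases ht : t ∈ Ioc (0 : ℝ) u
      · rw [indicator_of_mem ht, indicator_of_mem]
        exact ⟨ht.1, ht.2, hu.2⟩
      · rw [indicator_of_notMem ht, indicator_of_notMem]
        exact fun h => ht ⟨h.1, h.2.1⟩
    · rw [indicator_of_notMem hu]
      have : ∀ t, ha_T.indicator H (u, t) = 0 := fun t =>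
        indicator_of_notMem (fun h => hu ⟨lt_of_lt_of_le h.1 h.2.1, h.2.2⟩) _
      simp [this]
  have h2 := ha_ind_intg hH hb
  constructor
  · rw [integral_prod _ h2]
    simp_rw [h1]
    rw [integral_indicator measurableSet_Ioc, ← intervalIntegral.integral_of_le zero_le_one]
  · rw [intervalIntegrable_iff_integrableOn_Ioc_of_le zero_le_one,
      ← integrable_indicator_iff measurableSet_Ioc]
    have h3 := h2.integral_prod_left
    simp_rw [h1] at h3
    exact h3

private lemma ha_ineq {a b c γ : ℝ} (ha : |a| ≤ 1) (hb : |b| ≤ 1) (hc : |c| ≤ 1) (hγ : |γ| ≤ 1) :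
    1 - a * c ≤ (1 - a * b * γ) + (1 - b * c * γ) := by
  have h1 : |γ * b| ≤ 1 := by
    rw [abs_mul]
    exact mul_le_one₀ hγ (abs_nonneg _) hb
  have h2 : (γ * b) * (a + c) ≤ |a + c| := by
    calc (γ * b) * (a + c) ≤ |(γ * b) * (a + c)| := le_abs_self _
      _ = |γ * b| * |a + c| := abs_mul _ _
      _ ≤ 1 * |a + c| := mul_le_mul_of_nonneg_right h1 (abs_nonneg _)
      _ = |a + c| := one_mul _
  have h3 : |a + c| ≤ 1 + a * c := by
    obtain ⟨ha1, ha2⟩ := abs_le.1 ha
    obtain ⟨hc1, hc2⟩ := abs_le.1 hc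
    rw [abs_le]
    constructor
    · nlinarith [mul_nonneg (by linarith : 0 ≤ 1 + a) (by linarith : 0 ≤ 1 + c)]
    · nlinarith [mul_nonneg (by linarith : 0 ≤ 1 - a) (by linarith : 0 ≤ 1 - c)]
  nlinarith

private lemma ha_prod_bd {a b c : ℝ} (ha : |a| ≤ 1) (hb : |b| ≤ 1) (hc : |c| ≤ 1) :
    |a * b * c| ≤ 1 := by
  rw [abs_mul, abs_mul]
  exact mul_le_one₀ (mul_le_one₀ ha (abs_nonneg _) hb) (abs_nonneg _) hc

private lemma ha_ii {φ : ℝ → ℝ} (hφ : Measurable φ) (hb : ∀ t, |φ t| ≤ 1) (a b : ℝ) :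
    IntervalIntegrable φ volume a b := by
  rw [intervalIntegrable_iff]
  refine Measure.integrableOn_of_bounded (M := 1) ?_ hφ.aestronglyMeasurable ?_
  · rw [uIoc, Real.volume_Ioc]
    exact ENNReal.ofReal_ne_top
  · exact Filter.Eventually.of_forall fun t => hb t

theorem ha {f g : ℝ → ℝ} {e : ℝ} (hfm : Measurable f) (hgm : Measurable g)
    (hf : ∀ u, |f u| ≤ 1) (hg : ∀ u, |g u| ≤ 1)
    (h1 : ∀ u : ℝ, 0 ≤ u → u ≤ 1 → |u * f u - ∫ t in (0 : ℝ)..u, f (u - t) * g t| ≤ e)
    (h2 : ∀ u : ℝ, 0 ≤ u → u ≤ 1 → |∫ t in (0 : ℝ)..u, f t| ≤ e)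
    (h3 : 1 - e ≤ f 1) : 1 / 42 ≤ e := by
  have he : 0 ≤ e := (abs_nonneg _).trans (h2 0 le_rfl zero_le_one)
  -- the functions
  set A : ℝ × ℝ → ℝ := fun p => 1 - f p.1 * f (p.1 - p.2) * g p.2 with hA
  set B : ℝ × ℝ → ℝ := fun p => 1 - f p.1 * f (p.1 - p.2) with hB
  have hAm : Measurable A := by
    rw [hA]
    fun_prop
  have hBm : Measurable B := by
    rw [hB]
    fun_prop
  have hAb : ∀ p, |A p| ≤ 2 := by
    intro p
    have := abs_le.1 (ha_prod_bd (hf p.1) (hf (p.1 - p.2)) (hg p.2))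
    rw [abs_le]
    constructor <;> simp only [hA] <;> linarith [this.1, this.2]
  have hA0 : ∀ p, 0 ≤ A p := by
    intro p
    have := abs_le.1 (ha_prod_bd (hf p.1) (hf (p.1 - p.2)) (hg p.2))
    simp only [hA]
    linarith [this.2]
  have hBb : ∀ p, |B p| ≤ 2 := by
    intro p
    have h : |f p.1 * f (p.1 - p.2)| ≤ 1 := by
      rw [abs_mul]
      exact mul_le_one₀ (hf _) (abs_nonneg _) (hf _)
    have := abs_le.1 h
    rw [abs_le]
    constructor <;> simp only [hB] <;> linarith [this.1, this.2]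
  obtain ⟨hAi, hAii⟩ := ha_iter hAm hAb
  obtain ⟨hBi, hBii⟩ := ha_iter hBm hBb
  -- measurability of translates
  have hfs : ∀ u : ℝ, Measurable fun t => f (u - t) := fun u => by fun_prop
  -- step 1
  have s1 : 1 - 2 * e ≤ ∫ t in (0 : ℝ)..1, |f t| := by
    have e1 := (abs_le.1 (h1 1 zero_le_one le_rfl)).2
    have e2 : (∫ t in (0 : ℝ)..1, f (1 - t) * g t) ≤ ∫ t in (0 : ℝ)..1, |f (1 - t)| := by
      refine intervalIntegral.integral_mono_on zero_le_one ?_ ?_ fun t _ => ?_
      · refine ha_ii (φ := fun t => f (1 - t) * g t) ((hfs 1).mul hgm) (fun t => ?_) 0 1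
        rw [abs_mul]
        exact mul_le_one₀ (hf _) (abs_nonneg _) (hg _)
      · refine ha_ii (hfs 1).abs (fun t => ?_) 0 1
        rw [abs_abs]
        exact hf _
      · calc f (1 - t) * g t ≤ |f (1 - t) * g t| := le_abs_self _
          _ = |f (1 - t)| * |g t| := abs_mul _ _
          _ ≤ |f (1 - t)| * 1 := mul_le_mul_of_nonneg_left (hg t) (abs_nonneg _)
          _ = |f (1 - t)| := mul_one _
    have e3 : (∫ t in (0 : ℝ)..1, |f (1 - t)|) = ∫ t in (0 : ℝ)..1, |f t| := by
      rw [intervalIntegral.integral_comp_sub_left (fun t => |f t|) 1]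
      norm_num
    rw [e3] at e2
    linarith
  -- step 2
  have s2 : (∫ u in (0 : ℝ)..1, ∫ t in (0 : ℝ)..u, A (u, t)) ≤ 5 * e := by
    have e1 : ∀ u ∈ Icc (0 : ℝ) 1, (∫ t in (0 : ℝ)..u, A (u, t)) ≤ 2 * (1 - |f u|) + e := by
      intro u hu
      have e2 : (∫ t in (0 : ℝ)..u, A (u, t)) = u - f u * ∫ t in (0 : ℝ)..u, f (u - t) * g t := by
        have e3 : ∀ t, A (u, t) = 1 - f u * (f (u - t) * g t) := fun t => by
          simp only [hA]; ring
        simp_rw [e3]
        rw [intervalIntegral.integral_sub, intervalIntegral.integral_const_mul]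
        · simp
        · exact intervalIntegrable_const
        · refine (ha_ii (φ := fun t => f (u - t) * g t) ((hfs u).mul hgm)
            (fun t => ?_) 0 u).const_mul _
          rw [abs_mul]
          exact mul_le_one₀ (hf _) (abs_nonneg _) (hg _)
      rw [e2]
      set I := ∫ t in (0 : ℝ)..u, f (u - t) * g t with hI
      have e4 := h1 u hu.1 hu.2
      have e5 : |f u * (u * f u - I)| ≤ e := by
        rw [abs_mul]
        calc |f u| * |u * f u - I| ≤ 1 * e := mul_le_mul (hf u) e4 (abs_nonneg _) zero_le_one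
          _ = e := one_mul e
      have e6 := (abs_le.1 e5).2
      have e7 : |f u| ^ 2 = f u ^ 2 := sq_abs _
      have e8 : 0 ≤ |f u| := abs_nonneg _
      have e9 := hf u
      have e10 : u * (1 - f u ^ 2) ≤ 1 * (1 - f u ^ 2) := by
        refine mul_le_mul_of_nonneg_right hu.2 ?_
        rw [← e7]
        nlinarith
      nlinarith
    have e11 : IntervalIntegrable (fun u => 2 * (1 - |f u|) + e) volume 0 1 := by
      refine IntervalIntegrable.add ?_ intervalIntegrable_const
      refine IntervalIntegrable.const_mul ?_ 2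
      refine IntervalIntegrable.sub intervalIntegrable_const ?_
      exact ha_ii hfm.abs (fun t => by rw [abs_abs]; exact hf t) 0 1
    have e12 := intervalIntegral.integral_mono_on zero_le_one hAii e11 e1
    refine e12.trans ?_
    rw [intervalIntegral.integral_add, intervalIntegral.integral_const_mul,
      intervalIntegral.integral_sub]
    · simp only [intervalIntegral.integral_const, smul_eq_mul, sub_zero, one_mul, mul_one]
      linarith
    · exact intervalIntegrable_const
    · exact ha_ii hfm.abs (fun t => by rw [abs_abs]; exact hf t) 0 1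
    · refine IntervalIntegrable.const_mul ?_ 2
      refine IntervalIntegrable.sub intervalIntegrable_const ?_
      exact ha_ii hfm.abs (fun t => by rw [abs_abs]; exact hf t) 0 1
    · exact intervalIntegrable_const
  -- step 3
  have hΦ0 : ∀ p, 0 ≤ ha_T.indicator A p := fun p => indicator_nonneg (fun q _ => hA0 q) p
  have hΦi := ha_ind_intg hAm hAb
  have hΘi := ha_ind_intg hBm hBb
  have hΦb : ∀ p, |ha_T.indicator A p| ≤ 2 := by
    intro p
    by_cases h : p ∈ ha_T
    · rw [indicator_of_mem h]; exact hAb p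
    · rw [indicator_of_notMem h, abs_zero]; norm_num
  have hΘb : ∀ p, |ha_T.indicator B p| ≤ 2 := by
    intro p
    by_cases h : p ∈ ha_T
    · rw [indicator_of_mem h]; exact hBb p
    · rw [indicator_of_notMem h, abs_zero]; norm_num
  have hΦm : Measurable (ha_T.indicator A) := hAm.indicator ha_T_meas
  have hΘm : Measurable (ha_T.indicator B) := hBm.indicator ha_T_meas
  have hshi : Integrable (fun p : ℝ × ℝ => ha_T.indicator A (p.1 - p.2, p.2))
      (volume.prod volume) := by
    refine ha_intg (hΦm.comp (by fun_prop)) (fun p => hΦb _) (fun p hp => ?_)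
    refine indicator_of_notMem (fun h => hp ?_) _
    obtain ⟨k1, k2, k3⟩ := h
    exact ⟨⟨by linarith, by linarith⟩, ⟨by linarith, by linarith⟩⟩
  have hsci : Integrable (fun p : ℝ × ℝ => ha_T.indicator B (p.1, 2 * p.2))
      (volume.prod volume) := by
    refine ha_intg (hΘm.comp (by fun_prop)) (fun p => hΘb _) (fun p hp => ?_)
    refine indicator_of_notMem (fun h => hp ?_) _
    obtain ⟨k1, k2, k3⟩ := h
    simp only at k1 k2 k3
    exact ⟨⟨by linarith, by linarith⟩, ⟨by linarith, by linarith⟩⟩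
  have hpt : ∀ p : ℝ × ℝ, ha_T.indicator B (p.1, 2 * p.2) ≤
      ha_T.indicator A p + ha_T.indicator A (p.1 - p.2, p.2) := by
    intro p
    by_cases h : (p.1, 2 * p.2) ∈ ha_T
    · obtain ⟨k1, k2, k3⟩ := h
      simp only at k1 k2 k3
      have m1 : p ∈ ha_T := ⟨by linarith, by linarith, k3⟩
      have m2 : ((p.1 - p.2, p.2) : ℝ × ℝ) ∈ ha_T :=
        ⟨by show 0 < p.2; linarith, by show p.2 ≤ p.1 - p.2; linarith,
          by show p.1 - p.2 ≤ 1; linarith⟩
      rw [indicator_of_mem (show ((p.1, 2 * p.2) : ℝ × ℝ) ∈ ha_T from ⟨k1, k2, k3⟩),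
        indicator_of_mem m1, indicator_of_mem m2]
      simp only [hA, hB]
      have := ha_ineq (hf p.1) (hf (p.1 - p.2)) (hf (p.1 - p.2 - p.2)) (hg p.2)
      have e1 : p.1 - 2 * p.2 = p.1 - p.2 - p.2 := by ring
      rw [e1]
      exact this
    · rw [indicator_of_notMem h]
      exact add_nonneg (hΦ0 _) (hΦ0 _)
  have hint := integral_mono hsci (hΦi.add hshi) hpt
  have hadd : (∫ p, (ha_T.indicator A + fun p : ℝ × ℝ => ha_T.indicator A (p.1 - p.2, p.2)) p
      ∂(volume.prod volume)) = (∫ p, ha_T.indicator A p ∂(volume.prod volume)) +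
        ∫ p : ℝ × ℝ, ha_T.indicator A (p.1 - p.2, p.2) ∂(volume.prod volume) :=
    integral_add hΦi hshi
  have hshift : (∫ p : ℝ × ℝ, ha_T.indicator A (p.1 - p.2, p.2) ∂(volume.prod volume)) =
      ∫ p, ha_T.indicator A p ∂(volume.prod volume) := by
    rw [integral_prod_symm _ hshi, integral_prod_symm _ hΦi]
    congr 1
    ext t
    exact integral_sub_right_eq_self (fun u => ha_T.indicator A (u, t)) t
  have hscale : (∫ p : ℝ × ℝ, ha_T.indicator B (p.1, 2 * p.2) ∂(volume.prod volume)) =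
      1 / 2 * ∫ p, ha_T.indicator B p ∂(volume.prod volume) := by
    rw [integral_prod _ hsci, integral_prod _ hΘi, ← integral_const_mul]
    congr 1
    ext u
    have := Measure.integral_comp_mul_left (fun t => ha_T.indicator B (u, t)) 2
    rw [this]
    norm_num
  -- step 4
  have s4 : 1 / 2 - e ≤ ∫ u in (0 : ℝ)..1, ∫ t in (0 : ℝ)..u, B (u, t) := by
    have e1 : ∀ u ∈ Icc (0 : ℝ) 1, u - e ≤ ∫ t in (0 : ℝ)..u, B (u, t) := by
      intro u hu
      have e2 : (∫ t in (0 : ℝ)..u, B (u, t)) = u - f u * ∫ t in (0 : ℝ)..u, f (u - t) := by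
        simp only [hB]
        rw [intervalIntegral.integral_sub, intervalIntegral.integral_const_mul]
        · simp
        · exact intervalIntegrable_const
        · exact (ha_ii (hfs u) (fun t => hf _) 0 u).const_mul _
      have e3 : (∫ t in (0 : ℝ)..u, f (u - t)) = ∫ t in (0 : ℝ)..u, f t := by
        rw [intervalIntegral.integral_comp_sub_left (fun t => f t) u]
        norm_num
      rw [e2, e3]
      have e4 : |f u * ∫ t in (0 : ℝ)..u, f t| ≤ e := by
        rw [abs_mul]
        calc |f u| * |∫ t in (0 : ℝ)..u, f t| ≤ 1 * e :=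
              mul_le_mul (hf u) (h2 u hu.1 hu.2) (abs_nonneg _) zero_le_one
          _ = e := one_mul e
      linarith [(abs_le.1 e4).2]
    have e5 : IntervalIntegrable (fun u : ℝ => u - e) volume 0 1 :=
      (continuous_id.sub continuous_const).intervalIntegrable 0 1
    have e6 := intervalIntegral.integral_mono_on zero_le_one e5 hBii e1
    refine le_trans (le_of_eq ?_) e6
    have e7 : IntervalIntegrable (fun u : ℝ => u) volume 0 1 :=
      (continuous_id' (X := ℝ)).intervalIntegrable 0 1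
    rw [intervalIntegral.integral_sub e7 intervalIntegrable_const, integral_id]
    simp
  rw [hadd, hshift, hscale, hAi, hBi] at hint
  linarith

end Pool.Agent.H97.EP
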