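import Pool.Agent.H97.EP.HB

/-!
# Project EP, module `HC` : the convolution of two prime densities

For `t ∈ (0,u)`: `rho δ (u-t) * rho δ' t = (δ δ' e^u)⁻¹ ∑_{p,q} log p log q 1[e^t < p ≤ (1+δ')e^t]
1[e^{u-t} < q ≤ (1+δ)e^{u-t}]`, the sum over primes `p, q ≤ 4 e^u` (finite).  Put `λ' = log(1+δ')`.
For fixed `p, q` the set of `t ∈ (0,u)` is
`{log p - λ' ≤ t < log p, u - log q < t ≤ u - log q + log(1+δ)}`; its measure `μ(p,q)` satisfies
* `μ ≤ λ'`, and `μ = 0` unless `e^u < p q ≤ (1+δ)(1+δ') e^u` (multiply the inequalities);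
* `μ = λ'` if `(1+δ') e^u < p q ≤ (1+δ) e^u`: then all `t ∈ [log p - λ', log p)` satisfy the second
  condition, and `[log p - λ', log p) ⊆ [0, u)` because `log 2 ≥ log (1+δ')` and
  `p ≤ (1+δ)e^u/q ≤ e^u`.
Integrate term by term.  (`∑_{p,q} log p log q 1[A < pq ≤ B] = th2 A B`: regroup by `n = p q` with
`divisorsAntidiagonal`.)
-/

set_option autoImplicit false
open MeasureTheory Set

namespace Pool.Agent.H97.EP

/-- primes up to `M` -/
private def hc_P (M : ℕ) : Finset ℕ := (Finset.range (M + 1)).filter Nat.Prime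

private theorem hc_mem {M p : ℕ} : p ∈ hc_P M ↔ p ≤ M ∧ p.Prime := by
  simp [hc_P]

private theorem hc_th {A B : ℝ} (hA : 0 ≤ A) (hB : 0 ≤ B) {M : ℕ} (hM : B ≤ M) :
    th A B = ∑ p ∈ hc_P M, if A < p ∧ (p : ℝ) ≤ B then Real.log p else 0 := by
  rw [th, ← Finset.sum_filter]
  refine Finset.sum_congr ?_ fun _ _ => rfl
  ext p
  rw [Finset.mem_filter, Finset.mem_filter, Finset.mem_Ioc, hc_mem, Nat.floor_lt hA,
    Nat.le_floor_iff hB]
  constructor
  · rintro ⟨⟨h1, h2⟩, h3⟩
    exact ⟨⟨by exact_mod_cast h2.trans hM, h3⟩, h1, h2⟩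
  · rintro ⟨⟨_, h3⟩, h1, h2⟩
    exact ⟨⟨h1, h2⟩, h3⟩

private theorem hc_th2 {A B : ℝ} (hA : 0 ≤ A) (hB : 0 ≤ B) {M : ℕ} (hM : B ≤ M) :
    th2 A B = ∑ p ∈ hc_P M, ∑ q ∈ hc_P M,
      if A < (p : ℝ) * q ∧ (p : ℝ) * q ≤ B then Real.log p * Real.log q else 0 := by
  rw [← Finset.sum_product' (hc_P M) (hc_P M) (fun p q : ℕ =>
    if A < (p : ℝ) * q ∧ (p : ℝ) * q ≤ B then Real.log p * Real.log q else 0), ← Finset.sum_filter,
    th2]
  have hmap : ∀ x ∈ (hc_P M ×ˢ hc_P M).filter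
      (fun x : ℕ × ℕ => A < (x.1 : ℝ) * x.2 ∧ (x.1 : ℝ) * x.2 ≤ B),
      x.1 * x.2 ∈ Finset.Ioc ⌊A⌋₊ ⌊B⌋₊ := by
    intro x hx
    obtain ⟨-, h1, h2⟩ := Finset.mem_filter.mp hx
    rw [Finset.mem_Ioc, Nat.floor_lt hA, Nat.le_floor_iff hB]
    push_cast
    exact ⟨h1, h2⟩
  rw [← Finset.sum_fiberwise_of_maps_to hmap]
  refine Finset.sum_congr rfl fun n hn => Finset.sum_congr ?_ fun _ _ => rfl
  rw [Finset.mem_Ioc, Nat.floor_lt hA, Nat.le_floor_iff hB] at hn
  ext x
  rw [Finset.mem_filter, Finset.mem_filter, Finset.mem_filter, Finset.mem_product, hc_mem, hc_mem,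
    Nat.mem_divisorsAntidiagonal]
  constructor
  · rintro ⟨⟨h1, h2⟩, h3, h4⟩
    have h5 : ((n : ℕ) : ℝ) = (x.1 : ℝ) * x.2 := by
      rw [← h1]
      push_cast
      rfl
    have hnM : n ≤ M := by exact_mod_cast hn.2.trans hM
    refine ⟨⟨⟨⟨?_, h3⟩, ?_, h4⟩, ?_⟩, h1⟩
    · refine le_trans ?_ hnM
      rw [← h1]
      exact Nat.le_mul_of_pos_right _ h4.pos
    · refine le_trans ?_ hnM
      rw [← h1]
      exact Nat.le_mul_of_pos_left _ h3.pos
    · rw [← h5]
      exact hn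
  · rintro ⟨⟨⟨⟨_, h3⟩, _, h4⟩, h5⟩, h1⟩
    refine ⟨⟨h1, ?_⟩, h3, h4⟩
    rw [← h1]
    exact (Nat.mul_pos h3.pos h4.pos).ne'

/-- the set of `t` for the pair `p, q` -/
private def hc_T (δ δ' u : ℝ) (p q : ℕ) : Set ℝ :=
  {t | (Real.exp t < p ∧ (p : ℝ) ≤ (1 + δ') * Real.exp t) ∧
    Real.exp (u - t) < q ∧ (q : ℝ) ≤ (1 + δ) * Real.exp (u - t)}

private theorem hc_T_meas (δ δ' u : ℝ) (p q : ℕ) : MeasurableSet (hc_T δ δ' u p q) := by
  have h1 : Measurable fun t : ℝ => Real.exp t := Real.measurable_exp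
  have h2 : Measurable fun t : ℝ => Real.exp (u - t) :=
    Real.measurable_exp.comp (measurable_const.sub measurable_id)
  exact ((measurableSet_lt h1 measurable_const).inter
    (measurableSet_le measurable_const (h1.const_mul _))).inter
    ((measurableSet_lt h2 measurable_const).inter
    (measurableSet_le measurable_const (h2.const_mul _)))

private theorem hc_point {δ δ' u : ℝ} (hδ : 0 < δ) (hδ1 : δ ≤ 1) (hδ' : 0 < δ') (hδδ : δ' ≤ δ)
    {M : ℕ} (hM : 4 * Real.exp u ≤ M) {t : ℝ} (ht0 : 0 < t) (htu : t ≤ u) :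
    rho δ (u - t) * rho δ' t = (δ * δ' * Real.exp u)⁻¹ * ∑ p ∈ hc_P M, ∑ q ∈ hc_P M,
      Real.log p * Real.log q * (hc_T δ δ' u p q).indicator 1 t := by
  have he : Real.exp (u - t) * Real.exp t = Real.exp u := by
    rw [← Real.exp_add]
    congr 1
    ring
  have hb1 : (1 + δ) * Real.exp (u - t) ≤ M := by
    have h1 : Real.exp (u - t) ≤ Real.exp u := Real.exp_le_exp.mpr (by linarith)
    have h2 := Real.exp_pos (u - t)
    nlinarith
  have hb2 : (1 + δ') * Real.exp t ≤ M := by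
    have h1 : Real.exp t ≤ Real.exp u := Real.exp_le_exp.mpr htu
    have h2 := Real.exp_pos t
    nlinarith
  have h1 : th (Real.exp (u - t)) ((1 + δ) * Real.exp (u - t)) *
      th (Real.exp t) ((1 + δ') * Real.exp t) = ∑ p ∈ hc_P M, ∑ q ∈ hc_P M,
      Real.log p * Real.log q * (hc_T δ δ' u p q).indicator 1 t := by
    rw [hc_th (Real.exp_pos _).le (by positivity) hb1, hc_th (Real.exp_pos _).le (by positivity) hb2,
      mul_comm, Finset.sum_mul_sum]
    refine Finset.sum_congr rfl fun p _ => Finset.sum_congr rfl fun q _ => ?_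
    by_cases hp : Real.exp t < p ∧ (p : ℝ) ≤ (1 + δ') * Real.exp t
    · by_cases hq : Real.exp (u - t) < q ∧ (q : ℝ) ≤ (1 + δ) * Real.exp (u - t)
      · have hmem : t ∈ hc_T δ δ' u p q := ⟨hp, hq⟩
        rw [if_pos hp, if_pos hq, Set.indicator_of_mem hmem, Pi.one_apply, mul_one]
      · have hmem : t ∉ hc_T δ δ' u p q := fun h => hq h.2
        rw [if_neg hq, Set.indicator_of_notMem hmem, mul_zero, mul_zero]
    · have hmem : t ∉ hc_T δ δ' u p q := fun h => hp h.1
      rw [if_neg hp, Set.indicator_of_notMem hmem, mul_zero, zero_mul]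
  rw [← h1, rho, rho, ← he]
  have h3 := (Real.exp_pos (u - t)).ne'
  have h4 := (Real.exp_pos t).ne'
  field_simp

/-- the measure of the set of `t` -/
private theorem hc_upper {δ δ' u : ℝ} (hδ : 0 < δ) (hδ' : 0 < δ') {p q : ℕ} (hp : p.Prime)
    (hq : q.Prime) : (volume.restrict (Ioc 0 u)).real (hc_T δ δ' u p q) ≤
      if Real.exp u < (p : ℝ) * q ∧ (p : ℝ) * q ≤ (1 + δ) * ((1 + δ') * Real.exp u) then
        Real.log (1 + δ') else 0 := by
  have hp0 : (0 : ℝ) < p := by exact_mod_cast hp.pos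
  have hq0 : (0 : ℝ) < q := by exact_mod_cast hq.pos
  split_ifs with hc
  · have hsub : hc_T δ δ' u p q ⊆ Icc (Real.log p - Real.log (1 + δ')) (Real.log p) := by
      rintro t ⟨⟨h1, h2⟩, -⟩
      constructor
      · rw [sub_le_iff_le_add, add_comm]
        have h3 : Real.log p ≤ Real.log ((1 + δ') * Real.exp t) := Real.log_le_log hp0 h2
        rw [Real.log_mul (by positivity) (Real.exp_pos t).ne', Real.log_exp] at h3
        exact h3
      · exact (Real.lt_log_iff_exp_lt hp0).mpr h1 |>.le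
    have hfin : (volume.restrict (Ioc 0 u)) (Icc (Real.log p - Real.log (1 + δ')) (Real.log p)) ≤
        ENNReal.ofReal (Real.log (1 + δ')) := by
      refine (Measure.restrict_apply_le _ _).trans ?_
      rw [Real.volume_Icc]
      refine le_of_eq ?_
      congr 1
      ring
    rw [Measure.real]
    refine ENNReal.toReal_le_of_le_ofReal (Real.log_nonneg (by linarith)) ?_
    exact (measure_mono hsub).trans hfin
  · have hempty : hc_T δ δ' u p q = ∅ := by
      rw [Set.eq_empty_iff_forall_notMem]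
      rintro t ⟨⟨h1, h2⟩, h3, h4⟩
      apply hc
      have he : Real.exp t * Real.exp (u - t) = Real.exp u := by
        rw [← Real.exp_add]
        congr 1
        ring
      constructor
      · rw [← he]
        exact mul_lt_mul'' h1 h3 (Real.exp_pos _).le (Real.exp_pos _).le
      · rw [← he]
        calc (p : ℝ) * q ≤ ((1 + δ') * Real.exp t) * ((1 + δ) * Real.exp (u - t)) :=
              mul_le_mul h2 h4 hq0.le (by positivity)
          _ = _ := by ring
    rw [hempty, measureReal_empty]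

private theorem hc_lower {δ δ' u : ℝ} (hδ : 0 < δ) (hδ1 : δ ≤ 1) (hδ' : 0 < δ') (hδδ : δ' ≤ δ)
    {p q : ℕ} (hp : p.Prime) (hq : q.Prime)
    (hc : (1 + δ') * Real.exp u < (p : ℝ) * q ∧ (p : ℝ) * q ≤ (1 + δ) * Real.exp u) :
    Real.log (1 + δ') ≤ (volume.restrict (Ioc 0 u)).real (hc_T δ δ' u p q) := by
  have hp2 : (2 : ℝ) ≤ p := by exact_mod_cast hp.two_le
  have hq2 : (2 : ℝ) ≤ q := by exact_mod_cast hq.two_le
  have hp0 : (0 : ℝ) < p := by linarith
  have hq0 : (0 : ℝ) < q := by linarith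
  have hE := Real.exp_pos u
  have hpu : (p : ℝ) ≤ Real.exp u := by nlinarith [hc.2]
  have hlog0 : 0 ≤ Real.log p - Real.log (1 + δ') := by
    have h1 : Real.log (1 + δ') ≤ Real.log p := Real.log_le_log (by linarith) (by linarith)
    linarith
  have hlogu : Real.log p ≤ u := by
    rw [Real.log_le_iff_le_exp hp0]
    exact hpu
  have hsub : Ioo (Real.log p - Real.log (1 + δ')) (Real.log p) ⊆ hc_T δ δ' u p q ∩ Ioc 0 u := by
    rintro t ⟨h1, h2⟩
    have ht1 : Real.exp t < p := (Real.lt_log_iff_exp_lt hp0).mp h2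
    have ht2 : (p : ℝ) < (1 + δ') * Real.exp t := by
      have h3 : Real.log p < Real.log (1 + δ') + t := by linarith
      rw [Real.log_lt_iff_lt_exp hp0, Real.exp_add, Real.exp_log (by linarith)] at h3
      exact h3
    have he : Real.exp t * Real.exp (u - t) = Real.exp u := by
      rw [← Real.exp_add]
      congr 1
      ring
    have ht0 := Real.exp_pos t
    have hut0 := Real.exp_pos (u - t)
    refine ⟨⟨⟨ht1, ht2.le⟩, ?_, ?_⟩, ?_, ?_⟩
    · -- `e^(u-t) < q`
      have h4 : p * Real.exp (u - t) < p * (q : ℝ) := by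
        calc p * Real.exp (u - t) < ((1 + δ') * Real.exp t) * Real.exp (u - t) :=
              mul_lt_mul_of_pos_right ht2 hut0
          _ = (1 + δ') * Real.exp u := by rw [mul_assoc, he]
          _ < p * q := hc.1
      exact lt_of_mul_lt_mul_left h4 hp0.le
    · have h4 : Real.exp t * (q : ℝ) ≤ Real.exp t * ((1 + δ) * Real.exp (u - t)) := by
        calc Real.exp t * (q : ℝ) ≤ p * q := mul_le_mul_of_nonneg_right ht1.le hq0.le
          _ ≤ (1 + δ) * Real.exp u := hc.2
          _ = _ := by rw [← he]; ring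
      exact le_of_mul_le_mul_left h4 ht0
    · linarith
    · linarith
  have h1 : ENNReal.ofReal (Real.log (1 + δ')) ≤ (volume.restrict (Ioc 0 u)) (hc_T δ δ' u p q) := by
    rw [Measure.restrict_apply (hc_T_meas _ _ _ _ _)]
    refine le_trans (le_of_eq ?_) (measure_mono hsub)
    rw [Real.volume_Ioo]
    congr 1
    ring
  rw [Measure.real]
  exact (ENNReal.ofReal_le_iff_le_toReal (measure_ne_top _ _)).mp h1

theorem conv_bounds {δ δ' u : ℝ} (hδ : 0 < δ) (hδ1 : δ ≤ 1) (hδ' : 0 < δ') (hδδ : δ' ≤ δ)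
    (hu : 0 ≤ u) :
    Real.log (1 + δ') / δ' * (th2 ((1 + δ') * Real.exp u) ((1 + δ) * Real.exp u) /
      (δ * Real.exp u)) ≤ (∫ t in (0 : ℝ)..u, rho δ (u - t) * rho δ' t) ∧
    (∫ t in (0 : ℝ)..u, rho δ (u - t) * rho δ' t) ≤ Real.log (1 + δ') / δ' *
      (th2 (Real.exp u) ((1 + δ) * ((1 + δ') * Real.exp u)) / (δ * Real.exp u)) := by
  have hE := Real.exp_pos u
  obtain ⟨M, hM⟩ := exists_nat_ge (4 * Real.exp u)
  have hint : ∀ p q : ℕ, Integrable (fun t : ℝ => Real.log p * Real.log q *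
      (hc_T δ δ' u p q).indicator 1 t) (volume.restrict (Ioc 0 u)) := by
    intro p q
    refine Integrable.const_mul ?_ _
    exact (integrable_const (1 : ℝ)).indicator (hc_T_meas δ δ' u p q)
  have hI : (∫ t in (0 : ℝ)..u, rho δ (u - t) * rho δ' t) = (δ * δ' * Real.exp u)⁻¹ *
      ∑ p ∈ hc_P M, ∑ q ∈ hc_P M, Real.log p * Real.log q *
        (volume.restrict (Ioc 0 u)).real (hc_T δ δ' u p q) := by
    rw [intervalIntegral.integral_of_le hu, setIntegral_congr_fun measurableSet_Ioc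
      (fun t ht => hc_point hδ hδ1 hδ' hδδ hM ht.1 ht.2), integral_const_mul]
    congr 1
    rw [integral_finsetSum _ fun p _ => integrable_finsetSum _ fun q _ => hint p q]
    refine Finset.sum_congr rfl fun p _ => ?_
    rw [integral_finsetSum _ fun q _ => hint p q]
    refine Finset.sum_congr rfl fun q _ => ?_
    rw [integral_const_mul, integral_indicator_one (hc_T_meas δ δ' u p q)]
  have hlog : ∀ p ∈ hc_P M, 0 ≤ Real.log (p : ℝ) := fun p _ => Real.log_natCast_nonneg p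
  have hinv : 0 ≤ (δ * δ' * Real.exp u)⁻¹ := by positivity
  have hform : ∀ S : ℝ, Real.log (1 + δ') / δ' * (S / (δ * Real.exp u)) =
      (δ * δ' * Real.exp u)⁻¹ * (S * Real.log (1 + δ')) := by
    intro S
    field_simp
  rw [hI, hform, hform]
  constructor
  · refine mul_le_mul_of_nonneg_left ?_ hinv
    rw [hc_th2 (by positivity) (by positivity) (M := M) (by nlinarith), Finset.sum_mul]
    refine Finset.sum_le_sum fun p hp => ?_
    rw [Finset.sum_mul]
    refine Finset.sum_le_sum fun q hq => ?_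
    have h0 : 0 ≤ Real.log (p : ℝ) * Real.log q := mul_nonneg (hlog p hp) (hlog q hq)
    split_ifs with hc
    · exact mul_le_mul_of_nonneg_left
        (hc_lower hδ hδ1 hδ' hδδ (hc_mem.mp hp).2 (hc_mem.mp hq).2 hc) h0
    · rw [zero_mul]
      exact mul_nonneg h0 measureReal_nonneg
  · refine mul_le_mul_of_nonneg_left ?_ hinv
    have h4 : (1 + δ) * ((1 + δ') * Real.exp u) ≤ M := by
      have h5 : (1 + δ) * (1 + δ') ≤ 2 * 2 := mul_le_mul (by linarith) (by linarith)
        (by linarith) (by norm_num)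
      have h6 := mul_le_mul_of_nonneg_right h5 hE.le
      linarith
    rw [hc_th2 (A := Real.exp u) (by positivity) (by positivity) h4, Finset.sum_mul]
    refine Finset.sum_le_sum fun p hp => ?_
    rw [Finset.sum_mul]
    refine Finset.sum_le_sum fun q hq => ?_
    have h0 : 0 ≤ Real.log (p : ℝ) * Real.log q := mul_nonneg (hlog p hp) (hlog q hq)
    have h1 := hc_upper (u := u) hδ hδ' (hc_mem.mp hp).2 (hc_mem.mp hq).2
    split_ifs with hc
    · rw [if_pos hc] at h1
      exact mul_le_mul_of_nonneg_left h1 h0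
    · rw [if_neg hc] at h1
      rw [zero_mul]
      exact mul_nonpos_of_nonneg_of_nonpos h0 h1

end Pool.Agent.H97.EP
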