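import Pool.Agent.H97.EP.HC
import Pool.Agent.H97.EP.HD

/-!
# Project EP, module `HE` : the convolution identity for `1 - rho`

Let `X = e^u`, `u ≥ κL` (`> 0`), `S(u) = th2 (e^u) ((1+δ)e^u)/(δ e^u)`.  `SelS` applies to `(X, X + Y]`
for `Y = δX` and `Y = δ'X`, and also with `X` replaced by `(1+δ)e^u`, `Y = δ'(1+δ)e^u`, because
`X ≥ X0` (`u ≥ κL ≥ log X0`), `X^θ = e^{θu} ≤ δ' e^u` (`δ' ≥ e^{-(1-θ)κL} ≥ e^{-(1-θ)u}`), `δ ≤ 1`.
(a) `|u rho δ u + S(u) - 2u| ≤ η u` (`SelS` divided by `δ e^u`), so `rho δ u ≤ 2 + η` and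
    `S(u) ≤ (2+η) u ≤ 3u`; the same for `δ'`.
(b) `th2 (e^u) ((1+δ')e^u) ≤ 3 δ' e^u u`, `th2 ((1+δ)e^u) ((1+δ)(1+δ')e^u) ≤ 3·2δ' e^u (u + 1)`.
    With `conv_bounds`, `th2_add`, `1 - δ'/2 ≤ log(1+δ')/δ' ≤ 1`:
    `|∫_0^u rho δ (u-t) rho δ' t dt - S(u)| ≤ 6 (δ'/δ)(u+1) + (3/2) δ' u + 3(δ'/δ) u ≤
     C (δ'/δ + δ') L + C`.
(c) `mass` (constant `K`): `∫_0^{κL} rho δ' ≤ κL + K`, and for `t ≤ κL`, `u - t ≥ κL`, so
    `0 ≤ ∫_0^{κL} rho δ (u-t) rho δ' t dt ≤ (2+η)(κL + K) ≤ 3κL + 3K`; in the same way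
    `∫_{u-κL}^u ≤ 3κL + 3K` (there `t ≥ u - κL ≥ κL`; substitute `t -> u - t`).
(d) `∫_{κL}^{u-κL} rho δ = u - 2κL + O(2K)`, the same for `δ'` and for `rho δ (u - t)`.
    `∫_{κL}^{u-κL} (1 - rho δ (u-t))(1 - rho δ' t) dt = (u - 2κL) - ∫rho δ(u-t) - ∫rho δ' +
    ∫ rho δ (u-t) rho δ' t`.
    By (b), (c), (d) and (a) this is `-(u - 2κL) + S(u) + ... = -u + 2u - u rho δ u + ... =
    u (1 - rho δ u) + error`, `|error| ≤ 2κL + 4K + 6κL + 6K + C(δ'/δ+δ')L + C + ηL`.
-/

set_option autoImplicit false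
open MeasureTheory Set

namespace Pool.Agent.H97.EP

/-- `SelS` for `X = e^u`, `Y = δ e^u`, divided by `δ e^u`. -/
private lemma he_sel {η θ X0 v δ : ℝ} (hθ : θ < 1) (hX0 : 1 ≤ X0)
    (hS : SelS η θ X0) (hv : Real.log X0 ≤ v) {w : ℝ} (hwv : w ≤ v) (hδ : 0 < δ) (hδ1 : δ ≤ 1)
    (hexp : Real.exp (-((1 - θ) * w)) ≤ δ) :
    |v * rho δ v + th2 (Real.exp v) ((1 + δ) * Real.exp v) / (δ * Real.exp v) - 2 * v| ≤
      η * v := by
  have hE : 0 < Real.exp v := Real.exp_pos v
  have h1 : X0 ≤ Real.exp v := by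
    rw [← Real.log_le_iff_le_exp (by linarith)]
    exact hv
  have h2 : Real.exp v ^ θ ≤ δ * Real.exp v := by
    rw [← Real.exp_mul]
    have e1 : Real.exp (v * θ) = Real.exp (-((1 - θ) * v)) * Real.exp v := by
      rw [← Real.exp_add]
      congr 1
      ring
    rw [e1]
    refine mul_le_mul_of_nonneg_right (le_trans ?_ hexp) hE.le
    rw [Real.exp_le_exp]
    nlinarith
  have h3 : δ * Real.exp v ≤ Real.exp v := mul_le_of_le_one_left hE.le hδ1
  have h4 := hS _ h1 _ h2 h3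
  have e2 : Real.exp v + δ * Real.exp v = (1 + δ) * Real.exp v := by ring
  rw [e2, Real.log_exp] at h4
  have hδE : 0 < δ * Real.exp v := by positivity
  have e3 : v * rho δ v + th2 (Real.exp v) ((1 + δ) * Real.exp v) / (δ * Real.exp v) - 2 * v =
      (th (Real.exp v) ((1 + δ) * Real.exp v) * v + th2 (Real.exp v) ((1 + δ) * Real.exp v) -
        2 * (δ * Real.exp v) * v) / (δ * Real.exp v) := by
    rw [rho]
    field_simp
  rw [e3, abs_div, abs_of_pos hδE, div_le_iff₀ hδE]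
  calc _ ≤ η * (δ * Real.exp v) * v := h4
    _ = η * v * (δ * Real.exp v) := by ring

/-- Upper bound for `th2` from `SelS`. -/
private lemma he_th2 {η θ X0 v δ : ℝ} (hθ : θ < 1) (hX0 : 1 ≤ X0) (hη1 : η ≤ 1)
    (hS : SelS η θ X0) (hv : Real.log X0 ≤ v) {w : ℝ} (hwv : w ≤ v) (hv0 : 0 ≤ v) (hδ : 0 < δ)
    (hδ1 : δ ≤ 1) (hexp : Real.exp (-((1 - θ) * w)) ≤ δ) :
    th2 (Real.exp v) ((1 + δ) * Real.exp v) ≤ 3 * v * (δ * Real.exp v) := by
  have h1 := (abs_le.1 (he_sel hθ hX0 hS hv hwv hδ hδ1 hexp)).2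
  have hE : 0 < δ * Real.exp v := mul_pos hδ (Real.exp_pos v)
  have h2 := rho_nonneg hδ v
  rw [← div_le_iff₀ hE]
  nlinarith [mul_nonneg hv0 h2]

private lemma he_log_le {x : ℝ} (hx : 0 < x) : Real.log (1 + x) / x ≤ 1 := by
  rw [div_le_one hx]
  have := Real.log_le_sub_one_of_pos (show 0 < 1 + x by linarith)
  linarith

private lemma he_log_ge {x : ℝ} (hx : 0 < x) : 1 - x / 2 ≤ Real.log (1 + x) / x := by
  rw [le_div_iff₀ hx]
  have h := Real.le_log_one_add_of_nonneg hx.le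
  refine le_trans ?_ h
  rw [le_div_iff₀ (by linarith)]
  nlinarith [mul_pos hx hx, mul_pos (mul_pos hx hx) hx]

theorem ci : ∃ C : ℝ, 0 < C ∧ ∀ η θ X0 κ L δ δ' : ℝ, 0 < η → η ≤ 1 → θ < 1 → 1 ≤ X0 →
    SelS η θ X0 → 0 < κ → κ ≤ 1 / 4 → 0 < L → Real.log X0 ≤ κ * L → 0 < δ' → δ' ≤ δ → δ ≤ 1 →
    Real.exp (-((1 - θ) * (κ * L))) ≤ δ' →
    (∀ u : ℝ, κ * L ≤ u → u ≤ L → rho δ u ≤ 2 + η ∧ rho δ' u ≤ 2 + η) ∧
    (∀ u : ℝ, 2 * (κ * L) ≤ u → u ≤ L →
      |u * (1 - rho δ u) - ∫ t in (κ * L)..(u - κ * L), (1 - rho δ (u - t)) * (1 - rho δ' t)| ≤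
        (η + 8 * κ) * L + C * (δ' / δ + δ') * L + C) ∧
    (∀ u : ℝ, κ * L ≤ u → u ≤ L → |∫ t in (κ * L)..u, (1 - rho δ t)| ≤ C) := by
  obtain ⟨K, hK, hmass⟩ := mass
  refine ⟨10 * K + 10, by linarith, ?_⟩
  intro η θ X0 κ L δ δ' hη hη1 hθ hX0 hS hκ hκ4 hL hlog hδ' hδδ hδ1 hexp
  have hδ : 0 < δ := lt_of_lt_of_le hδ' hδδ
  have hδ'1 : δ' ≤ 1 := hδδ.trans hδ1
  have hκL : 0 < κ * L := mul_pos hκ hL
  have hexp' : Real.exp (-((1 - θ) * (κ * L))) ≤ δ := hexp.trans hδδ
  -- (a)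
  have ha : ∀ v : ℝ, κ * L ≤ v → rho δ v ≤ 2 + η := by
    intro v hv
    have h1 := (abs_le.1 (he_sel hθ hX0 hS (hlog.trans hv) hv hδ hδ1 hexp')).2
    have hv0 : 0 < v := lt_of_lt_of_le hκL hv
    have h2 : 0 ≤ th2 (Real.exp v) ((1 + δ) * Real.exp v) / (δ * Real.exp v) :=
      div_nonneg (th2_nonneg _ _) (by positivity)
    have h3 : v * rho δ v ≤ v * (2 + η) := by linarith
    exact le_of_mul_le_mul_left h3 hv0
  have ha' : ∀ v : ℝ, κ * L ≤ v → rho δ' v ≤ 2 + η := by
    intro v hv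
    have h1 := (abs_le.1 (he_sel hθ hX0 hS (hlog.trans hv) hv hδ' hδ'1 hexp)).2
    have hv0 : 0 < v := lt_of_lt_of_le hκL hv
    have h2 : 0 ≤ th2 (Real.exp v) ((1 + δ') * Real.exp v) / (δ' * Real.exp v) :=
      div_nonneg (th2_nonneg _ _) (by positivity)
    have h3 : v * rho δ' v ≤ v * (2 + η) := by linarith
    exact le_of_mul_le_mul_left h3 hv0
  have hri : ∀ δ₁ : ℝ, 0 < δ₁ → ∀ u a b : ℝ,
      IntervalIntegrable (fun t => rho δ₁ (u - t)) volume a b := by
    intro δ₁ hδ₁ u a b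
    have := (rho_int hδ₁ (u - a) (u - b)).comp_sub_left u
    simpa using this
  -- integrals over subintervals
  have hsub : ∀ δ₁ : ℝ, 0 < δ₁ → δ₁ ≤ 1 → ∀ v w : ℝ, 0 ≤ v → 0 ≤ w →
      |(∫ t in v..w, rho δ₁ t) - (w - v)| ≤ 2 * K := by
    intro δ₁ hδ₁ hδ₁1 v w hv hw
    have h1 := intervalIntegral.integral_interval_sub_left (rho_int hδ₁ 0 w) (rho_int hδ₁ 0 v)
    have h2 := abs_le.1 (hmass δ₁ v hδ₁ hδ₁1 hv)
    have h3 := abs_le.1 (hmass δ₁ w hδ₁ hδ₁1 hw)
    rw [← h1, abs_le]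
    constructor <;> linarith [h2.1, h2.2, h3.1, h3.2]
  refine ⟨fun u hu _ => ⟨ha u hu, ha' u hu⟩, ?_, ?_⟩
  · intro u hu huL
    have hu0 : 0 < u := by linarith
    have huκ : κ * L ≤ u := by linarith
    have hE : 0 < Real.exp u := Real.exp_pos u
    set S : ℝ := th2 (Real.exp u) ((1 + δ) * Real.exp u) / (δ * Real.exp u) with hSdef
    set J : ℝ := ∫ t in (0 : ℝ)..u, rho δ (u - t) * rho δ' t with hJ
    have hSel := he_sel hθ hX0 hS (hlog.trans huκ) huκ hδ hδ1 hexp'
    rw [← hSdef] at hSel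
    obtain ⟨hSel1, hSel2⟩ := abs_le.1 hSel
    have hδE : 0 < δ * Real.exp u := by positivity
    have hS3 : S ≤ 3 * u := by
      have := he_th2 hθ hX0 hη1 hS (hlog.trans huκ) huκ hu0.le hδ hδ1 hexp'
      rw [hSdef, div_le_iff₀ hδE]
      exact this
    -- (b)
    obtain ⟨hJ1, hJ2⟩ := conv_bounds hδ hδ1 hδ' hδδ hu0.le
    rw [← hJ] at hJ1 hJ2
    have hup : J ≤ S + 6 * (δ' / δ) * (u + 1) := by
      have e1 : th2 (Real.exp u) ((1 + δ) * ((1 + δ') * Real.exp u)) =
          th2 (Real.exp u) ((1 + δ) * Real.exp u) +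
            th2 ((1 + δ) * Real.exp u) ((1 + δ) * ((1 + δ') * Real.exp u)) := by
        refine th2_add hE.le ?_ ?_
        · nlinarith
        · refine mul_le_mul_of_nonneg_left ?_ (by linarith)
          nlinarith
      set v := u + Real.log (1 + δ) with hv
      have hlog0 : 0 ≤ Real.log (1 + δ) := Real.log_nonneg (by linarith)
      have hlog1 : Real.log (1 + δ) ≤ 1 := by
        have := Real.log_le_sub_one_of_pos (show 0 < 1 + δ by linarith)
        linarith
      have hev : Real.exp v = (1 + δ) * Real.exp u := by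
        rw [hv, Real.exp_add, Real.exp_log (by linarith), mul_comm]
      have huv : u ≤ v := by linarith
      have e2 := he_th2 hθ hX0 hη1 hS (hlog.trans (huκ.trans huv)) (huκ.trans huv)
        (hu0.le.trans huv) hδ' hδ'1 hexp
      rw [hev] at e2
      have e3 : (1 + δ') * ((1 + δ) * Real.exp u) = (1 + δ) * ((1 + δ') * Real.exp u) := by ring
      rw [e3] at e2
      have e4 : 3 * v * (δ' * ((1 + δ) * Real.exp u)) ≤
          6 * (δ' / δ) * (u + 1) * (δ * Real.exp u) := by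
        have e5 : 6 * (δ' / δ) * (u + 1) * (δ * Real.exp u) =
            3 * (u + 1) * (δ' * (2 * Real.exp u)) := by
          field_simp
          ring
        rw [e5]
        apply mul_le_mul
        · linarith
        · refine mul_le_mul_of_nonneg_left ?_ hδ'.le
          exact mul_le_mul_of_nonneg_right (by linarith) hE.le
        · positivity
        · positivity
      have e6 : th2 (Real.exp u) ((1 + δ) * ((1 + δ') * Real.exp u)) / (δ * Real.exp u) ≤
          S + 6 * (δ' / δ) * (u + 1) := by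
        rw [e1, add_div]
        have e7 : th2 ((1 + δ) * Real.exp u) ((1 + δ) * ((1 + δ') * Real.exp u)) /
            (δ * Real.exp u) ≤ 6 * (δ' / δ) * (u + 1) := by
          rw [div_le_iff₀ hδE]
          exact e2.trans e4
        linarith
      refine hJ2.trans (le_trans ?_ e6)
      exact mul_le_of_le_one_left (div_nonneg (th2_nonneg _ _) hδE.le) (he_log_le hδ')
    have hlow : S - 3 * (δ' / δ) * u - 3 / 2 * δ' * u ≤ J := by
      set T : ℝ := th2 ((1 + δ') * Real.exp u) ((1 + δ) * Real.exp u) / (δ * Real.exp u) with hT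
      have e1 : th2 (Real.exp u) ((1 + δ) * Real.exp u) =
          th2 (Real.exp u) ((1 + δ') * Real.exp u) +
            th2 ((1 + δ') * Real.exp u) ((1 + δ) * Real.exp u) := by
        refine th2_add hE.le ?_ ?_
        · nlinarith
        · exact mul_le_mul_of_nonneg_right (by linarith) hE.le
      have e2 := he_th2 hθ hX0 hη1 hS (hlog.trans huκ) huκ hu0.le hδ' hδ'1 hexp
      have e3 : S = th2 (Real.exp u) ((1 + δ') * Real.exp u) / (δ * Real.exp u) + T := by
        rw [hSdef, e1, add_div]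
      have e4 : th2 (Real.exp u) ((1 + δ') * Real.exp u) / (δ * Real.exp u) ≤
          3 * (δ' / δ) * u := by
        rw [div_le_iff₀ hδE]
        refine e2.trans (le_of_eq ?_)
        field_simp
      have e5 : 0 ≤ th2 (Real.exp u) ((1 + δ') * Real.exp u) / (δ * Real.exp u) :=
        div_nonneg (th2_nonneg _ _) hδE.le
      have e6 : 0 ≤ T := div_nonneg (th2_nonneg _ _) hδE.le
      have e7 : (1 - δ' / 2) * T ≤ J :=
        (mul_le_mul_of_nonneg_right (he_log_ge hδ') e6).trans hJ1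
      have e8 : T ≤ 3 * u := by linarith
      have e9 : δ' * T ≤ δ' * (3 * u) := mul_le_mul_of_nonneg_left e8 hδ'.le
      linarith
    -- the middle part
    set M : ℝ := ∫ t in (κ * L)..(u - κ * L), rho δ (u - t) * rho δ' t with hM
    have hint : ∀ a b : ℝ, IntervalIntegrable (fun t => rho δ (u - t) * rho δ' t) volume a b :=
      fun a b => rho_mul_int hδ hδ' u a b
    have hJM : J = (∫ t in (0 : ℝ)..(κ * L), rho δ (u - t) * rho δ' t) + M +
        ∫ t in (u - κ * L)..u, rho δ (u - t) * rho δ' t := by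
      rw [hJ, hM, intervalIntegral.integral_add_adjacent_intervals (hint _ _) (hint _ _),
        intervalIntegral.integral_add_adjacent_intervals (hint _ _) (hint _ _)]
    have hfirst : 0 ≤ (∫ t in (0 : ℝ)..(κ * L), rho δ (u - t) * rho δ' t) ∧
        (∫ t in (0 : ℝ)..(κ * L), rho δ (u - t) * rho δ' t) ≤ 3 * (κ * L + K) := by
      constructor
      · exact intervalIntegral.integral_nonneg hκL.le fun t _ =>
          mul_nonneg (rho_nonneg hδ _) (rho_nonneg hδ' _)
      · have e1 : (∫ t in (0 : ℝ)..(κ * L), rho δ (u - t) * rho δ' t) ≤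
            ∫ t in (0 : ℝ)..(κ * L), 3 * rho δ' t := by
          refine intervalIntegral.integral_mono_on hκL.le (hint _ _)
            ((rho_int hδ' _ _).const_mul 3) fun t ht => ?_
          refine mul_le_mul_of_nonneg_right ?_ (rho_nonneg hδ' _)
          have := ha (u - t) (by linarith [ht.2])
          linarith
        rw [intervalIntegral.integral_const_mul] at e1
        have e2 := (abs_le.1 (hmass δ' (κ * L) hδ' hδ'1 hκL.le)).2
        linarith
    have hlast : 0 ≤ (∫ t in (u - κ * L)..u, rho δ (u - t) * rho δ' t) ∧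
        (∫ t in (u - κ * L)..u, rho δ (u - t) * rho δ' t) ≤ 3 * (κ * L + K) := by
      have hle : u - κ * L ≤ u := by linarith
      constructor
      · exact intervalIntegral.integral_nonneg hle fun t _ =>
          mul_nonneg (rho_nonneg hδ _) (rho_nonneg hδ' _)
      · have e1 : (∫ t in (u - κ * L)..u, rho δ (u - t) * rho δ' t) ≤
            ∫ t in (u - κ * L)..u, 3 * rho δ (u - t) := by
          refine intervalIntegral.integral_mono_on hle (hint _ _)
            ((hri δ hδ u _ _).const_mul 3) fun t ht => ?_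
          rw [mul_comm]
          refine mul_le_mul_of_nonneg_right ?_ (rho_nonneg hδ _)
          have := ha' t (by linarith [ht.1])
          linarith
        rw [intervalIntegral.integral_const_mul,
          intervalIntegral.integral_comp_sub_left (fun t => rho δ t) u] at e1
        have e3 : u - u = 0 := sub_self u
        have e4 : u - (u - κ * L) = κ * L := by ring
        rw [e3, e4] at e1
        have e2 := (abs_le.1 (hmass δ (κ * L) hδ hδ1 hκL.le)).2
        linarith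
    -- (d)
    have hA := abs_le.1 (hsub δ hδ hδ1 (κ * L) (u - κ * L) hκL.le (by linarith))
    have hB := abs_le.1 (hsub δ' hδ' hδ'1 (κ * L) (u - κ * L) hκL.le (by linarith))
    have hAsub : (∫ t in (κ * L)..(u - κ * L), rho δ (u - t)) =
        ∫ t in (κ * L)..(u - κ * L), rho δ t := by
      rw [intervalIntegral.integral_comp_sub_left (fun t => rho δ t) u]
      congr 1
      ring
    have hD : (∫ t in (κ * L)..(u - κ * L), (1 - rho δ (u - t)) * (1 - rho δ' t)) =
        (u - κ * L - κ * L) - (∫ t in (κ * L)..(u - κ * L), rho δ t) -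
          (∫ t in (κ * L)..(u - κ * L), rho δ' t) + M := by
      have e1 : ∀ t : ℝ, (1 - rho δ (u - t)) * (1 - rho δ' t) =
          1 - rho δ (u - t) - rho δ' t + rho δ (u - t) * rho δ' t := fun t => by ring
      simp_rw [e1]
      rw [intervalIntegral.integral_add, intervalIntegral.integral_sub,
        intervalIntegral.integral_sub, hAsub, intervalIntegral.integral_const, smul_eq_mul,
        mul_one]
      · exact intervalIntegrable_const
      · exact hri δ hδ u _ _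
      · exact intervalIntegrable_const.sub (hri δ hδ u _ _)
      · exact rho_int hδ' _ _
      · exact (intervalIntegrable_const.sub (hri δ hδ u _ _)).sub (rho_int hδ' _ _)
      · exact hint _ _
    rw [hD]
    have hη2 : η * u ≤ η * L := mul_le_mul_of_nonneg_left huL hη.le
    have hq : 0 < δ' / δ := div_pos hδ' hδ
    have hq1 : δ' / δ ≤ 1 := (div_le_one hδ).2 hδδ
    have hqu : (δ' / δ) * u ≤ (δ' / δ) * L := mul_le_mul_of_nonneg_left huL hq.le
    have hdu : δ' * u ≤ δ' * L := mul_le_mul_of_nonneg_left huL hδ'.le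
    have hKq : 0 ≤ K * ((δ' / δ + δ') * L) := by positivity
    have hqL : 0 ≤ (δ' / δ) * L := by positivity
    have hdL : 0 ≤ δ' * L := by positivity
    have hexpand : (10 * K + 10) * (δ' / δ + δ') * L =
        10 * (K * ((δ' / δ + δ') * L)) + 10 * ((δ' / δ) * L) + 10 * (δ' * L) := by ring
    rw [hexpand, abs_le]
    obtain ⟨hf1, hf2⟩ := hfirst
    obtain ⟨hl1, hl2⟩ := hlast
    obtain ⟨hA1, hA2⟩ := hA
    obtain ⟨hB1, hB2⟩ := hB
    constructor
    · linarith
    · linarith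
  · intro u hu _
    have hu0 : 0 ≤ u := hκL.le.trans hu
    have h1 := hsub δ hδ hδ1 (κ * L) u hκL.le hu0
    rw [intervalIntegral.integral_sub intervalIntegrable_const (rho_int hδ _ _),
      intervalIntegral.integral_const, smul_eq_mul, mul_one, abs_sub_comm]
    linarith

end Pool.Agent.H97.EP
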