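import Pool.Agent.H97.EP.Defs
import Pool.Agent.H97.EP.HA
import Pool.Agent.H97.EP.HE

/-!
# Project EP, module `HF` : primes in short intervals from Selberg's formula in short intervals

`η = κ = 1/1000`, `C` from `ci` (`C ≥ 1` w.l.o.g.), `c1 = 1/(2000 C)`, `θ' = 1 - (1-θ)κ/2`.  Let
`x ≥ x0`, `x^{θ'} ≤ y ≤ x`, `L = log x`, `δ = y/x ∈ [x^{θ'-1}, 1]`, `δ' = c1 δ`; for large `x`,
`δ' ≥ c1 x^{-(1-θ)κ/2} ≥ x^{-(1-θ)κ} = e^{-(1-θ)κL}`.  Claim: `rho δ L ≥ 1/50`.
Suppose `rho δ L < 1/50`.  Define on `ℝ`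
`f t = max (-1) (1 - rho δ (L t))` if `κ ≤ t ≤ 1`, else `0`, and `g t` the same with `δ'`.
Measurable, `|f|, |g| ≤ 1` (`rho ≥ 0`).  With `f0 = 1 - rho δ (L ·)`: on `[κ,1]`
`-1-η ≤ f0 ≤ 1`, so `|f - f0| ≤ η`, similarly `g`.  Check the hypotheses of `ha` with `e = 1/50`:
* `h1`, `u ≥ 2κ`: `∫_0^u f(u-t) g(t) dt = ∫_κ^{u-κ}` (the integrand vanishes if `t < κ` or
  `u - t < κ`), and `|f(u-t)g(t) - f0(u-t)g0(t)| ≤ η(2+η)`; by `ci` (substitute `t -> L t`, divide by
  `L^2`... the identity divided by `L`): the error is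
  `≤ η + [(η + 8κ) + C (δ'/δ + δ') + C/L] + η(2+η) ≤ 0.001 + 0.009 + 0.001 + C/L + 0.003 < 0.02`
  for large `L` (`C(δ'/δ+δ') ≤ 2 C c1 = 0.001`).
* `h1`, `u < 2κ`: the integral is `0` and `|u f(u)| ≤ 2κ < 0.02`.
* `h2`: `0` if `u ≤ κ`; otherwise `≤ C/L + η`.
* `h3`: `f 1 ≥ 1 - rho δ L ≥ 1 - 1/50`.
So `1/42 ≤ 1/50`, a contradiction.
Hence `th x (x+y) = δ x rho δ L ≥ y/50` (`(1+δ)x = x+y`), and each term of `th x (x+y)` is at most
`log (2x) ≤ 2 log x`: the number of primes is `≥ y/(100 log x)`.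
-/

set_option autoImplicit false
open MeasureTheory Set

namespace Pool.Agent.H97.EP

private noncomputable def hf_f (δ L t : ℝ) : ℝ :=
  if 1 / 1000 ≤ t ∧ t ≤ 1 then max (-1) (1 - rho δ (L * t)) else 0

private lemma hf_f_meas (δ L : ℝ) : Measurable (hf_f δ L) := by
  refine Measurable.ite ?_ ?_ measurable_const
  · exact measurableSet_Icc
  · exact measurable_const.max
      (measurable_const.sub ((rho_measurable δ).comp (measurable_const.mul measurable_id)))

private lemma hf_f_bd {δ : ℝ} (hδ : 0 < δ) (L t : ℝ) : |hf_f δ L t| ≤ 1 := by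
  rw [hf_f]
  split_ifs
  · rw [abs_le]
    refine ⟨le_max_left _ _, max_le (by norm_num) ?_⟩
    linarith [rho_nonneg hδ (L * t)]
  · simp

private lemma hf_f_zero {δ L t : ℝ} (ht : t < 1 / 1000) : hf_f δ L t = 0 := by
  rw [hf_f, if_neg]
  intro h
  linarith [h.1]

private lemma hf_f_diff {δ L t : ℝ} (h1 : 1 / 1000 ≤ t) (h2 : t ≤ 1)
    (h : rho δ (L * t) ≤ 2 + 1 / 1000) : |hf_f δ L t - (1 - rho δ (L * t))| ≤ 1 / 1000 := by
  rw [hf_f, if_pos ⟨h1, h2⟩]
  rcases le_total (-1) (1 - rho δ (L * t)) with h3 | h3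
  · rw [max_eq_right h3, sub_self, abs_zero]
    norm_num
  · rw [max_eq_left h3, abs_le]
    constructor <;> linarith

private lemma hf_ii {φ : ℝ → ℝ} (hφ : Measurable φ) {c : ℝ} (hb : ∀ t, |φ t| ≤ c) (a b : ℝ) :
    IntervalIntegrable φ volume a b := by
  rw [intervalIntegrable_iff]
  refine Measure.integrableOn_of_bounded (M := c) ?_ hφ.aestronglyMeasurable ?_
  · rw [uIoc, Real.volume_Ioc]
    exact ENNReal.ofReal_ne_top
  · exact Filter.Eventually.of_forall fun t => hb t

private lemma hf_key {L δ δ' : ℝ} (hL : 0 < L) (hδ : 0 < δ) (hδ' : 0 < δ')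
    (hA : ∀ u : ℝ, 1 / 1000 * L ≤ u → u ≤ L → rho δ u ≤ 2 + 1 / 1000 ∧ rho δ' u ≤ 2 + 1 / 1000)
    (hB : ∀ u : ℝ, 2 * (1 / 1000 * L) ≤ u → u ≤ L →
      |u * (1 - rho δ u) - ∫ t in (1 / 1000 * L)..(u - 1 / 1000 * L),
        (1 - rho δ (u - t)) * (1 - rho δ' t)| ≤ 11 / 1000 * L)
    (hC : ∀ u : ℝ, 1 / 1000 * L ≤ u → u ≤ L →
      |∫ t in (1 / 1000 * L)..u, (1 - rho δ t)| ≤ 1 / 1000 * L) : 1 / 50 ≤ rho δ L := by
  by_contra hcon
  push Not at hcon
  have hA1 : ∀ t : ℝ, 1 / 1000 ≤ t → t ≤ 1 → rho δ (L * t) ≤ 2 + 1 / 1000 := fun t h1 h2 =>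
    (hA (L * t) (by nlinarith) (by nlinarith)).1
  have hA2 : ∀ t : ℝ, 1 / 1000 ≤ t → t ≤ 1 → rho δ' (L * t) ≤ 2 + 1 / 1000 := fun t h1 h2 =>
    (hA (L * t) (by nlinarith) (by nlinarith)).2
  have hfm := hf_f_meas δ L
  have hgm := hf_f_meas δ' L
  have hfb := hf_f_bd hδ L
  have hgb := hf_f_bd hδ' L
  have hne : ∀ a : ℝ, ∀ᵐ t : ℝ, t ≠ a := fun a => compl_mem_ae_iff.2 (measure_singleton a)
  have h1 : ∀ u : ℝ, 0 ≤ u → u ≤ 1 →
      |u * hf_f δ L u - ∫ t in (0 : ℝ)..u, hf_f δ L (u - t) * hf_f δ' L t| ≤ 1 / 50 := by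
    intro u hu0 hu1
    have hFm : Measurable fun t => hf_f δ L (u - t) * hf_f δ' L t :=
      (hfm.comp (measurable_const.sub measurable_id)).mul hgm
    have hFb : ∀ t, |hf_f δ L (u - t) * hf_f δ' L t| ≤ 1 := fun t => by
      rw [abs_mul]
      exact mul_le_one₀ (hfb _) (abs_nonneg _) (hgb _)
    rcases lt_or_ge u (2 * (1 / 1000)) with hu | hu
    · have e1 : (∫ t in (0 : ℝ)..u, hf_f δ L (u - t) * hf_f δ' L t) = 0 := by
        have e2 : (∫ t in (0 : ℝ)..u, hf_f δ L (u - t) * hf_f δ' L t) =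
            ∫ t in (0 : ℝ)..u, (0 : ℝ) := by
          refine intervalIntegral.integral_congr fun t _ => ?_
          rcases lt_or_ge t (1 / 1000) with ht | ht
          · simp only [hf_f_zero ht, mul_zero]
          · simp only [hf_f_zero (show u - t < 1 / 1000 by linarith), zero_mul]
        rw [e2]
        simp
      rw [e1, sub_zero, abs_mul, abs_of_nonneg hu0]
      have := hfb u
      nlinarith [abs_nonneg (hf_f δ L u)]
    · -- splitting
      have hint := fun a b : ℝ => hf_ii hFm hFb a b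
      have hsplit : (∫ t in (0 : ℝ)..u, hf_f δ L (u - t) * hf_f δ' L t) =
          (∫ t in (0 : ℝ)..(1 / 1000), hf_f δ L (u - t) * hf_f δ' L t) +
          (∫ t in (1 / 1000 : ℝ)..(u - 1 / 1000), hf_f δ L (u - t) * hf_f δ' L t) +
          ∫ t in (u - 1 / 1000)..u, hf_f δ L (u - t) * hf_f δ' L t := by
        rw [intervalIntegral.integral_add_adjacent_intervals (hint _ _) (hint _ _),
          intervalIntegral.integral_add_adjacent_intervals (hint _ _) (hint _ _)]
      have hz1 : (∫ t in (0 : ℝ)..(1 / 1000), hf_f δ L (u - t) * hf_f δ' L t) = 0 := by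
        refine intervalIntegral.integral_zero_ae ?_
        filter_upwards [hne (1 / 1000)] with t ht hmem
        rw [uIoc_of_le (by norm_num)] at hmem
        rw [hf_f_zero (lt_of_le_of_ne hmem.2 ht), mul_zero]
      have hz2 : (∫ t in (u - 1 / 1000)..u, hf_f δ L (u - t) * hf_f δ' L t) = 0 := by
        refine intervalIntegral.integral_zero_ae ?_
        filter_upwards with t hmem
        rw [uIoc_of_le (by linarith)] at hmem
        rw [hf_f_zero (show u - t < 1 / 1000 by linarith [hmem.1]), zero_mul]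
      -- the middle part
      set M : ℝ := ∫ t in (1 / 1000 : ℝ)..(u - 1 / 1000), hf_f δ L (u - t) * hf_f δ' L t with hM
      set M0 : ℝ := ∫ t in (1 / 1000 : ℝ)..(u - 1 / 1000),
        (1 - rho δ (L * (u - t))) * (1 - rho δ' (L * t)) with hM0
      have hle : (1 / 1000 : ℝ) ≤ u - 1 / 1000 := by linarith
      have hint0 : IntervalIntegrable
          (fun t => (1 - rho δ (L * (u - t))) * (1 - rho δ' (L * t))) volume (1 / 1000)
            (u - 1 / 1000) := by
        rw [intervalIntegrable_iff_integrableOn_Icc_of_le hle]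
        refine Measure.integrableOn_of_bounded (M := 4) ?_ ?_ ?_
        · rw [Real.volume_Icc]
          exact ENNReal.ofReal_ne_top
        · refine Measurable.aestronglyMeasurable ?_
          refine (measurable_const.sub ((rho_measurable δ).comp ?_)).mul
            (measurable_const.sub ((rho_measurable δ').comp ?_))
          · exact measurable_const.mul (measurable_const.sub measurable_id)
          · exact measurable_const.mul measurable_id
        · rw [ae_restrict_iff' measurableSet_Icc]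
          refine Filter.Eventually.of_forall fun t ht => ?_
          have b1 := hA1 (u - t) (by linarith [ht.2]) (by linarith [ht.1])
          have b2 := hA2 t ht.1 (by linarith [ht.2])
          have b3 := rho_nonneg hδ (L * (u - t))
          have b4 := rho_nonneg hδ' (L * t)
          rw [Real.norm_eq_abs, abs_mul]
          have c1 : |1 - rho δ (L * (u - t))| ≤ 2 := by
            rw [abs_le]
            constructor <;> linarith
          have c2 : |1 - rho δ' (L * t)| ≤ 2 := by
            rw [abs_le]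
            constructor <;> linarith
          nlinarith [abs_nonneg (1 - rho δ (L * (u - t))), abs_nonneg (1 - rho δ' (L * t))]
      have hMM : |M - M0| ≤ 3 / 1000 := by
        rw [hM, hM0, ← intervalIntegral.integral_sub (hint _ _) hint0]
        have hb : ∀ t ∈ uIoc (1 / 1000 : ℝ) (u - 1 / 1000),
            ‖hf_f δ L (u - t) * hf_f δ' L t -
              (1 - rho δ (L * (u - t))) * (1 - rho δ' (L * t))‖ ≤ 3 / 1000 := by
          intro t ht
          rw [uIoc_of_le hle] at ht
          have b1 := hA1 (u - t) (by linarith [ht.2]) (by linarith [ht.1])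
          have b2 := hA2 t ht.1.le (by linarith [ht.2])
          have b3 := hf_f_diff (by linarith [ht.2]) (by linarith [ht.1]) b1
          have b4 := hf_f_diff ht.1.le (by linarith [ht.2]) b2
          have b5 := hgb t
          have b6 := rho_nonneg hδ (L * (u - t))
          have c1 : |1 - rho δ (L * (u - t))| ≤ 1 + 1 / 1000 := by
            rw [abs_le]
            constructor <;> linarith
          have e1 : hf_f δ L (u - t) * hf_f δ' L t -
              (1 - rho δ (L * (u - t))) * (1 - rho δ' (L * t)) =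
              (hf_f δ L (u - t) - (1 - rho δ (L * (u - t)))) * hf_f δ' L t +
                (1 - rho δ (L * (u - t))) * (hf_f δ' L t - (1 - rho δ' (L * t))) := by ring
          rw [e1, Real.norm_eq_abs]
          refine (abs_add_le _ _).trans ?_
          rw [abs_mul, abs_mul]
          have d1 : |hf_f δ L (u - t) - (1 - rho δ (L * (u - t)))| * |hf_f δ' L t| ≤
              1 / 1000 * 1 := mul_le_mul b3 b5 (abs_nonneg _) (by norm_num)
          have d2 : |1 - rho δ (L * (u - t))| * |hf_f δ' L t - (1 - rho δ' (L * t))| ≤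
              (1 + 1 / 1000) * (1 / 1000) := mul_le_mul c1 b4 (abs_nonneg _) (by norm_num)
          linarith
        have := intervalIntegral.norm_integral_le_of_norm_le_const hb
        rw [Real.norm_eq_abs] at this
        refine this.trans ?_
        rw [abs_of_nonneg (by linarith)]
        nlinarith
      -- substitution
      have hsubst : L * M0 = ∫ t in (1 / 1000 * L)..(L * u - 1 / 1000 * L),
          (1 - rho δ (L * u - t)) * (1 - rho δ' t) := by
        have e1 : M0 = ∫ t in (1 / 1000 : ℝ)..(u - 1 / 1000),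
            (1 - rho δ (L * u - L * t)) * (1 - rho δ' (L * t)) := by
          rw [hM0]
          refine intervalIntegral.integral_congr fun t _ => ?_
          rw [mul_sub L u t]
        have e3 := intervalIntegral.integral_comp_mul_left (a := 1 / 1000) (b := u - 1 / 1000)
          (fun s => (1 - rho δ (L * u - s)) * (1 - rho δ' s)) hL.ne'
        rw [e1, e3, smul_eq_mul, ← mul_assoc, mul_inv_cancel₀ hL.ne', one_mul]
        congr 1
        · ring
        · ring
      have hBu := hB (L * u) (by nlinarith) (by nlinarith)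
      rw [← hsubst] at hBu
      have e2 : L * u * (1 - rho δ (L * u)) - L * M0 = L * (u * (1 - rho δ (L * u)) - M0) := by
        ring
      rw [e2, abs_mul, abs_of_pos hL, mul_comm (11 / 1000) L] at hBu
      have hBu' : |u * (1 - rho δ (L * u)) - M0| ≤ 11 / 1000 := le_of_mul_le_mul_left hBu hL
      have hfu := hf_f_diff (L := L) (t := u) (δ := δ) (by linarith) hu1
        (hA1 u (by linarith) hu1)
      have hfu' : |u * hf_f δ L u - u * (1 - rho δ (L * u))| ≤ 1 / 1000 := by
        rw [← mul_sub, abs_mul, abs_of_nonneg hu0]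
        nlinarith [abs_nonneg (hf_f δ L u - (1 - rho δ (L * u)))]
      rw [hsplit, hz1, hz2, zero_add, add_zero]
      obtain ⟨p1, p2⟩ := abs_le.1 hfu'
      obtain ⟨p3, p4⟩ := abs_le.1 hBu'
      obtain ⟨p5, p6⟩ := abs_le.1 hMM
      rw [abs_le]
      constructor <;> linarith
  have h2 : ∀ u : ℝ, 0 ≤ u → u ≤ 1 → |∫ t in (0 : ℝ)..u, hf_f δ L t| ≤ 1 / 50 := by
    intro u hu0 hu1
    rcases lt_or_ge u (1 / 1000) with hu | hu
    · have e1 : (∫ t in (0 : ℝ)..u, hf_f δ L t) = 0 := by
        refine intervalIntegral.integral_zero_ae ?_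
        filter_upwards with t hmem
        rw [uIoc_of_le hu0] at hmem
        exact hf_f_zero (by linarith [hmem.2])
      rw [e1, abs_zero]
      norm_num
    · have hint := fun a b : ℝ => hf_ii hfm hfb a b
      have hsplit : (∫ t in (0 : ℝ)..u, hf_f δ L t) =
          (∫ t in (0 : ℝ)..(1 / 1000), hf_f δ L t) + ∫ t in (1 / 1000 : ℝ)..u, hf_f δ L t := by
        rw [intervalIntegral.integral_add_adjacent_intervals (hint _ _) (hint _ _)]
      have hz1 : (∫ t in (0 : ℝ)..(1 / 1000), hf_f δ L t) = 0 := by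
        refine intervalIntegral.integral_zero_ae ?_
        filter_upwards [hne (1 / 1000)] with t ht hmem
        rw [uIoc_of_le (by norm_num)] at hmem
        exact hf_f_zero (lt_of_le_of_ne hmem.2 ht)
      have hint0 : IntervalIntegrable (fun t => 1 - rho δ (L * t)) volume (1 / 1000) u := by
        rw [intervalIntegrable_iff_integrableOn_Icc_of_le hu]
        refine Measure.integrableOn_of_bounded (M := 2) ?_ ?_ ?_
        · rw [Real.volume_Icc]
          exact ENNReal.ofReal_ne_top
        · exact (measurable_const.sub ((rho_measurable δ).comp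
            (measurable_const.mul measurable_id))).aestronglyMeasurable
        · rw [ae_restrict_iff' measurableSet_Icc]
          refine Filter.Eventually.of_forall fun t ht => ?_
          have b1 := hA1 t ht.1 (by linarith [ht.2])
          have b3 := rho_nonneg hδ (L * t)
          rw [Real.norm_eq_abs, abs_le]
          constructor <;> linarith
      have hdiff : |(∫ t in (1 / 1000 : ℝ)..u, hf_f δ L t) -
          ∫ t in (1 / 1000 : ℝ)..u, (1 - rho δ (L * t))| ≤ 1 / 1000 := by
        rw [← intervalIntegral.integral_sub (hint _ _) hint0]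
        have hb : ∀ t ∈ uIoc (1 / 1000 : ℝ) u,
            ‖hf_f δ L t - (1 - rho δ (L * t))‖ ≤ 1 / 1000 := by
          intro t ht
          rw [uIoc_of_le hu] at ht
          exact hf_f_diff ht.1.le (by linarith [ht.2]) (hA1 t ht.1.le (by linarith [ht.2]))
        have := intervalIntegral.norm_integral_le_of_norm_le_const hb
        rw [Real.norm_eq_abs] at this
        refine this.trans ?_
        rw [abs_of_nonneg (by linarith)]
        nlinarith
      have hsubst : L * (∫ t in (1 / 1000 : ℝ)..u, (1 - rho δ (L * t))) =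
          ∫ t in (1 / 1000 * L)..(L * u), (1 - rho δ t) := by
        have := intervalIntegral.integral_comp_mul_left (a := 1 / 1000) (b := u)
          (fun s => 1 - rho δ s) hL.ne'
        rw [this, smul_eq_mul, ← mul_assoc, mul_inv_cancel₀ hL.ne', one_mul]
        congr 1
        ring
      have hCu := hC (L * u) (by nlinarith) (by nlinarith)
      rw [← hsubst, abs_mul, abs_of_pos hL, mul_comm (1 / 1000) L] at hCu
      have hCu' := le_of_mul_le_mul_left hCu hL
      rw [hsplit, hz1, zero_add]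
      obtain ⟨p1, p2⟩ := abs_le.1 hdiff
      obtain ⟨p3, p4⟩ := abs_le.1 hCu'
      rw [abs_le]
      constructor <;> linarith
  have h3 : 1 - 1 / 50 ≤ hf_f δ L 1 := by
    rw [hf_f, if_pos (by norm_num), mul_one]
    exact le_max_of_le_right (by linarith)
  have := ha hfm hgm hfb hgb h1 h2 h3
  norm_num at this

theorem primes_of_selberg {θ X0 : ℝ} (hθ0 : 0 < θ) (hθ1 : θ < 1) (hX0 : 1 ≤ X0)
    (h : SelS (1 / 1000) θ X0) : ∃ θ' : ℝ, 0 < θ' ∧ θ' < 1 ∧ PrimesIn θ' := by
  obtain ⟨C, hC, hci⟩ := ci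
  set c1 : ℝ := 1 / (2000 * (C + 1)) with hc1
  have hc1p : 0 < c1 := by positivity
  have hc1C : C * c1 ≤ 1 / 2000 := by
    rw [hc1, mul_one_div, div_le_div_iff₀ (by positivity) (by norm_num)]
    linarith
  have hc11 : c1 ≤ 1 := by
    rw [hc1, div_le_one (by positivity)]
    linarith
  set x0 : ℝ := Real.exp (max (1 : ℝ) (max (1000 * Real.log X0)
    (max (2000 * (-Real.log c1) / (1 - θ)) (1000 * C)))) with hx0
  refine ⟨1 - (1 - θ) / 2000, by linarith, by linarith, 1 / 100, x0, by norm_num, ?_⟩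
  intro x hx y hy1 hy2
  have hx0p : 0 < x0 := Real.exp_pos _
  have hxp : 0 < x := lt_of_lt_of_le hx0p hx
  set L : ℝ := Real.log x with hLdef
  have hLge : max (1 : ℝ) (max (1000 * Real.log X0)
      (max (2000 * (-Real.log c1) / (1 - θ)) (1000 * C))) ≤ L := by
    rw [hLdef, Real.le_log_iff_exp_le hxp]
    exact hx
  have hL1 : 1 ≤ L := (le_max_left _ _).trans hLge
  have hL2 : 1000 * Real.log X0 ≤ L := (le_max_left _ _).trans ((le_max_right _ _).trans hLge)
  have hL3 : 2000 * (-Real.log c1) / (1 - θ) ≤ L :=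
    (le_max_left _ _).trans ((le_max_right _ _).trans ((le_max_right _ _).trans hLge))
  have hL4 : 1000 * C ≤ L :=
    (le_max_right _ _).trans ((le_max_right _ _).trans ((le_max_right _ _).trans hLge))
  have hL : 0 < L := by linarith
  have hexpL : Real.exp L = x := Real.exp_log hxp
  set δ : ℝ := y / x with hδdef
  have hyp : 0 < y := lt_of_lt_of_le (Real.rpow_pos_of_pos hxp _) hy1
  have hδ : 0 < δ := div_pos hyp hxp
  have hδ1 : δ ≤ 1 := (div_le_one hxp).2 hy2
  have hδge : Real.exp (-((1 - θ) / 2000 * L)) ≤ δ := by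
    rw [hδdef, le_div_iff₀ hxp]
    refine le_trans (le_of_eq ?_) hy1
    rw [Real.rpow_def_of_pos hxp, ← hLdef]
    calc Real.exp (-((1 - θ) / 2000 * L)) * x = Real.exp (-((1 - θ) / 2000 * L)) * Real.exp L := by
          rw [hexpL]
      _ = Real.exp (L * (1 - (1 - θ) / 2000)) := by
          rw [← Real.exp_add]
          congr 1
          ring
  set δ' : ℝ := c1 * δ with hδ'def
  have hδ' : 0 < δ' := mul_pos hc1p hδ
  have hδδ : δ' ≤ δ := mul_le_of_le_one_left hδ.le hc11
  have hexp : Real.exp (-((1 - θ) * (1 / 1000 * L))) ≤ δ' := by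
    have e1 : Real.exp (-((1 - θ) * (1 / 1000 * L))) =
        Real.exp (-((1 - θ) / 2000 * L)) * Real.exp (-((1 - θ) / 2000 * L)) := by
      rw [← Real.exp_add]
      congr 1
      ring
    have e2 : Real.exp (-((1 - θ) / 2000 * L)) ≤ c1 := by
      rw [← Real.le_log_iff_exp_le hc1p]
      rw [div_le_iff₀ (by linarith)] at hL3
      linarith
    rw [e1, hδ'def]
    exact mul_le_mul e2 hδge (Real.exp_pos _).le hc1p.le
  obtain ⟨hA, hB, hCC⟩ := hci (1 / 1000) θ X0 (1 / 1000) L δ δ' (by norm_num) (by norm_num) hθ1 hX0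
    h (by norm_num) (by norm_num) hL (by linarith) hδ' hδδ hδ1 hexp
  have hratio : δ' / δ = c1 := by
    rw [hδ'def, mul_div_assoc, div_self hδ.ne', mul_one]
  have hδ'c : δ' ≤ c1 := mul_le_of_le_one_right hc1p.le hδ1
  have hrho : 1 / 50 ≤ rho δ L := by
    refine hf_key hL hδ hδ' hA (fun u hu1 hu2 => (hB u hu1 hu2).trans ?_)
      (fun u hu1 hu2 => (hCC u hu1 hu2).trans (by linarith))
    rw [hratio]
    have e1 : C * (c1 + δ') ≤ 1 / 1000 := by
      have : C * δ' ≤ C * c1 := mul_le_mul_of_nonneg_left hδ'c hC.le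
      linarith
    have e2 : C * (c1 + δ') * L ≤ 1 / 1000 * L := mul_le_mul_of_nonneg_right e1 hL.le
    linarith
  -- the conclusion
  rw [rho, hexpL] at hrho
  have hδx : δ * x = y := by
    rw [hδdef, div_mul_cancel₀ _ hxp.ne']
  have hxy : (1 + δ) * x = x + y := by rw [add_mul, one_mul, hδx]
  rw [hδx, hxy, le_div_iff₀ hyp] at hrho
  have hth : th x (x + y) ≤
      (((Finset.Ioc ⌊x⌋₊ ⌊x + y⌋₊).filter Nat.Prime).card : ℝ) * (2 * L) := by
    rw [th, ← nsmul_eq_mul, ← Finset.sum_const]
    refine Finset.sum_le_sum fun p hp => ?_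
    have hpm := (Finset.mem_Ioc.1 (Finset.mem_filter.1 hp).1).2
    have hp1 : (p : ℝ) ≤ x + y := (Nat.le_floor_iff (by linarith)).1 hpm
    have hp0 : (0 : ℝ) < p := by exact_mod_cast (Finset.mem_filter.1 hp).2.pos
    have hx2 : 2 ≤ x := by
      rw [← hexpL]
      have := Real.add_one_le_exp L
      linarith
    have h5 : Real.log p ≤ Real.log (x * x) := Real.log_le_log hp0 (by nlinarith)
    rw [Real.log_mul hxp.ne' hxp.ne', ← hLdef] at h5
    linarith
  rw [← mul_div_assoc, div_le_iff₀ hL]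
  linarith

end Pool.Agent.H97.EP
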