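import Pool.Agent.H97.EP.CI
import Pool.Agent.H97.EP.CJ
import Pool.Agent.H97.EP.CK
import Pool.Agent.H97.EP.Deg
import Pool.Agent.H97.EP.HF
import Pool.Agent.H97.SD.Cont

/-!
# Project EP, module `Main`
-/

set_option autoImplicit false

namespace Pool.Agent.H97.EP

theorem degree_of_primesIn {θ d : ℝ} (hP : PrimesIn θ) (hd : 4 < d) (hθ : θ ≤ 1 - 2 / d) :
    SelbergDegree d := by
  obtain ⟨Q, α, hQ, hα, h1, hs, horth⟩ := exists_alpha hd hP hθ
  have hd2 : (2 : ℝ) < d := by linarith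
  have hQ0 : (0 : ℝ) < Q := by linarith
  have hd0 : (0 : ℝ) < d := by linarith
  have hinv : 1 / d < 1 / 4 := one_div_lt_one_div_of_lt (by norm_num) hd
  obtain ⟨a, ha⟩ : ∃ a : ℕ → ℂ, a = fun n => ((aa α n : ℝ) : ℂ) := ⟨_, rfl⟩
  obtain ⟨b, hb1, hb2, hb3⟩ := aa_euler (fun n hn => (hα n hn).1) h1
  have hsum : ∀ σ : ℝ, 1 / 2 + 1 / d < σ → Summable fun n : ℕ => ‖a n‖ * (n : ℝ) ^ (-σ) := by
    intro σ hσ
    refine (aa_conv hd2 hα hs hσ).congr fun n => ?_
    rw [ha]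
    simp only [Complex.norm_real, Real.norm_eq_abs]
  have ha0 : a 0 = 0 := by
    rw [ha]
    simp [aa_zero]
  obtain ⟨hconv, G, hG, hfin, hL, hFE⟩ := SD.exists_cont (rho := 0) hd2 le_rfl hQ0 ha0 hsum
    (fun t ht => by rw [ha]; exact aa_theta hd2 hQ0 h1 horth ht)
  refine ⟨a, 0, G, 1, Q, fun _ => d / 2, fun _ => 0, 1, b, 0, ?_, hG, hfin, ?_, hQ0,
    fun _ => by positivity, fun _ => by simp, by simp, ?_, ?_, hb1, by norm_num, ⟨1, ?_⟩, ?_, ?_⟩
  · exact fun s hs => hconv s (by linarith)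
  · intro s hs
    rw [pow_zero, one_mul]
    exact hL s (by linarith)
  · intro s h0 h1
    have e1 := hFE s h0 h1
    simp only [Finset.univ_unique, Finset.prod_singleton, pow_zero, div_one]
    simpa using e1
  · intro ε hε
    refine ⟨1, fun n hn => ?_⟩
    have e1 : ‖a n‖ ≤ 1 := by
      rw [ha]
      simp only [Complex.norm_real, Real.norm_eq_abs]
      exact aa_abs_le_one h1 n
    have e2 : (1 : ℝ) ≤ (n : ℝ) ^ ε := Real.one_le_rpow (by exact_mod_cast hn) hε.le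
    linarith
  · intro n hn
    have e2 : (n : ℝ) ^ (0 : ℝ) = 1 := Real.rpow_zero _
    rw [e2, one_mul]
    exact hb2 n
  · intro s hs
    rw [ha]
    exact hb3 s hs
  · simp
    ring

end Pool.Agent.H97.EP
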