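import Pool.Agent.H91.PK.SvB
import Pool.Agent.H97.EP.SDf

/-!
# Project EP, module `SA` : the Brun-Hooley chain with density `1/p`

Exactly the proof of `SvB_low` (file `Pool/Agent/H91/PK/SvB.lean`) with `g1 p = 1/(p-1)` replaced by
`g0 p = 1/p`: since `0 ≤ g0 ≤ g1 < 1`, the analogue of `SvB_B` (`∑_{√z<p≤z} g0 ≤ 0.7028`,
`Vg g0 ≥ 0.495`) follows from `SvB_B` by monotonicity; `Ch.step`, `Ch.mono` (SvA) are for general `g`.
-/

set_option autoImplicit false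

namespace Pool.Agent.H97.EP.SS

open Pool.Agent.H91.PK

private theorem sa_g0 {z : ℝ} {P : Finset ℕ} (hP : BigP z P) :
    ∀ p ∈ P, 0 ≤ 1 / (p : ℝ) ∧ 1 / (p : ℝ) < 1 ∧ 1 / (p : ℝ) ≤ g1 p := by
  intro p hp
  have h1 := (hP p hp).2.1
  have h2 := SvB_exp24
  unfold g1
  refine ⟨?_, ?_, ?_⟩
  · apply div_nonneg zero_le_one
    linarith
  · rw [div_lt_one (by linarith)]
    linarith
  · apply div_le_div_of_nonneg_left zero_le_one
    · linarith
    · linarith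

private theorem sa_Vpos {z : ℝ} {P : Finset ℕ} (hP : BigP z P) :
    0 < Vg (fun p => 1 / (p : ℝ)) P := by
  unfold Vg
  refine Finset.prod_pos fun p hp => ?_
  have := (sa_g0 hP p hp).2.1
  show 0 < 1 - 1 / (p : ℝ)
  linarith

private theorem sa_B {z : ℝ} (hz : 1 ≤ z) {P : Finset ℕ} (hP : BigP z P) :
    ∑ p ∈ P.filter (fun p : ℕ => Real.sqrt z < (p : ℝ)), 1 / (p : ℝ) ≤ 0.7028 ∧
      0.495 ≤ Vg (fun p => 1 / (p : ℝ)) (P.filter (fun p : ℕ => Real.sqrt z < (p : ℝ))) := by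
  obtain ⟨h1, h2⟩ := SvB_B hz hP
  constructor
  · refine le_trans (Finset.sum_le_sum fun p hp => ?_) h1
    exact (sa_g0 hP p (Finset.mem_filter.1 hp).1).2.2
  · refine le_trans h2 ?_
    unfold Vg
    apply Finset.prod_le_prod
    · intro p hp
      have h3 := (SvB_g1 hP p (Finset.mem_filter.1 hp).1).2
      linarith
    · intro p hp
      have h3 := (sa_g0 hP p (Finset.mem_filter.1 hp).1).2.2
      show 1 - g1 p ≤ 1 - 1 / (p : ℝ)
      linarith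

private theorem sa_step {z : ℝ} (hz : 1 ≤ z) {P : Finset ℕ} (hP : BigP z P) {σ F G ε : ℝ} {b : ℕ}
    (hb : Even b) (hσ : 0 ≤ σ) (hε0 : 0 ≤ ε)
    (hrec : Ch (fun p => 1 / (p : ℝ)) (P.filter (fun p : ℕ => (p : ℝ) ≤ Real.sqrt z)) (Real.sqrt z ^ σ)
      (Real.sqrt z ^ (σ + 1)) F G)
    (hε : (0.7028 : ℝ) ^ (b + 1) / (b + 1).factorial ≤ ε * 0.495) :
    Ch (fun p => 1 / (p : ℝ)) P (z ^ (σ / 2 + b)) (z ^ (σ / 2 + b + 1)) (F * (1 + ε)) (G + ε) := by
  set P' := P.filter (fun p : ℕ => (p : ℝ) ≤ Real.sqrt z) with hP'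
  set B := P.filter (fun p : ℕ => Real.sqrt z < (p : ℝ)) with hB
  obtain ⟨hm1, hm2⟩ := sa_B hz hP
  rw [← hB] at hm1 hm2
  have hz0 : 0 < z := by linarith
  have hs1 : 1 ≤ Real.sqrt z := Real.one_le_sqrt.2 hz
  have hg : ∀ p ∈ P, 0 ≤ (fun p : ℕ => 1 / (p : ℝ)) p ∧ (fun p : ℕ => 1 / (p : ℝ)) p < 1 :=
    fun p hp => ⟨(sa_g0 hP p hp).1, (sa_g0 hP p hp).2.1⟩
  have hgB : ∀ p ∈ B, 0 ≤ (fun p : ℕ => 1 / (p : ℝ)) p ∧ (fun p : ℕ => 1 / (p : ℝ)) p < 1 := fun p hp => hg p (Finset.mem_filter.1 hp).1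
  have hgP : ∀ p ∈ P', 0 ≤ (fun p : ℕ => 1 / (p : ℝ)) p ∧ (fun p : ℕ => 1 / (p : ℝ)) p < 1 := fun p hp => hg p (Finset.mem_filter.1 hp).1
  have hdis : Disjoint B P' := by
    rw [Finset.disjoint_left]
    intro p h1 h2
    have h3 := (Finset.mem_filter.1 h1).2
    have h4 := (Finset.mem_filter.1 h2).2
    linarith
  have hes : Pool.Agent.H91.Gold.es (fun p => 1 / (p : ℝ)) B (b + 1) ≤ ε * Vg (fun p => 1 / (p : ℝ)) B := by
    have h1 := Pool.Agent.H91.Gold.es_le B (fun p hp => (hgB p hp).1) (b + 1)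
    have h2 : (∑ p ∈ B, 1 / (p : ℝ)) ^ (b + 1) / ((b + 1).factorial : ℝ) ≤
        (0.7028 : ℝ) ^ (b + 1) / (b + 1).factorial := by
      apply div_le_div_of_nonneg_right _ (by positivity)
      exact pow_le_pow_left₀ (Finset.sum_nonneg fun p hp => (hgB p hp).1) hm1 _
    have h3 : ε * 0.495 ≤ ε * Vg (fun p => 1 / (p : ℝ)) B := mul_le_mul_of_nonneg_left hm2 hε0
    linarith
  have h := hrec.step hdis (Real.one_le_rpow hs1 hσ) hz
    (fun p hp => (hP p (Finset.mem_filter.1 hp).1).2.2) hb hgP hgB hes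
  have hun : P' ∪ B = P := by
    ext p
    simp only [hP', hB, Finset.mem_union, Finset.mem_filter]
    constructor
    · rintro (h | h) <;> exact h.1
    · intro h
      rcases le_or_gt (p : ℝ) (Real.sqrt z) with h1 | h1
      · exact Or.inl ⟨h, h1⟩
      · exact Or.inr ⟨h, h1⟩
  rw [hun] at h
  have hV : 0 < Vg (fun p => 1 / (p : ℝ)) P := sa_Vpos hP
  have hsq : ∀ x : ℝ, Real.sqrt z ^ x = z ^ (x / 2) := by
    intro x
    rw [Real.sqrt_eq_rpow, ← Real.rpow_mul hz0.le]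
    congr 1
    ring
  refine h.mono hV ?_ ?_ le_rfl le_rfl
  · rw [hsq, ← Real.rpow_natCast z b, ← Real.rpow_add hz0]
  · apply max_le
    · rw [hsq, ← Real.rpow_natCast z b, ← Real.rpow_add hz0]
      apply Real.rpow_le_rpow_of_exponent_le hz
      linarith
    · rw [hsq, ← Real.rpow_natCast z (b + 1), ← Real.rpow_add hz0]
      apply Real.rpow_le_rpow_of_exponent_le hz
      push_cast
      linarith

private theorem sa_empty {z : ℝ} (hz : 1 ≤ z) {P : Finset ℕ} (hP : BigP z P) (h : z ≤ Real.exp 24)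
    {σ F G : ℝ} (hσ : 0 ≤ σ) (hF : 1 ≤ F) (hG : 0 ≤ G) :
    Ch (fun p => 1 / (p : ℝ)) P (z ^ σ) (z ^ (σ + 1)) F G := by
  have hP0 : P = ∅ := by
    rw [Finset.eq_empty_iff_forall_notMem]
    intro p hp
    have h1 := hP p hp
    linarith [h1.2.1, h1.2.2]
  subst hP0
  refine (Ch_empty _).mono (sa_Vpos hP) ?_ ?_ hF hG
  · exact Real.one_le_rpow hz hσ
  · exact Real.one_le_rpow hz (by linarith)

private theorem sa_low (m : ℕ) : ∀ (k : ℕ) (z : ℝ), 1 ≤ z → z ≤ Real.exp (24 * 2 ^ m) →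
    ∀ P, BigP z P → Ch (fun p => 1 / (p : ℝ)) P (z ^ (4 * k + 20 : ℝ)) (z ^ ((4 * k + 20 : ℝ) + 1))
      (1 + 9.6e-7 * (1 / 2 : ℝ) ^ k) (4.8e-7 * (1 / 2 : ℝ) ^ k) := by
  induction m with
  | zero =>
    intro k z hz hz' P hP
    apply sa_empty hz hP (by simpa using hz') (by positivity)
    · have : (0 : ℝ) ≤ 9.6e-7 * (1 / 2 : ℝ) ^ k := by positivity
      linarith
    · positivity
  | succ m ih =>
    intro k z hz hz' P hP
    have hs1 : 1 ≤ Real.sqrt z := Real.one_le_sqrt.2 hz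
    have hs2 : Real.sqrt z ≤ Real.exp (24 * 2 ^ m) := by
      rw [Real.sqrt_le_left (Real.exp_pos _).le, ← Real.exp_nat_mul]
      refine hz'.trans (Real.exp_le_exp.2 ?_)
      rw [pow_succ]
      push_cast
      linarith
    have hrec := ih (k + 1) (Real.sqrt z) hs1 hs2 _ (SvB_bigP_filter hP)
    have hq : (0 : ℝ) < (1 / 2 : ℝ) ^ k := by positivity
    have hq1 : (1 / 2 : ℝ) ^ k ≤ 1 := pow_le_one₀ (by norm_num) (by norm_num)
    have h := sa_step hz hP (b := 2 * k + 8) ⟨k + 4, by ring⟩ (by positivity) (by positivity)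
      hrec (SvB_fact k)
    have hV : 0 < Vg (fun p => 1 / (p : ℝ)) P := sa_Vpos hP
    refine h.mono hV ?_ ?_ ?_ ?_
    · apply Real.rpow_le_rpow_of_exponent_le hz
      push_cast
      linarith
    · apply Real.rpow_le_rpow_of_exponent_le hz
      push_cast
      linarith
    · rw [pow_succ]
      nlinarith
    · rw [pow_succ]
      nlinarith

theorem ch0 (k : ℕ) (z : ℝ) (hz : 1 ≤ z) (P : Finset ℕ) (hP : BigP z P) :
    Ch (fun p => 1 / (p : ℝ)) P (z ^ (4 * k + 20 : ℝ)) (z ^ ((4 * k + 20 : ℝ) + 1))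
      (1 + 9.6e-7 * (1 / 2 : ℝ) ^ k) (4.8e-7 * (1 / 2 : ℝ) ^ k) := by
  obtain ⟨m, hm⟩ := SvB_exists z
  exact sa_low m k z hz hm P hP

end Pool.Agent.H97.EP.SS
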