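import Pool.Agent.H97.EP.SA

/-!
# Project EP, module `SB` : the fundamental lemma for intervals

`C = 1`, say.  Let `P0 = ` primes `≤ e^24` (finite, `D0 = ∏ p` a constant), `P1 = ` primes in
`(e^24, z]`.  Exact weights on `P0` (`SvA_ex`, `SvA_ev_ex`, `SvA_Wt_ex`) and the upper/lower weights
`c, c'` of `ch0 k z` on `P1`; product weights (`SvA_pr`, `SvA_ev_pr`, `SvA_Wt_pr`) have level
`D = D0 z^{4k+21}`.  `y p = 1[p | n]` is `0/1` valued; `Vg y (P0 ∪ P1) = 1` if `n` is rough, else `0`.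
`#{n ∈ (A, A+B] : ∏_{p∈T} p | n} = B/∏T + O(1)` (error at most `1` in absolute value); the number of
`T` with nonzero weight is at most `D` (`T ↦ ∏T ≤ D` is injective), so
`rc ≤ B · ev c (1/p) · V(P0) + D ≤ B VZ z (1 + 9.6e-7 2^{-k}) + D` and
`rc ≥ B VZ z (1 - 4.8e-7 2^{-k}) - D`.  For `B ≥ z^{4k+60}` and `z ≥ z0(k)`:
`D ≤ D0 z^{4k+21} ≤ B z^{-38} ≤ (1/2) 2^{-k} B VZ z` because `VZ z ≥ z^{-1}` crudely
(`VZ z ≥ ∏_{2≤n≤z} (1 - 1/n) = 1/⌊z⌋`).
(The lower weights satisfy `ev c' P y ≤ Vg y P` for `0/1` valued `y`; multiply by the exact value of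
`P0`, which is `0` or `1`.)
-/

set_option autoImplicit false

namespace Pool.Agent.H97.EP.SS

open Pool.Agent.H91.PK

/-- indicator of divisibility -/
private noncomputable def sb_y (n p : ℕ) : ℝ := if p ∣ n then 1 else 0

private theorem sb_ZO (n : ℕ) : ZO (sb_y n) := by
  intro p
  unfold sb_y
  split_ifs
  · right
    rfl
  · left
    rfl

private theorem sb_prod {T : Finset ℕ} (hT : ∀ p ∈ T, p.Prime) (n : ℕ) :
    ∏ p ∈ T, sb_y n p = if (∏ p ∈ T, p) ∣ n then 1 else 0 := by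
  by_cases h : (∏ p ∈ T, p) ∣ n
  · rw [if_pos h]
    apply Finset.prod_eq_one
    intro p hp
    unfold sb_y
    rw [if_pos ((Finset.dvd_prod_of_mem _ hp).trans h)]
  · rw [if_neg h]
    have h1 : ∃ p ∈ T, ¬ p ∣ n := by
      by_contra hcon
      push Not at hcon
      exact h (Finset.prod_primes_dvd n (fun p hp => (hT p hp).prime) hcon)
    obtain ⟨p, hp, hpn⟩ := h1
    apply Finset.prod_eq_zero hp
    unfold sb_y
    rw [if_neg hpn]

private theorem sb_card (A B : ℝ) (hA : 0 ≤ A) (hB : 0 ≤ B) (m : ℕ) :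
    |(((Finset.Ioc ⌊A⌋₊ ⌊A + B⌋₊).filter (fun n => m ∣ n)).card : ℝ) - B / m| ≤ 1 := by
  have hab : ⌊A⌋₊ ≤ ⌊A + B⌋₊ := Nat.floor_le_floor (by linarith)
  have h1 : ((Finset.Ioc 0 ⌊A + B⌋₊).filter (fun n => m ∣ n)).card =
      ((Finset.Ioc 0 ⌊A⌋₊).filter (fun n => m ∣ n)).card +
        ((Finset.Ioc ⌊A⌋₊ ⌊A + B⌋₊).filter (fun n => m ∣ n)).card := by
    rw [← Finset.card_union_of_disjoint]
    · rw [← Finset.filter_union]
      congr 2
      ext n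
      simp only [Finset.mem_union, Finset.mem_Ioc]
      omega
    · rw [Finset.disjoint_left]
      intro n hn hn'
      rw [Finset.mem_filter, Finset.mem_Ioc] at hn hn'
      omega
  rw [Nat.Ioc_filter_dvd_card_eq_div, Nat.Ioc_filter_dvd_card_eq_div] at h1
  have h2 : ((⌊A + B⌋₊ / m : ℕ) : ℝ) = ((⌊A⌋₊ / m : ℕ) : ℝ) +
      (((Finset.Ioc ⌊A⌋₊ ⌊A + B⌋₊).filter (fun n => m ∣ n)).card : ℝ) := by exact_mod_cast h1
  rw [← Nat.floor_div_natCast, ← Nat.floor_div_natCast] at h2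
  have a1 := Nat.floor_le (show 0 ≤ (A + B) / m by positivity)
  have a2 := Nat.lt_floor_add_one ((A + B) / m)
  have b1 := Nat.floor_le (show 0 ≤ A / m by positivity)
  have b2 := Nat.lt_floor_add_one (A / m)
  have e : (A + B) / m = A / m + B / m := by ring
  rw [abs_le]
  constructor <;> linarith

private theorem sb_num {P : Finset ℕ} (hP : ∀ p ∈ P, p.Prime) {D : ℝ} (hD : 0 ≤ D)
    {c : Finset ℕ → ℝ} (hc : Wt P D c) : ∑ T ∈ P.powerset, |c T| ≤ D := by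
  classical
  have h1 : ∑ T ∈ P.powerset, |c T| ≤ ∑ T ∈ P.powerset, if c T ≠ 0 then (1 : ℝ) else 0 := by
    apply Finset.sum_le_sum
    intro T _
    split_ifs with h
    · exact hc.1 T
    · rw [not_not] at h
      rw [h, abs_zero]
  refine h1.trans ?_
  rw [← Finset.natCast_card_filter]
  have h2 : (P.powerset.filter (fun T => c T ≠ 0)).card ≤ (Finset.Icc 1 ⌊D⌋₊).card := by
    apply Finset.card_le_card_of_injOn (fun T => ∏ p ∈ T, p)
    · intro T hT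
      rw [Finset.mem_coe, Finset.mem_filter, Finset.mem_powerset] at hT
      rw [Finset.mem_coe, Finset.mem_Icc]
      refine ⟨Finset.prod_pos fun p hp => (hP p (hT.1 hp)).pos, Nat.le_floor ?_⟩
      have := (hc.2 T hT.2).2
      push_cast
      exact this
    · intro T hT T' hT' h
      rw [Finset.mem_coe, Finset.mem_filter, Finset.mem_powerset] at hT hT'
      have h3 := Nat.primeFactors_prod (s := T) fun p hp => hP p (hT.1 hp)
      have h4 := Nat.primeFactors_prod (s := T') fun p hp => hP p (hT'.1 hp)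
      simp only at h
      rw [← h3, h, h4]
  rw [Nat.card_Icc, Nat.add_sub_cancel] at h2
  calc ((P.powerset.filter (fun T => c T ≠ 0)).card : ℝ) ≤ (⌊D⌋₊ : ℝ) := by exact_mod_cast h2
    _ ≤ D := Nat.floor_le hD

private theorem sb_sum {P : Finset ℕ} (hP : ∀ p ∈ P, p.Prime) {D : ℝ} (hD : 0 ≤ D)
    {c : Finset ℕ → ℝ} (hc : Wt P D c) (A B : ℝ) (hA : 0 ≤ A) (hB : 0 ≤ B) :
    |∑ n ∈ Finset.Ioc ⌊A⌋₊ ⌊A + B⌋₊, ev c P (sb_y n) - B * ev c P (fun p : ℕ => 1 / (p : ℝ))| ≤ D := by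
  have h1 : ∑ n ∈ Finset.Ioc ⌊A⌋₊ ⌊A + B⌋₊, ev c P (sb_y n) =
      ∑ T ∈ P.powerset, c T *
        (((Finset.Ioc ⌊A⌋₊ ⌊A + B⌋₊).filter (fun n => (∏ p ∈ T, p) ∣ n)).card : ℝ) := by
    unfold ev
    rw [Finset.sum_comm]
    apply Finset.sum_congr rfl
    intro T hT
    rw [Finset.mem_powerset] at hT
    rw [← Finset.mul_sum, Finset.natCast_card_filter]
    congr 1
    apply Finset.sum_congr rfl
    intro n _
    exact sb_prod (fun p hp => hP p (hT hp)) n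
  have h2 : B * ev c P (fun p : ℕ => 1 / (p : ℝ)) =
      ∑ T ∈ P.powerset, c T * (B / ((∏ p ∈ T, p : ℕ) : ℝ)) := by
    unfold ev
    rw [Finset.mul_sum]
    apply Finset.sum_congr rfl
    intro T _
    rw [Finset.prod_div_distrib, Finset.prod_const_one, Nat.cast_prod]
    ring
  rw [h1, h2, ← Finset.sum_sub_distrib]
  refine (Finset.abs_sum_le_sum_abs _ _).trans ?_
  refine le_trans (Finset.sum_le_sum fun T _ => ?_) (sb_num hP hD hc)
  rw [← mul_sub, abs_mul]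
  calc |c T| * |_| ≤ |c T| * 1 := mul_le_mul_of_nonneg_left (sb_card A B hA hB _) (abs_nonneg _)
    _ = |c T| := mul_one _

/-- the primes up to `z` -/
private noncomputable def sb_PP (z : ℝ) : Finset ℕ := (Finset.Icc 1 ⌊z⌋₊).filter Nat.Prime

private theorem sb_mem {z : ℝ} (hz : 0 ≤ z) (p : ℕ) : p ∈ sb_PP z ↔ p.Prime ∧ (p : ℝ) ≤ z := by
  unfold sb_PP
  rw [Finset.mem_filter, Finset.mem_Icc, Nat.le_floor_iff hz]
  constructor
  · rintro ⟨⟨_, h⟩, h'⟩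
    exact ⟨h', h⟩
  · rintro ⟨h, h'⟩
    exact ⟨⟨h.one_lt.le, h'⟩, h⟩

open scoped Classical in
private theorem sb_rough {z : ℝ} (hz : 0 ≤ z) {n : ℕ} (hn : n ≠ 0) :
    Vg (sb_y n) (sb_PP z) = if Rough z n then 1 else 0 := by
  unfold Vg
  by_cases h : Rough z n
  · rw [if_pos h]
    apply Finset.prod_eq_one
    intro p hp
    rw [sb_mem hz] at hp
    unfold sb_y
    rw [if_neg, sub_zero]
    intro hpn
    have := h.2 p hp.1 hpn
    linarith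
  · rw [if_neg h]
    have h1 : ∃ p : ℕ, p.Prime ∧ p ∣ n ∧ (p : ℝ) ≤ z := by
      by_contra hcon
      push Not at hcon
      exact h ⟨hn, fun p hp hpn => hcon p hp hpn⟩
    obtain ⟨p, hp, hpn, hpz⟩ := h1
    apply Finset.prod_eq_zero ((sb_mem hz p).2 ⟨hp, hpz⟩)
    unfold sb_y
    rw [if_pos hpn, sub_self]

private theorem sb_rc {z : ℝ} (hz : 0 ≤ z) (A B : ℝ) :
    rc z A B = ∑ n ∈ Finset.Ioc ⌊A⌋₊ ⌊B⌋₊, Vg (sb_y n) (sb_PP z) := by
  classical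
  unfold rc
  rw [Finset.natCast_card_filter]
  apply Finset.sum_congr rfl
  intro n hn
  rw [Finset.mem_Ioc] at hn
  rw [sb_rough hz (by omega)]

private theorem sb_VZ_nat (m : ℕ) (hm : 1 ≤ m) :
    1 / (m : ℝ) ≤ ∏ p ∈ (Finset.Icc 1 m).filter Nat.Prime, (1 - 1 / (p : ℝ)) := by
  induction m, hm using Nat.le_induction with
  | base =>
    have : (Finset.Icc 1 1).filter Nat.Prime = ∅ := by decide
    rw [this]
    simp
  | succ m hm ih =>
    have hm0 : (0 : ℝ) < m := by exact_mod_cast hm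
    have h1 : Finset.Icc 1 (m + 1) = insert (m + 1) (Finset.Icc 1 m) := by
      ext n
      simp only [Finset.mem_Icc, Finset.mem_insert]
      omega
    rw [h1, Finset.filter_insert]
    push_cast
    split_ifs with hp
    · rw [Finset.prod_insert]
      · have h2 : 1 / ((m : ℝ) + 1) = (1 - 1 / ((m : ℝ) + 1)) * (1 / m) := by
          field_simp
          ring
        rw [h2]
        push_cast
        apply mul_le_mul_of_nonneg_left ih
        rw [sub_nonneg, div_le_one (by positivity)]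
        linarith
      · rw [Finset.mem_filter, Finset.mem_Icc]
        omega
    · refine le_trans ?_ ih
      exact one_div_le_one_div_of_le hm0 (by linarith)

private theorem sb_VZ {z : ℝ} (hz : 1 ≤ z) : 1 / z ≤ VZ z := by
  unfold VZ
  have h1 : 1 ≤ ⌊z⌋₊ := (Nat.one_le_floor_iff z).2 hz
  refine le_trans ?_ (sb_VZ_nat ⌊z⌋₊ h1)
  apply one_div_le_one_div_of_le
  · exact_mod_cast h1
  · exact Nat.floor_le (by linarith)

private theorem sb_num2 {z D0 B V : ℝ} {k : ℕ} (hz : 1 ≤ z)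
    (hzD : D0 * 2 ^ (k + 1) ≤ z) (hB : z ^ (4 * k + 60 : ℝ) ≤ B) (hV : 1 / z ≤ V) :
    D0 * z ^ ((4 * k + 20 : ℝ) + 1) ≤ (1 / 2) * ((1 / 2 : ℝ) ^ k * (B * V)) := by
  have hz0 : 0 < z := by linarith
  have h1 : z ^ (4 * k + 60 : ℝ) = z ^ ((4 * k + 20 : ℝ) + 1) * z ^ (39 : ℕ) := by
    rw [← Real.rpow_natCast z 39, ← Real.rpow_add hz0]
    congr 1
    push_cast
    ring
  have h2 : z ^ ((4 * k + 20 : ℝ) + 1) * z ^ (38 : ℕ) ≤ B * V := by
    have h3 : z ^ ((4 * k + 20 : ℝ) + 1) * z ^ (38 : ℕ) =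
        (z ^ ((4 * k + 20 : ℝ) + 1) * z ^ (39 : ℕ)) * (1 / z) := by
      field_simp
    rw [h3, ← h1]
    exact mul_le_mul hB hV (by positivity) ((by positivity : (0 : ℝ) ≤ z ^ (4 * k + 60 : ℝ)).trans hB)
  have h4 : D0 * 2 ^ (k + 1) ≤ z ^ (38 : ℕ) := hzD.trans (le_self_pow₀ hz (by norm_num))
  have h5 : 0 < z ^ ((4 * k + 20 : ℝ) + 1) := by positivity
  have h6 : (1 / 2) * ((1 / 2 : ℝ) ^ k * (D0 * 2 ^ (k + 1) * z ^ ((4 * k + 20 : ℝ) + 1))) =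
      D0 * z ^ ((4 * k + 20 : ℝ) + 1) := by
    rw [one_div, inv_pow, pow_succ]
    field_simp
  rw [← h6]
  apply mul_le_mul_of_nonneg_left _ (by norm_num)
  apply mul_le_mul_of_nonneg_left _ (by positivity)
  calc D0 * 2 ^ (k + 1) * z ^ ((4 * k + 20 : ℝ) + 1) ≤ z ^ (38 : ℕ) * z ^ ((4 * k + 20 : ℝ) + 1) :=
        mul_le_mul_of_nonneg_right h4 h5.le
    _ = z ^ ((4 * k + 20 : ℝ) + 1) * z ^ (38 : ℕ) := mul_comm _ _
    _ ≤ B * V := h2

theorem fl : ∃ C : ℝ, 0 < C ∧ ∀ k : ℕ, ∃ z0 : ℝ, 2 ≤ z0 ∧ ∀ z : ℝ, z0 ≤ z → ∀ A B : ℝ, 0 ≤ A →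
    z ^ (4 * k + 60 : ℝ) ≤ B →
    |rc z A (A + B) - B * VZ z| ≤ C * (1 / 2 : ℝ) ^ k * (B * VZ z) := by
  classical
  refine ⟨1, one_pos, fun k => ?_⟩
  obtain ⟨D0, hD0⟩ : ∃ D : ℝ, D = ∏ p ∈ sb_PP (Real.exp 24), (p : ℝ) := ⟨_, rfl⟩
  have hD0n : 0 ≤ D0 := by
    rw [hD0]
    exact SvA_prod_nonneg _
  refine ⟨max 2 (D0 * 2 ^ (k + 1)), le_max_left _ _, fun z hz A B hA hB => ?_⟩
  have hz2 : 2 ≤ z := (le_max_left _ _).trans hz
  have hzD : D0 * 2 ^ (k + 1) ≤ z := (le_max_right _ _).trans hz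
  have hz1 : 1 ≤ z := by linarith
  have hz0 : 0 ≤ z := by linarith
  have hB0 : 0 ≤ B := (by positivity : (0 : ℝ) ≤ z ^ (4 * k + 60 : ℝ)).trans hB
  obtain ⟨g, hg⟩ : ∃ g : ℕ → ℝ, g = fun p : ℕ => 1 / (p : ℝ) := ⟨_, rfl⟩
  obtain ⟨P0, hP0⟩ : ∃ P, P = (sb_PP z).filter (fun p : ℕ => ¬ Real.exp 24 < (p : ℝ)) := ⟨_, rfl⟩
  obtain ⟨P1, hP1⟩ : ∃ P, P = (sb_PP z).filter (fun p : ℕ => Real.exp 24 < (p : ℝ)) := ⟨_, rfl⟩
  have hun : P0 ∪ P1 = sb_PP z := by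
    rw [hP0, hP1, Finset.union_comm, Finset.filter_union_filter_not_eq]
  have hdis : Disjoint P0 P1 := by
    rw [hP0, hP1]
    exact (Finset.disjoint_filter_filter_not _ _ _).symm
  have hpr0 : ∀ p ∈ P0, p.Prime := by
    intro p hp
    rw [hP0, Finset.mem_filter, sb_mem hz0] at hp
    exact hp.1.1
  have hprP : ∀ p ∈ P0 ∪ P1, p.Prime := by
    intro p hp
    rw [hun, sb_mem hz0] at hp
    exact hp.1
  have hbig : BigP z P1 := by
    intro p hp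
    rw [hP1, Finset.mem_filter, sb_mem hz0] at hp
    exact ⟨hp.1.1, hp.2, hp.1.2⟩
  have hex : Wt P0 D0 (SvA_ex P0) := by
    apply SvA_Wt_mono (SvA_Wt_ex P0 fun p hp => (hpr0 p hp).one_lt.le)
    rw [hD0]
    apply SvA_prod_le_of_subset
    · intro p hp
      rw [hP0, Finset.mem_filter, sb_mem hz0, not_lt] at hp
      exact (sb_mem (Real.exp_pos _).le p).2 ⟨hp.1.1, hp.2⟩
    · intro p hp
      exact ((sb_mem (Real.exp_pos _).le p).1 hp).1.one_lt.le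
  obtain ⟨c, c', w1, w2, h1, h2, h5, h6, h7⟩ := ch0 k z hz1 P1 hbig
  rw [← hg] at h5 h6 h7
  have hV : VZ z = Vg g P0 * Vg g P1 := by
    rw [← SvA_Vg_union hdis, hun, hg]
    rfl
  have hgb : ∀ p : ℕ, p.Prime → 0 ≤ 1 - g p := by
    intro p hp
    rw [hg]
    simp only
    have : (1 : ℝ) ≤ p := by exact_mod_cast hp.one_lt.le
    rw [sub_nonneg, div_le_one (by linarith)]
    exact this
  have hV0 : 0 ≤ Vg g P0 := Finset.prod_nonneg fun p hp => hgb p (hpr0 p hp)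
  have hV1 : 0 ≤ Vg g P1 := Finset.prod_nonneg fun p hp => hgb p (hbig p hp).1
  obtain ⟨Dl, hDl⟩ : ∃ D : ℝ, D = D0 * z ^ ((4 * k + 20 : ℝ) + 1) := ⟨_, rfl⟩
  have hDl0 : 0 ≤ Dl := by
    rw [hDl]
    positivity
  have wU : Wt (P0 ∪ P1) Dl (SvA_pr P0 P1 (SvA_ex P0) c) := by
    apply SvA_Wt_mono (SvA_Wt_pr hdis hex w1)
    rw [hDl]
    apply mul_le_mul_of_nonneg_left _ hD0n
    exact Real.rpow_le_rpow_of_exponent_le hz1 (by linarith)
  have wL : Wt (P0 ∪ P1) Dl (SvA_pr P0 P1 (SvA_ex P0) c') := by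
    rw [hDl]
    exact SvA_Wt_pr hdis hex w2
  have sU := sb_sum hprP hDl0 wU A B hA hB0
  have sL := sb_sum hprP hDl0 wL A B hA hB0
  rw [← hg, SvA_ev_pr hdis, SvA_ev_ex] at sU sL
  have hrc : rc z A (A + B) = ∑ n ∈ Finset.Ioc ⌊A⌋₊ ⌊A + B⌋₊, Vg (sb_y n) (P0 ∪ P1) := by
    rw [hun]
    exact sb_rc hz0 A (A + B)
  have rU : rc z A (A + B) ≤
      ∑ n ∈ Finset.Ioc ⌊A⌋₊ ⌊A + B⌋₊, ev (SvA_pr P0 P1 (SvA_ex P0) c) (P0 ∪ P1) (sb_y n) := by
    rw [hrc]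
    apply Finset.sum_le_sum
    intro n _
    rw [SvA_ev_pr hdis, SvA_ev_ex, SvA_Vg_union hdis]
    exact mul_le_mul_of_nonneg_left (h1 _ (sb_ZO n)) (Vg_nonneg (sb_ZO n) P0)
  have rL : ∑ n ∈ Finset.Ioc ⌊A⌋₊ ⌊A + B⌋₊, ev (SvA_pr P0 P1 (SvA_ex P0) c') (P0 ∪ P1) (sb_y n) ≤
      rc z A (A + B) := by
    rw [hrc]
    apply Finset.sum_le_sum
    intro n _
    rw [SvA_ev_pr hdis, SvA_ev_ex, SvA_Vg_union hdis]
    exact mul_le_mul_of_nonneg_left (h2 _ (sb_ZO n)) (Vg_nonneg (sb_ZO n) P0)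
  obtain ⟨δ, hδ⟩ : ∃ δ : ℝ, δ = (1 / 2 : ℝ) ^ k := ⟨_, rfl⟩
  have hδ0 : 0 ≤ δ := by
    rw [hδ]
    positivity
  have hδ1 : δ ≤ 1 := by
    rw [hδ]
    exact pow_le_one₀ (by norm_num) (by norm_num)
  have hDle : Dl ≤ (1 / 2) * (δ * (B * VZ z)) := by
    rw [hDl, hδ]
    exact sb_num2 hz1 hzD hB (sb_VZ hz1)
  rw [← hδ] at h6 h7 ⊢
  have mU : B * (Vg g P0 * ev c P1 g) ≤ B * VZ z + 9.6e-7 * (δ * (B * VZ z)) := by
    have e1 : Vg g P0 * ev c P1 g ≤ Vg g P0 * ((1 + 9.6e-7 * δ) * Vg g P1) :=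
      mul_le_mul_of_nonneg_left h6 hV0
    have e2 := mul_le_mul_of_nonneg_left e1 hB0
    refine e2.trans (le_of_eq ?_)
    rw [hV]
    ring
  have mL : B * VZ z - 4.8e-7 * (δ * (B * VZ z)) ≤ B * (Vg g P0 * ev c' P1 g) := by
    have e0 : (1 - 4.8e-7 * δ) * Vg g P1 ≤ ev c' P1 g := by
      refine le_trans (mul_le_mul_of_nonneg_left h5 ?_) h7
      linarith
    have e1 : Vg g P0 * ((1 - 4.8e-7 * δ) * Vg g P1) ≤ Vg g P0 * ev c' P1 g :=
      mul_le_mul_of_nonneg_left e0 hV0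
    have e2 := mul_le_mul_of_nonneg_left e1 hB0
    refine le_trans (le_of_eq ?_) e2
    rw [hV]
    ring
  have hE : 0 ≤ δ * (B * VZ z) := by
    rw [hV]
    positivity
  have hU2 := (abs_le.1 sU).2
  have hL2 := (abs_le.1 sL).1
  rw [one_mul, abs_le]
  constructor
  · linarith
  · linarith

end Pool.Agent.H97.EP.SS
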