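import Pool.Agent.H97.EP.SB
import Pool.Agent.H97.EP.SC

/-!
# Project EP, module `SE` : the decomposition

Constants `C1` (`fl`), `c, C2` (`VZ_bounds`), `C3` (`rough_harm`); `L = log X`, `ℓ = log z`.
`rough_count`: `fl` with `k = 0`: `rc z A (A+B) ≤ (1 + C1) B VZ z ≤ C B/ℓ` for `B ≥ z^60`, `z ≥ z0`.

`main_dec`.  For rough `n` every divisor is rough and `L2 n = ∑_{d m = n} μ(d) log² m`, so
`GG z X (X+Y) = ∑_{d} μ(d) ∑_{m : X < d m ≤ X+Y} log² m`, `d, m` rough.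
(1) `d ≤ D`: `m ∈ (X/d, (X+Y)/d]`, length `Y/d ≥ Y/D ≥ z^{4k+60}`.  Since `X/d < m ≤ 2X/d`,
`|log² m - log²(X/d)| ≤ log 2 (2 log X + log 2) ≤ 2 L` for large `X` (`X ≥ z^{60} ≥ ...`), so
`|∑_m log² m - log²(X/d) (Y/d) VZ z| ≤ 2L rc + L² |rc - (Y/d) VZ z| ≤ (Y/d) VZ z (2L(1+C1) +
C1 (1/2)^k L²)`, and summing over rough `d ≤ D ≤ X` with `rough_harm` (`M = X`) the total error is
`≤ C Y (1/ℓ)(L/ℓ)(L + (1/2)^k L²)`.
(2) `d > D`: then `m < (X+Y)/D ≤ 2X/D`; `m = 1` contributes `0`; for `m ≥ 2` rough, `m > z`.  For each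
such `m` the number of rough `d` with `X < d m ≤ X+Y` is `≤ C (Y/m)/ℓ` by `rough_count`
(`Y/m ≥ Y D/(2X) ≥ z^60`).  So the part is at most
`∑_{z<m≤2X/D, rough} log²(2X/D) C (Y/m)/ℓ ≤ C (Y/ℓ) log²(2X/D) log(2X/D)/ℓ` (`rough_harm` with
`M = 2X/D`; if `2X/D < z` the sum is empty).
-/

set_option autoImplicit false

namespace Pool.Agent.H97.EP.SS

private theorem se_rough_dvd {z : ℝ} {n d : ℕ} (hn : Rough z n) (hd : d ∣ n) : Rough z d :=
  ⟨fun h => hn.1 (Nat.eq_zero_of_zero_dvd (h ▸ hd)), fun p hp hpd => hn.2 p hp (hpd.trans hd)⟩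

private theorem se_rough_mul {z : ℝ} {m d : ℕ} (hd : Rough z d) (hm : Rough z m) :
    Rough z (d * m) :=
  ⟨mul_ne_zero hd.1 hm.1, fun p hp h => (hp.dvd_mul.1 h).elim (hd.2 p hp) (hm.2 p hp)⟩

open scoped Classical in
/-- rough integers in `(X/d, (X+Y)/d]` -/
private noncomputable def seT (z X Y : ℝ) (d : ℕ) : Finset ℕ :=
  (Finset.Ioc ⌊X / d⌋₊ ⌊X / d + Y / d⌋₊).filter (Rough z)

open scoped Classical in
private theorem se_mem {z X Y : ℝ} (hX : 0 ≤ X) (hY : 0 ≤ Y) {d : ℕ} (hd : d ≠ 0) (m : ℕ) :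
    m ∈ seT z X Y d ↔ Rough z m ∧ X < (d : ℝ) * m ∧ (d : ℝ) * m ≤ X + Y := by
  have hd0 : (0 : ℝ) < d := by exact_mod_cast Nat.pos_of_ne_zero hd
  unfold seT
  rw [Finset.mem_filter, Finset.mem_Ioc, Nat.floor_lt (by positivity),
    Nat.le_floor_iff (by positivity), ← add_div, div_lt_iff₀ hd0, le_div_iff₀ hd0, mul_comm (m : ℝ)]
  tauto

private theorem se_card {z X Y : ℝ} (d : ℕ) :
    ((seT z X Y d).card : ℝ) = rc z (X / d) (X / d + Y / d) := by
  unfold seT rc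
  rfl

open scoped Classical in
private theorem se_GG {z X Y : ℝ} (hX : 0 ≤ X) (hY : 0 ≤ Y) :
    GG z X (X + Y) = ∑ d ∈ (Finset.Icc 1 ⌊X + Y⌋₊).filter (Rough z),
      (ArithmeticFunction.moebius d : ℝ) * ∑ m ∈ seT z X Y d, Real.log m ^ 2 := by
  unfold GG L2
  rw [Finset.sum_comm' (t' := (Finset.Icc 1 ⌊X + Y⌋₊).filter (Rough z))
    (s' := fun d => ((Finset.Ioc ⌊X⌋₊ ⌊X + Y⌋₊).filter (Rough z)).filter (fun n => d ∣ n))]
  · refine Finset.sum_congr rfl fun d hd => ?_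
    rw [Finset.mem_filter, Finset.mem_Icc] at hd
    have hd0 : d ≠ 0 := hd.2.1
    have hdr : (d : ℝ) ≠ 0 := by exact_mod_cast hd0
    rw [Finset.mul_sum]
    refine Finset.sum_nbij' (fun n => n / d) (fun m => d * m) ?_ ?_ ?_ ?_ ?_
    · intro n hn
      rw [Finset.mem_filter, Finset.mem_filter, Finset.mem_Ioc, Nat.floor_lt hX,
        Nat.le_floor_iff (by positivity)] at hn
      obtain ⟨⟨⟨h1, h2⟩, h3⟩, h4⟩ := hn
      obtain ⟨m, rfl⟩ := h4
      rw [Nat.mul_div_cancel_left _ (Nat.pos_of_ne_zero hd0), se_mem hX hY hd0]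
      push_cast at h1 h2
      exact ⟨se_rough_dvd h3 (Dvd.intro_left _ rfl), h1, h2⟩
    · intro m hm
      rw [se_mem hX hY hd0] at hm
      rw [Finset.mem_filter, Finset.mem_filter, Finset.mem_Ioc, Nat.floor_lt hX,
        Nat.le_floor_iff (by positivity)]
      push_cast
      exact ⟨⟨⟨hm.2.1, hm.2.2⟩, se_rough_mul hd.2 hm.1⟩, Dvd.intro _ rfl⟩
    · intro n hn
      exact Nat.mul_div_cancel' (Finset.mem_filter.1 hn).2
    · intro m _
      exact Nat.mul_div_cancel_left _ (Nat.pos_of_ne_zero hd0)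
    · intro n hn
      congr 3
      rw [Nat.cast_div (Finset.mem_filter.1 hn).2 hdr]
  · intro n d
    rw [Finset.mem_filter, Finset.mem_filter, Finset.mem_filter, Finset.mem_filter,
      Finset.mem_Ioc, Finset.mem_Icc, Nat.mem_divisors]
    constructor
    · rintro ⟨⟨h1, h2⟩, h3, h4⟩
      exact ⟨⟨⟨h1, h2⟩, h3⟩, ⟨Nat.pos_of_dvd_of_pos h3 (Nat.pos_of_ne_zero h4),
        (Nat.le_of_dvd (Nat.pos_of_ne_zero h4) h3).trans h1.2⟩, se_rough_dvd h2 h3⟩
    · rintro ⟨⟨⟨h1, h2⟩, h3⟩, h4⟩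
      exact ⟨⟨h1, h2⟩, h3, h2.1⟩

/-- one divisor -/
private theorem se_one {z X Y L C1 e : ℝ} (hX : 1 ≤ X) (hY : 0 ≤ Y) (hYX : Y ≤ X)
    (hL : L = Real.log X) (hL1 : 1 ≤ L) (he : 0 ≤ e) (he1 : e ≤ 1) (hC1 : 0 ≤ C1)
    {d : ℕ} (hd : d ≠ 0) (hdX : (d : ℝ) ≤ X) (hV : 0 ≤ VZ z)
    (hfl : |rc z (X / d) (X / d + Y / d) - Y / d * VZ z| ≤ C1 * e * (Y / d * VZ z)) :
    |∑ m ∈ seT z X Y d, Real.log m ^ 2 - Y / d * VZ z * Real.log (X / d) ^ 2| ≤
      (2 * L * (1 + C1) + C1 * e * L ^ 2) * VZ z * Y * (1 / d) := by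
  have hX0 : 0 ≤ X := by linarith
  have hd0 : (0 : ℝ) < d := by exact_mod_cast Nat.pos_of_ne_zero hd
  have hd1 : (1 : ℝ) ≤ d := by exact_mod_cast Nat.pos_of_ne_zero hd
  have hXd : 1 ≤ X / d := (one_le_div hd0).2 hdX
  set l : ℝ := Real.log (X / d) with hl
  have hl0 : 0 ≤ l := Real.log_nonneg hXd
  have hlL : l ≤ L := by
    rw [hl, hL]
    exact Real.log_le_log (by linarith) (div_le_self hX0 hd1)
  set R : ℝ := rc z (X / d) (X / d + Y / d) with hR
  have hRc : ((seT z X Y d).card : ℝ) = R := se_card d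
  have hR0 : 0 ≤ R := by rw [← hRc]; positivity
  have hlog2 : Real.log 2 ≤ 7 / 10 := by have := Real.log_two_lt_d9; linarith
  have hlog20 : 0 ≤ Real.log 2 := Real.log_nonneg (by norm_num)
  have h1 : |∑ m ∈ seT z X Y d, Real.log m ^ 2 - R * l ^ 2| ≤ R * (2 * L) := by
    have e1 : ∑ m ∈ seT z X Y d, Real.log m ^ 2 - R * l ^ 2 =
        ∑ m ∈ seT z X Y d, (Real.log m ^ 2 - l ^ 2) := by
      rw [Finset.sum_sub_distrib, Finset.sum_const, nsmul_eq_mul, hRc]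
    have e2 : R * (2 * L) = ∑ m ∈ seT z X Y d, (2 * L) := by
      rw [Finset.sum_const, nsmul_eq_mul, hRc]
    rw [e1, e2]
    refine (Finset.abs_sum_le_sum_abs _ _).trans (Finset.sum_le_sum fun m hm => ?_)
    rw [se_mem hX0 hY hd] at hm
    obtain ⟨hm1, hm2, hm3⟩ := hm
    have hm4 : X / d ≤ m := by
      rw [div_le_iff₀ hd0, mul_comm]
      exact hm2.le
    have hm5 : (m : ℝ) ≤ 2 * (X / d) := by
      rw [← mul_div_assoc, le_div_iff₀ hd0, mul_comm]
      linarith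
    have hm0 : (0 : ℝ) < m := by linarith
    have hm6 : l ≤ Real.log m := Real.log_le_log (by linarith) hm4
    have hm7 : Real.log m ≤ Real.log 2 + l := by
      rw [hl, ← Real.log_mul (by norm_num) (by positivity)]
      exact Real.log_le_log hm0 hm5
    rw [abs_of_nonneg (by nlinarith)]
    nlinarith
  have hR1 : |R - Y / d * VZ z| * l ^ 2 ≤ C1 * e * (Y / d * VZ z) * L ^ 2 :=
    mul_le_mul hfl (pow_le_pow_left₀ hl0 hlL 2) (by positivity) ((abs_nonneg _).trans hfl)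
  have hYV : 0 ≤ Y / d * VZ z := by positivity
  have hR2 : R ≤ (1 + C1) * (Y / d * VZ z) := by
    have h2 := (abs_le.1 hfl).2
    have h3 : C1 * e * (Y / d * VZ z) ≤ C1 * (Y / d * VZ z) := by
      refine mul_le_mul_of_nonneg_right ?_ hYV
      nlinarith
    linarith
  have h4 : ∑ m ∈ seT z X Y d, Real.log m ^ 2 - Y / d * VZ z * l ^ 2 =
      (∑ m ∈ seT z X Y d, Real.log m ^ 2 - R * l ^ 2) + (R - Y / d * VZ z) * l ^ 2 := by ring
  rw [h4]
  refine (abs_add_le _ _).trans ?_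
  rw [abs_mul, abs_of_nonneg (sq_nonneg l)]
  have h5 : R * (2 * L) ≤ (1 + C1) * (Y / d * VZ z) * (2 * L) :=
    mul_le_mul_of_nonneg_right hR2 (by linarith)
  have h6 : (2 * L * (1 + C1) + C1 * e * L ^ 2) * VZ z * Y * (1 / d) =
      (1 + C1) * (Y / d * VZ z) * (2 * L) + C1 * e * (Y / d * VZ z) * L ^ 2 := by
    field_simp
  rw [h6]
  linarith

theorem rough_count : ∃ C z0 : ℝ, 0 < C ∧ 2 ≤ z0 ∧ ∀ z : ℝ, z0 ≤ z → ∀ A B : ℝ, 0 ≤ A →
    z ^ (60 : ℝ) ≤ B → rc z A (A + B) ≤ C * (B / Real.log z) := by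
  obtain ⟨C1, hC1, hfl⟩ := fl
  obtain ⟨c, C2, hc, hC2, hV⟩ := VZ_bounds
  obtain ⟨z0, hz0, h⟩ := hfl 0
  refine ⟨(1 + C1) * C2, z0, by positivity, hz0, fun z hz A B hA hB => ?_⟩
  have hz2 : 2 ≤ z := hz0.trans hz
  have hlog : 0 < Real.log z := Real.log_pos (by linarith)
  have hB0 : 0 ≤ B := le_trans (Real.rpow_nonneg (by linarith) _) hB
  have h1 := h z hz A B hA (by
    rw [Nat.cast_zero, mul_zero, zero_add]
    exact hB)
  rw [pow_zero, mul_one] at h1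
  have h2 := (abs_le.1 h1).2
  have h3 := (hV z hz2).2
  have h4 : B * VZ z ≤ B * (C2 / Real.log z) := mul_le_mul_of_nonneg_left h3 hB0
  calc rc z A (A + B) ≤ (1 + C1) * (B * VZ z) := by linarith
    _ ≤ (1 + C1) * (B * (C2 / Real.log z)) := mul_le_mul_of_nonneg_left h4 (by linarith)
    _ = (1 + C1) * C2 * (B / Real.log z) := by ring

theorem main_dec : ∃ C : ℝ, 0 < C ∧ ∀ k : ℕ, ∃ z0 : ℝ, 2 ≤ z0 ∧ ∀ z X Y D : ℝ, z0 ≤ z → 1 ≤ D →
    D * z ^ (4 * k + 60 : ℝ) ≤ Y → Y ≤ X → z ^ (60 : ℝ) ≤ Y * D / (2 * X) →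
    |GG z X (X + Y) - Y * Mn z X D| ≤
      C * Y * ((Real.log X) ^ 2 / (Real.log z) ^ 2 * (1 + Real.log X * (1 / 2 : ℝ) ^ k) +
        (Real.log (2 * X / D)) ^ 3 / (Real.log z) ^ 2) := by
  classical
  obtain ⟨C1, hC1, hfl⟩ := fl
  obtain ⟨c, C2, hc, hC2, hV⟩ := VZ_bounds
  obtain ⟨C3, hC3, hH⟩ := rough_harm
  obtain ⟨C4, z1, hC4, hz1, hRC⟩ := rough_count
  refine ⟨2 * (1 + C1) * C2 * C3 + C4 * C3, by positivity, fun k => ?_⟩
  obtain ⟨z0, hz0, hflk⟩ := hfl k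
  refine ⟨max z0 z1, le_max_of_le_left hz0, fun z X Y D hz hD hDY hYX hzD => ?_⟩
  have hzz0 : z0 ≤ z := (le_max_left _ _).trans hz
  have hzz1 : z1 ≤ z := (le_max_right _ _).trans hz
  have hz2 : 2 ≤ z := hz0.trans hzz0
  have hz0' : 0 < z := by linarith
  set P : ℝ := z ^ (4 * k + 60 : ℝ) with hP
  have hzP : z ≤ P := by
    have : z ^ (1 : ℝ) ≤ P := Real.rpow_le_rpow_of_exponent_le (by linarith) (by
      have : (0 : ℝ) ≤ k := Nat.cast_nonneg k
      linarith)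
    rwa [Real.rpow_one] at this
  have hP60 : z ^ (60 : ℝ) ≤ P := Real.rpow_le_rpow_of_exponent_le (by linarith) (by
      have : (0 : ℝ) ≤ k := Nat.cast_nonneg k
      linarith)
  have hP2 : 2 ≤ P := hz2.trans hzP
  have hPDP : P ≤ D * P := by nlinarith
  have hPY : P ≤ Y := hPDP.trans hDY
  have hY0 : 0 ≤ Y := by linarith
  have hX2 : 2 ≤ X := by linarith
  have hX0 : 0 ≤ X := by linarith
  have hzX : z ≤ X := hzP.trans (hPY.trans hYX)
  have hDX : D ≤ X := by nlinarith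
  have hV0 : 0 ≤ VZ z := le_trans (div_nonneg hc.le (Real.log_nonneg (by linarith))) (hV z hz2).1
  set l : ℝ := Real.log z with hl
  have hl0 : 0 < l := Real.log_pos (by linarith)
  set L : ℝ := Real.log X with hL
  have hL1 : 1 ≤ L := by
    have h1 : z ^ (60 : ℝ) ≤ X := hP60.trans (hPY.trans hYX)
    have h2 : Real.log (z ^ (60 : ℝ)) ≤ L := Real.log_le_log (by positivity) h1
    rw [Real.log_rpow hz0'] at h2
    have h3 : Real.log 2 ≤ Real.log z := Real.log_le_log (by norm_num) hz2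
    have := Real.log_two_gt_d9
    linarith
  set e : ℝ := (1 / 2 : ℝ) ^ k with he
  have he0 : 0 ≤ e := by positivity
  have he1 : e ≤ 1 := pow_le_one₀ (by norm_num) (by norm_num)
  set M : ℝ := 2 * X / D with hM
  have hD0 : 0 < D := by linarith
  have hMz : z ≤ M := by
    rw [hM, le_div_iff₀ hD0]
    nlinarith
  have hM1 : 1 ≤ M := by linarith
  -- split
  have hDb : ⌊D⌋₊ ≤ ⌊X + Y⌋₊ := Nat.floor_le_floor (by linarith)
  have hsplit : GG z X (X + Y) =
      ∑ d ∈ (Finset.Icc 1 ⌊D⌋₊).filter (Rough z),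
        (ArithmeticFunction.moebius d : ℝ) * ∑ m ∈ seT z X Y d, Real.log m ^ 2 +
      ∑ d ∈ (Finset.Ioc ⌊D⌋₊ ⌊X + Y⌋₊).filter (Rough z),
        (ArithmeticFunction.moebius d : ℝ) * ∑ m ∈ seT z X Y d, Real.log m ^ 2 := by
    rw [se_GG hX0 hY0, ← Finset.sum_union]
    · congr 1
      · rw [← Finset.filter_union]
        congr 1
        ext d
        rw [Finset.mem_union, Finset.mem_Icc, Finset.mem_Icc, Finset.mem_Ioc]
        omega
    · rw [Finset.disjoint_left]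
      intro d h1 h2
      rw [Finset.mem_filter, Finset.mem_Icc] at h1
      rw [Finset.mem_filter, Finset.mem_Ioc] at h2
      omega
  have hmu : ∀ d : ℕ, |(ArithmeticFunction.moebius d : ℝ)| ≤ 1 := by
    intro d
    exact_mod_cast ArithmeticFunction.abs_moebius_le_one
  -- first part
  have hpart1 : |∑ d ∈ (Finset.Icc 1 ⌊D⌋₊).filter (Rough z),
        (ArithmeticFunction.moebius d : ℝ) * ∑ m ∈ seT z X Y d, Real.log m ^ 2 - Y * Mn z X D| ≤
      2 * (1 + C1) * C2 * C3 * Y * (L ^ 2 / l ^ 2 * (1 + L * e)) := by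
    have e1 : Y * Mn z X D = ∑ d ∈ (Finset.Icc 1 ⌊D⌋₊).filter (Rough z),
        (ArithmeticFunction.moebius d : ℝ) * (Y / d * VZ z * Real.log (X / d) ^ 2) := by
      unfold Mn
      rw [← mul_assoc, Finset.mul_sum]
      refine Finset.sum_congr (by congr) fun d _ => ?_
      ring
    rw [e1, ← Finset.sum_sub_distrib]
    refine (Finset.abs_sum_le_sum_abs _ _).trans ?_
    have e2 : ∀ d ∈ (Finset.Icc 1 ⌊D⌋₊).filter (Rough z),
        |(ArithmeticFunction.moebius d : ℝ) * ∑ m ∈ seT z X Y d, Real.log m ^ 2 -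
          (ArithmeticFunction.moebius d : ℝ) * (Y / d * VZ z * Real.log (X / d) ^ 2)| ≤
        (2 * L * (1 + C1) + C1 * e * L ^ 2) * VZ z * Y * (1 / d) := by
      intro d hd
      rw [Finset.mem_filter, Finset.mem_Icc, Nat.le_floor_iff (by linarith)] at hd
      have hd0 : (0 : ℝ) < d := by exact_mod_cast hd.1.1
      rw [← mul_sub, abs_mul]
      have h1 := se_one (z := z) (by linarith : (1 : ℝ) ≤ X) hY0 hYX hL hL1 he0 he1 hC1.le
        (d := d) hd.2.1 (hd.1.2.trans hDX) hV0 (hflk z hzz0 (X / d) (Y / d) (by positivity) (by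
          rw [le_div_iff₀ hd0, mul_comm]
          exact (mul_le_mul_of_nonneg_right hd.1.2 (by linarith)).trans hDY))
      calc _ ≤ 1 * _ := mul_le_mul_of_nonneg_right (hmu d) (abs_nonneg _)
        _ = _ := one_mul _
        _ ≤ _ := h1
    refine (Finset.sum_le_sum e2).trans ?_
    rw [← Finset.mul_sum]
    have h3 : ∑ d ∈ (Finset.Icc 1 ⌊D⌋₊).filter (Rough z), 1 / (d : ℝ) ≤ C3 * (L / l) := by
      refine le_trans ?_ (hH z X hz2 hzX)
      refine Finset.sum_le_sum_of_subset_of_nonneg ?_ fun i _ _ => by positivity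
      intro d hd
      rw [Finset.mem_filter, Finset.mem_Icc] at hd ⊢
      exact ⟨⟨hd.1.1, hd.1.2.trans (Nat.floor_le_floor hDX)⟩, hd.2⟩
    have h4 : VZ z ≤ C2 / l := (hV z hz2).2
    have h5 : (2 * L * (1 + C1) + C1 * e * L ^ 2) ≤ 2 * (1 + C1) * (L * (1 + L * e)) := by
      have : 0 ≤ e * L ^ 2 := by positivity
      nlinarith
    calc (2 * L * (1 + C1) + C1 * e * L ^ 2) * VZ z * Y *
          ∑ d ∈ (Finset.Icc 1 ⌊D⌋₊).filter (Rough z), 1 / (d : ℝ)
        ≤ (2 * (1 + C1) * (L * (1 + L * e))) * (C2 / l) * Y * (C3 * (L / l)) := by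
          refine mul_le_mul ?_ h3 (Finset.sum_nonneg fun i _ => by positivity) (by positivity)
          refine mul_le_mul_of_nonneg_right ?_ hY0
          exact mul_le_mul h5 h4 hV0 (by positivity)
      _ = 2 * (1 + C1) * C2 * C3 * Y * (L ^ 2 / l ^ 2 * (1 + L * e)) := by
          field_simp
  -- second part
  have hpart2 : |∑ d ∈ (Finset.Ioc ⌊D⌋₊ ⌊X + Y⌋₊).filter (Rough z),
        (ArithmeticFunction.moebius d : ℝ) * ∑ m ∈ seT z X Y d, Real.log m ^ 2| ≤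
      C4 * C3 * Y * (Real.log M ^ 3 / l ^ 2) := by
    have e1 : |∑ d ∈ (Finset.Ioc ⌊D⌋₊ ⌊X + Y⌋₊).filter (Rough z),
        (ArithmeticFunction.moebius d : ℝ) * ∑ m ∈ seT z X Y d, Real.log m ^ 2| ≤
        ∑ d ∈ (Finset.Ioc ⌊D⌋₊ ⌊X + Y⌋₊).filter (Rough z), ∑ m ∈ seT z X Y d, Real.log m ^ 2 := by
      refine (Finset.abs_sum_le_sum_abs _ _).trans (Finset.sum_le_sum fun d _ => ?_)
      have hn : 0 ≤ ∑ m ∈ seT z X Y d, Real.log m ^ 2 := Finset.sum_nonneg fun m _ => sq_nonneg _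
      rw [abs_mul, abs_of_nonneg hn]
      calc _ ≤ 1 * _ := mul_le_mul_of_nonneg_right (hmu d) hn
        _ = _ := one_mul _
    refine e1.trans ?_
    rw [Finset.sum_comm' (t' := (Finset.Icc 1 ⌊M⌋₊).filter (Rough z))
      (s' := fun m => (seT z X Y m).filter (fun d => ⌊D⌋₊ < d))]
    · have e2 : ∀ m ∈ (Finset.Icc 1 ⌊M⌋₊).filter (Rough z),
          ∑ d ∈ (seT z X Y m).filter (fun d => ⌊D⌋₊ < d), Real.log m ^ 2 ≤
          C4 * Y * Real.log M ^ 2 / l * (1 / m) := by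
        intro m hm
        rw [Finset.mem_filter, Finset.mem_Icc, Nat.le_floor_iff (by linarith)] at hm
        have hm1 : (1 : ℝ) ≤ m := by exact_mod_cast hm.1.1
        have hm0 : (0 : ℝ) < m := by linarith
        rw [Finset.sum_const, nsmul_eq_mul]
        have h1 : (((seT z X Y m).filter (fun d => ⌊D⌋₊ < d)).card : ℝ) ≤
            C4 * (Y / m / l) := by
          refine le_trans ?_ (hRC z hzz1 (X / m) (Y / m) (by positivity) ?_)
          · rw [← se_card]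
            exact_mod_cast Finset.card_filter_le _ _
          · refine hzD.trans ?_
            have h2 : Y / M ≤ Y / m := div_le_div_of_nonneg_left hY0 hm0 hm.1.2
            have h3 : Y / M = Y * D / (2 * X) := by
              rw [hM]
              field_simp
            rw [← h3]
            exact h2
        have h2 : Real.log m ^ 2 ≤ Real.log M ^ 2 :=
          pow_le_pow_left₀ (Real.log_nonneg hm1) (Real.log_le_log hm0 hm.1.2) 2
        calc _ ≤ C4 * (Y / m / l) * Real.log M ^ 2 :=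
              mul_le_mul h1 h2 (sq_nonneg _) (by positivity)
          _ = _ := by field_simp
      refine (Finset.sum_le_sum e2).trans ?_
      rw [← Finset.mul_sum]
      have h3 := hH z M hz2 hMz
      have hlM : 0 ≤ Real.log M := Real.log_nonneg hM1
      calc _ ≤ C4 * Y * Real.log M ^ 2 / l * (C3 * (Real.log M / l)) :=
            mul_le_mul_of_nonneg_left (le_trans (le_of_eq (Finset.sum_congr (by congr)
              fun _ _ => rfl)) h3) (by positivity)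
        _ = _ := by field_simp
    · intro d m
      constructor
      · rintro ⟨h1, h2⟩
        rw [Finset.mem_filter, Finset.mem_Ioc] at h1
        have hd0 : d ≠ 0 := h1.2.1
        rw [se_mem hX0 hY0 hd0] at h2
        have hm0 : m ≠ 0 := h2.1.1
        have hm0' : (0 : ℝ) < m := by exact_mod_cast Nat.pos_of_ne_zero hm0
        rw [Finset.mem_filter, se_mem hX0 hY0 hm0, Finset.mem_filter, Finset.mem_Icc,
          Nat.le_floor_iff (by linarith)]
        refine ⟨⟨⟨h1.2, ?_, ?_⟩, h1.1.1⟩, ⟨Nat.pos_of_ne_zero hm0, ?_⟩, h2.1⟩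
        · rw [mul_comm]
          exact h2.2.1
        · rw [mul_comm]
          exact h2.2.2
        · rw [hM, le_div_iff₀ hD0]
          have hdD : D < d := (Nat.floor_lt (by linarith)).1 h1.1.1
          have h4 : (m : ℝ) * D ≤ m * d := mul_le_mul_of_nonneg_left hdD.le hm0'.le
          have h5 := h2.2.2
          rw [mul_comm] at h5
          linarith
      · rintro ⟨h1, h2⟩
        rw [Finset.mem_filter, Finset.mem_Icc] at h2
        have hm0 : m ≠ 0 := h2.2.1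
        rw [Finset.mem_filter, se_mem hX0 hY0 hm0] at h1
        obtain ⟨⟨h3, h4, h5⟩, h6⟩ := h1
        have hd0 : d ≠ 0 := h3.1
        rw [Finset.mem_filter, Finset.mem_Ioc, se_mem hX0 hY0 hd0, Nat.le_floor_iff (by linarith)]
        have hm1 : (1 : ℝ) ≤ m := by exact_mod_cast h2.1.1
        have hd1 : (0 : ℝ) ≤ d := Nat.cast_nonneg d
        refine ⟨⟨⟨h6, ?_⟩, h3⟩, h2.2, ?_, ?_⟩
        · nlinarith
        · rw [mul_comm]
          exact h4
        · rw [mul_comm]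
          exact h5
  have hfin : GG z X (X + Y) - Y * Mn z X D =
      (∑ d ∈ (Finset.Icc 1 ⌊D⌋₊).filter (Rough z),
        (ArithmeticFunction.moebius d : ℝ) * ∑ m ∈ seT z X Y d, Real.log m ^ 2 - Y * Mn z X D) +
      ∑ d ∈ (Finset.Ioc ⌊D⌋₊ ⌊X + Y⌋₊).filter (Rough z),
        (ArithmeticFunction.moebius d : ℝ) * ∑ m ∈ seT z X Y d, Real.log m ^ 2 := by
    rw [hsplit]
    ring
  rw [hfin]
  refine (abs_add_le _ _).trans ?_
  refine (add_le_add hpart1 hpart2).trans ?_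
  have hlM : 0 ≤ Real.log M := Real.log_nonneg hM1
  have a1 : 0 ≤ L ^ 2 / l ^ 2 * (1 + L * e) := by positivity
  have a2 : 0 ≤ Real.log M ^ 3 / l ^ 2 := by positivity
  have b1 : 0 ≤ C4 * C3 * Y * (L ^ 2 / l ^ 2 * (1 + L * e)) := by positivity
  have b2 : 0 ≤ 2 * (1 + C1) * C2 * C3 * Y * (Real.log M ^ 3 / l ^ 2) := by positivity
  have b3 : (2 * (1 + C1) * C2 * C3 + C4 * C3) * Y *
      (L ^ 2 / l ^ 2 * (1 + L * e) + Real.log M ^ 3 / l ^ 2) =
      2 * (1 + C1) * C2 * C3 * Y * (L ^ 2 / l ^ 2 * (1 + L * e)) +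
      C4 * C3 * Y * (Real.log M ^ 3 / l ^ 2) +
      (C4 * C3 * Y * (L ^ 2 / l ^ 2 * (1 + L * e)) +
      2 * (1 + C1) * C2 * C3 * Y * (Real.log M ^ 3 / l ^ 2)) := by ring
  rw [b3]
  exact le_add_of_nonneg_right (add_nonneg b1 b2)

end Pool.Agent.H97.EP.SS
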